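import Mathlib
import Pool.Agent.H28.LLL
import Pool.Agent.H28.VAL

/-!
Havet-Yu for all `p`: definitions. Everywhere `open Classical`, no `DecidableEq` arguments.
-/

set_option autoImplicit false
set_option linter.unusedSectionVars false

namespace Pool.Agent.H67.HY

open Finset
open Classical

noncomputable section

/-- A 1-factorised graph: pairwise disjoint perfect matchings, given by involutions. -/
structure IsFac {V J : Type} (M : J → V → V) : Prop where
  inv : ∀ j v, M j (M j v) = v
  free : ∀ j v, M j v ≠ v
  dis : ∀ i j v, i ≠ j → M i v ≠ M j v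

/-- A properly edge-coloured graph: pairwise disjoint matchings, given by involutions
(a fixed point is an unmatched vertex). -/
structure IsFam {V C : Type} (N : C → V → V) : Prop where
  inv : ∀ c v, N c (N c v) = v
  dis : ∀ c d v, c ≠ d → N c v ≠ v → N c v ≠ N d v

/-! ## Kempe lemma -/

/-- Colours: `k` bits and a number below `g`. -/
abbrev Col (k g : ℕ) := (Fin k → Bool) × Fin g

/-- Flip bit `i`. -/
def flip {k g : ℕ} (i : Fin k) (c : Col k g) : Col k g := (Function.update c.1 i (!c.1 i), c.2)

/-- `x` and `y` agree on the first `i` bits. -/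
def Agree {k : ℕ} (i : ℕ) (x y : Fin k → Bool) : Prop := ∀ j : Fin k, j.1 < i → x j = y j

/-- The potential of stage `i` at `w`. -/
def pot {V : Type} {k g : ℕ} (N : Col k g → V → V)
    (T : V → Finset (Fin k → Bool)) (i : ℕ) (w : V) : ℝ :=
  (∑ c : Col k g, if N c w ≠ w then (((T (N c w)).filter (fun y => Agree i c.1 y)).card : ℝ) else 0)
    * (1 / 2) ^ (k - i)

/-! ## Balls -/

/-- The ball of radius `k` around `v`. -/
def ball {V J : Type} [Fintype J] (M : J → V → V) (v : V) : ℕ → Finset V
  | 0 => {v}
  | k + 1 => ball M v k ∪ (univ : Finset J).biUnion (fun j => (ball M v k).image (M j))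

/-! ## The semi-random colouring -/

/-- The first element of the list `σ 0, σ 1, ...` in `S`. -/
def first {N : ℕ} (σ : Equiv.Perm (Fin N)) (S : Finset (Fin N)) : Option (Fin N) :=
  if h : (S.image σ.symm).Nonempty then some (σ ((S.image σ.symm).min' h)) else none

section
variable {V J : Type} [Fintype J] {N : ℕ}

/-- The colours not used by the neighbours. -/
def avail (M : J → V → V) (φ : V → Option (Fin N)) (v : V) : Finset (Fin N) :=
  univ.filter (fun c => ∀ j, φ (M j v) ≠ some c)

/-- The picked colour. -/
def pk (M : J → V → V) (σ : V → Equiv.Perm (Fin N)) (φ : V → Option (Fin N)) (v : V) :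
    Option (Fin N) := first (σ v) (avail M φ v)

/-- uncoloured and activated -/
def actv (a : V → Prop) (φ : V → Option (Fin N)) (v : V) : Prop := φ v = none ∧ a v

/-- conflict at `v` -/
def clash (M : J → V → V) (a : V → Prop) (σ : V → Equiv.Perm (Fin N)) (φ : V → Option (Fin N))
    (v : V) : Prop := ∃ j, actv a φ (M j v) ∧ pk M σ φ (M j v) = pk M σ φ v

/-- One round. -/
def step (M : J → V → V) (a : V → Prop) (σ : V → Equiv.Perm (Fin N))
    (φ : V → Option (Fin N)) (v : V) : Option (Fin N) :=
  if actv a φ v ∧ ¬ clash M a σ φ v then pk M σ φ v else φ v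

/-- The randomness at one vertex. -/
abbrev Coin (T N : ℕ) := Fin T → Fin 1024 × Equiv.Perm (Fin N)

/-- activated in one of the rounds `0, ..., i` -/
def act {T : ℕ} (ω : V → Coin T N) (i : ℕ) (v : V) : Prop := ∃ j : Fin T, j.1 ≤ i ∧ (ω v j).1 = 0

/-- The list used in round `i`. -/
def sig {T : ℕ} (ω : V → Coin T N) (i : ℕ) (v : V) : Equiv.Perm (Fin N) :=
  if h : i < T then (ω v ⟨i, h⟩).2 else 1

/-- The colouring after `i` rounds. -/
def run {T : ℕ} (M : J → V → V) (ω : V → Coin T N) : ℕ → V → Option (Fin N)
  | 0 => fun _ => none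
  | i + 1 => step M (act ω i) (sig ω i) (run M ω i)

/-- Change the lists of round `i`. -/
def upd {T : ℕ} (i : Fin T) (ω : V → Coin T N) (σ : V → Equiv.Perm (Fin N)) : V → Coin T N :=
  fun v => Function.update (ω v) i ((ω v i).1, σ v)

/-- Apply a permutation of the colours. -/
def app (g : Equiv.Perm (Fin N)) (φ : V → Option (Fin N)) : V → Option (Fin N) :=
  fun v => (φ v).map g

/-- proper partial colouring -/
def PropCol (M : J → V → V) (φ : V → Option (Fin N)) : Prop :=
  ∀ v j, φ v ≠ none → φ v ≠ φ (M j v)

end

end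

end Pool.Agent.H67.HY
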