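/-
ROW GC. General Chernoff bounds from bounds for intersections.
PROOF (upper). For `x ∈ (0,1]` let `λ = x/m`. For `0 ≤ w ≤ m`: `exp (λ w) - 1 ≤ (w/m)(exp x - 1) ≤ (w/m)(x + x^2)` (convexity of
exp on `[0, x]`: `exp (θ x) ≤ 1 + θ (exp x - 1)` for `θ = w/m ∈ [0,1]`; `exp x ≤ 1 + x + x^2` for `x ≤ 1`:
`Real.abs_exp_sub_one_sub_id_le`). With `1_s = 1` if `B s ω`:
 `exp (λ Σ 1_s w_s) = Π_{s ∈ S} (1 + 1_s (exp(λ w_s) - 1)) = Σ_{J ⊆ S} Π_{s∈J} 1_s (exp(λ w_s)-1)` (`Finset.prod_one_add` /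
`Finset.prod_add_one`, powerset), sum over `ω` and use `hB` (all coefficients `≥ 0`): `Σ_ω exp(λ X) ≤ |Ω| Π (1 + y_s (exp(λ w_s) - 1))
 ≤ |Ω| Π (1 + y_s (w_s/m)(x+x^2)) ≤ |Ω| exp ((x + x^2) μ/m)` (`Real.add_one_le_exp`, `Real.exp_sum`).
Markov: the number of `ω` with `X ≥ μ + t` is `≤ |Ω| exp ((x^2 μ - x t)/m)`. If `t ≤ 2μ` take `x = t/(2μ)` (if `t = 0` the bound is trivial): exponent
`-t^2/(4 m μ)`; otherwise `x = 1`: `(μ - t)/m ≤ -t/(2m)`. In both cases `≤ -min(..)`.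
(three) The same with `m = 1`, `w = 1`, `x = 1`: `exp 1 - 1 ≤ 2`, so `Σ_ω exp X ≤ |Ω| exp (2 μ)` and the number of `ω` with `X ≥ 3 μ + 2 lam` is
`≤ |Ω| exp (2μ - 3μ - 2 lam) ≤ |Ω| exp(-lam)`. (`X ω = #{s ∈ S : B s ω}`.)
(lower). `exp(-λ 1_s w_s) = exp(-λ w_s) + 1_{not B_s} (1 - exp(-λ w_s))`; both coefficients are `≥ 0`. Expand
`Π_s (a_s + b_s 1_{not B_s}) = Σ_{J ⊆ S} (Π_{s∈J} b_s 1_{not}) (Π_{s ∈ S \ J} a_s)` (`Finset.prod_add`), sum over `ω` with `hB`: `Σ_ω exp(-λ X) ≤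
|Ω| Π (a_s + b_s (1 - y_s)) = |Ω| Π (1 - y_s (1 - exp(-λ w_s)))`, and `1 - exp(-λ w_s) ≥ (w_s/m)(1 - exp(-x)) ≥ (w_s/m)(x - x^2)` (concavity;
`exp(-x) ≤ 1 - x + x^2`). So `≤ |Ω| exp (-(x - x^2) Σ y_s w_s/m) ≤ |Ω| exp(-(x-x^2) μ/m)` for `0 < x ≤ 1`. Markov for `X ≤ μ - t`: exponent
`(x (μ - t) - (x - x^2) μ)/m = (x^2 μ - x t)/m`, `x = t/(2μ) ≤ 1/2`.
-/
import Pool.Agent.H67.HY.Defs

set_option autoImplicit false

namespace Pool.Agent.H67.HY

open Finset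
open Classical

/-- The expectation of a product of affine functions of indicators. -/
theorem GC_moment {Ω σ : Type} [Fintype Ω] (S : Finset σ) (P : σ → Ω → Prop)
    (a b z : σ → ℝ) (ha : ∀ s ∈ S, 0 ≤ a s) (hb : ∀ s ∈ S, 0 ≤ b s)
    (hP : ∀ J ⊆ S, ((univ.filter (fun ω => ∀ s ∈ J, P s ω)).card : ℝ) ≤
      (∏ s ∈ J, z s) * Fintype.card Ω) :
    ∑ ω, ∏ s ∈ S, ((if P s ω then b s else 0) + a s) ≤
      (∏ s ∈ S, (b s * z s + a s)) * Fintype.card Ω := by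
  have h1 : ∀ ω : Ω, ∏ s ∈ S, ((if P s ω then b s else 0) + a s) =
      ∑ J ∈ S.powerset, (if ∀ s ∈ J, P s ω then ∏ s ∈ J, b s else 0) * ∏ s ∈ S \ J, a s := by
    intro ω
    rw [Finset.prod_add]
    refine Finset.sum_congr rfl fun J _ => ?_
    rw [Finset.prod_ite_zero]
  simp_rw [h1]
  rw [Finset.sum_comm, Finset.prod_add, Finset.sum_mul]
  refine Finset.sum_le_sum fun J hJ => ?_
  have hJS : J ⊆ S := Finset.mem_powerset.1 hJ
  rw [← Finset.sum_mul, ← Finset.sum_filter, Finset.sum_const, nsmul_eq_mul,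
    Finset.prod_mul_distrib]
  have h2 := hP J hJS
  have h3 : 0 ≤ ∏ s ∈ J, b s := Finset.prod_nonneg fun s hs => hb s (hJS hs)
  have h4 : 0 ≤ ∏ s ∈ S \ J, a s :=
    Finset.prod_nonneg fun s hs => ha s (Finset.mem_sdiff.1 hs).1
  calc ((univ.filter (fun ω => ∀ s ∈ J, P s ω)).card : ℝ) * (∏ s ∈ J, b s) * ∏ s ∈ S \ J, a s
      ≤ ((∏ s ∈ J, z s) * Fintype.card Ω) * (∏ s ∈ J, b s) * ∏ s ∈ S \ J, a s := by gcongr
    _ = (∏ s ∈ J, b s) * (∏ s ∈ J, z s) * (∏ s ∈ S \ J, a s) * Fintype.card Ω := by ring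

/-- Markov. -/
theorem GC_markov {Ω : Type} [Fintype Ω] (p : Ω → Prop) (F : Ω → ℝ) (c : ℝ)
    (hF : ∀ ω, 0 ≤ F ω) (hp : ∀ ω, p ω → c ≤ F ω) :
    ((univ.filter p).card : ℝ) * c ≤ ∑ ω, F ω := by
  calc ((univ.filter p).card : ℝ) * c = ∑ ω ∈ univ.filter p, c := by
        rw [Finset.sum_const, nsmul_eq_mul]
    _ ≤ ∑ ω ∈ univ.filter p, F ω :=
        Finset.sum_le_sum fun ω hω => hp ω (Finset.mem_filter.1 hω).2
    _ ≤ ∑ ω, F ω := Finset.sum_le_sum_of_subset_of_nonneg (Finset.filter_subset _ _)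
        fun ω _ _ => hF ω

/-- `exp u ≤ 1 + u + u ^ 2` for `|u| ≤ 1`. -/
theorem GC_exp (u : ℝ) (hu : |u| ≤ 1) : Real.exp u ≤ 1 + u + u ^ 2 := by
  have := Real.abs_exp_sub_one_sub_id_le hu
  have h := (abs_le.1 this).2
  linarith

theorem GC_expUp (x m w : ℝ) (hx : 0 ≤ x) (hx1 : x ≤ 1) (hm : 0 < m) (hw : 0 ≤ w) (hwm : w ≤ m) :
    Real.exp (x / m * w) - 1 ≤ w / m * (x + x ^ 2) := by
  have hθ0 : 0 ≤ w / m := div_nonneg hw hm.le
  have hθ1 : w / m ≤ 1 := (div_le_one hm).2 hwm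
  have e : x / m * w = w / m * x := by ring
  rw [e]
  have hu : |w / m * x| ≤ 1 := by
    rw [abs_of_nonneg (mul_nonneg hθ0 hx)]
    nlinarith
  have h := GC_exp _ hu
  nlinarith [mul_nonneg (mul_nonneg hθ0 (sub_nonneg.2 hθ1)) (sq_nonneg x)]

theorem GC_expLo (x m w : ℝ) (hx : 0 ≤ x) (hx1 : x ≤ 1) (hm : 0 < m) (hw : 0 ≤ w) (hwm : w ≤ m) :
    w / m * (x - x ^ 2) ≤ 1 - Real.exp (-(x / m * w)) := by
  have hθ0 : 0 ≤ w / m := div_nonneg hw hm.le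
  have hθ1 : w / m ≤ 1 := (div_le_one hm).2 hwm
  have e : x / m * w = w / m * x := by ring
  rw [e]
  have hu : |-(w / m * x)| ≤ 1 := by
    rw [abs_neg, abs_of_nonneg (mul_nonneg hθ0 hx)]
    nlinarith
  have h := GC_exp _ hu
  nlinarith [mul_nonneg (mul_nonneg hθ0 (sub_nonneg.2 hθ1)) (sq_nonneg x)]

/-- The upper tail for a free parameter. -/
theorem GC_upper {Ω σ : Type} [Fintype Ω] (S : Finset σ) (B : σ → Ω → Prop)
    (w y : σ → ℝ) (m μ T x : ℝ) (hm : 0 < m) (hw0 : ∀ s ∈ S, 0 ≤ w s) (hwm : ∀ s ∈ S, w s ≤ m)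
    (hy : ∀ s ∈ S, 0 ≤ y s)
    (hB : ∀ J ⊆ S, ((univ.filter (fun ω => ∀ s ∈ J, B s ω)).card : ℝ) ≤
      (∏ s ∈ J, y s) * Fintype.card Ω)
    (hμ : ∑ s ∈ S, y s * w s ≤ μ) (hx : 0 ≤ x) (hx1 : x ≤ 1) :
    ((univ.filter (fun ω => T ≤ ∑ s ∈ S, if B s ω then w s else 0)).card : ℝ) ≤
      Real.exp ((x + x ^ 2) * μ / m - x / m * T) * Fintype.card Ω := by
  have hxm : 0 ≤ x / m := div_nonneg hx hm.le
  have h1 := GC_markov (fun ω : Ω => T ≤ ∑ s ∈ S, if B s ω then w s else 0)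
    (fun ω => Real.exp (x / m * ∑ s ∈ S, if B s ω then w s else 0)) (Real.exp (x / m * T))
    (fun ω => (Real.exp_pos _).le)
    (fun ω hω => Real.exp_le_exp.2 (mul_le_mul_of_nonneg_left hω hxm))
  have h2 : ∀ ω : Ω, Real.exp (x / m * ∑ s ∈ S, if B s ω then w s else 0) =
      ∏ s ∈ S, ((if B s ω then (Real.exp (x / m * w s) - 1) else 0) + 1) := by
    intro ω
    rw [Finset.mul_sum, Real.exp_sum]
    refine Finset.prod_congr rfl fun s _ => ?_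
    by_cases h : B s ω
    · simp [h]
    · simp [h]
  simp_rw [h2] at h1
  have h3 := GC_moment S B (fun _ => 1) (fun s => Real.exp (x / m * w s) - 1) y
    (fun _ _ => zero_le_one)
    (fun s hs => sub_nonneg.2 (Real.one_le_exp (mul_nonneg hxm (hw0 s hs)))) hB
  have h4 : ∏ s ∈ S, ((Real.exp (x / m * w s) - 1) * y s + 1) ≤
      Real.exp ((x + x ^ 2) * μ / m) := by
    calc ∏ s ∈ S, ((Real.exp (x / m * w s) - 1) * y s + 1)
        ≤ ∏ s ∈ S, Real.exp ((x + x ^ 2) / m * (y s * w s)) := by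
          refine Finset.prod_le_prod (fun s hs => ?_) (fun s hs => ?_)
          · have := sub_nonneg.2 (Real.one_le_exp (mul_nonneg hxm (hw0 s hs)))
            have := mul_nonneg this (hy s hs)
            linarith
          · have e1 := GC_expUp x m (w s) hx hx1 hm (hw0 s hs) (hwm s hs)
            have e2 := mul_le_mul_of_nonneg_right e1 (hy s hs)
            have e3 := Real.add_one_le_exp ((x + x ^ 2) / m * (y s * w s))
            have e4 : w s / m * (x + x ^ 2) * y s = (x + x ^ 2) / m * (y s * w s) := by ring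
            linarith
      _ = Real.exp ((x + x ^ 2) / m * ∑ s ∈ S, y s * w s) := by
          rw [Finset.mul_sum, Real.exp_sum]
      _ ≤ Real.exp ((x + x ^ 2) * μ / m) := by
          refine Real.exp_le_exp.2 ?_
          have : (x + x ^ 2) * μ / m = (x + x ^ 2) / m * μ := by ring
          rw [this]
          exact mul_le_mul_of_nonneg_left hμ (by positivity)
  have h5 : ((univ.filter (fun ω => T ≤ ∑ s ∈ S, if B s ω then w s else 0)).card : ℝ) *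
      Real.exp (x / m * T) ≤ Real.exp ((x + x ^ 2) * μ / m) * Fintype.card Ω :=
    h1.trans (h3.trans (mul_le_mul_of_nonneg_right h4 (Nat.cast_nonneg _)))
  rw [Real.exp_sub, div_mul_eq_mul_div, le_div_iff₀ (Real.exp_pos _)]
  exact h5

/-- The lower tail for a free parameter. -/
theorem GC_lower {Ω σ : Type} [Fintype Ω] (S : Finset σ) (B : σ → Ω → Prop)
    (w y : σ → ℝ) (m μ T x : ℝ) (hm : 0 < m) (hw0 : ∀ s ∈ S, 0 ≤ w s) (hwm : ∀ s ∈ S, w s ≤ m)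
    (hy : ∀ s ∈ S, 0 ≤ y s) (hy1 : ∀ s ∈ S, y s ≤ 1)
    (hB : ∀ J ⊆ S, ((univ.filter (fun ω => ∀ s ∈ J, ¬ B s ω)).card : ℝ) ≤
      (∏ s ∈ J, (1 - y s)) * Fintype.card Ω)
    (hμ : μ ≤ ∑ s ∈ S, y s * w s) (hx : 0 ≤ x) (hx1 : x ≤ 1) :
    ((univ.filter (fun ω => (∑ s ∈ S, if B s ω then w s else 0) ≤ T)).card : ℝ) ≤
      Real.exp (x / m * T - (x - x ^ 2) * μ / m) * Fintype.card Ω := by
  have hxm : 0 ≤ x / m := div_nonneg hx hm.le
  have h1 := GC_markov (fun ω : Ω => (∑ s ∈ S, if B s ω then w s else 0) ≤ T)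
    (fun ω => Real.exp (-(x / m * ∑ s ∈ S, if B s ω then w s else 0)))
    (Real.exp (-(x / m * T)))
    (fun ω => (Real.exp_pos _).le)
    (fun ω hω => Real.exp_le_exp.2 (neg_le_neg (mul_le_mul_of_nonneg_left hω hxm)))
  have h2 : ∀ ω : Ω, Real.exp (-(x / m * ∑ s ∈ S, if B s ω then w s else 0)) =
      ∏ s ∈ S, ((if ¬ B s ω then (1 - Real.exp (-(x / m * w s))) else 0) +
        Real.exp (-(x / m * w s))) := by
    intro ω
    rw [Finset.mul_sum, ← Finset.sum_neg_distrib, Real.exp_sum]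
    refine Finset.prod_congr rfl fun s _ => ?_
    by_cases h : B s ω
    · simp [h]
    · simp [h]
  simp_rw [h2] at h1
  have hexp : ∀ s ∈ S, Real.exp (-(x / m * w s)) ≤ 1 := by
    intro s hs
    rw [← Real.exp_zero]
    exact Real.exp_le_exp.2 (neg_nonpos.2 (mul_nonneg hxm (hw0 s hs)))
  have h3 := GC_moment S (fun s ω => ¬ B s ω) (fun s => Real.exp (-(x / m * w s)))
    (fun s => 1 - Real.exp (-(x / m * w s))) (fun s => 1 - y s)
    (fun _ _ => (Real.exp_pos _).le)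
    (fun s hs => sub_nonneg.2 (hexp s hs)) (fun J hJ => by convert hB J hJ)
  have h3' : ∑ ω, ∏ s ∈ S, ((if ¬ B s ω then (1 - Real.exp (-(x / m * w s))) else 0) +
        Real.exp (-(x / m * w s))) ≤
      (∏ s ∈ S, ((1 - Real.exp (-(x / m * w s))) * (1 - y s) + Real.exp (-(x / m * w s)))) *
        Fintype.card Ω := by
    convert h3
  have h4 : ∏ s ∈ S, ((1 - Real.exp (-(x / m * w s))) * (1 - y s) + Real.exp (-(x / m * w s))) ≤
      Real.exp (-((x - x ^ 2) * μ / m)) := by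
    calc ∏ s ∈ S, ((1 - Real.exp (-(x / m * w s))) * (1 - y s) + Real.exp (-(x / m * w s)))
        ≤ ∏ s ∈ S, Real.exp (-((x - x ^ 2) / m) * (y s * w s)) := by
          refine Finset.prod_le_prod (fun s hs => ?_) (fun s hs => ?_)
          · have e1 := sub_nonneg.2 (hexp s hs)
            have e2 := mul_nonneg e1 (sub_nonneg.2 (hy1 s hs))
            have e3 := (Real.exp_pos (-(x / m * w s))).le
            linarith
          · have e1 := GC_expLo x m (w s) hx hx1 hm (hw0 s hs) (hwm s hs)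
            have e2 := mul_le_mul_of_nonneg_right e1 (hy s hs)
            have e3 := Real.add_one_le_exp (-((x - x ^ 2) / m) * (y s * w s))
            have e4 : w s / m * (x - x ^ 2) * y s = (x - x ^ 2) / m * (y s * w s) := by ring
            nlinarith
      _ = Real.exp (-((x - x ^ 2) / m) * ∑ s ∈ S, y s * w s) := by
          rw [Finset.mul_sum, Real.exp_sum]
      _ ≤ Real.exp (-((x - x ^ 2) * μ / m)) := by
          refine Real.exp_le_exp.2 ?_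
          have : (x - x ^ 2) * μ / m = (x - x ^ 2) / m * μ := by ring
          rw [this, neg_mul]
          have h0 : 0 ≤ (x - x ^ 2) / m := div_nonneg (by nlinarith) hm.le
          exact neg_le_neg (mul_le_mul_of_nonneg_left hμ h0)
  have h5 : ((univ.filter (fun ω => (∑ s ∈ S, if B s ω then w s else 0) ≤ T)).card : ℝ) *
      Real.exp (-(x / m * T)) ≤ Real.exp (-((x - x ^ 2) * μ / m)) * Fintype.card Ω :=
    h1.trans (h3'.trans (mul_le_mul_of_nonneg_right h4 (Nat.cast_nonneg _)))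
  have e : x / m * T - (x - x ^ 2) * μ / m =
      -((x - x ^ 2) * μ / m) - (-(x / m * T)) := by ring
  rw [e, Real.exp_sub, div_mul_eq_mul_div, le_div_iff₀ (Real.exp_pos _)]
  exact h5

theorem chernoff_upper {Ω σ : Type} [Fintype Ω] (S : Finset σ) (B : σ → Ω → Prop)
    (w y : σ → ℝ) (m μ t : ℝ) (hm : 0 < m) (hw0 : ∀ s ∈ S, 0 ≤ w s) (hwm : ∀ s ∈ S, w s ≤ m)
    (hy : ∀ s ∈ S, 0 ≤ y s)
    (hB : ∀ J ⊆ S, ((univ.filter (fun ω => ∀ s ∈ J, B s ω)).card : ℝ) ≤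
      (∏ s ∈ J, y s) * Fintype.card Ω)
    (hμ : ∑ s ∈ S, y s * w s ≤ μ) (hμ0 : 0 < μ) (ht : 0 ≤ t) :
    ((univ.filter (fun ω => μ + t ≤ ∑ s ∈ S, if B s ω then w s else 0)).card : ℝ) ≤
      Real.exp (-(min (t ^ 2 / (4 * m * μ)) (t / (2 * m)))) * Fintype.card Ω := by
  by_cases h2 : t ≤ 2 * μ
  · have hx : 0 ≤ t / (2 * μ) := by positivity
    have hx1 : t / (2 * μ) ≤ 1 := (div_le_one (by positivity)).2 h2
    refine (GC_upper S B w y m μ (μ + t) (t / (2 * μ)) hm hw0 hwm hy hB hμ hx hx1).trans ?_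
    refine mul_le_mul_of_nonneg_right (Real.exp_le_exp.2 ?_) (Nat.cast_nonneg _)
    have e : (t / (2 * μ) + (t / (2 * μ)) ^ 2) * μ / m - t / (2 * μ) / m * (μ + t) =
        -(t ^ 2 / (4 * m * μ)) := by
      field_simp
      ring
    rw [e]
    exact neg_le_neg (min_le_left _ _)
  · push Not at h2
    refine (GC_upper S B w y m μ (μ + t) 1 hm hw0 hwm hy hB hμ zero_le_one le_rfl).trans ?_
    refine mul_le_mul_of_nonneg_right (Real.exp_le_exp.2 ?_) (Nat.cast_nonneg _)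
    have e : (1 + (1:ℝ) ^ 2) * μ / m - 1 / m * (μ + t) = -((t - μ) / m) := by
      field_simp
      ring
    rw [e]
    refine neg_le_neg ((min_le_right _ _).trans ?_)
    rw [div_le_div_iff₀ (by positivity) hm]
    nlinarith

theorem chernoff_three {Ω σ : Type} [Fintype Ω] (S : Finset σ) (B : σ → Ω → Prop)
    (y : σ → ℝ) (μ lam : ℝ) (hy : ∀ s ∈ S, 0 ≤ y s)
    (hB : ∀ J ⊆ S, ((univ.filter (fun ω => ∀ s ∈ J, B s ω)).card : ℝ) ≤
      (∏ s ∈ J, y s) * Fintype.card Ω)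
    (hμ : ∑ s ∈ S, y s ≤ μ) (hlam : 0 ≤ lam) :
    ((univ.filter (fun ω => 3 * μ + 2 * lam ≤ ((S.filter (fun s => B s ω)).card : ℝ))).card : ℝ) ≤
      Real.exp (-lam) * Fintype.card Ω := by
  have hμ0 : 0 ≤ μ := (Finset.sum_nonneg hy).trans hμ
  have h := GC_upper S B (fun _ => 1) y 1 μ (3 * μ + 2 * lam) 1 one_pos
    (fun _ _ => zero_le_one) (fun _ _ => le_rfl) hy hB (by simpa using hμ) zero_le_one le_rfl
  have e : ∀ ω : Ω, (∑ s ∈ S, if B s ω then (1:ℝ) else 0) =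
      ((S.filter (fun s => B s ω)).card : ℝ) := by
    intro ω
    rw [Finset.sum_boole]
  simp_rw [e] at h
  refine h.trans ?_
  refine mul_le_mul_of_nonneg_right (Real.exp_le_exp.2 ?_) (Nat.cast_nonneg _)
  norm_num
  linarith

theorem chernoff_lower {Ω σ : Type} [Fintype Ω] (S : Finset σ) (B : σ → Ω → Prop)
    (w y : σ → ℝ) (m μ t : ℝ) (hm : 0 < m) (hw0 : ∀ s ∈ S, 0 ≤ w s) (hwm : ∀ s ∈ S, w s ≤ m)
    (hy : ∀ s ∈ S, 0 ≤ y s) (hy1 : ∀ s ∈ S, y s ≤ 1)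
    (hB : ∀ J ⊆ S, ((univ.filter (fun ω => ∀ s ∈ J, ¬ B s ω)).card : ℝ) ≤
      (∏ s ∈ J, (1 - y s)) * Fintype.card Ω)
    (hμ : μ ≤ ∑ s ∈ S, y s * w s) (hμ0 : 0 < μ) (ht : 0 ≤ t) (ht2 : t ≤ μ) :
    ((univ.filter (fun ω => (∑ s ∈ S, if B s ω then w s else 0) ≤ μ - t)).card : ℝ) ≤
      Real.exp (-(t ^ 2 / (4 * m * μ))) * Fintype.card Ω := by
  have hx : 0 ≤ t / (2 * μ) := by positivity
  have hx1 : t / (2 * μ) ≤ 1 := (div_le_one (by positivity)).2 (by linarith)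
  refine (GC_lower S B w y m μ (μ - t) (t / (2 * μ)) hm hw0 hwm hy hy1 hB hμ hx hx1).trans ?_
  refine mul_le_mul_of_nonneg_right (Real.exp_le_exp.2 ?_) (Nat.cast_nonneg _)
  have e : t / (2 * μ) / m * (μ - t) - (t / (2 * μ) - (t / (2 * μ)) ^ 2) * μ / m =
      -(t ^ 2 / (4 * m * μ)) := by
    field_simp
    ring
  rw [e]

end Pool.Agent.H67.HY
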