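/-
ROW HM. Hall's theorem with dummies, and the Mendelsohn-Dulmage theorem.
PROOF. `hall_dummy`: apply Hall (`Finset.all_card_le_biUnion_card_iff_exists_injective`) to `t : A → Finset (B ⊕ (Σ v : V, Fin (D v)))`, `t a = (univ.filter (E a)).map inl ∪ image of Fin (D (own a)) under i ↦ inr ⟨own a, i⟩`. For `s : Finset A` let `N = {b : ∃ a ∈ s, E a b}`, `O = s.image own`. The union of the `t a`, `a ∈ s`,
has `|N| + ∑_{v∈O} D v` elements. `|N| ≥ ∑_{b∈N} ∑_{a∈s} w a b = ∑_{a∈s} ∑_b w a b ≥ (1-ε)|s|` (`hcol` and `w ≥ 0`; `w a b = 0` for `a ∈ s`, `b ∉ N`), `∑_{v∈O} D v ≥ ∑_{v∈O} ε #{a : own a = v} ≥ ε |s|`. So `≥ |s|`. The injective choice `F a`; `m a = some b` if `F a = inl b`, `none` otherwise. If `own a = v`, `m a = none` then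
`F a = inr ⟨v, i⟩`; injectivity of `F` gives at most `D v` such `a`.
`mendelsohn_dulmage`: let `S` be the smallest set of `a`'s with: `m1 a ≠ none` and `∀ b, m2 b ≠ some a` imply `a ∈ S`; `a ∈ S`, `m1 a = some b`, `m2 b = some a'` imply `a' ∈ S` (an `inductive` predicate, or the intersection of all such sets). `m a := m1 a` if `a ∈ S`; otherwise `some b` if there is `b` with `m2 b = some a` (unique by `h2i`), else `none`.
`E`: clear. Injective: `a, a' ∈ S`: `h1i`. Both not in `S`: `m2 b = some a`, `m2 b = some a'`. `a ∈ S`, `a' ∉ S`: `m1 a = some b`, `m2 b = some a'` gives `a' ∈ S`, contradiction. Covers `m1 a ≠ none`: if `a ∈ S` clear, else some `m2 b = some a` (otherwise `a ∈ S`). Covers `b` with `m2 b = some a`: if `a ∉ S`, `m a = some b`. If `a ∈ S`: the last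
rule used for `a` is not the first (as `m2 b = some a`), so `a' ∈ S`, `m1 a' = some b'`, `m2 b' = some a`; `h2i` gives `b' = b`, and `m a' = m1 a' = some b`.
-/
import Pool.Agent.H67.HY.Defs

set_option autoImplicit false

namespace Pool.Agent.H67.HY

open Finset
open Classical

theorem hall_dummy {A B V : Type} [Fintype A] [Fintype B] [Fintype V] (E : A → B → Prop)
    (w : A → B → ℝ) (hw0 : ∀ a b, 0 ≤ w a b) (hwE : ∀ a b, ¬ E a b → w a b = 0) (ε : ℝ)
    (hε0 : 0 ≤ ε) (hrow : ∀ a, 1 - ε ≤ ∑ b, w a b) (hcol : ∀ b, ∑ a, w a b ≤ 1)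
    (own : A → V) (D : V → ℕ)
    (hD : ∀ v, ε * ((univ.filter (fun a => own a = v)).card : ℝ) ≤ D v) :
    ∃ m : A → Option B, (∀ a b, m a = some b → E a b) ∧
      (∀ a a' b, m a = some b → m a' = some b → a = a') ∧
      ∀ v, (univ.filter (fun a => own a = v ∧ m a = none)).card ≤ D v := by
  set t : A → Finset (B ⊕ (Σ v : V, Fin (D v))) := fun a =>
    (univ.filter (E a)).disjSum (univ.filter (fun p : (Σ v : V, Fin (D v)) => p.1 = own a)) with ht
  have hall : ∀ s : Finset A, s.card ≤ (s.biUnion t).card := by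
    intro s
    set N : Finset B := s.biUnion (fun a => univ.filter (E a)) with hN
    set O : Finset (Σ v : V, Fin (D v)) := (s.image own).sigma (fun _ => univ) with hO
    have hsub : N.disjSum O ⊆ s.biUnion t := by
      intro x hx
      rcases x with b | p
      · rw [Finset.inl_mem_disjSum, hN, Finset.mem_biUnion] at hx
        obtain ⟨a, ha, hb⟩ := hx
        exact Finset.mem_biUnion.2 ⟨a, ha, Finset.inl_mem_disjSum.2 hb⟩
      · rw [Finset.inr_mem_disjSum, hO, Finset.mem_sigma, Finset.mem_image] at hx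
        obtain ⟨⟨a, ha, hb⟩, -⟩ := hx
        refine Finset.mem_biUnion.2 ⟨a, ha, Finset.inr_mem_disjSum.2 ?_⟩
        exact Finset.mem_filter.2 ⟨Finset.mem_univ _, hb.symm⟩
    have hcard : N.card + ∑ v ∈ s.image own, D v ≤ (s.biUnion t).card := by
      have h1 := Finset.card_le_card hsub
      rw [Finset.card_disjSum] at h1
      have h2 : O.card = ∑ v ∈ s.image own, D v := by
        rw [hO, Finset.card_sigma]
        simp
      rwa [h2] at h1
    have hn : (1 - ε) * (s.card : ℝ) ≤ N.card := by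
      calc (1 - ε) * (s.card : ℝ) = ∑ _a ∈ s, (1 - ε) := by
            rw [Finset.sum_const, nsmul_eq_mul]; ring
        _ ≤ ∑ a ∈ s, ∑ b, w a b := Finset.sum_le_sum fun a _ => hrow a
        _ = ∑ a ∈ s, ∑ b ∈ N, w a b := by
            refine Finset.sum_congr rfl fun a ha => ?_
            symm
            refine Finset.sum_subset (Finset.subset_univ _) fun b _ hb => hwE a b fun hE => hb ?_
            exact Finset.mem_biUnion.2 ⟨a, ha, Finset.mem_filter.2 ⟨Finset.mem_univ _, hE⟩⟩
        _ = ∑ b ∈ N, ∑ a ∈ s, w a b := Finset.sum_comm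
        _ ≤ ∑ _b ∈ N, (1 : ℝ) := by
            refine Finset.sum_le_sum fun b _ => ?_
            exact (Finset.sum_le_sum_of_subset_of_nonneg (Finset.subset_univ s)
              fun a _ _ => hw0 a b).trans (hcol b)
        _ = N.card := by rw [Finset.sum_const, nsmul_eq_mul, mul_one]
    have ho : ε * (s.card : ℝ) ≤ ∑ v ∈ s.image own, (D v : ℝ) := by
      rw [Finset.card_eq_sum_card_image own s, Nat.cast_sum, Finset.mul_sum]
      refine Finset.sum_le_sum fun v _ => ?_
      refine le_trans (mul_le_mul_of_nonneg_left ?_ hε0) (hD v)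
      exact_mod_cast Finset.card_le_card (Finset.filter_subset_filter _ (Finset.subset_univ s))
    have hfin : (s.card : ℝ) ≤ ((N.card + ∑ v ∈ s.image own, D v : ℕ) : ℝ) := by
      push_cast
      linarith
    exact (Nat.cast_le.1 hfin).trans hcard
  obtain ⟨F, hF, hFt⟩ := (Finset.all_card_le_biUnion_card_iff_exists_injective t).1 hall
  have hs : ∀ a b, (F a).getLeft? = some b → F a = Sum.inl b := fun a b h =>
    Sum.getLeft?_eq_some_iff.1 h
  refine ⟨fun a => (F a).getLeft?, fun a b h => ?_, fun a a' b h h' => ?_, fun v => ?_⟩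
  · have h1 := hFt a
    rw [hs a b h, ht] at h1
    exact (Finset.mem_filter.1 (Finset.inl_mem_disjSum.1 h1)).2
  · exact hF ((hs a b h).trans (hs a' b h').symm)
  · have h1 : (univ.filter (fun a => own a = v ∧ (F a).getLeft? = none)).image F ⊆
        (univ : Finset (Fin (D v))).image (fun i => Sum.inr ⟨v, i⟩) := by
      intro x hx
      obtain ⟨a, ha, rfl⟩ := Finset.mem_image.1 hx
      obtain ⟨-, ha1, ha2⟩ := Finset.mem_filter.1 ha
      have h2 := hFt a
      rcases hFa : F a with b | p
      · rw [hFa] at ha2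
        simp at ha2
      · rw [hFa, ht] at h2
        have h3 : p.1 = own a := (Finset.mem_filter.1 (Finset.inr_mem_disjSum.1 h2)).2
        obtain ⟨u, i⟩ := p
        have h4 : u = v := h3.trans ha1
        subst h4
        exact Finset.mem_image.2 ⟨i, Finset.mem_univ _, rfl⟩
    have h2 := Finset.card_le_card h1
    rw [Finset.card_image_of_injective _ hF] at h2
    refine h2.trans (Finset.card_image_le.trans ?_)
    simp

/-- vertices reached by alternating paths -/
inductive HM_S {A B : Type} (m1 : A → Option B) (m2 : B → Option A) : A → Prop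
  | base (a : A) : m1 a ≠ none → (∀ b, m2 b ≠ some a) → HM_S m1 m2 a
  | step (a : A) (b : B) (a' : A) : HM_S m1 m2 a → m1 a = some b → m2 b = some a' → HM_S m1 m2 a'

/-- the common matching -/
noncomputable def HM_m {A B : Type} (m1 : A → Option B) (m2 : B → Option A) (a : A) : Option B :=
  if HM_S m1 m2 a then m1 a else if h : ∃ b, m2 b = some a then some h.choose else none

theorem HM_pos {A B : Type} (m1 : A → Option B) (m2 : B → Option A) (a : A) (h : HM_S m1 m2 a) :
    HM_m m1 m2 a = m1 a := if_pos h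

theorem HM_neg {A B : Type} (m1 : A → Option B) (m2 : B → Option A) (a : A) (h : ¬ HM_S m1 m2 a)
    (b : B) (hb : HM_m m1 m2 a = some b) : m2 b = some a := by
  unfold HM_m at hb
  rw [if_neg h] at hb
  split_ifs at hb with h1
  rw [← Option.some_inj.1 hb]
  exact h1.choose_spec

theorem HM_ne {A B : Type} (m1 : A → Option B) (m2 : B → Option A) (a : A) (h : ¬ HM_S m1 m2 a)
    (b : B) (hb : m2 b = some a) : ∃ b', HM_m m1 m2 a = some b' ∧ m2 b' = some a := by
  have h1 : ∃ b, m2 b = some a := ⟨b, hb⟩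
  refine ⟨h1.choose, ?_, h1.choose_spec⟩
  unfold HM_m
  rw [if_neg h, dif_pos h1]

theorem mendelsohn_dulmage {A B : Type} (E : A → B → Prop) (m1 : A → Option B)
    (m2 : B → Option A) (h1 : ∀ a b, m1 a = some b → E a b)
    (h1i : ∀ a a' b, m1 a = some b → m1 a' = some b → a = a')
    (h2 : ∀ b a, m2 b = some a → E a b)
    (h2i : ∀ b b' a, m2 b = some a → m2 b' = some a → b = b') :
    ∃ m : A → Option B, (∀ a b, m a = some b → E a b) ∧
      (∀ a a' b, m a = some b → m a' = some b → a = a') ∧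
      (∀ a, m1 a ≠ none → m a ≠ none) ∧ (∀ b, m2 b ≠ none → ∃ a, m a = some b) := by
  refine ⟨HM_m m1 m2, fun a b h => ?_, fun a a' b h h' => ?_, fun a ha => ?_, fun b hb => ?_⟩
  · by_cases hS : HM_S m1 m2 a
    · rw [HM_pos m1 m2 a hS] at h
      exact h1 a b h
    · exact h2 b a (HM_neg m1 m2 a hS b h)
  · by_cases hS : HM_S m1 m2 a
    · rw [HM_pos m1 m2 a hS] at h
      by_cases hS' : HM_S m1 m2 a'
      · rw [HM_pos m1 m2 a' hS'] at h'
        exact h1i a a' b h h'
      · exact absurd (HM_S.step a b a' hS h (HM_neg m1 m2 a' hS' b h')) hS'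
    · by_cases hS' : HM_S m1 m2 a'
      · rw [HM_pos m1 m2 a' hS'] at h'
        exact absurd (HM_S.step a' b a hS' h' (HM_neg m1 m2 a hS b h)) hS
      · have e1 := HM_neg m1 m2 a hS b h
        have e2 := HM_neg m1 m2 a' hS' b h'
        exact Option.some_inj.1 (e1.symm.trans e2)
  · by_cases hS : HM_S m1 m2 a
    · rw [HM_pos m1 m2 a hS]
      exact ha
    · by_cases hb : ∃ b, m2 b = some a
      · obtain ⟨b, hb⟩ := hb
        obtain ⟨b', hb', -⟩ := HM_ne m1 m2 a hS b hb
        rw [hb']
        exact Option.some_ne_none _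
      · push Not at hb
        exact absurd (HM_S.base a ha hb) hS
  · obtain ⟨a, hba⟩ := Option.ne_none_iff_exists'.1 hb
    by_cases hS : HM_S m1 m2 a
    · cases hS with
      | base _ h3 h4 => exact absurd hba (h4 b)
      | step a' b' _ h3 h4 h5 =>
        have := h2i b' b a h5 hba
        subst this
        exact ⟨a', by rw [HM_pos m1 m2 a' h3]; exact h4⟩
    · obtain ⟨b', hb', hb2⟩ := HM_ne m1 m2 a hS b hba
      have := h2i b' b a hb2 hba
      subst this
      exact ⟨a, hb'⟩

end Pool.Agent.H67.HY
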