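/-
ROW Box. Counting functions with prescribed values in a box.
PROOF. The filter is `Fintype.piFinset (fun p => if p ∈ S then E p else univ)` (`Fintype.mem_piFinset`), `Fintype.card_piFinset`:
card `= ∏ p, (if p ∈ S then (E p).card else card κ) = (∏ p ∈ S, (E p).card) * (card κ)^(card I - S.card)` (`Finset.prod_ite`, `Finset.filter_mem_eq_inter`,
`Finset.card_compl`); `Fintype.card_fun`: `card (I → κ) = card κ ^ card I`, `pow_add`.
`card_box_ne`: every `E p = {x : x ≠ z}` has `card κ - 1` elements; `(1 - 1/L)^s ≤ exp(-s/L)` (`Real.one_sub_div_pow_le_exp_neg` or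
`Real.add_one_le_exp (-1/L)` and `pow_le_pow_left₀`).
`card_box_eq`: `E p = {z}`, all cardinalities 1.
-/
import Pool.Agent.H67.HY.Defs

set_option autoImplicit false

namespace Pool.Agent.H67.HY

open Finset
open Classical

theorem card_box {I κ : Type} [Fintype I] [Fintype κ] (S : Finset I) (E : I → Finset κ) :
    ((univ.filter (fun ω : I → κ => ∀ p ∈ S, ω p ∈ E p)).card : ℝ) *
        (Fintype.card κ : ℝ) ^ S.card =
      (∏ p ∈ S, ((E p).card : ℝ)) * Fintype.card (I → κ) := by
  have h1 : univ.filter (fun ω : I → κ => ∀ p ∈ S, ω p ∈ E p) =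
      Fintype.piFinset (fun p => if p ∈ S then E p else univ) := by
    ext ω
    simp only [mem_filter, mem_univ, true_and, Fintype.mem_piFinset]
    constructor
    · intro h p
      by_cases hp : p ∈ S
      · simpa [hp] using h p hp
      · simp [hp]
    · intro h p hp
      simpa [hp] using h p
  rw [h1, Fintype.card_piFinset, Fintype.card_fun]
  have h2 : ∏ p : I, (if p ∈ S then E p else (univ : Finset κ)).card =
      (∏ p ∈ S, (E p).card) * Fintype.card κ ^ (Fintype.card I - S.card) := by
    rw [← Finset.prod_mul_prod_compl S]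
    congr 1
    · exact Finset.prod_congr rfl (fun p hp => by simp [hp])
    · rw [Finset.prod_congr rfl (g := fun _ => Fintype.card κ), Finset.prod_const,
        Finset.card_compl]
      intro p hp
      rw [Finset.mem_compl] at hp
      simp [hp]
  rw [h2]
  push_cast
  have h3 : (Fintype.card κ : ℝ) ^ Fintype.card I =
      (Fintype.card κ : ℝ) ^ (Fintype.card I - S.card) * (Fintype.card κ : ℝ) ^ S.card := by
    rw [← pow_add, Nat.sub_add_cancel (Finset.card_le_univ S)]
  rw [h3]
  ring

theorem card_box_ne {I κ : Type} [Fintype I] [Fintype κ] (S : Finset I) (z : κ) :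
    ((univ.filter (fun ω : I → κ => ∀ p ∈ S, ω p ≠ z)).card : ℝ) ≤
      Real.exp (-(S.card / Fintype.card κ)) * Fintype.card (I → κ) := by
  have h := card_box S (fun _ => (univ.erase z : Finset κ))
  have hL : (0 : ℝ) < Fintype.card κ := by
    have : 0 < Fintype.card κ := Fintype.card_pos_iff.2 ⟨z⟩
    exact_mod_cast this
  have h1 : univ.filter (fun ω : I → κ => ∀ p ∈ S, ω p ∈ (univ.erase z : Finset κ)) =
      univ.filter (fun ω : I → κ => ∀ p ∈ S, ω p ≠ z) := by
    ext ω
    simp
  rw [h1, Finset.prod_const, Finset.card_erase_of_mem (mem_univ z), Finset.card_univ,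
    Nat.cast_sub (Fintype.card_pos_iff.2 ⟨z⟩)] at h
  set A : ℝ := ((univ.filter (fun ω : I → κ => ∀ p ∈ S, ω p ≠ z)).card : ℝ)
  set W : ℝ := (Fintype.card (I → κ) : ℝ)
  have hW : 0 ≤ W := Nat.cast_nonneg _
  have h2 : A = (((Fintype.card κ : ℝ) - 1) / Fintype.card κ) ^ S.card * W := by
    rw [div_pow]
    field_simp
    rw [h]
    push_cast
    ring
  rw [h2]
  refine mul_le_mul_of_nonneg_right ?_ hW
  have h3 : ((Fintype.card κ : ℝ) - 1) / Fintype.card κ ≤ Real.exp (-(1 / Fintype.card κ)) := by
    have := Real.add_one_le_exp (-(1 / (Fintype.card κ : ℝ)))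
    refine le_trans (le_of_eq ?_) this
    field_simp
    ring
  have h4 : 0 ≤ ((Fintype.card κ : ℝ) - 1) / Fintype.card κ := by
    refine div_nonneg ?_ hL.le
    have : 1 ≤ Fintype.card κ := Fintype.card_pos_iff.2 ⟨z⟩
    have : (1 : ℝ) ≤ Fintype.card κ := by exact_mod_cast this
    linarith
  refine (pow_le_pow_left₀ h4 h3 _).trans (le_of_eq ?_)
  rw [← Real.exp_nat_mul]
  congr 1
  ring

theorem card_box_eq {I κ : Type} [Fintype I] [Fintype κ] (S : Finset I) (z : κ) :
    ((univ.filter (fun ω : I → κ => ∀ p ∈ S, ω p = z)).card : ℝ) =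
      (1 / (Fintype.card κ : ℝ)) ^ S.card * Fintype.card (I → κ) := by
  have h := card_box S (fun _ => ({z} : Finset κ))
  have hL : (0 : ℝ) < Fintype.card κ := by
    have : 0 < Fintype.card κ := Fintype.card_pos_iff.2 ⟨z⟩
    exact_mod_cast this
  have h1 : univ.filter (fun ω : I → κ => ∀ p ∈ S, ω p ∈ ({z} : Finset κ)) =
      univ.filter (fun ω : I → κ => ∀ p ∈ S, ω p = z) := by
    ext ω
    simp
  rw [h1, Finset.prod_const, Finset.card_singleton, Nat.cast_one, one_pow, one_mul] at h
  rw [div_pow, one_pow, ← h]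
  field_simp

end Pool.Agent.H67.HY
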