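import Pool.Agent.H67.HY.Defs

/-! Definitions for the semi-random process. -/

set_option autoImplicit false
set_option linter.unusedSectionVars false

namespace Pool.Agent.H67.HY

open Finset
open Classical

noncomputable section

/-- `θ = 1023/1024`. -/
def th : ℝ := 1023 / 1024

section
variable {V J K K2 K3 R : Type} {N T : ℕ}

section
variable [Fintype J]

/-- participants of round `i` -/
def part (M : J → V → V) (ω : V → Coin T N) (i : ℕ) (x : V) : Prop :=
  actv (act ω i) (run M ω i) x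

/-- failing participants of round `i` -/
def fail (M : J → V → V) (ω : V → Coin T N) (i : ℕ) (x : V) : Prop :=
  part M ω i x ∧ clash M (act ω i) (sig ω i) (run M ω i) x

/-- the colour picked in round `i` -/
def pick (M : J → V → V) (ω : V → Coin T N) (i : ℕ) (x : V) : Option (Fin N) :=
  pk M (sig ω i) (run M ω i) x

end

/-- activated in round `i` and not before -/
def newly (ω : V → Coin T N) (i : ℕ) (x : V) : Prop :=
  act ω i x ∧ ∀ j : Fin T, j.1 < i → (ω x j).1 ≠ 0

/-- same colour -/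
def coin (φ : V → Option (Fin N)) (x y : V) : Prop := ∃ c, φ x = some c ∧ φ y = some c

variable [Fintype J]

/-- many neighbours are not activated -/
def A1 (M : J → V → V) (ω : V → Coin T N) (v : V) (i : ℕ) : Prop :=
  th ^ (i + 1) * Fintype.card J / 2 ≤ ((univ.filter (fun j => ¬ act ω i (M j v))).card : ℝ)

/-- few vertices of `S` are newly activated -/
def A2 (ω : V → Coin T N) (S : Finset V) (i : ℕ) : Prop :=
  ((S.filter (fun x => newly ω i x)).card : ℝ) ≤ th ^ i * S.card / 256

/-- few vertices of `S` are never activated -/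
def A3 (ω : V → Coin T N) (S : Finset V) : Prop :=
  ((S.filter (fun x => ¬ act ω (T - 1) x)).card : ℝ) ≤ 2 * th ^ T * S.card

/-- few participants in `S` -/
def U (M : J → V → V) (ω : V → Coin T N) (S : Finset V) (i : ℕ) : Prop :=
  ((S.filter (fun x => part M ω i x)).card : ℝ) ≤ th ^ i * S.card / 100

/-- few failures in `S` -/
def B1 (M : J → V → V) (ω : V → Coin T N) (S : Finset V) (i lam : ℕ) : Prop :=
  ((S.filter (fun x => fail M ω i x)).card : ℝ) ≤ th ^ i * S.card / 500 + 4 * lam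

/-- each colour is picked few times in `S` -/
def B2 (M : J → V → V) (ω : V → Coin T N) (S : Finset V) (i lam : ℕ) : Prop :=
  ∀ c, (S.filter (fun x => part M ω i x ∧ pick M ω i x = some c)).card ≤ lam

/-- few new coincidences -/
def B3 [Fintype R] (M : J → V → V) (ω : V → Coin T N) (x y : R → V) (i lam : ℕ) : Prop :=
  (univ.filter (fun ρ => coin (run M ω (i + 1)) (x ρ) (y ρ) ∧
    ¬ coin (run M ω i) (x ρ) (y ρ))).card ≤ 4 * lam

/-- The test sets. -/
structure IsTests (M : J → V → V) (T lam : ℕ) (k0 : K) (tst : K → V → Finset V)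
    (xs ys : K2 → V → R → V) (p1 p2 : K2 → K) : Prop where
  hood : ∀ v, tst k0 v = univ.image (fun j => M j v)
  sub : ∀ k v, tst k v ⊆ ball M v 2
  le : ∀ k v, (tst k v).card ≤ Fintype.card J
  ge : ∀ k v, 4000 * (lam : ℝ) ≤ th ^ T * (tst k v).card
  injx : ∀ k v, Function.Injective (xs k v)
  injy : ∀ k v, Function.Injective (ys k v)
  ne : ∀ k v ρ, xs k v ρ ≠ ys k v ρ
  memx : ∀ k v ρ, xs k v ρ ∈ tst (p1 k) v
  memy : ∀ k v ρ, ys k v ρ ∈ tst (p2 k) v

/-- what is needed before round `i` at `v` -/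
def cond (M : J → V → V) (k0 : K) (tst : K → V → Finset V) (v : V) (i : ℕ)
    (ω : V → Coin T N) : Prop :=
  (∀ x ∈ ball M v 2, A1 M ω x i) ∧ (∀ x ∈ ball M v 2, U M ω (tst k0 x) i) ∧
    ∀ k, U M ω (tst k v) i

/-- round `i` is fine at `v` -/
def roundOK [Fintype R] (M : J → V → V) (lam : ℕ) (tst : K → V → Finset V)
    (xs ys : K2 → V → R → V) (v : V) (i : ℕ) (ω : V → Coin T N) : Prop :=
  (∀ k, B1 M ω (tst k v) i lam) ∧ (∀ k, B2 M ω (tst k v) i lam) ∧
    ∀ k, B3 M ω (xs k v) (ys k v) i lam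

/-- few uncoloured vertices, small multiplicities, few coincidences -/
def finOK [Fintype R] (T lam : ℕ) (tst : K → V → Finset V)
    (xs ys : K2 → V → R → V) (v : V) (φ : V → Option (Fin N)) : Prop :=
  (∀ k, (((tst k v).filter (fun x => φ x = none)).card : ℝ) ≤ 3 * th ^ T * (tst k v).card) ∧
  (∀ k c, ((tst k v).filter (fun x => φ x = some c)).card ≤ T * lam) ∧
  ∀ k, (univ.filter (fun ρ => coin φ (xs k v ρ) (ys k v ρ))).card ≤ 4 * (T * lam)

/-- the bad event at `v` -/
def bad [Fintype R] (M : J → V → V) (lam : ℕ) (k0 : K) (tst : K → V → Finset V)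
    (xs ys : K2 → V → R → V) (P : K3 → V → (V → Option (Fin N)) → Prop) (v : V)
    (ω : V → Coin T N) : Prop :=
  (∃ i, i < T ∧ ¬ A1 M ω v i) ∨ (∃ i k, i < T ∧ ¬ A2 ω (tst k v) i) ∨ (∃ k, ¬ A3 ω (tst k v)) ∨
  (∃ i, i < T ∧ cond M k0 tst v i ω ∧ ¬ roundOK M lam tst xs ys v i ω) ∨
  (finOK T lam tst xs ys v (run M ω T) ∧ PropCol M (run M ω T) ∧ ∃ k, ¬ P k v (run M ω T))

end

/-- Apply a permutation of the colours to the lists. -/
def gact {V : Type} {T N : ℕ} (g : Equiv.Perm (Fin N)) (ω : V → Coin T N) : V → Coin T N :=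
  fun v j => ((ω v j).1, g * (ω v j).2)

end

end Pool.Agent.H67.HY
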