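/-
ROW Act. The activation estimates.
PROOF. Boxes: `card_box` with `κ = Coin T N` and `E = univ.filter q`; `card (Coin T N) = (1024 * N!)^T` (`Fintype.card_fun`, `card_prod`, `Fintype.card_perm`), and
`#{c : Coin T N | ∀ j ≤ i, (c j).1 ≠ 0} = (1023 N!)^(i+1) (1024 N!)^(T-i-1)` (it is a `Fintype.piFinset` of `{p : p.1 ≠ 0}` for `j ≤ i`, `univ` otherwise), i.e. `th^(i+1) * card`. `act` is the complement: `(1 - th^(i+1)) * card`.
`newly ω i x`: `(ω x i).1 = 0` and `(ω x j).1 ≠ 0` for `j < i` (for `i < T`): `th^i/1024 * card`. (`act ω i x ↔ ∃ j : Fin T, j ≤ i ∧ (ω x j).1 = 0`: a condition on `ω x` only.)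
`A1_bound`: `¬ A1` says `#{j : ¬ act ω i (M j v)} < μ/2`, `μ = th^(i+1) n`, `n = card J`. If `n = 0` then `¬A1` is impossible. `chernoff_lower` with `S = univ : Finset J`, `B j ω = ¬ act ω i (M j v)`, `w = 1`, `m = 1`, `y = th^(i+1)`, `t = μ/2`; `hB` by `act_box` for the
image of `J'` under `j ↦ M j v` (injective by `hM.dis`). Exponent `(μ/2)^2/(4μ) = μ/16 ≥ 250 lam` since `th^(i+1) ≥ th^T`.
`A2_bound`: `¬A2` says `#{x ∈ S : newly ω i x} > th^i |S|/256 = 4 μ`, `μ = th^i |S|/1024` (if `|S| = 0` impossible): `chernoff_upper` with `t = 3 μ`: `min (9μ/4) (3μ/2) ≥ 1.5 μ ≥ 1.5*4000 lam/1024 ≥ lam`.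
`A3_bound`: `> 2 μ`, `μ = th^T |S|`, `i = T - 1` in `unact_box`, `t = μ`: `min (μ/4) (μ/2) = μ/4 ≥ 1000 lam`.
-/
import Pool.Agent.H67.HY.Box
import Pool.Agent.H67.HY.GC
import Pool.Agent.H67.HY.PD

set_option autoImplicit false

namespace Pool.Agent.H67.HY

open Finset
open Classical

variable {V J : Type} [Fintype V] [Fintype J] {N T : ℕ}

theorem Act_card_congr {Ω : Type} [Fintype Ω] (p q : Ω → Prop) (d1 : DecidablePred p)
    (d2 : DecidablePred q) (h : ∀ ω, p ω ↔ q ω) :
    ((@Finset.filter Ω p d1 univ).card : ℝ) = ((@Finset.filter Ω q d2 univ).card : ℝ) := by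
  congr 2
  ext ω
  rw [Finset.mem_filter, Finset.mem_filter, h]

theorem Act_card_congr2 {Ω : Type} (f1 f2 : Fintype Ω) (p q : Ω → Prop) (d1 : DecidablePred p)
    (d2 : DecidablePred q) (h : ∀ ω, p ω ↔ q ω) :
    ((@Finset.filter Ω p d1 (@univ Ω f1)).card : ℝ) =
      ((@Finset.filter Ω q d2 (@univ Ω f2)).card : ℝ) := by
  have e : f1 = f2 := Subsingleton.elim _ _
  subst e
  exact Act_card_congr p q d1 d2 h

theorem Act_gen {I κ : Type} [Fintype I] [Fintype κ] [Nonempty κ] (S : Finset I) (E : I → Finset κ)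
    (r : I → ℝ) (hr : ∀ p ∈ S, ((E p).card : ℝ) = r p * Fintype.card κ) :
    ((univ.filter (fun ω : I → κ => ∀ p ∈ S, ω p ∈ E p)).card : ℝ) =
      (∏ p ∈ S, r p) * Fintype.card (I → κ) := by
  have h := card_box S E
  have hK : (0 : ℝ) < Fintype.card κ := by exact_mod_cast Fintype.card_pos
  have hK' : (0 : ℝ) < (Fintype.card κ : ℝ) ^ S.card := by positivity
  rw [Finset.prod_congr rfl hr, Finset.prod_mul_distrib, Finset.prod_const] at h
  have h2 : (((univ.filter (fun ω : I → κ => ∀ p ∈ S, ω p ∈ E p)).card : ℝ)) *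
      (Fintype.card κ : ℝ) ^ S.card =
      ((∏ p ∈ S, r p) * Fintype.card (I → κ)) * (Fintype.card κ : ℝ) ^ S.card := by
    rw [h]
    ring
  exact mul_right_cancel₀ hK'.ne' h2

theorem Act_prob {I κ : Type} [Fintype I] [Fintype κ] [Nonempty κ] (S : Finset I) (q : κ → Prop)
    (r : ℝ) (hr : ((univ.filter (fun c : κ => q c)).card : ℝ) = r * Fintype.card κ) :
    ((univ.filter (fun ω : I → κ => ∀ p ∈ S, q (ω p))).card : ℝ) =
      r ^ S.card * Fintype.card (I → κ) := by
  have h := Act_gen S (fun _ => univ.filter (fun c : κ => q c)) (fun _ => r) (fun p _ => hr)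
  rw [Finset.prod_const] at h
  rw [← h]
  congr 2
  ext ω
  simp

theorem Act_pair_zero {N : ℕ} :
    ((univ.filter (fun p : Fin 1024 × Equiv.Perm (Fin N) => p.1 = 0)).card : ℝ) =
      1 / 1024 * Fintype.card (Fin 1024 × Equiv.Perm (Fin N)) := by
  have h1 : (univ.filter (fun p : Fin 1024 × Equiv.Perm (Fin N) => p.1 = 0)) =
      ({0} : Finset (Fin 1024)) ×ˢ (univ : Finset (Equiv.Perm (Fin N))) := by
    ext p
    rw [Finset.mem_filter, Finset.mem_product, Finset.mem_singleton]
    constructor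
    · intro h
      exact ⟨h.2, @Finset.mem_univ _ _ _⟩
    · intro h
      exact ⟨@Finset.mem_univ _ _ _, h.1⟩
  rw [h1, Finset.card_product, Finset.card_singleton, Finset.card_univ, Fintype.card_prod,
    Fintype.card_fin]
  push_cast
  ring

theorem Act_pair_ne {N : ℕ} :
    ((univ.filter (fun p : Fin 1024 × Equiv.Perm (Fin N) => p.1 ≠ 0)).card : ℝ) =
      th * Fintype.card (Fin 1024 × Equiv.Perm (Fin N)) := by
  have h1 := Finset.card_filter_add_card_filter_not (s := (univ : Finset (Fin 1024 × Equiv.Perm (Fin N))))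
    (fun p => p.1 = 0)
  have h2 : ((univ.filter (fun p : Fin 1024 × Equiv.Perm (Fin N) => p.1 = 0)).card : ℝ) +
      ((univ.filter (fun p : Fin 1024 × Equiv.Perm (Fin N) => ¬ p.1 = 0)).card : ℝ) =
      Fintype.card (Fin 1024 × Equiv.Perm (Fin N)) := by
    rw [← Finset.card_univ]
    exact_mod_cast h1
  rw [Act_pair_zero] at h2
  have h3 : ((univ.filter (fun p : Fin 1024 × Equiv.Perm (Fin N) => p.1 ≠ 0)).card : ℝ) =
      ((univ.filter (fun p : Fin 1024 × Equiv.Perm (Fin N) => ¬ p.1 = 0)).card : ℝ) := rfl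
  rw [h3]
  unfold th
  linarith

theorem Act_le_card (i : ℕ) (hi : i < T) :
    (univ.filter (fun j : Fin T => j.1 ≤ i)).card = i + 1 := by
  have h1 : (univ.filter (fun j : Fin T => j.1 ≤ i)).image (fun j : Fin T => j.1) =
      Finset.range (i + 1) := by
    ext k
    rw [Finset.mem_image, Finset.mem_range]
    constructor
    · rintro ⟨j, hj, rfl⟩
      have := (Finset.mem_filter.1 hj).2
      omega
    · intro hk
      exact ⟨⟨k, by omega⟩, Finset.mem_filter.2 ⟨Finset.mem_univ _, by change k ≤ i; omega⟩, rfl⟩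
  rw [← Finset.card_range (i + 1), ← h1, Finset.card_image_of_injective _ Fin.val_injective]

theorem Act_lt_card (i : ℕ) (hi : i < T) :
    (univ.filter (fun j : Fin T => j.1 < i)).card = i := by
  have h1 : (univ.filter (fun j : Fin T => j.1 < i)).image (fun j : Fin T => j.1) =
      Finset.range i := by
    ext k
    rw [Finset.mem_image, Finset.mem_range]
    constructor
    · rintro ⟨j, hj, rfl⟩
      exact (Finset.mem_filter.1 hj).2
    · intro hk
      exact ⟨⟨k, by omega⟩, Finset.mem_filter.2 ⟨Finset.mem_univ _, hk⟩, rfl⟩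
  have h2 := congrArg Finset.card h1
  rw [Finset.card_image_of_injective _ Fin.val_injective, Finset.card_range] at h2
  exact h2

theorem Act_card_coin (i1 : Fintype (Fin T → Fin 1024 × Equiv.Perm (Fin N)))
    [i2 : Fintype (Coin T N)] :
    @Fintype.card (Fin T → Fin 1024 × Equiv.Perm (Fin N)) i1 = Fintype.card (Coin T N) :=
  @Fintype.card_congr _ _ i1 i2 (Equiv.refl _)

theorem Act_coin_ne (i : ℕ) (hi : i < T) :
    ((univ.filter (fun c : Coin T N => ¬ ∃ j : Fin T, j.1 ≤ i ∧ (c j).1 = 0)).card : ℝ) =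
      th ^ (i + 1) * Fintype.card (Coin T N) := by
  have h := Act_prob (I := Fin T) (κ := Fin 1024 × Equiv.Perm (Fin N))
    (univ.filter (fun j : Fin T => j.1 ≤ i)) (fun p => p.1 ≠ 0) th (by
      rw [← Act_pair_ne]
      exact Act_card_congr _ _ _ _ (fun _ => Iff.rfl))
  rw [Act_le_card i hi] at h
  rw [Act_card_coin] at h
  rw [← h]
  refine Act_card_congr2 _ _ _ _ _ _ (fun c => ?_)
  constructor
  · intro h1 j hj h2
    exact h1 ⟨j, (Finset.mem_filter.1 hj).2, h2⟩
  · rintro h1 ⟨j, hj, h2⟩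
    exact h1 j (Finset.mem_filter.2 ⟨Finset.mem_univ _, hj⟩) h2

theorem Act_coin_ex (i : ℕ) (hi : i < T) :
    ((univ.filter (fun c : Coin T N => ∃ j : Fin T, j.1 ≤ i ∧ (c j).1 = 0)).card : ℝ) =
      (1 - th ^ (i + 1)) * Fintype.card (Coin T N) := by
  have h1 := Finset.card_filter_add_card_filter_not (s := (univ : Finset (Coin T N)))
    (fun c => ∃ j : Fin T, j.1 ≤ i ∧ (c j).1 = 0)
  have h2 : ((univ.filter (fun c : Coin T N => ∃ j : Fin T, j.1 ≤ i ∧ (c j).1 = 0)).card : ℝ) +
      ((univ.filter (fun c : Coin T N => ¬ ∃ j : Fin T, j.1 ≤ i ∧ (c j).1 = 0)).card : ℝ) =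
      Fintype.card (Coin T N) := by
    rw [← Finset.card_univ]
    exact_mod_cast h1
  rw [Act_coin_ne i hi] at h2
  linarith

theorem Act_coin_new (i : ℕ) (hi : i < T) :
    ((univ.filter (fun c : Coin T N => (∃ j : Fin T, j.1 ≤ i ∧ (c j).1 = 0) ∧
      ∀ j : Fin T, j.1 < i → (c j).1 ≠ 0)).card : ℝ) =
      th ^ i / 1024 * Fintype.card (Coin T N) := by
  have h := Act_gen (I := Fin T) (κ := Fin 1024 × Equiv.Perm (Fin N))
    (univ.filter (fun j : Fin T => j.1 ≤ i))
    (fun j => if j.1 = i then univ.filter (fun p => p.1 = 0) else univ.filter (fun p => p.1 ≠ 0))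
    (fun j => if j.1 = i then 1 / 1024 else th) (fun j _ => by
      by_cases hj : j.1 = i
      · simp only [if_pos hj]
        exact Act_pair_zero
      · simp only [if_neg hj]
        exact Act_pair_ne)
  have hprod : (∏ j ∈ univ.filter (fun j : Fin T => j.1 ≤ i),
      (if j.1 = i then (1 : ℝ) / 1024 else th)) = th ^ i / 1024 := by
    have e1 : univ.filter (fun j : Fin T => j.1 ≤ i) =
        insert ⟨i, hi⟩ (univ.filter (fun j : Fin T => j.1 < i)) := by
      ext j
      rw [Finset.mem_insert, Finset.mem_filter, Finset.mem_filter, Fin.ext_iff]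
      constructor
      · rintro ⟨_, h1⟩
        rcases Nat.lt_or_ge j.1 i with h2 | h2
        · exact Or.inr ⟨Finset.mem_univ _, h2⟩
        · exact Or.inl (le_antisymm h1 h2)
      · rintro (h1 | h1)
        · exact ⟨Finset.mem_univ _, le_of_eq h1⟩
        · exact ⟨Finset.mem_univ _, h1.2.le⟩
    rw [e1, Finset.prod_insert (by
      rw [Finset.mem_filter]
      rintro ⟨_, h1⟩
      exact lt_irrefl _ h1)]
    have e2 : ∀ j ∈ univ.filter (fun j : Fin T => j.1 < i),
        (if j.1 = i then (1 : ℝ) / 1024 else th) = th := by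
      intro j hj
      rw [if_neg (ne_of_lt (Finset.mem_filter.1 hj).2)]
    rw [Finset.prod_congr rfl e2, Finset.prod_const, Act_lt_card i hi, if_pos rfl]
    ring
  rw [hprod] at h
  rw [Act_card_coin] at h
  rw [← h]
  refine Act_card_congr2 _ _ _ _ _ _ (fun c => ?_)
  constructor
  · rintro ⟨⟨j, hj, hj0⟩, h2⟩ k hk
    have hki := (Finset.mem_filter.1 hk).2
    by_cases hke : k.1 = i
    · rw [if_pos hke, Finset.mem_filter]
      refine ⟨@Finset.mem_univ _ _ _, ?_⟩
      have hji : j.1 = i := by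
        by_contra hne
        exact h2 j (lt_of_le_of_ne hj hne) hj0
      have : k = j := Fin.ext (hke.trans hji.symm)
      rw [this]
      exact hj0
    · rw [if_neg hke, Finset.mem_filter]
      exact ⟨@Finset.mem_univ _ _ _, h2 k (lt_of_le_of_ne hki hke)⟩
  · intro h1
    refine ⟨⟨⟨i, hi⟩, le_rfl, ?_⟩, fun j hj => ?_⟩
    · have h2 := h1 ⟨i, hi⟩ (Finset.mem_filter.2 ⟨Finset.mem_univ _, le_rfl⟩)
      rw [if_pos rfl, Finset.mem_filter] at h2
      exact h2.2
    · have h2 := h1 j (Finset.mem_filter.2 ⟨Finset.mem_univ _, hj.le⟩)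
      rw [if_neg (ne_of_lt hj), Finset.mem_filter] at h2
      exact h2.2

theorem unact_box (S : Finset V) (i : ℕ) (hi : i < T) :
    ((univ.filter (fun ω : V → Coin T N => ∀ x ∈ S, ¬ act ω i x)).card : ℝ) =
      (th ^ (i + 1)) ^ S.card * Fintype.card (V → Coin T N) := by
  have h := Act_prob (I := V) (κ := Coin T N) S (fun c => ¬ ∃ j : Fin T, j.1 ≤ i ∧ (c j).1 = 0)
    (th ^ (i + 1)) (by
      rw [← Act_coin_ne (N := N) i hi]
      exact Act_card_congr _ _ _ _ (fun _ => Iff.rfl))
  rw [← h]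
  exact Act_card_congr _ _ _ _ (fun _ => Iff.rfl)

theorem act_box (S : Finset V) (i : ℕ) (hi : i < T) :
    ((univ.filter (fun ω : V → Coin T N => ∀ x ∈ S, act ω i x)).card : ℝ) =
      (1 - th ^ (i + 1)) ^ S.card * Fintype.card (V → Coin T N) := by
  have h := Act_prob (I := V) (κ := Coin T N) S (fun c => ∃ j : Fin T, j.1 ≤ i ∧ (c j).1 = 0)
    (1 - th ^ (i + 1)) (by
      rw [← Act_coin_ex (N := N) i hi]
      exact Act_card_congr _ _ _ _ (fun _ => Iff.rfl))
  rw [← h]
  exact Act_card_congr _ _ _ _ (fun _ => Iff.rfl)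

theorem newly_box (S : Finset V) (i : ℕ) (hi : i < T) :
    ((univ.filter (fun ω : V → Coin T N => ∀ x ∈ S, newly ω i x)).card : ℝ) =
      (th ^ i / 1024) ^ S.card * Fintype.card (V → Coin T N) := by
  have h := Act_prob (I := V) (κ := Coin T N) S (fun c => (∃ j : Fin T, j.1 ≤ i ∧ (c j).1 = 0) ∧
      ∀ j : Fin T, j.1 < i → (c j).1 ≠ 0) (th ^ i / 1024) (by
      rw [← Act_coin_new (N := N) i hi]
      exact Act_card_congr _ _ _ _ (fun _ => Iff.rfl))
  rw [← h]
  exact Act_card_congr _ _ _ _ (fun _ => Iff.rfl)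

theorem Act_th0 : (0 : ℝ) < th := by
  unfold th
  norm_num

theorem Act_th1 : th ≤ 1 := by
  unfold th
  norm_num

theorem Act_filter_sum {σ : Type} (S : Finset σ) (B : σ → Prop) (d1 d2 : DecidablePred B) :
    (∑ s ∈ S, @ite ℝ (B s) (d1 s) 1 0) = ((@Finset.filter σ B d2 S).card : ℝ) := by
  have h : d1 = d2 := Subsingleton.elim _ _
  subst h
  rw [Finset.sum_boole]

theorem A1_bound (M : J → V → V) (hM : IsFac M) (v : V) (i : ℕ) (hi : i < T) (lam : ℕ)
    (h : 4000 * (lam : ℝ) ≤ th ^ T * Fintype.card J) :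
    ((univ.filter (fun ω : V → Coin T N => ¬ A1 M ω v i)).card : ℝ) ≤
      Real.exp (-lam) * Fintype.card (V → Coin T N) := by
  rcases Nat.eq_zero_or_pos (Fintype.card J) with hn | hn
  · have h1 : (univ.filter (fun ω : V → Coin T N => ¬ A1 M ω v i)) = ∅ := by
      refine Finset.filter_eq_empty_iff.2 fun ω _ => ?_
      rw [not_not]
      unfold A1
      rw [hn]
      simp
    rw [h1, Finset.card_empty, Nat.cast_zero]
    positivity
  have hnR : (0 : ℝ) < Fintype.card J := by exact_mod_cast hn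
  have hth := Act_th0
  have hth1 := Act_th1
  have hyp : 0 < th ^ (i + 1) := pow_pos hth _
  have hy1 : th ^ (i + 1) ≤ 1 := pow_le_one₀ hth.le hth1
  set μ : ℝ := th ^ (i + 1) * Fintype.card J with hμ
  have hμ0 : 0 < μ := mul_pos hyp hnR
  have hμl : 4000 * (lam : ℝ) ≤ μ := by
    refine h.trans (mul_le_mul_of_nonneg_right ?_ hnR.le)
    exact pow_le_pow_of_le_one hth.le hth1 (by omega)
  have hc := chernoff_lower (Ω := V → Coin T N) (univ : Finset J)
    (fun j ω => ¬ act ω i (M j v)) (fun _ => 1) (fun _ => th ^ (i + 1)) 1 μ (μ / 2) one_pos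
    (fun _ _ => zero_le_one) (fun _ _ => le_rfl) (fun _ _ => hyp.le) (fun _ _ => hy1)
    (fun J' _ => by
      have hinj : Function.Injective (fun j => M j v) := by
        intro a b hab
        by_contra hne
        exact hM.dis a b v hne hab
      have h1 := act_box (N := N) (J'.image (fun j => M j v)) i hi
      rw [Finset.card_image_of_injective _ hinj] at h1
      rw [Finset.prod_const, ← h1]
      refine le_of_eq ?_
      congr 2
      ext ω
      simp only [Finset.mem_filter, Finset.mem_univ, true_and, not_not, Finset.mem_image,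
        forall_exists_index, and_imp, forall_apply_eq_imp_iff₂])
    (by simp only [mul_one, Finset.sum_const, Finset.card_univ, nsmul_eq_mul]; rw [hμ, mul_comm])
    hμ0 (by linarith) (by linarith)
  refine le_trans (Nat.cast_le.2 (Finset.card_le_card fun ω hω => ?_)) (hc.trans ?_)
  · rw [Finset.mem_filter] at hω ⊢
    refine ⟨Finset.mem_univ _, ?_⟩
    have h1 := hω.2
    unfold A1 at h1
    rw [not_le] at h1
    refine le_trans (le_of_eq (Act_filter_sum univ (fun j => ¬ act ω i (M j v)) _ _))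
      (le_trans (le_of_lt h1) ?_)
    linarith
  refine mul_le_mul_of_nonneg_right ?_ (Nat.cast_nonneg _)
  apply Real.exp_le_exp.2
  rw [neg_le_neg_iff]
  have h3 : (μ / 2) ^ 2 / (4 * 1 * μ) = μ / 16 := by
    field_simp
    ring
  rw [h3]
  have h4 : (0 : ℝ) ≤ lam := Nat.cast_nonneg _
  linarith

theorem A2_bound (S : Finset V) (i : ℕ) (hi : i < T) (lam : ℕ)
    (h : 4000 * (lam : ℝ) ≤ th ^ T * S.card) :
    ((univ.filter (fun ω : V → Coin T N => ¬ A2 ω S i)).card : ℝ) ≤
      Real.exp (-lam) * Fintype.card (V → Coin T N) := by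
  rcases Nat.eq_zero_or_pos S.card with hn | hn
  · have h1 : (univ.filter (fun ω : V → Coin T N => ¬ A2 ω S i)) = ∅ := by
      refine Finset.filter_eq_empty_iff.2 fun ω _ => ?_
      rw [not_not]
      unfold A2
      rw [Finset.card_eq_zero.1 hn]
      simp
    rw [h1, Finset.card_empty, Nat.cast_zero]
    positivity
  have hnR : (0 : ℝ) < S.card := by exact_mod_cast hn
  have hth := Act_th0
  have hth1 := Act_th1
  have hyp : 0 < th ^ i := pow_pos hth _
  set μ : ℝ := th ^ i * S.card / 1024 with hμ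
  have hμ0 : 0 < μ := by positivity
  have hμl : 4000 * (lam : ℝ) ≤ 1024 * μ := by
    rw [hμ]
    have h1 : th ^ T * S.card ≤ th ^ i * S.card :=
      mul_le_mul_of_nonneg_right (pow_le_pow_of_le_one hth.le hth1 hi.le) hnR.le
    linarith
  have hc := chernoff_upper (Ω := V → Coin T N) S
    (fun x ω => newly ω i x) (fun _ => 1) (fun _ => th ^ i / 1024) 1 μ (3 * μ) one_pos
    (fun _ _ => zero_le_one) (fun _ _ => le_rfl) (fun _ _ => by positivity)
    (fun J' _ => by
      rw [Finset.prod_const]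
      refine le_trans (le_of_eq ?_) (newly_box (N := N) J' i hi).le
      exact Act_card_congr _ _ _ _ (fun _ => Iff.rfl))
    (by
      simp only [mul_one, Finset.sum_const, nsmul_eq_mul]
      rw [hμ]
      exact le_of_eq (by ring))
    hμ0 (by linarith)
  refine le_trans (Nat.cast_le.2 (Finset.card_le_card fun ω hω => ?_)) (hc.trans ?_)
  · rw [Finset.mem_filter] at hω ⊢
    refine ⟨Finset.mem_univ _, ?_⟩
    have h1 := hω.2
    unfold A2 at h1
    rw [not_le] at h1
    refine le_trans ?_ (le_trans (le_of_lt h1)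
      (le_of_eq (Act_filter_sum S (fun x => newly ω i x) _ _).symm))
    linarith
  refine mul_le_mul_of_nonneg_right ?_ (Nat.cast_nonneg _)
  apply Real.exp_le_exp.2
  rw [neg_le_neg_iff]
  have h4 : (0 : ℝ) ≤ lam := Nat.cast_nonneg _
  refine le_min ?_ ?_
  · have h3 : (3 * μ) ^ 2 / (4 * 1 * μ) = 9 / 4 * μ := by
      field_simp
      ring
    rw [h3]
    linarith
  · linarith

theorem A3_bound (S : Finset V) (hT : 1 ≤ T) (lam : ℕ)
    (h : 4000 * (lam : ℝ) ≤ th ^ T * S.card) :
    ((univ.filter (fun ω : V → Coin T N => ¬ A3 ω S)).card : ℝ) ≤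
      Real.exp (-lam) * Fintype.card (V → Coin T N) := by
  rcases Nat.eq_zero_or_pos S.card with hn | hn
  · have h1 : (univ.filter (fun ω : V → Coin T N => ¬ A3 ω S)) = ∅ := by
      refine Finset.filter_eq_empty_iff.2 fun ω _ => ?_
      rw [not_not]
      unfold A3
      rw [Finset.card_eq_zero.1 hn]
      simp
    rw [h1, Finset.card_empty, Nat.cast_zero]
    positivity
  have hnR : (0 : ℝ) < S.card := by exact_mod_cast hn
  have hth := Act_th0
  have hyp : 0 < th ^ T := pow_pos hth _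
  have hT1 : T - 1 + 1 = T := by omega
  set μ : ℝ := th ^ T * S.card with hμ
  have hμ0 : 0 < μ := by positivity
  have hc := chernoff_upper (Ω := V → Coin T N) S
    (fun x ω => ¬ act ω (T - 1) x) (fun _ => 1) (fun _ => th ^ T) 1 μ μ one_pos
    (fun _ _ => zero_le_one) (fun _ _ => le_rfl) (fun _ _ => by positivity)
    (fun J' _ => by
      have h1 := unact_box (N := N) (T := T) J' (T - 1) (by omega)
      rw [hT1] at h1
      rw [Finset.prod_const]
      refine le_trans (le_of_eq ?_) h1.le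
      exact Act_card_congr _ _ _ _ (fun _ => Iff.rfl))
    (by
      simp only [mul_one, Finset.sum_const, nsmul_eq_mul]
      rw [hμ, mul_comm])
    hμ0 hμ0.le
  refine le_trans (Nat.cast_le.2 (Finset.card_le_card fun ω hω => ?_)) (hc.trans ?_)
  · rw [Finset.mem_filter] at hω ⊢
    refine ⟨Finset.mem_univ _, ?_⟩
    have h1 := hω.2
    unfold A3 at h1
    rw [not_le] at h1
    refine le_trans ?_ (le_trans (le_of_lt h1)
      (le_of_eq (Act_filter_sum S (fun x => ¬ act ω (T - 1) x) _ _).symm))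
    linarith
  refine mul_le_mul_of_nonneg_right ?_ (Nat.cast_nonneg _)
  apply Real.exp_le_exp.2
  rw [neg_le_neg_iff]
  have h4 : (0 : ℝ) ≤ lam := Nat.cast_nonneg _
  refine le_min ?_ ?_
  · have h3 : μ ^ 2 / (4 * 1 * μ) = 1 / 4 * μ := by
      field_simp
    rw [h3]
    linarith
  · linarith

end Pool.Agent.H67.HY
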