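/-
ROW BC. Chernoff bound for a sum over fair bits.
PROOF. If `M < 0` impossible. Let `X β = ∑ a ∈ S, (if β (e a) then y a else x a)`. For `s > 0`: `∑_β exp (s X β) = |Ω| ∏_{a∈S} (exp (s x_a) + exp (s y_a))/2`
(the coordinates `e a` are distinct: `Finset.prod` over `I'` of functions of one coordinate, `Fintype.prod_sum`/`Finset.prod_univ_sum`; coordinates outside `e '' S` give factor 2 = sum over
`Bool` of 1; see `H28.sum_pow_count` for the pattern). With `u = s c ≤ 1`: `exp (s x) ≤ 1 + (x/c)(exp u - 1)` for `0 ≤ x ≤ c` (convexity) and `exp u - 1 ≤ u + u^2`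
(`Real.abs_exp_sub_one_sub_id_le`). So the product is `≤ ∏ (1 + ((x_a+y_a)/(2c)) (u+u^2)) ≤ exp ((M/c)(u+u^2))`.
Markov with threshold `M + t`, `t = 4 √(c M Λ) + 4 c Λ` (`(√M + 2√(cΛ))^2 = M + 4 √M √(cΛ) + 4 c Λ`): the count is `≤ |Ω| exp ((M u^2 - u t)/c)`.
If `M ≥ c Λ`: `u = √(cΛ/M) ≤ 1`: `M u^2 = c Λ`, `u t ≥ u * 4 √(cMΛ) = 4 c Λ`; exponent `≤ -3Λ`. If `M < cΛ`: `u = 1`: `M - t ≤ cΛ - 4cΛ`, exponent `≤ -3 Λ`.
-/
import Pool.Agent.H67.HY.Defs

set_option autoImplicit false

namespace Pool.Agent.H67.HY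

open Finset
open Classical

theorem BC_prod {I I' : Type} [Fintype I'] (S : Finset I) (e : I → I')
    (he : ∀ a ∈ S, ∀ b ∈ S, e a = e b → a = b) (h : I → Bool → ℝ) :
    ∑ β : I' → Bool, ∏ a ∈ S, h a (β (e a)) =
      Fintype.card (I' → Bool) * ∏ a ∈ S, (h a true + h a false) / 2 := by
  have h1 : ∀ β : I' → Bool, ∏ a ∈ S, h a (β (e a)) =
      ∏ i : I', ∏ a ∈ S.filter (fun a => e a = i), h a (β i) := by
    intro β
    rw [← Finset.prod_fiberwise S e (fun a => h a (β (e a)))]
    refine Finset.prod_congr rfl fun i _ => Finset.prod_congr rfl fun a ha => ?_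
    rw [(Finset.mem_filter.1 ha).2]
  have h2 : ∑ β : I' → Bool, ∏ i : I', ∏ a ∈ S.filter (fun a => e a = i), h a (β i) =
      ∏ i : I', ∑ b : Bool, ∏ a ∈ S.filter (fun a => e a = i), h a b := by
    rw [Finset.prod_univ_sum, Fintype.piFinset_univ]
  have h3 : ∀ i : I', ∑ b : Bool, ∏ a ∈ S.filter (fun a => e a = i), h a b =
      2 * ∏ a ∈ S.filter (fun a => e a = i), (h a true + h a false) / 2 := by
    intro i
    rw [Fintype.sum_bool]
    rcases (S.filter (fun a => e a = i)).eq_empty_or_nonempty with hE | ⟨a, ha⟩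
    · rw [hE]; norm_num
    · have hE : S.filter (fun a => e a = i) = {a} := by
        ext b
        simp only [Finset.mem_singleton]
        constructor
        · intro hb
          rw [Finset.mem_filter] at ha hb
          exact he b hb.1 a ha.1 (by rw [hb.2, ha.2])
        · rintro rfl; exact ha
      rw [hE]
      simp only [Finset.prod_singleton]
      ring
  rw [Finset.sum_congr rfl fun β _ => h1 β, h2, Finset.prod_congr rfl fun i _ => h3 i,
    Finset.prod_mul_distrib, Finset.prod_const, Finset.card_univ,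
    Finset.prod_fiberwise S e (fun a => (h a true + h a false) / 2)]
  congr 1
  rw [Fintype.card_fun, Fintype.card_bool]
  push_cast
  rfl

theorem BC_exp {c u x : ℝ} (hc : 0 < c) (hu0 : 0 ≤ u) (hu1 : u ≤ 1) (hx0 : 0 ≤ x) (hxc : x ≤ c) :
    Real.exp (u / c * x) ≤ 1 + x / c * (u + u ^ 2) := by
  have h1 : 0 ≤ x / c := by positivity
  have h2 : x / c ≤ 1 := (div_le_one hc).2 hxc
  have h3 := convexOn_exp.2 (Set.mem_univ (0 : ℝ)) (Set.mem_univ u) (sub_nonneg.2 h2) h1
    (by ring)
  simp only [smul_eq_mul, mul_zero, zero_add, Real.exp_zero, mul_one] at h3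
  have h4 : u / c * x = x / c * u := by ring
  rw [h4]
  have h5 : Real.exp u ≤ 1 + u + u ^ 2 := by
    have := Real.abs_exp_sub_one_sub_id_le (x := u) (by rw [abs_of_nonneg hu0]; exact hu1)
    have := (abs_le.1 this).2
    linarith
  have h6 := mul_le_mul_of_nonneg_left h5 h1
  linarith

theorem bit_chernoff {I I' : Type} [Fintype I'] (S : Finset I) (e : I → I')
    (he : ∀ a ∈ S, ∀ b ∈ S, e a = e b → a = b) (x y : I → ℝ) (c M Λ : ℝ) (hc : 0 < c)
    (hx0 : ∀ a ∈ S, 0 ≤ x a) (hxc : ∀ a ∈ S, x a ≤ c) (hy0 : ∀ a ∈ S, 0 ≤ y a)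
    (hyc : ∀ a ∈ S, y a ≤ c) (hM : ∑ a ∈ S, (x a + y a) / 2 ≤ M) (hM0 : 0 ≤ M) (hΛ : 0 < Λ) :
    ((univ.filter (fun β : I' → Bool =>
      (√M + 2 * √(c * Λ)) ^ 2 < ∑ a ∈ S, if β (e a) then y a else x a)).card : ℝ) ≤
      Real.exp (-Λ) * Fintype.card (I' → Bool) := by
  have hcΛ : 0 < c * Λ := mul_pos hc hΛ
  have hsM := Real.sq_sqrt hM0
  have hsc := Real.sq_sqrt hcΛ.le
  have hsM0 := Real.sqrt_nonneg M
  have hsc0 := Real.sqrt_nonneg (c * Λ)
  set th := (√M + 2 * √(c * Λ)) ^ 2 with hth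
  have hth' : th = M + 4 * (√M * √(c * Λ)) + 4 * (c * Λ) := by
    rw [hth]; nlinarith
  -- the main estimate for a parameter `u`
  have key : ∀ u : ℝ, 0 ≤ u → u ≤ 1 → M * (u + u ^ 2) - u * th ≤ -(c * Λ) →
      ((univ.filter (fun β : I' → Bool =>
        th < ∑ a ∈ S, if β (e a) then y a else x a)).card : ℝ) ≤
      Real.exp (-Λ) * Fintype.card (I' → Bool) := by
    intro u hu0 hu1 hu
    set X : (I' → Bool) → ℝ := fun β => ∑ a ∈ S, if β (e a) then y a else x a with hX
    set s := u / c with hs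
    have hs0 : 0 ≤ s := by positivity
    have h1 : ∑ β : I' → Bool, Real.exp (s * X β) =
        Fintype.card (I' → Bool) * ∏ a ∈ S, (Real.exp (s * y a) + Real.exp (s * x a)) / 2 := by
      have := BC_prod S e he (fun a b => Real.exp (s * if b = true then y a else x a))
      simp only [if_true, Bool.false_eq_true, if_false] at this
      rw [← this]
      refine Finset.sum_congr rfl fun β _ => ?_
      rw [← Real.exp_sum, hX, Finset.mul_sum]
    have h2 : ∏ a ∈ S, (Real.exp (s * y a) + Real.exp (s * x a)) / 2 ≤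
        Real.exp (M * (u + u ^ 2) / c) := by
      have h3 : ∀ a ∈ S, (Real.exp (s * y a) + Real.exp (s * x a)) / 2 ≤
          Real.exp ((x a + y a) / 2 * ((u + u ^ 2) / c)) := by
        intro a ha
        have e1 := BC_exp hc hu0 hu1 (hx0 a ha) (hxc a ha)
        have e2 := BC_exp hc hu0 hu1 (hy0 a ha) (hyc a ha)
        have e3 := Real.add_one_le_exp ((x a + y a) / 2 * ((u + u ^ 2) / c))
        have e4 : (x a + y a) / 2 * ((u + u ^ 2) / c) =
          (x a / c * (u + u ^ 2) + y a / c * (u + u ^ 2)) / 2 := by ring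
        rw [e4] at e3 ⊢
        linarith
      refine (Finset.prod_le_prod (fun a _ => by positivity) h3).trans ?_
      rw [← Real.exp_sum, ← Finset.sum_mul, Real.exp_le_exp, mul_div_assoc]
      exact mul_le_mul_of_nonneg_right hM (by positivity)
    have h4 : ((univ.filter (fun β : I' → Bool => th < X β)).card : ℝ) * Real.exp (s * th) ≤
        ∑ β : I' → Bool, Real.exp (s * X β) := by
      rw [← nsmul_eq_mul, ← Finset.sum_const]
      refine (Finset.sum_le_sum fun β hβ => ?_).trans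
        (Finset.sum_le_sum_of_subset_of_nonneg (Finset.filter_subset _ _)
          fun β _ _ => (Real.exp_pos _).le)
      apply Real.exp_le_exp.2
      exact mul_le_mul_of_nonneg_left (Finset.mem_filter.1 hβ).2.le hs0
    have h5 : ((univ.filter (fun β : I' → Bool => th < X β)).card : ℝ) * Real.exp (s * th) ≤
        Fintype.card (I' → Bool) * Real.exp (M * (u + u ^ 2) / c) :=
      h4.trans (h1.le.trans (mul_le_mul_of_nonneg_left h2 (Nat.cast_nonneg _)))
    have h6 : Real.exp (M * (u + u ^ 2) / c) ≤ Real.exp (-Λ) * Real.exp (s * th) := by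
      rw [← Real.exp_add, Real.exp_le_exp, div_le_iff₀ hc, hs]
      have : (-Λ + u / c * th) * c = -(c * Λ) + u * th := by
        field_simp
      rw [this]
      linarith
    have h7 : ((univ.filter (fun β : I' → Bool => th < X β)).card : ℝ) * Real.exp (s * th) ≤
        Real.exp (-Λ) * Fintype.card (I' → Bool) * Real.exp (s * th) := by
      refine h5.trans ?_
      have := mul_le_mul_of_nonneg_left h6 (Nat.cast_nonneg (α := ℝ) (Fintype.card (I' → Bool)))
      linarith
    exact le_of_mul_le_mul_right h7 (Real.exp_pos _)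
  rcases le_or_gt (c * Λ) M with h | h
  · have hM1 : 0 < M := lt_of_lt_of_le hcΛ h
    have hsM1 : 0 < √M := Real.sqrt_pos.2 hM1
    set u := √(c * Λ) / √M with hu
    have hu0 : 0 ≤ u := by positivity
    have hu1 : u ≤ 1 := (div_le_one hsM1).2 (Real.sqrt_le_sqrt h)
    have hm : u * √M = √(c * Λ) := div_mul_cancel₀ _ hsM1.ne'
    refine key u hu0 hu1 ?_
    rw [hth']
    have e1 : M * u ^ 2 = c * Λ := by
      calc M * u ^ 2 = (u * √M) ^ 2 := by rw [mul_pow, hsM]; ring
        _ = c * Λ := by rw [hm, hsc]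
    have e2 : u * (√M * √(c * Λ)) = c * Λ := by
      rw [← mul_assoc, hm, ← sq, hsc]
    have e3 : 0 ≤ u * (c * Λ) := mul_nonneg hu0 hcΛ.le
    nlinarith
  · refine key 1 zero_le_one le_rfl ?_
    rw [hth']
    have e3 : 0 ≤ √M * √(c * Λ) := mul_nonneg hsM0 hsc0
    nlinarith

end Pool.Agent.H67.HY
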