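/-
ROW KCa. Components of two matchings after a cut (deterministic).
PROOF. Let `R x = A' (A x)`, a bijection with inverse `x ↦ A (A' x)`. Fix `v`, let `v' = (fun x => A (A' x))^[l] v`, `P j = R^[j] v'`, so `P l = v`
(`Function.LeftInverse.iterate`), and `P (j+1) = A' (A (P j))`, `A' (P (j+1)) = A (P j)`.
Case 1: there are `i < j < l` with `P i = P j` or `i < j < l` with `P (l+i) = P (l+j)`. As `R` is injective, `R^[j-i] x = x` for `x = v'` or `x = v`
(cancel `R^[i]`: `Function.Injective.iterate`), and since `v = R^[l] v'` the same holds for `x = v'` in both cases (cancel again): with `s = j - i`,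
`0 < s < l`, `P s = P 0`. Hence every `P j` is one of `P 0, ..., P (s-1)` (`P (j) = P (j % s)`: `Function.IsPeriodicPt`, `Function.IsPeriodicPt.iterate_mod_apply`). `K = {P j : j < s} ∪ {A (P j) : j < s}`,
`K.card ≤ 2 s ≤ 4 l`, `v = P l ∈ K`. `K` is closed under `A`; closed under `A'`: `A' (P j) = A (P (j-1))` (for `j = 0` use `P 0 = P s`), `A' (A (P j)) = P (j+1)`.
Closed under `B` since `B w = w ∨ B w = A w`.
Case 2: otherwise `P 0..P(l-1)` are distinct and `P l, .., P (2l-1)` are distinct, so by `hrun` (for `v'` and for `v`; contraposition) there are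
`m0 < l` with `Z (P m0)` and `m1`, `l ≤ m1 < 2l`, with `Z (P m1)`. `K = {P j : m0 < j ≤ m1} ∪ {A (P j) : m0 ≤ j < m1}`; `card ≤ 2 (m1 - m0) ≤ 4 l`;
`v = P l ∈ K`. `B`-closed: `B (P j) ∈ {P j, A (P j)}`, fine for `m0 < j < m1`; `B (P m1) = P m1` by `hZ`. `B (A (P j)) ∈ {A (P j), P j}`, fine for `j > m0`;
`B (A (P m0)) = A (P m0)` by `hZ`. `A'`-closed: `A' (P j) = A (P (j-1))` with `m0 ≤ j - 1 < m1`; `A' (A (P j)) = P (j+1)`, `m0 < j+1 ≤ m1`.
-/
import Pool.Agent.H67.HY.Defs

set_option autoImplicit false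

namespace Pool.Agent.H67.HY

open Finset
open Classical

theorem cut_comp {V : Type} [Fintype V] (A A' B : V → V) (Z : V → Prop) (l : ℕ) (hl : 1 ≤ l)
    (hA : ∀ v, A (A v) = v) (hA' : ∀ v, A' (A' v) = v) (hB : ∀ v, B v = v ∨ B v = A v)
    (hZ : ∀ v, Z v → B v = v ∧ B (A v) = A v)
    (hrun : ∀ v, (∀ i j, i < j → j < l →
        (fun x => A' (A x))^[i] v ≠ (fun x => A' (A x))^[j] v) →
      ∃ m, m < l ∧ Z ((fun x => A' (A x))^[m] v)) (v : V) :
    ∃ K : Finset V, v ∈ K ∧ K.card ≤ 4 * l ∧ ∀ w ∈ K, B w ∈ K ∧ A' w ∈ K := by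
  obtain ⟨R, hR⟩ : ∃ R : V → V, R = fun x => A' (A x) := ⟨_, rfl⟩
  have hRx : ∀ x, R x = A' (A x) := fun x => by rw [hR]
  rw [← hR] at hrun
  have hinv1 : Function.LeftInverse R (fun x => A (A' x)) := fun x => by
    rw [hRx, hA, hA']
  have hinj : Function.Injective R := by
    intro x y h
    rw [hRx, hRx] at h
    have h1 := congrArg A' h
    rw [hA', hA'] at h1
    have h2 := congrArg A h1
    rwa [hA, hA] at h2
  obtain ⟨v', hv'⟩ : ∃ v', v' = (fun x => A (A' x))^[l] v := ⟨_, rfl⟩
  obtain ⟨P, hP⟩ : ∃ P : ℕ → V, P = fun j => R^[j] v' := ⟨_, rfl⟩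
  have hPj : ∀ j, P j = R^[j] v' := fun j => by rw [hP]
  have hPl : P l = v := by
    rw [hPj, hv']
    exact hinv1.iterate l v
  have hPs : ∀ j, P (j + 1) = A' (A (P j)) := fun j => by
    rw [hPj, hPj, Function.iterate_succ_apply', hRx]
  have hPs' : ∀ j, A' (P (j + 1)) = A (P j) := fun j => by rw [hPs, hA']
  have hRv : ∀ i, R^[i] v = P (i + l) := fun i => by
    rw [hPj, Function.iterate_add_apply, ← hPj l, hPl]
  by_cases hc : ∃ s, 0 < s ∧ s < l ∧ P s = P 0
  · -- periodic
    obtain ⟨s, hs0, hsl, hs⟩ := hc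
    have hper : Function.IsPeriodicPt R s v' := by
      rw [hPj, hPj] at hs
      exact hs
    have hmod : ∀ j, P (j % s) = P j := fun j => by
      rw [hPj, hPj]
      exact hper.iterate_mod_apply j
    obtain ⟨K, hK⟩ : ∃ K : Finset V, K = (range s).image P ∪ (range s).image (fun j => A (P j)) := ⟨_, rfl⟩
    have hm1 : ∀ j, P j ∈ K := fun j => by
      rw [hK, mem_union]
      left
      rw [mem_image]
      exact ⟨j % s, mem_range.2 (Nat.mod_lt _ hs0), hmod j⟩
    have hm2 : ∀ j, A (P j) ∈ K := fun j => by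
      rw [hK, mem_union]
      right
      rw [mem_image]
      exact ⟨j % s, mem_range.2 (Nat.mod_lt _ hs0), by rw [hmod j]⟩
    have hm3 : ∀ w ∈ K, ∃ j, w = P j ∨ w = A (P j) := by
      intro w hw
      rw [hK, mem_union, mem_image, mem_image] at hw
      rcases hw with ⟨j, -, h⟩ | ⟨j, -, h⟩
      · exact ⟨j, Or.inl h.symm⟩
      · exact ⟨j, Or.inr h.symm⟩
    refine ⟨K, by rw [← hPl]; exact hm1 l, ?_, ?_⟩
    · rw [hK]
      refine (card_union_le _ _).trans ?_
      have h1 : ((range s).image P).card ≤ s := card_image_le.trans (card_range s).le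
      have h2 : ((range s).image (fun j => A (P j))).card ≤ s := card_image_le.trans (card_range s).le
      omega
    · intro w hw
      obtain ⟨j, hj | hj⟩ := hm3 w hw
      · rw [hj]
        constructor
        · rcases hB (P j) with h | h
          · rw [h]; exact hm1 j
          · rw [h]; exact hm2 j
        · have e : P j = P ((j + s - 1) + 1) := by
            rw [← hmod j, ← hmod (j + s - 1 + 1)]
            congr 1
            have : j + s - 1 + 1 = j + s := by omega
            rw [this, Nat.add_mod_right]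
          rw [e, hPs']
          exact hm2 _
      · rw [hj]
        constructor
        · rcases hB (A (P j)) with h | h
          · rw [h]; exact hm2 j
          · rw [h, hA]; exact hm1 j
        · rw [← hPs]
          exact hm1 _
  · push Not at hc
    have hne : ∀ a b, a < b → b - a < l → P a ≠ P b := by
      intro a b hab hbl he
      have e1 : b = a + (b - a) := by omega
      rw [hPj, hPj, e1, Function.iterate_add_apply] at he
      have h1 := (hinj.iterate a) he
      refine hc (b - a) (by omega) hbl ?_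
      rw [hPj, hPj]
      exact h1.symm
    obtain ⟨m0, hm0, hZ0⟩ := hrun v' (fun i j hij hjl => by
      have := hne i j hij (by omega)
      rwa [hPj, hPj] at this)
    obtain ⟨m, hm, hZ1⟩ := hrun v (fun i j hij hjl => by
      rw [hRv, hRv]
      exact hne (i + l) (j + l) (by omega) (by omega))
    rw [hRv] at hZ1
    rw [← hPj] at hZ0
    obtain ⟨m1, hm1⟩ : ∃ m1, m1 = m + l := ⟨_, rfl⟩
    rw [← hm1] at hZ1
    obtain ⟨K, hK⟩ : ∃ K : Finset V, K = (Ioc m0 m1).image P ∪ (Ico m0 m1).image (fun j => A (P j)) :=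
      ⟨_, rfl⟩
    have k1 : ∀ j, m0 < j → j ≤ m1 → P j ∈ K := fun j h1 h2 => by
      rw [hK, mem_union]
      left
      rw [mem_image]
      exact ⟨j, mem_Ioc.2 ⟨h1, h2⟩, rfl⟩
    have k2 : ∀ j, m0 ≤ j → j < m1 → A (P j) ∈ K := fun j h1 h2 => by
      rw [hK, mem_union]
      right
      rw [mem_image]
      exact ⟨j, mem_Ico.2 ⟨h1, h2⟩, rfl⟩
    refine ⟨K, by rw [← hPl]; exact k1 l hm0 (by omega), ?_, ?_⟩
    · rw [hK]
      refine (card_union_le _ _).trans ?_
      have h1 : ((Ioc m0 m1).image P).card ≤ m1 - m0 := card_image_le.trans (Nat.card_Ioc _ _).le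
      have h2 : ((Ico m0 m1).image (fun j => A (P j))).card ≤ m1 - m0 := card_image_le.trans (Nat.card_Ico _ _).le
      omega
    · intro w hw
      rw [hK, mem_union, mem_image, mem_image] at hw
      rcases hw with ⟨j, hj, rfl⟩ | ⟨j, hj, rfl⟩
      · rw [mem_Ioc] at hj
        constructor
        · rcases Nat.lt_or_ge j m1 with h3 | h3
          · rcases hB (P j) with h | h
            · rw [h]; exact k1 j hj.1 hj.2
            · rw [h]; exact k2 j hj.1.le h3
          · have e : j = m1 := by omega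
            rw [e, (hZ _ hZ1).1]
            exact k1 m1 (by omega) le_rfl
        · obtain ⟨i, rfl⟩ : ∃ i, j = i + 1 := ⟨j - 1, by omega⟩
          rw [hPs']
          exact k2 i (by omega) (by omega)
      · rw [mem_Ico] at hj
        constructor
        · rcases Nat.lt_or_ge m0 j with h3 | h3
          · rcases hB (A (P j)) with h | h
            · rw [h]; exact k2 j hj.1 hj.2
            · rw [h, hA]; exact k1 j h3 hj.2.le
          · have e : j = m0 := by omega
            rw [e, (hZ _ hZ0).2]
            exact k2 m0 le_rfl (by omega)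
        · rw [← hPs]
          exact k1 (j + 1) (by omega) (by omega)

end Pool.Agent.H67.HY
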