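/-
ROW UC. Union bound for at least k of the events.
PROOF. `union_count`: if `k ≤ #{s ∈ S : B s ω}` there is `J ⊆ S`, `J.card = k`, all `B s ω`, `s ∈ J` (`Finset.exists_subset_card_eq`,
`J ∈ S.powersetCard k`). So the filter is contained in the `biUnion` over `S.powersetCard k` of the filters in `hB`; `Finset.card_biUnion_le`,
`Finset.card_powersetCard`, `Finset.sum_const`.
`union_exp`: `S.card.choose k ≤ S.card^k` (`Nat.choose_le_pow`), so `choose * y^k ≤ (S.card * y)^k ≤ (1/20)^k ≤ exp(-2)^k`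
(`exp 2 ≤ 20`: `Real.exp_one_lt_d9`/`exp 2 = exp 1 ^ 2 < 2.7182818286^2 < 8`).
`union_e`: `choose s k ≤ s^k/k!` (`Nat.choose_le_pow_div`) and `k^k ≤ 3^k k!` (`k^k/k! ≤ exp k ≤ 3^k`: `Real.pow_div_factorial_le_exp` or induction)
so `choose s k * y^k ≤ (3 s y/k)^k` if `k ≥ 1`, and `3 s y/k ≤ exp(-1)` follows from `9 s y ≤ k` (`exp 1 ≤ 3`). For `k = 0` both sides: `1 ≤ 1`.
-/
import Pool.Agent.H67.HY.Defs

set_option autoImplicit false

namespace Pool.Agent.H67.HY

open Finset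
open Classical

theorem union_count {Ω σ : Type} [Fintype Ω] (S : Finset σ) (B : σ → Ω → Prop) (y : ℝ) (k : ℕ)
    (hB : ∀ J ⊆ S, J.card = k →
      ((univ.filter (fun ω => ∀ s ∈ J, B s ω)).card : ℝ) ≤ y ^ k * Fintype.card Ω) :
    ((univ.filter (fun ω => k ≤ (S.filter (fun s => B s ω)).card)).card : ℝ) ≤
      S.card.choose k * y ^ k * Fintype.card Ω := by
  have hsub : univ.filter (fun ω => k ≤ (S.filter (fun s => B s ω)).card) ⊆
      (S.powersetCard k).biUnion (fun J => univ.filter (fun ω => ∀ s ∈ J, B s ω)) := by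
    intro ω hω
    rw [mem_filter] at hω
    obtain ⟨J, hJ, hJk⟩ := Finset.exists_subset_card_eq hω.2
    rw [Finset.mem_biUnion]
    refine ⟨J, Finset.mem_powersetCard.2 ⟨hJ.trans (Finset.filter_subset _ _), hJk⟩, ?_⟩
    rw [mem_filter]
    exact ⟨mem_univ _, fun s hs => (mem_filter.1 (hJ hs)).2⟩
  have h1 : ((univ.filter (fun ω => k ≤ (S.filter (fun s => B s ω)).card)).card : ℝ) ≤
      ∑ J ∈ S.powersetCard k, ((univ.filter (fun ω => ∀ s ∈ J, B s ω)).card : ℝ) := by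
    have := (Finset.card_le_card hsub).trans Finset.card_biUnion_le
    exact_mod_cast this
  refine h1.trans ?_
  have h2 : ∑ J ∈ S.powersetCard k, ((univ.filter (fun ω => ∀ s ∈ J, B s ω)).card : ℝ) ≤
      ∑ J ∈ S.powersetCard k, y ^ k * Fintype.card Ω := by
    refine Finset.sum_le_sum (fun J hJ => ?_)
    rw [Finset.mem_powersetCard] at hJ
    exact hB J hJ.1 hJ.2
  refine h2.trans (le_of_eq ?_)
  rw [Finset.sum_const, Finset.card_powersetCard, nsmul_eq_mul, mul_assoc]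

theorem union_exp {Ω σ : Type} [Fintype Ω] (S : Finset σ) (B : σ → Ω → Prop) (y : ℝ) (k : ℕ)
    (hy : 0 ≤ y) (hsy : S.card * y ≤ 1 / 20)
    (hB : ∀ J ⊆ S, J.card = k →
      ((univ.filter (fun ω => ∀ s ∈ J, B s ω)).card : ℝ) ≤ y ^ k * Fintype.card Ω) :
    ((univ.filter (fun ω => k ≤ (S.filter (fun s => B s ω)).card)).card : ℝ) ≤
      Real.exp (-(2 * k)) * Fintype.card Ω := by
  refine (union_count S B y k hB).trans ?_
  refine mul_le_mul_of_nonneg_right ?_ (Nat.cast_nonneg _)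
  have h1 : (S.card.choose k : ℝ) ≤ (S.card : ℝ) ^ k := by
    exact_mod_cast Nat.choose_le_pow S.card k
  have h2 : (S.card.choose k : ℝ) * y ^ k ≤ (S.card * y) ^ k := by
    rw [mul_pow]
    exact mul_le_mul_of_nonneg_right h1 (pow_nonneg hy _)
  have h3 : (1 / 20 : ℝ) ≤ Real.exp (-2) := by
    rw [Real.exp_neg, one_div]
    refine inv_anti₀ (Real.exp_pos _) ?_
    have he : Real.exp 2 = Real.exp 1 ^ 2 := by
      rw [← Real.exp_nat_mul]
      norm_num
    rw [he]
    have := Real.exp_one_lt_d9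
    have h0 := Real.exp_pos 1
    nlinarith
  have h4 : (S.card * y) ^ k ≤ Real.exp (-2) ^ k :=
    pow_le_pow_left₀ (mul_nonneg (Nat.cast_nonneg _) hy) (hsy.trans h3) k
  refine h2.trans (h4.trans (le_of_eq ?_))
  rw [← Real.exp_nat_mul]
  congr 1
  ring

theorem choose_mul_pow_le (s k : ℕ) (y : ℝ) (hy : 0 ≤ y) (h : 9 * (s * y) ≤ k) :
    (s.choose k : ℝ) * y ^ k ≤ Real.exp (-k) := by
  rcases Nat.eq_zero_or_pos k with rfl | hk
  · simp
  have hk' : (0 : ℝ) < k := by exact_mod_cast hk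
  have h1 : (s.choose k : ℝ) ≤ (s : ℝ) ^ k / (k.factorial : ℝ) := Nat.choose_le_pow_div k s
  have h2 : (k : ℝ) ^ k / (k.factorial : ℝ) ≤ Real.exp k :=
    Real.pow_div_factorial_le_exp (k : ℝ) hk'.le k
  have hfac : (0 : ℝ) < k.factorial := by exact_mod_cast Nat.factorial_pos k
  have he3 : Real.exp 1 ≤ 3 := by
    have := Real.exp_one_lt_d9
    linarith
  -- s^k y^k / k! = (s y / k)^k * (k^k / k!)
  have h3 : (s.choose k : ℝ) * y ^ k ≤ (s * y / k) ^ k * Real.exp k := by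
    calc (s.choose k : ℝ) * y ^ k ≤ (s : ℝ) ^ k / (k.factorial : ℝ) * y ^ k :=
          mul_le_mul_of_nonneg_right h1 (pow_nonneg hy _)
      _ = (s * y / k) ^ k * ((k : ℝ) ^ k / (k.factorial : ℝ)) := by
          rw [div_pow, mul_pow]
          field_simp
      _ ≤ (s * y / k) ^ k * Real.exp k :=
          mul_le_mul_of_nonneg_left h2 (pow_nonneg (by positivity) _)
  have h4 : (s * y / k : ℝ) ≤ 1 / 9 := by
    rw [div_le_div_iff₀ hk' (by norm_num)]
    linarith
  have h5 : (1 / 9 : ℝ) ≤ Real.exp (-2) := by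
    rw [Real.exp_neg, one_div]
    refine inv_anti₀ (Real.exp_pos _) ?_
    have he : Real.exp 2 = Real.exp 1 ^ 2 := by
      rw [← Real.exp_nat_mul]
      norm_num
    rw [he]
    have h0 := Real.exp_pos 1
    nlinarith
  have h6 : (s * y / k : ℝ) ^ k ≤ Real.exp (-2) ^ k :=
    pow_le_pow_left₀ (by positivity) (h4.trans h5) k
  refine h3.trans ((mul_le_mul_of_nonneg_right h6 (Real.exp_pos _).le).trans (le_of_eq ?_))
  rw [← Real.exp_nat_mul, ← Real.exp_add]
  congr 1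
  ring

end Pool.Agent.H67.HY
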