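/-
ROW KC. The random cut (local lemma).
PROOF. `L1 = 3 f^6`, `l = f * L1 = 3 f^7`. Randomness `ω : (V × Col k g) → Fin L1` (`L1 > 0`; write `0` as `⟨0, _⟩`). For `c` with `c.1 i = false`:
`R c v = v` if `ω (v,c) = 0` or `ω (N c v, c) = 0`, otherwise `R c v = N c v`; for `c.1 i = true`: `R c v = N c v`. Then `IsFam R` (`R c (R c v) = v`
because the condition is symmetric in `v, N c v`; `dis` from `hN.dis` as `R c v ≠ v → R c v = N c v`, and `R d v ∈ {v, N d v}`).
Bad events (finsets of `ω`; index type `ι = (V × Col k g) ⊕ V`):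
 (run (v,c)) empty if `c.1 i = true` or if the points `R0^[m] v` (`R0 x = N (flip i c) (N c x)`, `m < l`) are not distinct; otherwise `∀ m < l, ω (R0^[m] v, c) ≠ 0`.
   It depends only on the coordinates `(R0^[m] v, c)`, `m < l`. Size `≤ exp(-l/L1) = exp(-f)` times `|Ω|` by `card_box_ne`.
 (deg v) at least 3 colours `c` with `c.1 i = false`, `N c v ≠ v`, (`ω (v,c) = 0` or `ω (N c v,c) = 0`). Depends on the coordinates `(v,c), (N c v, c)`.
   Size: a 3-subset `J` of colours and for each `c ∈ J` a choice of `v` or `N c v` with `ω (.,c) = 0`: at most `C(f,3) * 8` boxes of 3 coordinates, each `(1/L1)^3 |Ω|`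
   (`card_box_eq`): total `≤ (f^3/6)*8/L1^3 = (4/81) f^(-15)`; (use `union_count` with `y = 2/L1`: for `J` of size 3, `#{∀ c ∈ J, ω(v,c)=0 ∨ ω(N c v,c)=0} ≤ Σ_{e : J → Bool}`
   boxes `= (2/L1)^3 |Ω|`; `C(f,3) ≤ f^3/6`.)
 Dependencies: a coordinate `(x,c)` is in the coordinate set of at most `l` run events (`(v,c)` with `v = R0^[-m] x`: for each `m < l` one `v`, `R0` injective) and of at most
 2 deg events (`v = x`, `v = N c x`). Coordinate sets have size `≤ max(l, 2f) = l`. So each event meets at most `d = l (l+2) ≤ 2 l^2 = 18 f^14` others.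
 `q = (4/81) f^(-15)`; `exp(-f) ≤ q` for `f ≥ 100` (`exp f ≥ f^17/17!` ... or `exp(f) ≥ (f/16)^... `; simplest: `Real.pow_div_factorial_le_exp`: `f^40/40! ≤ exp f`, `40! ≤ 10^48`, `f^24 ≥ 10^48`, so `exp f ≥ f^16`).
 `4 q d ≤ 4*(4/81)*18/f ≤ 1`, `4q ≤ 1`. `H28.local_lemma` gives `ω` avoiding all. Degree condition: `{c : N c v ≠ v ∧ R c v = v}` is contained in the colours counted in (deg v), so `≤ 2`.
 Components: `cut_comp` with `A = N c`, `A' = N (flip i c)`, `B = R c`, `Z x = (ω (x,c) = 0)`, `l`; `4 l = 12 f^7`; `R (flip i c) = N (flip i c)` as `(flip i c).1 i = true`.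
-/
import Pool.Agent.H67.HY.Box
import Pool.Agent.H67.HY.UC
import Pool.Agent.H67.HY.KCa

set_option autoImplicit false

namespace Pool.Agent.H67.HY

open Finset
open Classical

private theorem KC_card (k g : ℕ) : Fintype.card (Col k g) = 2 ^ k * g := by
  simp [Col]

private theorem KC_flip {k g : ℕ} (i : Fin k) (c : Col k g) : (flip i c).1 i = !(c.1 i) := by
  simp [flip]

/-- The number of functions with, for each `c ∈ J`, value `z` at one of two points. -/
private theorem KC_two {I C κ : Type} [Fintype I] [Fintype κ] (a b : C → I) (col : I → C)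
    (ha : ∀ c, col (a c) = c) (hb : ∀ c, col (b c) = c) (z : κ) (J : Finset C) :
    ((univ.filter (fun ω : I → κ => ∀ c ∈ J, (ω (a c) = z ∨ ω (b c) = z))).card : ℝ) ≤
      (2 / (Fintype.card κ : ℝ)) ^ J.card * Fintype.card (I → κ) := by
  have hsub : univ.filter (fun ω : I → κ => ∀ c ∈ J, (ω (a c) = z ∨ ω (b c) = z)) ⊆
      J.powerset.biUnion (fun e => univ.filter (fun ω : I → κ =>
        ∀ p ∈ J.image (fun c => (if c ∈ e then a c else b c)), ω p = z)) := by
    intro ω hω
    rw [mem_filter] at hω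
    rw [mem_biUnion]
    refine ⟨J.filter (fun c => ω (a c) = z), ?_, ?_⟩
    · rw [mem_powerset]
      exact filter_subset _ _
    · rw [mem_filter]
      refine ⟨mem_univ _, fun p hp => ?_⟩
      rw [mem_image] at hp
      obtain ⟨c, hc, rfl⟩ := hp
      by_cases h : ω (a c) = z
      · have h1 : c ∈ J.filter (fun c => ω (a c) = z) := mem_filter.2 ⟨hc, h⟩
        rw [if_pos h1]
        exact h
      · have h1 : c ∉ J.filter (fun c => ω (a c) = z) := fun h2 => h (mem_filter.1 h2).2
        rw [if_neg h1]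
        rcases hω.2 c hc with h2 | h2
        · exact absurd h2 h
        · exact h2
  have h1 := (card_le_card hsub).trans card_biUnion_le
  have h2 : ∀ e ∈ J.powerset, ((univ.filter (fun ω : I → κ =>
        ∀ p ∈ J.image (fun c => (if c ∈ e then a c else b c)), ω p = z)).card : ℝ) =
        (1 / (Fintype.card κ : ℝ)) ^ J.card * Fintype.card (I → κ) := by
    intro e _
    have h3 : (J.image (fun c => (if c ∈ e then a c else b c))).card = J.card := by
      rw [card_image_of_injective]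
      intro c d hcd
      have h4 : ∀ c, col (if c ∈ e then a c else b c) = c := by
        intro c
        split_ifs
        · exact ha c
        · exact hb c
      have h5 := congrArg col hcd
      simp only [h4] at h5
      exact h5
    rw [← h3]
    exact card_box_eq (J.image (fun c => (if c ∈ e then a c else b c))) z
  calc ((univ.filter (fun ω : I → κ => ∀ c ∈ J, (ω (a c) = z ∨ ω (b c) = z))).card : ℝ)
      ≤ ((∑ e ∈ J.powerset, (univ.filter (fun ω : I → κ =>
        ∀ p ∈ J.image (fun c => (if c ∈ e then a c else b c)), ω p = z)).card : ℕ) : ℝ) := by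
        exact_mod_cast h1
    _ = ∑ e ∈ J.powerset, (1 / (Fintype.card κ : ℝ)) ^ J.card * Fintype.card (I → κ) := by
        rw [Nat.cast_sum]
        exact sum_congr rfl h2
    _ = (2 / (Fintype.card κ : ℝ)) ^ J.card * Fintype.card (I → κ) := by
        rw [sum_const, card_powerset, nsmul_eq_mul]
        push_cast
        rw [← mul_assoc, ← mul_pow]
        congr 2
        ring

/-- Numerics: the run events. -/
private theorem KC_exp {f : ℕ} (hf : 100 ≤ f) :
    Real.exp (-(f : ℝ)) ≤ 4 / 81 / (f : ℝ) ^ 15 := by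
  have hf' : (100 : ℝ) ≤ f := by exact_mod_cast hf
  have h0 : (0 : ℝ) < f := by linarith
  have h1 := Real.pow_div_factorial_le_exp (f : ℝ) h0.le 40
  have h2 : (100 : ℝ) ^ 24 ≤ (f : ℝ) ^ 24 := pow_le_pow_left₀ (by norm_num) hf' 24
  have h3 : ((Nat.factorial 40 : ℕ) : ℝ) ≤ (100 : ℝ) ^ 24 := by
    have : Nat.factorial 40 ≤ 100 ^ 24 := by decide
    exact_mod_cast this
  have h4 : (f : ℝ) ^ 16 ≤ (f : ℝ) ^ 40 / (Nat.factorial 40 : ℕ) := by
    rw [le_div_iff₀ (by positivity)]
    calc (f : ℝ) ^ 16 * (Nat.factorial 40 : ℕ) ≤ (f : ℝ) ^ 16 * (f : ℝ) ^ 24 :=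
          mul_le_mul_of_nonneg_left (h3.trans h2) (by positivity)
      _ = (f : ℝ) ^ 40 := by ring
  have h5 : (f : ℝ) ^ 16 ≤ Real.exp f := h4.trans h1
  rw [Real.exp_neg, inv_eq_one_div, div_le_div_iff₀ (Real.exp_pos _) (by positivity), one_mul]
  have h6 : 100 * (f : ℝ) ^ 15 ≤ (f : ℝ) ^ 16 := by
    have : (f : ℝ) ^ 16 = f * (f : ℝ) ^ 15 := by ring
    rw [this]
    exact mul_le_mul_of_nonneg_right hf' (by positivity)
  have h7 : (0 : ℝ) < (f : ℝ) ^ 15 := by positivity
  linarith

/-- Numerics: the degree events. -/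
private theorem KC_deg {f s : ℕ} (hf : 100 ≤ f) (hs : s ≤ f) :
    ((s.choose 3 : ℕ) : ℝ) * (2 / ((3 * f ^ 6 : ℕ) : ℝ)) ^ 3 ≤ 4 / 81 / (f : ℝ) ^ 15 := by
  have h0 : (0 : ℝ) < f := by
    have : 0 < f := by omega
    exact_mod_cast this
  have h1 : ((s.choose 3 : ℕ) : ℝ) ≤ (f : ℝ) ^ 3 / 6 := by
    have h2 : s.choose 3 ≤ f.choose 3 := Nat.choose_le_choose 3 hs
    have h3 := Nat.choose_le_pow_div (α := ℝ) 3 f
    have h4 : ((Nat.factorial 3 : ℕ) : ℝ) = 6 := by norm_num [Nat.factorial]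
    rw [h4] at h3
    exact le_trans (by exact_mod_cast h2) h3
  calc ((s.choose 3 : ℕ) : ℝ) * (2 / ((3 * f ^ 6 : ℕ) : ℝ)) ^ 3
      ≤ (f : ℝ) ^ 3 / 6 * (2 / ((3 * f ^ 6 : ℕ) : ℝ)) ^ 3 :=
        mul_le_mul_of_nonneg_right h1 (by positivity)
    _ = 4 / 81 / (f : ℝ) ^ 15 := by
        push_cast
        field_simp
        norm_num

/-- Numerics: the condition of the local lemma. -/
private theorem KC_num {f : ℕ} (hf : 100 ≤ f) :
    4 * (4 / 81 / (f : ℝ) ^ 15) * ((3 * f ^ 7 * (3 * f ^ 7 + 2) : ℕ) : ℝ) ≤ 1 ∧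
      4 * (4 / 81 / (f : ℝ) ^ 15) ≤ 1 := by
  have hf' : (100 : ℝ) ≤ f := by exact_mod_cast hf
  have h0 : (0 : ℝ) < f := by linarith
  have h1 : (1 : ℝ) ≤ (f : ℝ) ^ 7 := one_le_pow₀ (by linarith)
  constructor
  · have h2 : ((3 * f ^ 7 * (3 * f ^ 7 + 2) : ℕ) : ℝ) ≤ 18 * (f : ℝ) ^ 14 := by
      push_cast
      nlinarith
    calc 4 * (4 / 81 / (f : ℝ) ^ 15) * ((3 * f ^ 7 * (3 * f ^ 7 + 2) : ℕ) : ℝ)
        ≤ 4 * (4 / 81 / (f : ℝ) ^ 15) * (18 * (f : ℝ) ^ 14) :=
          mul_le_mul_of_nonneg_left h2 (by positivity)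
      _ = 288 / 81 / (f : ℝ) := by
          field_simp
          norm_num
      _ ≤ 1 := by
          rw [div_le_one h0]
          linarith
  · have h2 : (1 : ℝ) ≤ (f : ℝ) ^ 15 := one_le_pow₀ (by linarith)
    have h3 : 4 / 81 / (f : ℝ) ^ 15 ≤ 4 / 81 := div_le_self (by norm_num) h2
    linarith

/-- The random cut: existence of a good choice. -/
private theorem KC_exists {V C I κ : Type} [Fintype V] [Fintype C] [Fintype I] [Fintype κ]
    (pt : V → C → I) (ver : I → V) (col : I → C) (hver : ∀ v c, ver (pt v c) = v)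
    (hcol : ∀ v c, col (pt v c) = c) (N N' : C → V → V) (hN : ∀ c v, N c (N c v) = v)
    (hN' : ∀ c v, N' c (N' c v) = v) (f l : ℕ) (hf : Fintype.card C = f) (hf100 : 100 ≤ f)
    (hl : l = 3 * f ^ 7) (hκ : Fintype.card κ = 3 * f ^ 6) (z : κ) :
    ∃ ω : I → κ,
      (∀ v c, (∀ a b, a < b → b < l →
          (fun x => N' c (N c x))^[a] v ≠ (fun x => N' c (N c x))^[b] v) →
        ∃ m, m < l ∧ ω (pt ((fun x => N' c (N c x))^[m] v) c) = z) ∧
      (∀ v, ∀ J : Finset C, (∀ c ∈ J, (ω (pt v c) = z ∨ ω (pt (N c v) c) = z)) → J.card ≤ 2) := by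
  obtain ⟨Rf, hRf⟩ : ∃ Rf : C → V → V, Rf = fun c x => N' c (N c x) := ⟨_, rfl⟩
  obtain ⟨Ri, hRi⟩ : ∃ Ri : C → V → V, Ri = fun c x => N c (N' c x) := ⟨_, rfl⟩
  have hinv : ∀ c, Function.LeftInverse (Ri c) (Rf c) := by
    intro c x
    rw [hRf, hRi]
    simp only [hN, hN']
  obtain ⟨B, hB⟩ : ∃ B : V → C → (I → κ) → Prop,
      B = fun v c ω => (ω (pt v c) = z ∨ ω (pt (N c v) c) = z) := ⟨_, rfl⟩
  -- the coordinates of the events
  obtain ⟨S, hS⟩ : ∃ S : V → C → Finset I,
      S = fun v c => (range l).image (fun m => pt ((Rf c)^[m] v) c) := ⟨_, rfl⟩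
  obtain ⟨D, hD⟩ : ∃ D : V → Finset I,
      D = fun v => univ.image (fun c => pt v c) ∪ univ.image (fun c => pt (N c v) c) := ⟨_, rfl⟩
  have hf1 : 1 ≤ f := by omega
  have hL1 : 0 < 3 * f ^ 6 := by positivity
  have hll : l = f * (3 * f ^ 6) := by rw [hl]; ring
  have hfl : 2 * f ≤ l := by
    rw [hl]
    have : f ^ 1 ≤ f ^ 7 := Nat.pow_le_pow_right hf1 (by norm_num)
    rw [pow_one] at this
    omega
  have hScard : ∀ v c, (S v c).card ≤ l := by
    intro v c
    rw [hS]
    exact card_image_le.trans (by rw [card_range])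
  have hDcard : ∀ v, (D v).card ≤ l := by
    intro v
    rw [hD]
    refine (card_union_le _ _).trans ?_
    have h1 : (univ.image (fun c : C => pt v c)).card ≤ f := by
      refine card_image_le.trans ?_
      rw [card_univ, hf]
    have h2 : (univ.image (fun c : C => pt (N c v) c)).card ≤ f := by
      refine card_image_le.trans ?_
      rw [card_univ, hf]
    omega
  -- the bad events
  obtain ⟨Ad, hAd⟩ : ∃ Ad : V → Finset (I → κ),
      Ad = fun v => univ.filter (fun ω => 3 ≤ (univ.filter (fun c => B v c ω)).card) := ⟨_, rfl⟩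
  obtain ⟨Ar, hAr⟩ : ∃ Ar : V → C → Finset (I → κ),
      Ar = fun v c => if (S v c).card = l then
        univ.filter (fun ω => ∀ p ∈ S v c, ω p ≠ z) else ∅ := ⟨_, rfl⟩
  obtain ⟨A, hA⟩ : ∃ A : (V × C) ⊕ V → Finset (I → κ),
      A = Sum.elim (fun p => Ar p.1 p.2) Ad := ⟨_, rfl⟩
  obtain ⟨Nb, hNb⟩ : ∃ Nb : (V × C) ⊕ V → Finset I,
      Nb = Sum.elim (fun p => S p.1 p.2) D := ⟨_, rfl⟩
  have hdep : ∀ j, Pool.Agent.H28.DependsOnly (A j) (Nb j) := by
    rintro (⟨v, c⟩ | v)
    · rw [hA, hNb]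
      simp only [Sum.elim_inl]
      intro ω ω' hω h
      rw [hAr] at h ⊢
      simp only at h ⊢
      by_cases h1 : (S v c).card = l
      · rw [if_pos h1] at h ⊢
        rw [mem_filter] at h ⊢
        refine ⟨mem_univ _, fun p hp => ?_⟩
        rw [← hω p hp]
        exact h.2 p hp
      · rw [if_neg h1] at h
        exact absurd h (notMem_empty _)
    · rw [hA, hNb]
      simp only [Sum.elim_inr]
      intro ω ω' hω h
      rw [hAd] at h ⊢
      simp only at h ⊢
      rw [mem_filter] at h ⊢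
      refine ⟨mem_univ _, ?_⟩
      have h2 : univ.filter (fun c => B v c ω') = univ.filter (fun c => B v c ω) := by
        refine filter_congr fun c _ => ?_
        have h3 : ω (pt v c) = ω' (pt v c) := by
          refine hω _ ?_
          rw [hD]
          exact mem_union_left _ (mem_image.2 ⟨c, mem_univ _, rfl⟩)
        have h4 : ω (pt (N c v) c) = ω' (pt (N c v) c) := by
          refine hω _ ?_
          rw [hD]
          exact mem_union_right _ (mem_image.2 ⟨c, mem_univ _, rfl⟩)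
        rw [hB]
        simp only
        rw [h3, h4]
      rw [h2]
      exact h.2
  -- the dependencies
  obtain ⟨T, hT⟩ : ∃ T : I → Finset ((V × C) ⊕ V),
      T = fun p => (range l).image (fun m => Sum.inl ((Ri (col p))^[m] (ver p), col p)) ∪
        ({Sum.inr (ver p), Sum.inr (N (col p) (ver p))} : Finset ((V × C) ⊕ V)) := ⟨_, rfl⟩
  have hTcard : ∀ p, (T p).card ≤ l + 2 := by
    intro p
    rw [hT]
    refine (card_union_le _ _).trans ?_
    refine Nat.add_le_add (card_image_le.trans (by rw [card_range])) ?_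
    exact card_le_two
  have hmem : ∀ (j : (V × C) ⊕ V) (p : I), p ∈ Nb j → j ∈ T p := by
    rintro (⟨v, c⟩ | v) p hp
    · rw [hNb] at hp
      simp only [Sum.elim_inl] at hp
      rw [hS] at hp
      simp only [mem_image, mem_range] at hp
      obtain ⟨m, hm, rfl⟩ := hp
      rw [hT]
      refine mem_union_left _ (mem_image.2 ⟨m, mem_range.2 hm, ?_⟩)
      rw [hcol, hver, (hinv c).iterate m v]
    · rw [hNb] at hp
      simp only [Sum.elim_inr] at hp
      rw [hD] at hp
      simp only [mem_union, mem_image, mem_univ, true_and] at hp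
      rw [hT]
      refine mem_union_right _ ?_
      rw [mem_insert, mem_singleton]
      rcases hp with ⟨c, rfl⟩ | ⟨c, rfl⟩
      · left
        rw [hver]
      · right
        rw [hver, hcol, hN]
  have hNcard : ∀ j, (Nb j).card ≤ l := by
    rintro (⟨v, c⟩ | v)
    · rw [hNb]
      exact hScard v c
    · rw [hNb]
      exact hDcard v
  have hnum := KC_num hf100
  have hq0 : (0 : ℝ) ≤ 4 / 81 / (f : ℝ) ^ 15 := by positivity
  have hΩ : (0 : ℝ) ≤ Fintype.card (I → κ) := Nat.cast_nonneg _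
  have hκ' : ((Fintype.card κ : ℕ) : ℝ) ≠ 0 := by
    rw [hκ]
    have : (3 * f ^ 6 : ℕ) ≠ 0 := hL1.ne'
    exact_mod_cast this
  have hprob : ∀ j, ((A j).card : ℝ) ≤
      4 / 81 / (f : ℝ) ^ 15 * Fintype.card (I → κ) := by
    rintro (⟨v, c⟩ | v)
    · rw [hA]
      simp only [Sum.elim_inl]
      rw [hAr]
      simp only
      by_cases h1 : (S v c).card = l
      · rw [if_pos h1]
        refine (card_box_ne (S v c) z).trans (mul_le_mul_of_nonneg_right ?_ hΩ)
        have h2 : ((S v c).card : ℝ) / ((Fintype.card κ : ℕ) : ℝ) = f := by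
          rw [h1, hll, ← hκ, Nat.cast_mul, mul_div_assoc, div_self hκ', mul_one]
        rw [h2]
        exact KC_exp hf100
      · rw [if_neg h1, card_empty, Nat.cast_zero]
        exact mul_nonneg hq0 hΩ
    · rw [hA]
      simp only [Sum.elim_inr]
      rw [hAd]
      simp only
      have h1 := union_count (Ω := I → κ) (univ : Finset C) (B v) (2 / ((3 * f ^ 6 : ℕ) : ℝ)) 3
        (by
          intro J _ hJ
          have h2 := KC_two (fun c : C => pt v c) (fun c => pt (N c v) c) col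
            (fun c => hcol _ c) (fun c => hcol _ c) z J
          rw [hJ, hκ] at h2
          refine le_trans (le_of_eq ?_) h2
          rw [Nat.cast_inj]
          congr 1
          ext ω
          simp only [mem_filter, mem_univ, true_and, hB])
      refine h1.trans (mul_le_mul_of_nonneg_right ?_ hΩ)
      refine KC_deg hf100 ?_
      rw [card_univ, hf]
  have hd : ∀ j, (Finset.univ.filter (fun j' => j' ≠ j ∧ ¬ Disjoint (Nb j) (Nb j'))).card ≤
      3 * f ^ 7 * (3 * f ^ 7 + 2) := by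
    intro j
    have hsub : (Finset.univ.filter (fun j' => j' ≠ j ∧ ¬ Disjoint (Nb j) (Nb j'))) ⊆
        (Nb j).biUnion T := by
      intro j' hj'
      rw [mem_filter] at hj'
      obtain ⟨-, -, h1⟩ := hj'
      rw [not_disjoint_iff] at h1
      obtain ⟨p, hp1, hp2⟩ := h1
      exact mem_biUnion.2 ⟨p, hp1, hmem j' p hp2⟩
    refine (card_le_card hsub).trans ?_
    refine (card_biUnion_le_card_mul _ _ (l + 2) fun p _ => hTcard p).trans ?_
    rw [← hl]
    exact Nat.mul_le_mul_right _ (hNcard j)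
  have : Nonempty (I → κ) := ⟨fun _ => z⟩
  obtain ⟨ω, hω⟩ := Pool.Agent.H28.local_lemma A Nb hdep (3 * f ^ 7 * (3 * f ^ 7 + 2))
    (4 / 81 / (f : ℝ) ^ 15) hq0 (by
      intro j
      refine le_trans (le_of_eq ?_) (hd j)
      congr 1) hprob hnum.1 hnum.2 Fintype.card_pos
  refine ⟨ω, fun v c hdist => ?_, fun v J hJ => ?_⟩
  · have h1 := hω (Sum.inl (v, c))
    have hcard : (S v c).card = l := by
      rw [hS]
      simp only
      rw [card_image_of_injOn, card_range]
      intro a ha b hb hab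
      rw [coe_range, Set.mem_Iio] at ha hb
      have hab' := congrArg ver hab
      simp only [hver] at hab'
      rw [hRf] at hab'
      rcases lt_trichotomy a b with h | h | h
      · exact absurd hab' (hdist a b h hb)
      · exact h
      · exact absurd hab'.symm (hdist b a h ha)
    rw [hA] at h1
    simp only [Sum.elim_inl] at h1
    rw [hAr] at h1
    simp only [if_pos hcard] at h1
    rw [mem_filter] at h1
    simp only [mem_univ, true_and] at h1
    push Not at h1
    obtain ⟨p, hp, hpz⟩ := h1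
    rw [hS] at hp
    simp only [mem_image, mem_range] at hp
    obtain ⟨m, hm, rfl⟩ := hp
    refine ⟨m, hm, ?_⟩
    rw [hRf] at hpz
    exact hpz
  · have h1 := hω (Sum.inr v)
    rw [hA] at h1
    simp only [Sum.elim_inr] at h1
    rw [hAd] at h1
    simp only at h1
    rw [mem_filter] at h1
    simp only [mem_univ, true_and, not_le] at h1
    have h2 : J ⊆ univ.filter (fun c => B v c ω) := by
      intro c hc
      rw [mem_filter, hB]
      exact ⟨mem_univ _, hJ c hc⟩
    have h3 := card_le_card h2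
    omega

theorem kempe_cut {V : Type} [Fintype V] {k g : ℕ} (N : Col k g → V → V) (hN : IsFam N)
    (i : Fin k) (f : ℕ) (hf : f = 2 ^ k * g) (hf100 : 100 ≤ f) :
    ∃ R : Col k g → V → V, IsFam R ∧ (∀ c v, R c v ≠ v → R c v = N c v) ∧
      (∀ v, (univ.filter (fun c => N c v ≠ v ∧ R c v = v)).card ≤ 2) ∧
      (∀ c : Col k g, c.1 i = false → ∀ v, ∃ K : Finset V, v ∈ K ∧ K.card ≤ 12 * f ^ 7 ∧
        ∀ w ∈ K, R c w ∈ K ∧ R (flip i c) w ∈ K) := by
  have hf1 : 1 ≤ f := by omega
  have hL1 : 0 < 3 * f ^ 6 := by positivity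
  obtain ⟨z, -⟩ : ∃ z : Fin (3 * f ^ 6), z = ⟨0, hL1⟩ := ⟨_, rfl⟩
  obtain ⟨ω, hω1, hω2⟩ := KC_exists (I := V × Col k g) (fun v c => (v, c)) Prod.fst Prod.snd
    (fun _ _ => rfl) (fun _ _ => rfl) N (fun c => N (flip i c)) hN.inv (fun c => hN.inv _)
    f (3 * f ^ 7) ((KC_card k g).trans hf.symm) hf100 rfl (Fintype.card_fin _) z
  obtain ⟨P, hP⟩ : ∃ P : Col k g → V → Prop,
      P = fun c v => c.1 i = false ∧ (ω (v, c) = z ∨ ω (N c v, c) = z) := ⟨_, rfl⟩
  obtain ⟨R, hR⟩ : ∃ R : Col k g → V → V, R = fun c v => if P c v then v else N c v := ⟨_, rfl⟩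
  have hPs : ∀ c v, P c (N c v) ↔ P c v := by
    intro c v
    rw [hP]
    simp only [hN.inv]
    constructor
    · rintro ⟨h1, h2⟩
      exact ⟨h1, h2.symm⟩
    · rintro ⟨h1, h2⟩
      exact ⟨h1, h2.symm⟩
  have hRp : ∀ c v, P c v → R c v = v := by
    intro c v h
    rw [hR]
    exact if_pos h
  have hRn : ∀ c v, ¬ P c v → R c v = N c v := by
    intro c v h
    rw [hR]
    exact if_neg h
  have hRor : ∀ c v, R c v = v ∨ R c v = N c v := by
    intro c v
    by_cases h : P c v
    · exact Or.inl (hRp c v h)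
    · exact Or.inr (hRn c v h)
  have hRne : ∀ c v, R c v ≠ v → R c v = N c v := by
    intro c v h
    rcases hRor c v with h1 | h1
    · exact absurd h1 h
    · exact h1
  refine ⟨R, ⟨?_, ?_⟩, hRne, ?_, ?_⟩
  · intro c v
    by_cases h : P c v
    · rw [hRp c v h, hRp c v h]
    · rw [hRn c v h, hRn c _ (fun h1 => h ((hPs c v).1 h1)), hN.inv]
  · intro c d v hcd hv heq
    have h1 := hRne c v hv
    rw [h1] at hv heq
    rcases hRor d v with h2 | h2
    · rw [h2] at heq
      exact hv heq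
    · rw [h2] at heq
      exact hN.dis c d v hcd hv heq
  · intro v
    refine hω2 v _ fun c hc => ?_
    rw [mem_filter] at hc
    obtain ⟨-, hc1, hc2⟩ := hc
    have h2 : P c v := by
      by_contra h3
      rw [hRn c v h3] at hc2
      exact hc1 hc2
    rw [hP] at h2
    exact h2.2
  · intro c hc v
    have hflip : (flip i c).1 i ≠ false := by
      rw [KC_flip, hc]
      simp
    have hRflip : ∀ w, R (flip i c) w = N (flip i c) w := by
      intro w
      refine hRn _ _ ?_
      rw [hP]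
      exact fun h => hflip h.1
    obtain ⟨K, hK1, hK2, hK3⟩ := cut_comp (N c) (N (flip i c)) (R c) (fun x => ω (x, c) = z)
      (3 * f ^ 7) (by
        have : 1 ≤ f ^ 7 := Nat.one_le_pow _ _ hf1
        omega) (hN.inv c) (hN.inv _) (hRor c)
      (by
        intro w hw
        have h1 : P c w := by
          rw [hP]
          exact ⟨hc, Or.inl hw⟩
        exact ⟨hRp c w h1, hRp c _ ((hPs c w).2 h1)⟩)
      (fun w hw => hω1 w c hw) v
    refine ⟨K, hK1, hK2.trans (le_of_eq (by ring)), fun w hw => ?_⟩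
    rw [hRflip]
    exact hK3 w hw

end Pool.Agent.H67.HY
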