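/-
ROW KS. Random swap of two-coloured components (local lemma).
PROOF. For `c` with `c.1 i = false` let `~_c` be the equivalence relation on `V` generated by `x ~ R c x`, `x ~ R (flip i c) x` (`Relation.EqvGen.setoid`), and
`rep c v = Quotient.out (Quotient.mk _ v)`; so `rep c (R c v) = rep c v = rep c (R (flip i c) v)` and `rep c v = rep c w ↔ v ~_c w`. With `K` of `hK c v`: `v ∈ K` and
`x ∈ K ↔ y ∈ K` for `y ∈ {R c x, R (flip i c) x}` (both maps are involutions), so the whole class of `v` is in `K`: at most `12 f^7` vertices `w` have `rep c w = rep c v`.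
Put `base c = c` if `c.1 i = false`, else `flip i c` (`flip i (flip i c) = c`, `(flip i c).1 i = !c.1 i`). Randomness `β : (V × Col k g) → Bool`;
`N' c v = if β (rep (base c) v, base c) then R (flip i c) v else R c v`.
`IsFam N'`: `rep (base c) (N' c v) = rep (base c) v`, so `N' c (N' c v) = v`. `dis`: let `c ≠ d`, `N' c v ≠ v`, `N' c v = R c1 v`, `N' d v = R d1 v`, `c1 ∈ {c, flip i c}`, `d1 ∈ {d, flip i d}`;
`c1 ≠ d1`: if `base c ≠ base d` clear; if `base c = base d` then `d = flip i c`, the bit is the same, so `c1 ≠ d1`. The two `∃ c'` statements: `c' ∈ {c, flip i c}`.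
Potential. Fix `w`, `P = {c : c.1 i = false}`. `c ↦ flip i c` is a bijection of `P` with its complement, so
`pot N' T (i+1) w = (1/2)^(k-1-i) ∑_{c∈P} (t(c, N' c w) + t(flip i c, N' (flip i c) w))`, where `t(d,x) = if x ≠ w then #{y ∈ T x : Agree (i+1) d.1 y} else 0` (`k - (i+1) = k-1-i`).
For `c ∈ P` the summand is `X_c = t(c, R c w) + t(flip i c, R (flip i c) w)` if the bit `β (rep c w, c)` is false, `Y_c = t(c, R (flip i c) w) + t(flip i c, R c w)` if true. Both are in `[0,4]`.
`X_c + Y_c = [t(c,R c w) + t(flip i c, R c w)] + [t(c, R(flip i c) w) + t(flip i c, R (flip i c) w)]` and `#{y∈T: Agree (i+1) c.1 y} + #{y ∈ T: Agree (i+1) (flip i c).1 y} = #{y ∈ T : Agree i c.1 y}`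
(`y` agreeing with `c.1` before `i` has `y i = c.1 i` or `y i = (flip i c).1 i`; `flip i` does not change the bits `≠ i`), also `= #{Agree i (flip i c).1 y}`. So
`(1/2)^(k-1-i) ∑_{c∈P} (X_c+Y_c)/2 = pot R T i w ≤ M`. `bit_chernoff` with `S = P`, `e c = (rep c w, c)` (injective), `x, y = (1/2)^(k-1-i) X, Y ∈ [0, c0]`, `c0 = 4 (1/2)^(k-1-i)`,
`Λ = 10 log f > 0`: the event `A w = {β : bound < pot N' T (i+1) w}` has `≤ exp(-Λ) |Ω| = f^(-10) |Ω|` elements. It depends only on the coordinates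
`{(rep c w, c) : c ∈ P}` (`≤ f` of them, `card (Col k g) = 2^k g = f`). `A w'` has a common coordinate with `A w` only if `rep c w' = rep c w` for some `c ∈ P`: at most `f * 12 f^7 = 12 f^8` vertices `w'`.
`H28.local_lemma` (index type `V`, `q = f^(-10)`, `d = 12 f^8`: `4 q d = 48/f^2 ≤ 1`).
-/
import Pool.Agent.H67.HY.BC

set_option autoImplicit false

namespace Pool.Agent.H67.HY

open Finset
open Classical

/-- Local lemma with the Chernoff bound. -/
theorem KS_ll {V I I' : Type} [Fintype V] [Fintype I'] (S : Finset I) (e : V → I → I')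
    (he : ∀ w, ∀ a ∈ S, ∀ b ∈ S, e w a = e w b → a = b) (x y : V → I → ℝ) (c M Λ : ℝ) (hc : 0 < c)
    (hx : ∀ w, ∀ a ∈ S, 0 ≤ x w a ∧ x w a ≤ c) (hy : ∀ w, ∀ a ∈ S, 0 ≤ y w a ∧ y w a ≤ c)
    (hM : ∀ w, ∑ a ∈ S, (x w a + y w a) / 2 ≤ M) (hM0 : 0 ≤ M) (hΛ : 0 < Λ) (d : ℕ)
    (hd : ∀ w, ∃ D : Finset V, D.card ≤ d ∧ ∀ w', (∃ a ∈ S, ∃ b ∈ S, e w a = e w' b) → w' ∈ D)
    (hq : 4 * Real.exp (-Λ) * d ≤ 1) (hq' : 4 * Real.exp (-Λ) ≤ 1) :
    ∃ β : I' → Bool, ∀ w, ∑ a ∈ S, (if β (e w a) then y w a else x w a) ≤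
      (√M + 2 * √(c * Λ)) ^ 2 := by
  let A : V → Finset (I' → Bool) := fun w => univ.filter (fun β : I' → Bool =>
      (√M + 2 * √(c * Λ)) ^ 2 < ∑ a ∈ S, if β (e w a) then y w a else x w a)
  have hdep : ∀ w, H28.DependsOnly (A w) (S.image (e w)) := by
    intro w β β' hββ hβ
    have h0 := (mem_filter.1 hβ).2
    refine mem_filter.2 ⟨mem_univ _, h0.trans_le (le_of_eq ?_)⟩
    refine sum_congr rfl fun a ha => ?_
    rw [hββ (e w a) (mem_image_of_mem _ ha)]
  have hcard : ∀ w, (univ.filter (fun w' => w' ≠ w ∧ ¬ Disjoint (S.image (e w)) (S.image (e w')))).card ≤ d := by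
    intro w
    obtain ⟨D, hD1, hD2⟩ := hd w
    refine (card_le_card fun w' hw' => hD2 w' ?_).trans hD1
    rw [mem_filter] at hw'
    obtain ⟨-, -, h2⟩ := hw'
    rw [not_disjoint_iff] at h2
    obtain ⟨z, hz1, hz2⟩ := h2
    obtain ⟨a, ha, rfl⟩ := mem_image.1 hz1
    obtain ⟨b, hb, hb2⟩ := mem_image.1 hz2
    exact ⟨a, ha, b, hb, hb2.symm⟩
  have hA : ∀ w, ((A w).card : ℝ) ≤ Real.exp (-Λ) * Fintype.card (I' → Bool) := fun w =>
    bit_chernoff S (e w) (he w) (x w) (y w) c M Λ hc (fun a ha => (hx w a ha).1)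
      (fun a ha => (hx w a ha).2) (fun a ha => (hy w a ha).1) (fun a ha => (hy w a ha).2) (hM w)
      hM0 hΛ
  obtain ⟨β, hβ⟩ := H28.local_lemma A (fun w => S.image (e w)) hdep d (Real.exp (-Λ))
    (Real.exp_pos _).le hcard hA hq hq' Fintype.card_pos
  refine ⟨β, fun w => ?_⟩
  by_contra hcon
  exact hβ w (mem_filter.2 ⟨mem_univ _, lt_of_not_ge hcon⟩)

variable {V : Type} {k g : ℕ}

theorem KS_flip_bit (i : Fin k) (c : Col k g) : (flip i c).1 i = !c.1 i := by
  unfold flip
  simp

theorem KS_flip_ne (i : Fin k) (c : Col k g) {j : Fin k} (h : j ≠ i) : (flip i c).1 j = c.1 j := by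
  unfold flip
  simp [Function.update_of_ne h]

theorem KS_flip_flip (i : Fin k) (c : Col k g) : flip i (flip i c) = c := by
  refine Prod.ext ?_ rfl
  funext j
  by_cases h : j = i
  · subst h
    rw [KS_flip_bit, KS_flip_bit, Bool.not_not]
  · rw [KS_flip_ne i _ h, KS_flip_ne i _ h]

/-- The colour of the pair with bit `false`. -/
noncomputable def KS_base (i : Fin k) (c : Col k g) : Col k g := if c.1 i = false then c else flip i c

theorem KS_base_flip (i : Fin k) (c : Col k g) : KS_base i (flip i c) = KS_base i c := by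
  unfold KS_base
  rw [KS_flip_bit, KS_flip_flip]
  cases h : c.1 i <;> simp

theorem KS_base_or (i : Fin k) (c : Col k g) : KS_base i c = c ∨ KS_base i c = flip i c := by
  unfold KS_base
  split_ifs
  · exact Or.inl rfl
  · exact Or.inr rfl

/-- The class of a vertex. -/
noncomputable def KS_setoid (R : Col k g → V → V) (i : Fin k) (c : Col k g) : Setoid V :=
  Relation.EqvGen.setoid (fun x y => y = R c x ∨ y = R (flip i c) x)

/-- The representative. -/
noncomputable def KS_rep (R : Col k g → V → V) (i : Fin k) (c : Col k g) (v : V) : V :=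
  (Quotient.mk (KS_setoid R i c) v).out

theorem KS_rep_eq {R : Col k g → V → V} {i : Fin k} {c : Col k g} {v w : V}
    (h : KS_rep R i c v = KS_rep R i c w) :
    Relation.EqvGen (fun x y => y = R c x ∨ y = R (flip i c) x) v w := by
  have h1 := congrArg (Quotient.mk (KS_setoid R i c)) h
  unfold KS_rep at h1
  rw [Quotient.out_eq, Quotient.out_eq] at h1
  exact Quotient.exact h1

theorem KS_rep_of {R : Col k g → V → V} {i : Fin k} {c : Col k g} {v w : V}
    (h : w = R c v ∨ w = R (flip i c) v) : KS_rep R i c w = KS_rep R i c v := by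
  unfold KS_rep
  congr 1
  exact (Quotient.sound (s := KS_setoid R i c) (Relation.EqvGen.rel _ _ h)).symm

/-- The class of `v` is contained in every closed set containing `v`. -/
theorem KS_closed {R : Col k g → V → V} (hR : IsFam R) {i : Fin k} {c : Col k g} {K : Finset V}
    (hK : ∀ w ∈ K, R c w ∈ K ∧ R (flip i c) w ∈ K) {v w : V}
    (h : Relation.EqvGen (fun x y => y = R c x ∨ y = R (flip i c) x) v w) : v ∈ K ↔ w ∈ K := by
  induction h with
  | rel x y h =>
    rcases h with rfl | rfl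
    · refine ⟨fun h => (hK x h).1, fun h => ?_⟩
      have := (hK _ h).1
      rwa [hR.inv] at this
    · refine ⟨fun h => (hK x h).2, fun h => ?_⟩
      have := (hK _ h).2
      rwa [hR.inv] at this
  | refl x => exact Iff.rfl
  | symm x y _ ih => exact ih.symm
  | trans x y z _ _ ih1 ih2 => exact ih1.trans ih2

/-- The colour whose matching is used. -/
noncomputable def KS_tw (R : Col k g → V → V) (i : Fin k) (β : V × Col k g → Bool) (v : V)
    (c : Col k g) : Col k g :=
  if β (KS_rep R i (KS_base i c) v, KS_base i c) then flip i c else c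

theorem KS_tw_def (R : Col k g → V → V) (i : Fin k) (β : V × Col k g → Bool) (v : V)
    (c : Col k g) : KS_tw R i β v c =
      if β (KS_rep R i (KS_base i c) v, KS_base i c) then flip i c else c := rfl

theorem KS_tw_base (R : Col k g → V → V) (i : Fin k) (β : V × Col k g → Bool) (v : V)
    (c : Col k g) : KS_base i (KS_tw R i β v c) = KS_base i c := by
  unfold KS_tw
  split_ifs
  · exact KS_base_flip i c
  · rfl

theorem KS_tw_tw (R : Col k g → V → V) (i : Fin k) (β : V × Col k g → Bool) (v : V)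
    (c : Col k g) : KS_tw R i β v (KS_tw R i β v c) = c := by
  have h := KS_tw_base R i β v c
  rw [KS_tw_def R i β v (KS_tw R i β v c), h, KS_tw_def R i β v c]
  split_ifs
  · exact KS_flip_flip i c
  · rfl

theorem KS_tw_inj (R : Col k g → V → V) (i : Fin k) (β : V × Col k g → Bool) (v : V)
    {c d : Col k g} (h : KS_tw R i β v c = KS_tw R i β v d) : c = d := by
  rw [← KS_tw_tw R i β v c, h, KS_tw_tw]

theorem KS_base_rep (R : Col k g → V → V) (i : Fin k) (c d : Col k g) (v : V)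
    (h : d = c ∨ d = flip i c) : KS_rep R i (KS_base i c) (R d v) = KS_rep R i (KS_base i c) v := by
  apply KS_rep_of
  rcases KS_base_or i c with h1 | h1 <;> rw [h1]
  · rcases h with rfl | rfl
    · exact Or.inl rfl
    · exact Or.inr rfl
  · rw [KS_flip_flip]
    rcases h with rfl | rfl
    · exact Or.inr rfl
    · exact Or.inl rfl

theorem KS_tw_or (R : Col k g → V → V) (i : Fin k) (β : V × Col k g → Bool) (v : V)
    (c : Col k g) : KS_tw R i β v c = c ∨ KS_tw R i β v c = flip i c := by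
  unfold KS_tw
  split_ifs
  · exact Or.inr rfl
  · exact Or.inl rfl

theorem KS_tw_R (R : Col k g → V → V) (i : Fin k) (β : V × Col k g → Bool) (v : V)
    (c : Col k g) : KS_tw R i β (R (KS_tw R i β v c) v) c = KS_tw R i β v c := by
  have h := KS_base_rep R i c (KS_tw R i β v c) v (KS_tw_or R i β v c)
  rw [KS_tw_def R i β (R (KS_tw R i β v c) v) c, h]
  rfl

theorem KS_fam {R : Col k g → V → V} (hR : IsFam R) (i : Fin k) (β : V × Col k g → Bool) :
    IsFam (fun c v => R (KS_tw R i β v c) v) where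
  inv := by
    intro c v
    show R (KS_tw R i β (R (KS_tw R i β v c) v) c) (R (KS_tw R i β v c) v) = v
    rw [KS_tw_R, hR.inv]
  dis := by
    intro c d v hcd hne
    exact hR.dis _ _ v (fun h => hcd (KS_tw_inj R i β v h)) hne

/-- One term of the potential. -/
noncomputable def KS_t (T : V → Finset (Fin k → Bool)) (n : ℕ) (w : V) (c : Col k g) (x : V) : ℝ :=
  if x ≠ w then (((T x).filter (fun y => Agree n c.1 y)).card : ℝ) else 0

theorem KS_pot (N : Col k g → V → V) (T : V → Finset (Fin k → Bool)) (n : ℕ) (w : V) :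
    pot N T n w = (∑ c : Col k g, KS_t T n w c (N c w)) * (1 / 2) ^ (k - n) := rfl

theorem KS_t_bd {T : V → Finset (Fin k → Bool)} (hT : ∀ v, (T v).card ≤ 2) (n : ℕ) (w : V)
    (c : Col k g) (x : V) : 0 ≤ KS_t T n w c x ∧ KS_t T n w c x ≤ 2 := by
  unfold KS_t
  split_ifs
  · refine ⟨Nat.cast_nonneg _, ?_⟩
    exact_mod_cast (card_filter_le _ _).trans (hT x)
  · exact ⟨le_rfl, by norm_num⟩

theorem KS_agree (i : Fin k) (c : Col k g) (y : Fin k → Bool) :
    (Agree i.1 c.1 y ↔ (Agree (i.1 + 1) c.1 y ∨ Agree (i.1 + 1) (flip i c).1 y)) ∧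
      ¬ (Agree (i.1 + 1) c.1 y ∧ Agree (i.1 + 1) (flip i c).1 y) := by
  refine ⟨⟨fun h => ?_, fun h => ?_⟩, fun h => ?_⟩
  · by_cases hy : c.1 i = y i
    · left
      intro j hj
      rcases Nat.lt_succ_iff_lt_or_eq.1 hj with h1 | h1
      · exact h j h1
      · have : j = i := Fin.ext h1
        rw [this]
        exact hy
    · right
      intro j hj
      rcases Nat.lt_succ_iff_lt_or_eq.1 hj with h1 | h1
      · have : j ≠ i := fun h2 => by
          rw [h2] at h1
          exact lt_irrefl _ h1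
        rw [KS_flip_ne i c this]
        exact h j h1
      · have : j = i := Fin.ext h1
        rw [this, KS_flip_bit]
        cases h2 : c.1 i <;> cases h3 : y i <;> simp_all
  · intro j hj
    rcases h with h | h
    · exact h j (hj.trans (Nat.lt_succ_self _))
    · have h1 := h j (hj.trans (Nat.lt_succ_self _))
      have : j ≠ i := fun h2 => by
        rw [h2] at hj
        exact lt_irrefl _ hj
      rwa [KS_flip_ne i c this] at h1
  · have h1 := h.1 i (Nat.lt_succ_self _)
    have h2 := h.2 i (Nat.lt_succ_self _)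
    rw [KS_flip_bit, ← h1] at h2
    cases h3 : c.1 i <;> simp_all

theorem KS_t_add (T : V → Finset (Fin k → Bool)) (i : Fin k) (w : V) (c : Col k g) (x : V) :
    KS_t T (i.1 + 1) w c x + KS_t T (i.1 + 1) w (flip i c) x = KS_t T i.1 w c x := by
  unfold KS_t
  split_ifs
  · rw [← Nat.cast_add, ← card_union_of_disjoint]
    · congr 2
      ext y
      rw [mem_union, mem_filter, mem_filter, mem_filter, (KS_agree i c y).1]
      tauto
    · rw [disjoint_left]
      intro y h1 h2
      exact (KS_agree i c y).2 ⟨(mem_filter.1 h1).2, (mem_filter.1 h2).2⟩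
  · simp

theorem KS_t_flip (T : V → Finset (Fin k → Bool)) (i : Fin k) (w : V) (c : Col k g) (x : V) :
    KS_t T i.1 w (flip i c) x = KS_t T i.1 w c x := by
  rw [← KS_t_add T i w (flip i c) x, KS_flip_flip, add_comm, KS_t_add]

/-- Sum over the pairs of colours. -/
theorem KS_pairs (i : Fin k) (F : Col k g → ℝ) :
    ∑ c : Col k g, F c = ∑ c ∈ univ.filter (fun c : Col k g => c.1 i = false), (F c + F (flip i c)) := by
  rw [← sum_filter_add_sum_filter_not univ (fun c : Col k g => c.1 i = false), sum_add_distrib]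
  congr 1
  symm
  refine sum_bij' (fun c _ => flip i c) (fun c _ => flip i c) ?_ ?_ ?_ ?_ ?_
  · intro c hc
    rw [mem_filter] at hc ⊢
    refine ⟨mem_univ _, ?_⟩
    rw [KS_flip_bit, hc.2]
    simp
  · intro c hc
    rw [mem_filter] at hc ⊢
    refine ⟨mem_univ _, ?_⟩
    rw [KS_flip_bit]
    have := hc.2
    cases h : c.1 i <;> simp_all
  · exact fun c _ => KS_flip_flip i c
  · exact fun c _ => KS_flip_flip i c
  · exact fun c _ => rfl

theorem kempe_swap {V : Type} [Fintype V] {k g : ℕ} (R : Col k g → V → V) (hR : IsFam R)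
    (T : V → Finset (Fin k → Bool)) (hT : ∀ v, (T v).card ≤ 2)
    (i : Fin k) (f : ℕ) (hf : f = 2 ^ k * g) (hf100 : 100 ≤ f)
    (hK : ∀ c : Col k g, c.1 i = false → ∀ v, ∃ K : Finset V, v ∈ K ∧ K.card ≤ 12 * f ^ 7 ∧
        ∀ w ∈ K, R c w ∈ K ∧ R (flip i c) w ∈ K)
    (M : ℝ) (hM0 : 0 ≤ M) (hM : ∀ w, pot R T i w ≤ M) :
    ∃ N' : Col k g → V → V, IsFam N' ∧ (∀ c v, ∃ c', N' c' v = R c v) ∧
      (∀ c v, ∃ c', R c' v = N' c v) ∧
      ∀ w, pot N' T (i + 1) w ≤
        (√M + 2 * √(4 * (1 / 2) ^ (k - 1 - i.1) * (10 * Real.log f))) ^ 2 := by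
  set P : Finset (Col k g) := univ.filter (fun c : Col k g => c.1 i = false) with hP
  set h2 : ℝ := (1 / 2) ^ (k - 1 - i.1) with hh2
  have hh20 : 0 < h2 := by positivity
  have hf1 : (100 : ℝ) ≤ f := by exact_mod_cast hf100
  have hlog : 0 < Real.log f := Real.log_pos (by linarith)
  let X : V → Col k g → ℝ := fun w c =>
    h2 * (KS_t T (i.1 + 1) w c (R c w) + KS_t T (i.1 + 1) w (flip i c) (R (flip i c) w))
  let Y : V → Col k g → ℝ := fun w c =>
    h2 * (KS_t T (i.1 + 1) w c (R (flip i c) w) + KS_t T (i.1 + 1) w (flip i c) (R c w))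
  have hbd : ∀ (w : V) (c : Col k g) (x y : V), 0 ≤ h2 * (KS_t T (i.1 + 1) w c x + KS_t T (i.1 + 1) w (flip i c) y) ∧
      h2 * (KS_t T (i.1 + 1) w c x + KS_t T (i.1 + 1) w (flip i c) y) ≤ 4 * h2 := by
    intro w c x y
    have e1 := KS_t_bd hT (i.1 + 1) w c x
    have e2 := KS_t_bd hT (i.1 + 1) w (flip i c) y
    exact ⟨mul_nonneg hh20.le (by linarith), by nlinarith⟩
  have hkey : ∀ (w : V) (c : Col k g), X w c + Y w c = h2 * (KS_t T i.1 w c (R c w) + KS_t T i.1 w (flip i c) (R (flip i c) w)) := by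
    intro w c
    have e1 := KS_t_add T i w c (R c w)
    have e2 := KS_t_add T i w c (R (flip i c) w)
    rw [KS_t_flip T i w c (R (flip i c) w), ← e1, ← e2]
    show h2 * _ + h2 * _ = _
    ring
  have hsum : ∀ w, ∑ c ∈ P, (X w c + Y w c) / 2 ≤ M := by
    intro w
    refine le_trans (le_of_eq ?_) (hM w)
    rw [KS_pot, KS_pairs i, sum_mul]
    refine sum_congr rfl fun c _ => ?_
    rw [hkey]
    have e1 : k - i.1 = (k - 1 - i.1) + 1 := by
      have := i.2
      omega
    rw [e1, pow_succ, ← hh2]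
    ring
  have hPf : P.card ≤ f := by
    refine (card_le_univ _).trans (le_of_eq ?_)
    rw [Fintype.card_prod, Fintype.card_fun, Fintype.card_bool, Fintype.card_fin, Fintype.card_fin, hf]
  have hdcard : ∀ w, ∃ D : Finset V, D.card ≤ 12 * f ^ 8 ∧ ∀ w', (∃ a ∈ P, ∃ b ∈ P,
      ((KS_rep R i a w, a) : V × Col k g) = (KS_rep R i b w', b)) → w' ∈ D := by
    intro w
    have h1 : ∀ c : Col k g, ∃ K : Finset V, c ∈ P → (K.card ≤ 12 * f ^ 7 ∧
        ∀ w', KS_rep R i c w = KS_rep R i c w' → w' ∈ K) := by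
      intro c
      by_cases hc : c ∈ P
      · obtain ⟨K, hK1, hK2, hK3⟩ := hK c (mem_filter.1 hc).2 w
        refine ⟨K, fun _ => ⟨hK2, fun w' hw' => ?_⟩⟩
        exact (KS_closed hR hK3 (KS_rep_eq hw')).1 hK1
      · exact ⟨∅, fun h => absurd h hc⟩
    choose K hK' using h1
    refine ⟨P.biUnion K, ?_, fun w' hw' => ?_⟩
    swap
    · obtain ⟨a, ha, b, hb, hab⟩ := hw'
      rw [Prod.mk.injEq] at hab
      obtain ⟨h3, rfl⟩ := hab
      exact mem_biUnion.2 ⟨a, ha, (hK' a ha).2 w' h3⟩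
    · refine (card_biUnion_le_card_mul P K (12 * f ^ 7) fun a ha => (hK' a ha).1).trans ?_
      calc P.card * (12 * f ^ 7) ≤ f * (12 * f ^ 7) := Nat.mul_le_mul_right _ hPf
        _ = 12 * f ^ 8 := by ring
  have hexp : Real.exp (-(10 * Real.log f)) = 1 / (f : ℝ) ^ 10 := by
    rw [Real.exp_neg, one_div]
    congr 1
    rw [mul_comm, Real.exp_mul, Real.exp_log (by linarith)]
    norm_cast
  have hq1 : 4 * Real.exp (-(10 * Real.log f)) * ((12 * f ^ 8 : ℕ) : ℝ) ≤ 1 := by
    rw [hexp]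
    push_cast
    have e1 : 4 * (1 / (f : ℝ) ^ 10) * (12 * (f : ℝ) ^ 8) = 48 / (f : ℝ) ^ 2 := by
      field_simp
      norm_num
    rw [e1, div_le_one (by positivity)]
    nlinarith
  have hq2 : 4 * Real.exp (-(10 * Real.log f)) ≤ 1 := by
    rw [hexp, mul_one_div, div_le_one (by positivity)]
    have e1 : (f : ℝ) ^ 1 ≤ (f : ℝ) ^ 10 := pow_le_pow_right₀ (by linarith) (by norm_num)
    rw [pow_one] at e1
    linarith
  obtain ⟨β, hβ⟩ := KS_ll P (fun w c => ((KS_rep R i c w, c) : V × Col k g))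
    (fun w a _ b _ h => congrArg Prod.snd h) X Y (4 * h2) M (10 * Real.log f)
    (by positivity) (fun w c _ => hbd w c _ _) (fun w c _ => hbd w c _ _) hsum hM0 (by positivity)
    (12 * f ^ 8) hdcard hq1 hq2
  refine ⟨fun c v => R (KS_tw R i β v c) v, KS_fam hR i β, fun c v => ⟨KS_tw R i β v c, ?_⟩,
    fun c v => ⟨KS_tw R i β v c, rfl⟩, fun w => le_trans (le_of_eq ?_) (hβ w)⟩
  · show R (KS_tw R i β v (KS_tw R i β v c)) v = R c v
    rw [KS_tw_tw]
  · rw [KS_pot, KS_pairs i, sum_mul]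
    refine sum_congr rfl fun c hc => ?_
    have hcb : c.1 i = false := (mem_filter.1 hc).2
    have hb1 : KS_base i c = c := by
      unfold KS_base
      rw [if_pos hcb]
    have hb2 : KS_base i (flip i c) = c := by rw [KS_base_flip, hb1]
    have e1 : k - (i.1 + 1) = k - 1 - i.1 := by omega
    show (KS_t T (i.1 + 1) w c (R (KS_tw R i β w c) w) +
      KS_t T (i.1 + 1) w (flip i c) (R (KS_tw R i β w (flip i c)) w)) * (1 / 2) ^ (k - (i.1 + 1)) = _
    rw [e1, ← hh2, KS_tw_def R i β w c, KS_tw_def R i β w (flip i c), hb1, hb2, KS_flip_flip]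
    split_ifs
    · show _ = h2 * _
      ring
    · show _ = h2 * _
      ring

end Pool.Agent.H67.HY
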