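/-
ROW KF. The Kempe lemma.
PROOF. Let `Λ = 10 log f`, `b_0 = √(2 g)`, `b_{i+1} = b_i + 2 √(4 (1/2)^(k-1-i) Λ)`. By induction on `i ≤ k` there is `N_i` with `IsFam N_i`, (a) `N_i c v ≠ v → ∃ c', N c' v = N_i c v`,
(b) `#{c : N c v ≠ v ∧ ∀ c', N_i c' v ≠ N c v} ≤ 2 i`, (c) `pot N_i T i w ≤ b_i^2`.
`i = 0`: `N_0 = N`; `pot N T 0 w ≤ (1/2)^k ∑_c (T (N c w)).card ≤ (1/2)^k * f * 2 = 2 g`.
Step: `kempe_cut N_i` gives `R` with `R c v ≠ v → R c v = N_i c v`, so `pot R T i w ≤ pot N_i T i w` (termwise, `(1/2)^(k-i) ≥ 0`), at most 2 colours lost at `v`; then `kempe_swap R` with `M = b_i^2`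
(`√(b_i^2) = b_i`). (a): `N' c v ≠ v`, `N' c v = R c' v`, so `= N_i c' v ≠ v`. (b): if `N c v ≠ v` is not an `N'`-value then either it is not an `N_i`-value (`≤ 2i` colours `c`) or `N c v = N_i c'' v ≠ v` with
`R c'' v = v` (if `R c'' v ≠ v` then `R c'' v = N_i c'' v` is an `N'`-value); `≤ 2` colours `c''`, and `c` is determined by `c''` (`N c v = N d v ≠ v` implies `c = d` by `IsFam.dis`).
End, `i = k`: `Agree k x y ↔ x = y`, so `pot N_k T k w = #{c : N_k c w ≠ w ∧ c.1 ∈ T (N_k c w)}` (`(1/2)^0 = 1`; a filter `{y ∈ T : x = y}` has card 1 or 0).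
`b_k = √(2g) + 4 √Λ ∑_{i<k} (√(1/2))^(k-1-i) ≤ √(2g) + 14 √Λ` as `∑_{j<k} (√(1/2))^j ≤ 1/(1-√(1/2)) ≤ 3.5` (`√(1/2) ≤ 0.7072`, `1/(1-0.7072) < 3.42`; geometric sum: prove
`∑_{j<k} r^j ≤ 1/(1-r)`, `geom_sum`). `b_k^2 ≤ 2 (2 g) + 2 * 196 Λ = 4 g + 3920 log f`. (To avoid square roots of powers: `√(4 (1/2)^j Λ) = 2 (√(1/2))^j √Λ`: `Real.sqrt_eq_iff`/`Real.sqrt_mul_self`.)
-/
import Pool.Agent.H67.HY.KC
import Pool.Agent.H67.HY.KS

set_option autoImplicit false

namespace Pool.Agent.H67.HY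

open Finset
open Classical

theorem KF_lost {V : Type} [Fintype V] {k g : ℕ} (N Ni R N' : Col k g → V → V) (hN : IsFam N)
    (hRN : ∀ c v, R c v ≠ v → R c v = Ni c v)
    (hN' : ∀ c v, ∃ c', N' c' v = R c v) (v : V) (a : ℕ)
    (hB : (univ.filter (fun c => N c v ≠ v ∧ ∀ c', Ni c' v ≠ N c v)).card ≤ a)
    (hD : (univ.filter (fun c => Ni c v ≠ v ∧ R c v = v)).card ≤ 2) :
    (univ.filter (fun c => N c v ≠ v ∧ ∀ c', N' c' v ≠ N c v)).card ≤ a + 2 := by
  set B' := univ.filter (fun c => N c v ≠ v ∧ ∀ c', N' c' v ≠ N c v) with hB'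
  set B := univ.filter (fun c => N c v ≠ v ∧ ∀ c', Ni c' v ≠ N c v) with hBd
  set D := univ.filter (fun c => Ni c v ≠ v ∧ R c v = v) with hDd
  have h1 : ∀ c ∈ B' \ B, ∃ c'', Ni c'' v = N c v ∧ c'' ∈ D := by
    intro c hc
    rw [mem_sdiff, hB', hBd, mem_filter, mem_filter] at hc
    obtain ⟨⟨_, h2, h3⟩, h4⟩ := hc
    have h5 : ∃ c'', Ni c'' v = N c v := by
      by_contra h6
      push Not at h6
      exact h4 ⟨mem_univ _, h2, h6⟩
    obtain ⟨c'', h6⟩ := h5
    refine ⟨c'', h6, ?_⟩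
    rw [hDd, mem_filter]
    refine ⟨mem_univ _, by rw [h6]; exact h2, ?_⟩
    by_contra h7
    have h8 := hRN c'' v h7
    obtain ⟨c', h9⟩ := hN' c'' v
    exact h3 c' (by rw [h9, h8, h6])
  choose! φ hφ using h1
  have h2 : (B' \ B).card ≤ D.card := by
    refine card_le_card_of_injOn φ (fun c hc => (hφ c hc).2) ?_
    intro c hc d hd hcd
    have e1 := (hφ c hc).1
    have e2 := (hφ d hd).1
    have hcd' : φ c = φ d := hcd
    rw [hcd'] at e1
    have e3 : N c v = N d v := e1.symm.trans e2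
    have e4 : N c v ≠ v := by
      have h5 := hc
      rw [mem_coe, mem_sdiff, hB', mem_filter] at h5
      exact h5.1.2.1
    by_contra hne
    exact hN.dis c d v hne e4 e3
  have h3 : B'.card ≤ (B ∪ (B' \ B)).card := by
    refine card_le_card fun c hc => ?_
    rw [mem_union, mem_sdiff]
    by_cases h4 : c ∈ B
    · exact Or.inl h4
    · exact Or.inr ⟨hc, h4⟩
  have h4 := card_union_le B (B' \ B)
  omega

theorem KF_pot_mono {V : Type} [Fintype V] {k g : ℕ} (Ni R : Col k g → V → V)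
    (hRN : ∀ c v, R c v ≠ v → R c v = Ni c v) (T : V → Finset (Fin k → Bool)) (i : ℕ) (w : V) :
    pot R T i w ≤ pot Ni T i w := by
  unfold pot
  refine mul_le_mul_of_nonneg_right (sum_le_sum fun c _ => ?_) (by positivity)
  by_cases h : R c w ≠ w
  · have h1 := hRN c w h
    have h2 : Ni c w ≠ w := by rw [← h1]; exact h
    rw [if_pos h, if_pos h2, h1]
  · rw [if_neg h]
    by_cases h2 : Ni c w ≠ w
    · rw [if_pos h2]
      exact Nat.cast_nonneg _
    · rw [if_neg h2]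

theorem KF_pot_zero {V : Type} [Fintype V] {k g : ℕ} (N : Col k g → V → V)
    (T : V → Finset (Fin k → Bool)) (hT : ∀ v, (T v).card ≤ 2) (w : V) :
    pot N T 0 w ≤ 2 * g := by
  unfold pot
  have h1 : (∑ c : Col k g, if N c w ≠ w then
      (((T (N c w)).filter (fun y => Agree 0 c.1 y)).card : ℝ) else 0) ≤ ∑ c : Col k g, 2 := by
    refine sum_le_sum fun c _ => ?_
    by_cases h0 : N c w ≠ w
    · rw [if_pos h0]
      have h2 : ((T (N c w)).filter (fun y => Agree 0 c.1 y)).card ≤ 2 :=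
        (card_filter_le _ _).trans (hT _)
      exact_mod_cast h2
    · rw [if_neg h0]
      norm_num
  have h2 : (∑ c : Col k g, (2 : ℝ)) = 2 * (2 ^ k * g) := by
    rw [sum_const, card_univ, nsmul_eq_mul]
    simp [Fintype.card_prod]
    ring
  rw [h2] at h1
  have h3 : (0 : ℝ) ≤ (1 / 2) ^ (k - 0) := by positivity
  refine (mul_le_mul_of_nonneg_right h1 h3).trans (le_of_eq ?_)
  rw [Nat.sub_zero]
  have h4 : (2 : ℝ) ^ k * (1 / 2) ^ k = 1 := by
    rw [← mul_pow]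
    norm_num
  calc 2 * ((2 : ℝ) ^ k * g) * (1 / 2) ^ k = 2 * g * ((2 : ℝ) ^ k * (1 / 2) ^ k) := by ring
    _ = 2 * g := by rw [h4, mul_one]

theorem KF_pot_end {V : Type} [Fintype V] {k g : ℕ} (N : Col k g → V → V)
    (T : V → Finset (Fin k → Bool)) (w : V) :
    ((univ.filter (fun c => N c w ≠ w ∧ c.1 ∈ T (N c w))).card : ℝ) = pot N T k w := by
  unfold pot
  rw [Nat.sub_self, pow_zero, mul_one, card_filter]
  push_cast
  refine sum_congr rfl fun c _ => ?_
  by_cases h1 : N c w ≠ w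
  · rw [if_pos h1]
    have h2 : (T (N c w)).filter (fun y => Agree k c.1 y) =
        if c.1 ∈ T (N c w) then {c.1} else ∅ := by
      ext y
      have h3 : Agree k c.1 y ↔ c.1 = y := by
        constructor
        · intro h
          funext j
          exact h j j.2
        · intro h j _
          rw [h]
      rw [mem_filter, h3]
      split_ifs with h4
      · rw [mem_singleton]
        constructor
        · rintro ⟨_, h⟩
          exact h.symm
        · intro h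
          rw [h]
          exact ⟨h4, rfl⟩
      · constructor
        · rintro ⟨h5, h6⟩
          rw [← h6] at h5
          exact absurd h5 h4
        · intro h
          simp at h
    rw [h2]
    by_cases h5 : c.1 ∈ T (N c w)
    · rw [if_pos ⟨h1, h5⟩, if_pos h5, card_singleton]
      norm_num
    · rw [if_neg (fun h => h5 h.2), if_neg h5, card_empty]
      norm_num
  · rw [if_neg h1, if_neg (fun h => h1 h.1)]

/-- The bounds of the square roots of the potentials. -/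
noncomputable def KF_b (k g : ℕ) (L : ℝ) (i : ℕ) : ℝ :=
  √(2 * g) + ∑ j ∈ range i, 2 * √(4 * (1 / 2) ^ (k - 1 - j) * L)

theorem KF_b_nonneg (k g : ℕ) (L : ℝ) (i : ℕ) : 0 ≤ KF_b k g L i := by
  unfold KF_b
  exact add_nonneg (Real.sqrt_nonneg _) (sum_nonneg fun j _ => by positivity)

theorem KF_geom (k : ℕ) : ∑ j ∈ range k, (√(1 / 2 : ℝ)) ^ j ≤ 7 / 2 := by
  set r : ℝ := √(1 / 2 : ℝ) with hr
  have hr0 : 0 ≤ r := Real.sqrt_nonneg _
  have hr1 : r ≤ 5 / 7 := by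
    rw [hr, Real.sqrt_le_left (by norm_num)]
    norm_num
  have h1 : (∑ j ∈ range k, r ^ j) * (1 - r) = 1 - r ^ k := geom_sum_mul_neg r k
  have h2 : 0 ≤ r ^ k := pow_nonneg hr0 k
  have h3 : 0 ≤ ∑ j ∈ range k, r ^ j := sum_nonneg fun j _ => pow_nonneg hr0 j
  nlinarith

theorem KF_b_end (k g : ℕ) {L : ℝ} (hL : 0 ≤ L) : KF_b k g L k ^ 2 ≤ 4 * g + 392 * L := by
  have h1 : ∑ j ∈ range k, 2 * √(4 * (1 / 2) ^ (k - 1 - j) * L) =
      ∑ j ∈ range k, 2 * √(4 * (1 / 2) ^ j * L) :=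
    sum_range_reflect (fun j => 2 * √(4 * (1 / 2) ^ j * L)) k
  have h2 : ∀ j : ℕ, √(4 * (1 / 2 : ℝ) ^ j * L) = 2 * (√(1 / 2 : ℝ)) ^ j * √L := by
    intro j
    have h3 : 4 * (1 / 2 : ℝ) ^ j * L = (2 * (√(1 / 2 : ℝ)) ^ j * √L) ^ 2 := by
      rw [mul_pow, mul_pow, Real.sq_sqrt hL, ← pow_mul, mul_comm j 2, pow_mul,
        Real.sq_sqrt (by norm_num)]
      norm_num
    rw [h3, Real.sqrt_sq (by positivity)]
  have h3 : ∑ j ∈ range k, 2 * √(4 * (1 / 2) ^ j * L) =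
      4 * √L * ∑ j ∈ range k, (√(1 / 2 : ℝ)) ^ j := by
    rw [mul_sum]
    refine sum_congr rfl fun j _ => ?_
    rw [h2]
    ring
  have h4 : KF_b k g L k ≤ √(2 * g) + 14 * √L := by
    unfold KF_b
    rw [h1, h3]
    have h5 := mul_le_mul_of_nonneg_left (KF_geom k) (by positivity : 0 ≤ 4 * √L)
    linarith
  have h5 : KF_b k g L k ^ 2 ≤ (√(2 * g) + 14 * √L) ^ 2 :=
    pow_le_pow_left₀ (KF_b_nonneg _ _ _ _) h4 2
  refine h5.trans ?_
  have h6 : √(2 * (g : ℝ)) ^ 2 = 2 * g := Real.sq_sqrt (by positivity)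
  have h7 : √L ^ 2 = L := Real.sq_sqrt hL
  nlinarith [sq_nonneg (√(2 * (g : ℝ)) - 14 * √L)]

theorem kempe {V : Type} [Fintype V] {k g : ℕ} (N : Col k g → V → V) (hN : IsFam N)
    (T : V → Finset (Fin k → Bool)) (hT : ∀ v, (T v).card ≤ 2)
    (f : ℕ) (hf : f = 2 ^ k * g) (hf100 : 100 ≤ f) :
    ∃ N' : Col k g → V → V, IsFam N' ∧ (∀ c v, N' c v ≠ v → ∃ c', N c' v = N' c v) ∧
      (∀ v, (univ.filter (fun c => N c v ≠ v ∧ ∀ c', N' c' v ≠ N c v)).card ≤ 2 * k) ∧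
      ∀ w, ((univ.filter (fun c => N' c w ≠ w ∧ c.1 ∈ T (N' c w))).card : ℝ) ≤
        4 * g + 4000 * Real.log f := by
  have hlog : 0 ≤ Real.log f := Real.log_natCast_nonneg f
  set L : ℝ := 10 * Real.log f with hL
  have hL0 : 0 ≤ L := by positivity
  have key : ∀ i : ℕ, i ≤ k → ∃ Ni : Col k g → V → V, IsFam Ni ∧
      (∀ c v, Ni c v ≠ v → ∃ c', N c' v = Ni c v) ∧
      (∀ v, (univ.filter (fun c => N c v ≠ v ∧ ∀ c', Ni c' v ≠ N c v)).card ≤ 2 * i) ∧
      ∀ w, pot Ni T i w ≤ KF_b k g L i ^ 2 := by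
    intro i
    induction i with
    | zero =>
      intro _
      refine ⟨N, hN, fun c v _ => ⟨c, rfl⟩, fun v => ?_, fun w => ?_⟩
      · have h1 : univ.filter (fun c => N c v ≠ v ∧ ∀ c', N c' v ≠ N c v) = ∅ := by
          rw [filter_eq_empty_iff]
          rintro c _ ⟨_, h⟩
          exact h c rfl
        rw [h1, card_empty]
      · have h1 := KF_pot_zero N T hT w
        have h2 : KF_b k g L 0 = √(2 * g) := by
          unfold KF_b
          rw [range_zero, sum_empty, add_zero]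
        rw [h2, Real.sq_sqrt (by positivity)]
        exact h1
    | succ i ih =>
      intro hi
      obtain ⟨Ni, hF, ha, hb, hc⟩ := ih (by omega)
      have hik : i < k := by omega
      obtain ⟨R, hR, hRN, hR2, hK⟩ := kempe_cut Ni hF ⟨i, hik⟩ f hf hf100
      obtain ⟨N', hN', h1, h2, h3⟩ := kempe_swap R hR T hT ⟨i, hik⟩ f hf hf100 hK
        (KF_b k g L i ^ 2) (sq_nonneg _) (fun w => (KF_pot_mono Ni R hRN T i w).trans (hc w))
      refine ⟨N', hN', fun c v hcv => ?_, fun v => ?_, fun w => ?_⟩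
      · obtain ⟨c1, hc1⟩ := h2 c v
        have h4 : R c1 v ≠ v := by rw [hc1]; exact hcv
        have h5 := hRN c1 v h4
        have h6 : Ni c1 v ≠ v := by rw [← h5]; exact h4
        obtain ⟨c', hc'⟩ := ha c1 v h6
        exact ⟨c', by rw [hc', ← h5, hc1]⟩
      · have h4 := KF_lost N Ni R N' hN hRN h1 v (2 * i) (hb v) (hR2 v)
        have h5 : 2 * (i + 1) = 2 * i + 2 := by ring
        rw [h5]
        exact h4
      · have h4 := h3 w
        rw [Real.sqrt_sq (KF_b_nonneg _ _ _ _)] at h4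
        have h5 : KF_b k g L (i + 1) =
            KF_b k g L i + 2 * √(4 * (1 / 2) ^ (k - 1 - i) * L) := by
          unfold KF_b
          rw [sum_range_succ]
          ring
        rw [h5]
        exact h4
  obtain ⟨Nk, hF, ha, hb, hc⟩ := key k le_rfl
  refine ⟨Nk, hF, ha, hb, fun w => ?_⟩
  have h1 := KF_pot_end Nk T w
  have h2 := hc w
  have h3 := KF_b_end k g hL0
  rw [hL] at h3
  have h4 : ((univ.filter (fun c => Nk c w ≠ w ∧ c.1 ∈ T (Nk c w))).card : ℝ) ≤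
      4 * g + 392 * (10 * Real.log f) := by
    rw [h1]
    exact h2.trans h3
  linarith

end Pool.Agent.H67.HY
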