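import Pool.Agent.H67.HY.Defs

/-! Definitions for the pool lemma. -/

set_option autoImplicit false

namespace Pool.Agent.H67.HY

open Finset
open Classical

/-- The pool: backbone edges with a sleeping end and unused reservoir edges. -/
def poolP {V : Type} {nb r : ℕ} (M : Fin nb ⊕ Fin r → V → V) (slot : Fin nb → ℕ)
    (W : V → Finset ℕ) (use : V → Fin r → Option (Fin nb)) (v : V) : Fin nb ⊕ Fin r → Prop
  | Sum.inl κ => slot κ ∈ W v ∨ slot κ ∈ W (M (Sum.inl κ) v)
  | Sum.inr ρ => use v ρ = none

/-- The rest: pool edges which get no slot of their own among the F-slots. -/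
def restP {V J C : Type} (M : J → V → V) (P : V → J → Prop) (N : C → V → V) (Fsl : C → ℕ)
    (W : V → Finset ℕ) (v : V) (j : J) : Prop :=
  P v j ∧ ¬ ∃ c, N c v = M j v ∧ Fsl c ∉ W v ∧ Fsl c ∉ W (M j v)

end Pool.Agent.H67.HY
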