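/-
ROW PoA. The degree of the pool.
PROOF. `{j : poolP v j}` is the disjoint union (`Sum.inl`, `Sum.inr` parts: `Finset.univ.filter` over a sum type, `Fintype.sum_sum_type` with indicator sums, or a union of two images) of
`A = {κ : slot κ ∈ W v}` (card `≤ bb`), `B = {κ : slot κ ∉ W v ∧ slot κ ∈ W (M κ v)}` and `C = {ρ : use v ρ = none}`. `B = B1 ∪ B2`, `B2` the `κ` with `use v ρ ≠ some κ` for all `ρ` (card `≤ u`),
`B1` those with `use v ρ = some κ` for some `ρ`: `card B1 ≤ #{ρ : use v ρ ≠ none}` (choose for `κ ∈ B1` a `ρ` with `use v ρ = some κ`; injective in `κ`, as `κ` is determined by `ρ`), and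
`#{ρ : use v ρ ≠ none} + card C = r` (`Finset.card_filter_add_card_filter_not` or `filter_card_add_filter_neg_card_eq_card`). Sum: `bb + u + r`.
Symmetry `poolP_symm`: by cases on `j`, `hM.inv`, `husym`.
-/
import Pool.Agent.H67.HY.PoD

set_option autoImplicit false

namespace Pool.Agent.H67.HY

open Finset
open Classical

theorem poolP_symm {V : Type} {nb r : ℕ} (M : Fin nb ⊕ Fin r → V → V) (hM : IsFac M)
    (slot : Fin nb → ℕ) (W : V → Finset ℕ) (use : V → Fin r → Option (Fin nb))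
    (husym : ∀ v ρ, use (M (Sum.inr ρ) v) ρ = use v ρ) (v : V) (j : Fin nb ⊕ Fin r)
    (h : poolP M slot W use v j) : poolP M slot W use (M j v) j := by
  cases j with
  | inl κ =>
    have h' : slot κ ∈ W v ∨ slot κ ∈ W (M (Sum.inl κ) v) := h
    show slot κ ∈ W (M (Sum.inl κ) v) ∨ slot κ ∈ W (M (Sum.inl κ) (M (Sum.inl κ) v))
    rw [hM.inv]
    exact h'.symm
  | inr ρ =>
    have h' : use v ρ = none := h
    show use (M (Sum.inr ρ) v) ρ = none
    rw [husym, h']

theorem pool_degree {V : Type} {nb r : ℕ} (M : Fin nb ⊕ Fin r → V → V)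
    (slot : Fin nb → ℕ) (W : V → Finset ℕ) (use : V → Fin r → Option (Fin nb)) (bb u : ℕ) (v : V)
    (hWb : (univ.filter (fun κ => slot κ ∈ W v)).card ≤ bb)
    (hunrep : (univ.filter (fun κ => slot κ ∉ W v ∧ slot κ ∈ W (M (Sum.inl κ) v) ∧
      ∀ ρ, use v ρ ≠ some κ)).card ≤ u) :
    (univ.filter (fun j => poolP M slot W use v j)).card ≤ bb + u + r := by
  have hsub : univ.filter (fun j => poolP M slot W use v j) ⊆
      (((univ.filter (fun κ => slot κ ∈ W v)) ∪ (univ.filter (fun κ => slot κ ∉ W v ∧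
        slot κ ∈ W (M (Sum.inl κ) v) ∧ ∀ ρ, use v ρ ≠ some κ))) ∪
        (univ.filter (fun κ => ∃ ρ, use v ρ = some κ))).image (Sum.inl : Fin nb → Fin nb ⊕ Fin r) ∪
      (univ.filter (fun ρ => use v ρ = none)).image (Sum.inr : Fin r → Fin nb ⊕ Fin r) := by
    intro j hj
    rw [mem_filter] at hj
    rw [mem_union]
    cases j with
    | inl κ =>
      left
      rw [mem_image]
      refine ⟨κ, ?_, rfl⟩
      have h' : slot κ ∈ W v ∨ slot κ ∈ W (M (Sum.inl κ) v) := hj.2
      rw [mem_union, mem_union, mem_filter, mem_filter, mem_filter]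
      by_cases h1 : slot κ ∈ W v
      · exact Or.inl (Or.inl ⟨mem_univ _, h1⟩)
      · by_cases h2 : ∃ ρ, use v ρ = some κ
        · exact Or.inr ⟨mem_univ _, h2⟩
        · refine Or.inl (Or.inr ⟨mem_univ _, h1, h'.resolve_left h1, fun ρ hρ => h2 ⟨ρ, hρ⟩⟩)
    | inr ρ =>
      right
      rw [mem_image]
      have h' : use v ρ = none := hj.2
      exact ⟨ρ, mem_filter.2 ⟨mem_univ _, h'⟩, rfl⟩
  have h1 := card_le_card hsub
  have h2 := card_union_le ((((univ.filter (fun κ => slot κ ∈ W v)) ∪ (univ.filter (fun κ => slot κ ∉ W v ∧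
        slot κ ∈ W (M (Sum.inl κ) v) ∧ ∀ ρ, use v ρ ≠ some κ))) ∪
        (univ.filter (fun κ => ∃ ρ, use v ρ = some κ))).image (Sum.inl : Fin nb → Fin nb ⊕ Fin r))
      ((univ.filter (fun ρ => use v ρ = none)).image (Sum.inr : Fin r → Fin nb ⊕ Fin r))
  have h3 : ((((univ.filter (fun κ => slot κ ∈ W v)) ∪ (univ.filter (fun κ => slot κ ∉ W v ∧
        slot κ ∈ W (M (Sum.inl κ) v) ∧ ∀ ρ, use v ρ ≠ some κ))) ∪
        (univ.filter (fun κ => ∃ ρ, use v ρ = some κ))).image (Sum.inl : Fin nb → Fin nb ⊕ Fin r)).card ≤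
        (((univ.filter (fun κ => slot κ ∈ W v)) ∪ (univ.filter (fun κ => slot κ ∉ W v ∧
        slot κ ∈ W (M (Sum.inl κ) v) ∧ ∀ ρ, use v ρ ≠ some κ))) ∪
        (univ.filter (fun κ => ∃ ρ, use v ρ = some κ))).card := card_image_le
  have h4 : ((univ.filter (fun ρ => use v ρ = none)).image (Sum.inr : Fin r → Fin nb ⊕ Fin r)).card ≤
      (univ.filter (fun ρ => use v ρ = none)).card := card_image_le
  have h5 := card_union_le ((univ.filter (fun κ => slot κ ∈ W v)) ∪ (univ.filter (fun κ => slot κ ∉ W v ∧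
        slot κ ∈ W (M (Sum.inl κ) v) ∧ ∀ ρ, use v ρ ≠ some κ)))
        (univ.filter (fun κ => ∃ ρ, use v ρ = some κ))
  have h6 := card_union_le (univ.filter (fun κ => slot κ ∈ W v)) (univ.filter (fun κ => slot κ ∉ W v ∧
        slot κ ∈ W (M (Sum.inl κ) v) ∧ ∀ ρ, use v ρ ≠ some κ))
  have h7 : (univ.filter (fun κ => ∃ ρ, use v ρ = some κ)).card ≤ (univ.filter (fun ρ => ¬ use v ρ = none)).card := by
    have a1 : (univ.filter (fun κ => ∃ ρ, use v ρ = some κ)).image (some : Fin nb → Option (Fin nb)) ⊆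
        (univ.filter (fun ρ => ¬ use v ρ = none)).image (use v) := by
      intro x hx
      obtain ⟨κ, hκ, rfl⟩ := mem_image.1 hx
      obtain ⟨ρ, hρ⟩ := (mem_filter.1 hκ).2
      refine mem_image.2 ⟨ρ, mem_filter.2 ⟨mem_univ _, ?_⟩, hρ⟩
      rw [hρ]
      exact Option.some_ne_none κ
    have a2 := card_le_card a1
    rw [card_image_of_injective _ (Option.some_injective _)] at a2
    exact a2.trans card_image_le
  have h8 : (univ.filter (fun ρ => use v ρ = none)).card + (univ.filter (fun ρ => ¬ use v ρ = none)).card = r := by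
    rw [card_filter_add_card_filter_not, card_univ, Fintype.card_fin]
  omega

end Pool.Agent.H67.HY
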