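/-
ROW PoB. The degree of the rest.
PROOF. Let `restP v j`, so `P v j`, and by `hN1` some `c` with `N c v = M j v` (`≠ v`, `hM.free`). `j` is determined by the vertex `M j v` (`hM.dis`), so count the vertices `w = M j v`, or map `j` to a colour `c` with
`N c v = M j v` (injective: `N c v` determines `M j v`). First alternative: no `c'` has `N' c' v = M j v`: then `c` is in the set of `hlost` (`N c v ≠ v ∧ ∀ c', N' c' v ≠ N c v`): at most `2k` such `j`.
Otherwise `N' c' v = M j v ≠ v` and (by `restP`) `Fsl c' ∈ W v` or `Fsl c' ∈ W (M j v) = W (N' c' v)`. Colours `c'` with `Fsl c' ∈ W v`: at most `g0` (`hWg`). Colours `c'` with `N' c' v ≠ v` and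
`Fsl c' ∈ W (N' c' v)`: then `c'.1 ∈ T (N' c' v)` where `T x = univ.filter (fun y => ∃ j, Fsl (y,j) ∈ W x)` (witness `c'.2`), so at most `Cf` of them (`hconf`). Each `c'` belongs to one `j`. Total `≤ 2k + g0 + Cf`.
-/
import Pool.Agent.H67.HY.PoD

set_option autoImplicit false

namespace Pool.Agent.H67.HY

open Finset
open Classical

theorem rest_degree {V J : Type} [Fintype V] [Fintype J] {k g0 : ℕ} (M : J → V → V)
    (hM : IsFac M) (P : V → J → Prop) (N N' : Col k g0 → V → V)
    (hN1 : ∀ v j, P v j → ∃ c, N c v = M j v)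
    (Fsl : Col k g0 → ℕ) (W : V → Finset ℕ) (v : V)
    (hWg : (univ.filter (fun c => Fsl c ∈ W v)).card ≤ g0)
    (hlost : (univ.filter (fun c => N c v ≠ v ∧ ∀ c', N' c' v ≠ N c v)).card ≤ 2 * k)
    (Cf : ℝ)
    (hconf : ((univ.filter (fun c => N' c v ≠ v ∧
      c.1 ∈ univ.filter (fun y : Fin k → Bool => ∃ j, Fsl (y, j) ∈ W (N' c v)))).card : ℝ) ≤ Cf) :
    ((univ.filter (fun j => restP M P N' Fsl W v j)).card : ℝ) ≤ 2 * k + g0 + Cf := by
  set A : Finset (Col k g0) := univ.filter (fun c => N c v ≠ v ∧ ∀ c', N' c' v ≠ N c v) with hA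
  set B : Finset (Col k g0) := univ.filter (fun c => Fsl c ∈ W v) with hB
  set D : Finset (Col k g0) := univ.filter (fun c => N' c v ≠ v ∧
      c.1 ∈ univ.filter (fun y : Fin k → Bool => ∃ j, Fsl (y, j) ∈ W (N' c v))) with hD
  set R : Finset J := univ.filter (fun j => restP M P N' Fsl W v j) with hR
  have hsub : R.image (fun j => M j v) ⊆
      A.image (fun c => N c v) ∪ (B.image (fun c => N' c v) ∪ D.image (fun c => N' c v)) := by
    intro w hw
    obtain ⟨j, hj, rfl⟩ := mem_image.1 hw
    have hj' : restP M P N' Fsl W v j := (mem_filter.1 hj).2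
    obtain ⟨hP, hno⟩ := hj'
    obtain ⟨c, hc⟩ := hN1 v j hP
    have hne : M j v ≠ v := hM.free j v
    rw [mem_union, mem_union, mem_image, mem_image, mem_image]
    by_cases hex : ∃ c', N' c' v = M j v
    · obtain ⟨c', hc'⟩ := hex
      right
      by_cases h1 : Fsl c' ∈ W v
      · left
        exact ⟨c', mem_filter.2 ⟨mem_univ _, h1⟩, hc'⟩
      · right
        have h2 : Fsl c' ∈ W (M j v) := by
          by_contra h2
          exact hno ⟨c', hc', h1, h2⟩
        refine ⟨c', mem_filter.2 ⟨mem_univ _, ?_, mem_filter.2 ⟨mem_univ _, c'.2, ?_⟩⟩, hc'⟩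
        · rw [hc']
          exact hne
        · rw [hc']
          exact h2
    · left
      refine ⟨c, mem_filter.2 ⟨mem_univ _, ?_, fun c' hc' => hex ⟨c', ?_⟩⟩, hc⟩
      · rw [hc]
        exact hne
      · rw [hc', hc]
  have hinj : Set.InjOn (fun j => M j v) (R : Set J) := by
    intro i _ j _ hij
    by_contra hne
    exact hM.dis i j v hne hij
  have hcard : R.card ≤ A.card + (B.card + D.card) := by
    calc R.card = (R.image (fun j => M j v)).card := (card_image_of_injOn hinj).symm
      _ ≤ (A.image (fun c => N c v) ∪ (B.image (fun c => N' c v) ∪ D.image (fun c => N' c v))).card :=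
          card_le_card hsub
      _ ≤ (A.image (fun c => N c v)).card +
          ((B.image (fun c => N' c v)).card + (D.image (fun c => N' c v)).card) :=
          (card_union_le _ _).trans (Nat.add_le_add_left (card_union_le _ _) _)
      _ ≤ A.card + (B.card + D.card) := by
          gcongr <;> exact card_image_le
  have h1 : (R.card : ℝ) ≤ (A.card : ℝ) + ((B.card : ℝ) + (D.card : ℝ)) := by exact_mod_cast hcard
  have h2 : (A.card : ℝ) ≤ 2 * k := by exact_mod_cast hlost
  have h3 : (B.card : ℝ) ≤ g0 := by exact_mod_cast hWg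
  have h4 : (D.card : ℝ) ≤ Cf := hconf
  linarith

end Pool.Agent.H67.HY
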