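/-
ROW PoC. The final colouring of one group.
PROOF. Write `P = poolP M slot W use`. For `j` define `e v j`:
 (1) `j = inl κ`, not `P v j`: `e = slot κ` (both ends awake at `slot κ`);
 (2) `j = inr ρ`, `use v ρ = some κ` (i.e. not `P v j`): `e = slot κ`;
 (3) `P v j`, not `restP v j`: there is `c` with `N' c v = M j v`, `Fsl c ∉ W v`, `Fsl c ∉ W (M j v)`; `e = Fsl c` (the `c` is unique: `N' c v = M j v ≠ v` and `hN'.dis`);
 (4) `restP v j`: there is `x : Fin fin` with `R x v = M j v`, unique; `e = NB + x`.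
Define `e v j` with `Classical.choose`/`if h : ∃ c, ... then .. choose h` ; symmetric: `P (M j v) j ↔ P v j` (`hPs`, `hM.inv`), in (3) `N' c (M j v) = v` (`hN'.inv`) is equivalent, and by uniqueness the chosen `c` is the same;
(4) the same. (It may be simpler to prove: for every `v j` there is a unique number `s` with `Rel v j s`, where `Rel` is the disjunction of (1)-(4), `Rel v j s ↔ Rel (M j v) j s`; then take `e` by choice.)
Proper at `v`: values of (1),(2) are `slot`s, of (3) `Fsl`s, (4) `≥ NB`: disjoint ranges (`hne`, `hslotN`, `hFslN`). (1)-(1): `hslot`. (2)-(2): same `κ`: `huinj`. (1)-(2): `κ` used at `v` by `ρ` gives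
`slot κ ∈ W (M (inl κ) v)` (`huaw`), so `P v (inl κ)`, contradiction. (3)-(3): same `c` (`hFsl`): `M j v = N' c v = M j' v`, so `j = j'` (`hM.dis`). (4)-(4) the same with `R`.
Awake: (1) not `P`; (2) `huaw`; (3) by choice; (4) `NB + x ≥ NB` and `hWN`. Bound: `hslotN`, `hFslN`, `x < fin`.
-/
import Pool.Agent.H67.HY.PoD

set_option autoImplicit false

namespace Pool.Agent.H67.HY

open Finset
open Classical

/-- The admissible values at the edge `j` of `v`. -/
def RelC {V : Type} {nb r k g0 : ℕ} (M : Fin nb ⊕ Fin r → V → V)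
    (NB fin : ℕ) (slot : Fin nb → ℕ) (Fsl : Col k g0 → ℕ) (W : V → Finset ℕ)
    (use : V → Fin r → Option (Fin nb)) (N' : Col k g0 → V → V) (R : Fin fin → V → V)
    (v : V) (j : Fin nb ⊕ Fin r) (s : ℕ) : Prop :=
  (∃ κ, j = Sum.inl κ ∧ ¬ poolP M slot W use v j ∧ s = slot κ) ∨
  (∃ ρ κ, j = Sum.inr ρ ∧ use v ρ = some κ ∧ s = slot κ) ∨
  (poolP M slot W use v j ∧ ∃ c, N' c v = M j v ∧ Fsl c ∉ W v ∧ Fsl c ∉ W (M j v) ∧ s = Fsl c) ∨
  (restP M (poolP M slot W use) N' Fsl W v j ∧ ∃ x : Fin fin, R x v = M j v ∧ s = NB + x)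

theorem pool_final {V : Type} [Fintype V] {nb r k g0 : ℕ} (M : Fin nb ⊕ Fin r → V → V)
    (hM : IsFac M) (NB fin : ℕ) (slot : Fin nb → ℕ) (Fsl : Col k g0 → ℕ) (W : V → Finset ℕ)
    (hslot : Function.Injective slot) (hFsl : Function.Injective Fsl)
    (hne : ∀ κ c, slot κ ≠ Fsl c) (hslotN : ∀ κ, slot κ < NB) (hFslN : ∀ c, Fsl c < NB)
    (hWN : ∀ v, ∀ s ∈ W v, s < NB)
    (use : V → Fin r → Option (Fin nb))
    (husym : ∀ v ρ, use (M (Sum.inr ρ) v) ρ = use v ρ)
    (huaw : ∀ v ρ κ, use v ρ = some κ → slot κ ∉ W v ∧ slot κ ∈ W (M (Sum.inl κ) v))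
    (huinj : ∀ v ρ ρ' κ, use v ρ = some κ → use v ρ' = some κ → ρ = ρ')
    (hPs : ∀ v j, poolP M slot W use v j → poolP M slot W use (M j v) j)
    (N' : Col k g0 → V → V) (hN' : IsFam N')
    (R : Fin fin → V → V) (hR : IsFam R)
    (hR1 : ∀ v j, restP M (poolP M slot W use) N' Fsl W v j → ∃ x, R x v = M j v) :
    ∃ e : V → Fin nb ⊕ Fin r → ℕ, (∀ v j, e (M j v) j = e v j) ∧
      (∀ v j j', e v j = e v j' → j = j') ∧ (∀ v j, e v j ∉ W v) ∧
      (∀ v j, e v j < NB + fin) := by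
  have hMd : ∀ {v : V} {j j' : Fin nb ⊕ Fin r}, M j v = M j' v → j = j' := by
    intro v j j' h
    by_contra hj
    exact hM.dis j j' v hj h
  have hex : ∀ v j, ∃ s, RelC M NB fin slot Fsl W use N' R v j s := by
    intro v j
    by_cases hP : poolP M slot W use v j
    · by_cases hr : ∃ c, N' c v = M j v ∧ Fsl c ∉ W v ∧ Fsl c ∉ W (M j v)
      · obtain ⟨c, h1, h2, h3⟩ := hr
        exact ⟨Fsl c, Or.inr (Or.inr (Or.inl ⟨hP, c, h1, h2, h3, rfl⟩))⟩
      · obtain ⟨x, hx⟩ := hR1 v j ⟨hP, hr⟩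
        exact ⟨NB + x, Or.inr (Or.inr (Or.inr ⟨⟨hP, hr⟩, x, hx, rfl⟩))⟩
    · rcases j with κ | ρ
      · exact ⟨slot κ, Or.inl ⟨κ, rfl, hP, rfl⟩⟩
      · have h1 : use v ρ ≠ none := hP
        obtain ⟨κ, hκ⟩ := Option.ne_none_iff_exists'.1 h1
        exact ⟨slot κ, Or.inr (Or.inl ⟨ρ, κ, rfl, hκ, rfl⟩)⟩
  have hsym : ∀ v j s, RelC M NB fin slot Fsl W use N' R v j s →
      RelC M NB fin slot Fsl W use N' R (M j v) j s := by
    intro v j s h
    rcases h with ⟨κ, hj, hP, hs⟩ | ⟨ρ, κ, hj, hu, hs⟩ | ⟨hP, c, h1, h2, h3, hs⟩ | ⟨⟨hP, hr⟩, x, hx, hs⟩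
    · refine Or.inl ⟨κ, hj, fun h => hP ?_, hs⟩
      have := hPs _ _ h
      rwa [hM.inv] at this
    · subst hj
      exact Or.inr (Or.inl ⟨ρ, κ, rfl, by rw [husym, hu], hs⟩)
    · refine Or.inr (Or.inr (Or.inl ⟨hPs _ _ hP, c, ?_, h3, ?_, hs⟩))
      · rw [← h1, hN'.inv, h1, hM.inv]
      · rw [hM.inv]
        exact h2
    · refine Or.inr (Or.inr (Or.inr ⟨⟨hPs _ _ hP, ?_⟩, x, ?_, hs⟩))
      · rintro ⟨c, h1, h2, h3⟩
        rw [hM.inv] at h1 h3
        refine hr ⟨c, ?_, h3, h2⟩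
        have := hN'.inv c (M j v)
        rw [h1] at this
        exact this
      · rw [← hx, hR.inv, hx, hM.inv]
  have huni : ∀ v j s s', RelC M NB fin slot Fsl W use N' R v j s →
      RelC M NB fin slot Fsl W use N' R v j s' → s = s' := by
    intro v j s s' h h'
    rcases h with ⟨κ, hj, hP, hs⟩ | ⟨ρ, κ, hj, hu, hs⟩ | ⟨hP, c, h1, h2, h3, hs⟩ | ⟨⟨hP, hr⟩, x, hx, hs⟩ <;>
    rcases h' with ⟨κ', hj', hP', hs'⟩ | ⟨ρ', κ', hj', hu', hs'⟩ | ⟨hP', c', h1', h2', h3', hs'⟩ |
      ⟨⟨hP', hr'⟩, x', hx', hs'⟩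
    · rw [hj] at hj'
      rw [hs, hs', Sum.inl.inj hj']
    · rw [hj] at hj'
      cases hj'
    · exact absurd hP' hP
    · exact absurd hP' hP
    · rw [hj] at hj'
      cases hj'
    · rw [hj] at hj'
      have e := Sum.inr.inj hj'
      rw [← e, hu] at hu'
      rw [hs, hs', Option.some.inj hu']
    · rw [hj] at hP'
      have : use v ρ = none := hP'
      rw [hu] at this
      cases this
    · rw [hj] at hP'
      have : use v ρ = none := hP'
      rw [hu] at this
      cases this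
    · exact absurd hP hP'
    · rw [hj'] at hP
      have : use v ρ' = none := hP
      rw [hu'] at this
      cases this
    · have hc : c = c' := by
        by_contra hcc
        exact hN'.dis c c' v hcc (by rw [h1]; exact hM.free j v) (by rw [h1, h1'])
      rw [hs, hs', hc]
    · exact absurd ⟨c, h1, h2, h3⟩ hr'
    · exact absurd hP hP'
    · rw [hj'] at hP
      have : use v ρ' = none := hP
      rw [hu'] at this
      cases this
    · exact absurd ⟨c', h1', h2', h3'⟩ hr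
    · have hc : x = x' := by
        by_contra hcc
        exact hR.dis x x' v hcc (by rw [hx]; exact hM.free j v) (by rw [hx, hx'])
      rw [hs, hs', hc]
  have hprop : ∀ v j j' s, RelC M NB fin slot Fsl W use N' R v j s →
      RelC M NB fin slot Fsl W use N' R v j' s → j = j' := by
    intro v j j' s h h'
    rcases h with ⟨κ, hj, hP, hs⟩ | ⟨ρ, κ, hj, hu, hs⟩ | ⟨hP, c, h1, h2, h3, hs⟩ | ⟨⟨hP, hr⟩, x, hx, hs⟩ <;>
    rcases h' with ⟨κ', hj', hP', hs'⟩ | ⟨ρ', κ', hj', hu', hs'⟩ | ⟨hP', c', h1', h2', h3', hs'⟩ |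
      ⟨⟨hP', hr'⟩, x', hx', hs'⟩ <;> rw [hs] at hs'
    · rw [hj, hj', hslot hs']
    · have e := hslot hs'
      subst e
      subst hj
      exact absurd (Or.inr (huaw v ρ' κ hu').2) hP
    · exact absurd hs' (hne κ c')
    · have := hslotN κ
      omega
    · have e := hslot hs'
      subst e
      subst hj'
      exact absurd (Or.inr (huaw v ρ κ hu).2) hP'
    · have e := hslot hs'
      subst e
      rw [hj, hj', huinj v ρ ρ' κ hu hu']
    · exact absurd hs' (hne κ c')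
    · have := hslotN κ
      omega
    · exact absurd hs'.symm (hne κ' c)
    · exact absurd hs'.symm (hne κ' c)
    · have e := hFsl hs'
      subst e
      exact hMd (h1.symm.trans h1')
    · have := hFslN c
      omega
    · have := hslotN κ'
      omega
    · have := hslotN κ'
      omega
    · have := hFslN c'
      omega
    · have e : x = x' := Fin.ext (by omega)
      subst e
      exact hMd (hx.symm.trans hx')
  have haw : ∀ v j s, RelC M NB fin slot Fsl W use N' R v j s → s ∉ W v := by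
    intro v j s h
    rcases h with ⟨κ, hj, hP, hs⟩ | ⟨ρ, κ, hj, hu, hs⟩ | ⟨hP, c, h1, h2, h3, hs⟩ | ⟨⟨hP, hr⟩, x, hx, hs⟩
    · rw [hs]
      subst hj
      exact fun h => hP (Or.inl h)
    · rw [hs]
      exact (huaw v ρ κ hu).1
    · rw [hs]
      exact h2
    · intro h
      have := hWN v s h
      omega
  have hbd : ∀ v j s, RelC M NB fin slot Fsl W use N' R v j s → s < NB + fin := by
    intro v j s h
    rcases h with ⟨κ, hj, hP, hs⟩ | ⟨ρ, κ, hj, hu, hs⟩ | ⟨hP, c, h1, h2, h3, hs⟩ | ⟨⟨hP, hr⟩, x, hx, hs⟩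
    · have := hslotN κ
      omega
    · have := hslotN κ
      omega
    · have := hFslN c
      omega
    · have := x.2
      omega
  choose e he using hex
  refine ⟨e, fun v j => huni _ _ _ _ (he (M j v) j) (hsym _ _ _ (he v j)), fun v j j' h => ?_,
    fun v j => haw v j _ (he v j), fun v j => hbd v j _ (he v j)⟩
  have h2 := he v j'
  rw [← h] at h2
  exact hprop v j j' _ (he v j) h2

end Pool.Agent.H67.HY
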