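/-
ROW VF. Vizing's theorem for a set of edges of a 1-factorised graph.
PROOF. Let `G : SimpleGraph V` with `G.Adj v w ↔ ∃ j, P v j ∧ M j v = w` (symmetric by `hM.inv`, `hP`; irreflexive by `hM.free`). `G.neighborSet v ⊆` image of `{j : P v j}`
under `j ↦ M j v`, so `ncard ≤ D`. `H28.vizing` gives `c : Sym2 V → ℕ`, colours `< D + 1 ≤ card C`; let `E : C ≃ Fin (card C)` (`Fintype.equivFin`).
`N x v = w` if there is `w` with `G.Adj v w ∧ c s(v,w) = E x` (unique by properness), else `v`. `N x (N x v) = v`: `c s(w,v) = c s(v,w)` (`Sym2.eq_swap`).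
`dis`: if `N x v = w ≠ v` and `N y v = w` then `E x = c s(v,w) = E y`. For `P v j`: `x = E.symm ⟨c s(v, M j v), _⟩`.
-/
import Pool.Agent.H67.HY.Defs

set_option autoImplicit false

namespace Pool.Agent.H67.HY

open Finset
open Classical

/-- the graph -/
def VF_G {V J : Type} (M : J → V → V) (hM : IsFac M)
    (P : V → J → Prop) (hP : ∀ v j, P v j → P (M j v) j) : SimpleGraph V where
  Adj v w := ∃ j, P v j ∧ M j v = w
  symm := ⟨by
    rintro v w ⟨j, h1, rfl⟩
    exact ⟨j, hP v j h1, hM.inv j v⟩⟩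
  loopless := ⟨by
    rintro v ⟨j, _, h2⟩
    exact hM.free j v h2⟩

theorem viz_fam {V J C : Type} [Fintype V] [Fintype J] [Fintype C] (M : J → V → V) (hM : IsFac M)
    (P : V → J → Prop) (hP : ∀ v j, P v j → P (M j v) j) (D : ℕ)
    (hD : ∀ v, (univ.filter (fun j => P v j)).card ≤ D) (hC : D + 1 ≤ Fintype.card C) :
    ∃ N : C → V → V, IsFam N ∧ (∀ c v, N c v ≠ v → ∃ j, P v j ∧ N c v = M j v) ∧
      (∀ v j, P v j → ∃ c, N c v = M j v) := by
  have hadj : ∀ v w, (VF_G M hM P hP).Adj v w ↔ ∃ j, P v j ∧ M j v = w := fun _ _ => Iff.rfl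
  have hdeg : ∀ v, ((VF_G M hM P hP).neighborSet v).ncard ≤ D := by
    intro v
    have h1 : (VF_G M hM P hP).neighborSet v ⊆
        ((univ.filter (fun j => P v j)).image (fun j => M j v) : Finset V) := by
      intro w hw
      obtain ⟨j, h1, h2⟩ := (hadj v w).1 hw
      rw [mem_coe, mem_image]
      exact ⟨j, mem_filter.2 ⟨mem_univ _, h1⟩, h2⟩
    refine (Set.ncard_le_ncard h1 (finite_toSet _)).trans ?_
    rw [Set.ncard_coe_finset]
    exact card_image_le.trans (hD v)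
  obtain ⟨c, hc1, hc2⟩ := Pool.Agent.H28.vizing hdeg
  let E := Fintype.equivFin C
  have hN : ∀ (x : C) (v : V), ∃ w, ((VF_G M hM P hP).Adj v w ∧ c s(v, w) = (E x : ℕ)) ∨
      (w = v ∧ ∀ w', ¬ ((VF_G M hM P hP).Adj v w' ∧ c s(v, w') = (E x : ℕ))) := by
    intro x v
    by_cases h : ∃ w, (VF_G M hM P hP).Adj v w ∧ c s(v, w) = (E x : ℕ)
    · obtain ⟨w, hw⟩ := h
      exact ⟨w, Or.inl hw⟩
    · exact ⟨v, Or.inr ⟨rfl, fun w' hw' => h ⟨w', hw'⟩⟩⟩
  choose N hN using hN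
  have huni : ∀ v w w' (k : ℕ), (VF_G M hM P hP).Adj v w → c s(v, w) = k →
      (VF_G M hM P hP).Adj v w' → c s(v, w') = k → w = w' := by
    intro v w w' k h1 h2 h3 h4
    by_contra hne
    exact hc2 v w w' h1 h3 hne (h2.trans h4.symm)
  have hval : ∀ x v w, (VF_G M hM P hP).Adj v w → c s(v, w) = (E x : ℕ) → N x v = w := by
    intro x v w h1 h2
    rcases hN x v with h | h
    · exact huni v _ w _ h.1 h.2 h1 h2
    · exact absurd ⟨h1, h2⟩ (h.2 w)
  have hne : ∀ x v, N x v ≠ v → (VF_G M hM P hP).Adj v (N x v) ∧ c s(v, N x v) = (E x : ℕ) := by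
    intro x v h
    rcases hN x v with h1 | h1
    · exact h1
    · exact absurd h1.1 h
  refine ⟨N, ⟨?_, ?_⟩, ?_, ?_⟩
  · intro x v
    by_cases h : N x v = v
    · rw [h, h]
    · obtain ⟨h1, h2⟩ := hne x v h
      refine hval x (N x v) v h1.symm ?_
      rw [Sym2.eq_swap]
      exact h2
  · intro x y v hxy h heq
    obtain ⟨h1, h2⟩ := hne x v h
    have h' : N y v ≠ v := by rw [← heq]; exact h
    obtain ⟨h3, h4⟩ := hne y v h'
    rw [← heq, h2] at h4
    exact hxy (E.injective (Fin.ext h4))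
  · intro x v h
    obtain ⟨⟨j, h1, h2⟩, _⟩ := hne x v h
    exact ⟨j, h1, h2.symm⟩
  · intro v j hPj
    have h1 : (VF_G M hM P hP).Adj v (M j v) := ⟨j, hPj, rfl⟩
    have h2 := hc1 v (M j v) h1
    refine ⟨E.symm ⟨c s(v, M j v), by omega⟩, ?_⟩
    refine hval _ v (M j v) h1 ?_
    rw [Equiv.apply_symm_apply]

end Pool.Agent.H67.HY
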