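/-
ROW Pool. The pool lemma (assembly; 60 lines).
-/
import Pool.Agent.H67.HY.VF
import Pool.Agent.H67.HY.PoA
import Pool.Agent.H67.HY.PoB
import Pool.Agent.H67.HY.PoC
import Pool.Agent.H67.HY.KF

set_option autoImplicit false

namespace Pool.Agent.H67.HY

open Finset
open Classical

theorem pool {V : Type} [Fintype V] {nb r k g0 : ℕ} (M : Fin nb ⊕ Fin r → V → V)
    (hM : IsFac M) (NB bb u fin : ℕ) (slot : Fin nb → ℕ) (Fsl : Col k g0 → ℕ) (W : V → Finset ℕ)
    (hslot : Function.Injective slot) (hFsl : Function.Injective Fsl)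
    (hne : ∀ κ c, slot κ ≠ Fsl c) (hslotN : ∀ κ, slot κ < NB) (hFslN : ∀ c, Fsl c < NB)
    (hWN : ∀ v, ∀ s ∈ W v, s < NB)
    (hWb : ∀ v, (univ.filter (fun κ => slot κ ∈ W v)).card ≤ bb)
    (hWg : ∀ v, (univ.filter (fun c => Fsl c ∈ W v)).card ≤ g0)
    (hWT : ∀ v, (univ.filter (fun y : Fin k → Bool => ∃ j, Fsl (y, j) ∈ W v)).card ≤ 2)
    (use : V → Fin r → Option (Fin nb))
    (husym : ∀ v ρ, use (M (Sum.inr ρ) v) ρ = use v ρ)
    (huaw : ∀ v ρ κ, use v ρ = some κ → slot κ ∉ W v ∧ slot κ ∈ W (M (Sum.inl κ) v))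
    (huinj : ∀ v ρ ρ' κ, use v ρ = some κ → use v ρ' = some κ → ρ = ρ')
    (hunrep : ∀ v, (univ.filter (fun κ => slot κ ∉ W v ∧ slot κ ∈ W (M (Sum.inl κ) v) ∧
      ∀ ρ, use v ρ ≠ some κ)).card ≤ u)
    (f : ℕ) (hf : f = 2 ^ k * g0) (hfr : r + bb + u + 1 ≤ f) (hf100 : 100 ≤ f)
    (hfin : 5 * (g0 : ℝ) + 4000 * Real.log f + 2 * k + 1 ≤ fin) :
    ∃ e : V → Fin nb ⊕ Fin r → ℕ, (∀ v j, e (M j v) j = e v j) ∧
      (∀ v j j', e v j = e v j' → j = j') ∧ (∀ v j, e v j ∉ W v) ∧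
      (∀ v j, e v j < NB + fin) := by
  have hsym := poolP_symm M hM slot W use husym
  have hdeg := fun v => pool_degree M slot W use bb u v (hWb v) (hunrep v)
  have hcard : Fintype.card (Col k g0) = f := by
    rw [hf]; simp [Col]
  obtain ⟨N, hN, hN2, hN1⟩ := viz_fam (C := Col k g0) M hM (poolP M slot W use)
    (fun v j h => hsym v j h) (bb + u + r) hdeg (by rw [hcard]; omega)
  obtain ⟨N', hN', hsub, hlost, hconf⟩ := kempe N hN
    (fun x => univ.filter (fun y : Fin k → Bool => ∃ j, Fsl (y, j) ∈ W x)) hWT f hf hf100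
  have hrest : ∀ v, ((univ.filter (fun j =>
      restP M (poolP M slot W use) N' Fsl W v j)).card : ℝ) ≤
      2 * k + g0 + (4 * g0 + 4000 * Real.log f) := fun v =>
    rest_degree M hM (poolP M slot W use) N N' hN1 Fsl W v (hWg v) (hlost v) _ (hconf v)
  have hlog : 0 ≤ Real.log f := Real.log_natCast_nonneg f
  have hfin1 : 1 ≤ fin := by
    have h1 : (1 : ℝ) ≤ fin := by
      have : (0 : ℝ) ≤ g0 := Nat.cast_nonneg _
      have : (0 : ℝ) ≤ k := Nat.cast_nonneg _
      linarith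
    exact_mod_cast h1
  have hrest' : ∀ v, (univ.filter (fun j =>
      restP M (poolP M slot W use) N' Fsl W v j)).card ≤ fin - 1 := by
    intro v
    have h1 := hrest v
    have h2 : ((univ.filter (fun j =>
      restP M (poolP M slot W use) N' Fsl W v j)).card : ℝ) + 1 ≤ fin := by linarith
    have h3 : (univ.filter (fun j =>
      restP M (poolP M slot W use) N' Fsl W v j)).card + 1 ≤ fin := by exact_mod_cast h2
    omega
  obtain ⟨R, hR, -, hR1⟩ := viz_fam (C := Fin fin) M hM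
    (restP M (poolP M slot W use) N' Fsl W) (by
      rintro v j ⟨h1, h2⟩
      refine ⟨hsym v j h1, ?_⟩
      rintro ⟨c, hc, hc1, hc2⟩
      apply h2
      rw [hM.inv] at hc hc2
      refine ⟨c, ?_, hc2, hc1⟩
      have := hN'.inv c (M j v)
      rw [hc] at this
      exact this) (fin - 1) hrest' (by simp; omega)
  exact pool_final M hM NB fin slot Fsl W hslot hFsl hne hslotN hFslN hWN use husym huaw huinj
    (fun v j h => hsym v j h) N' hN' R hR hR1

end Pool.Agent.H67.HY
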