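/-
ROW Llb. Local lemma for events in balls.
PROOF. `(ball M v k).card ≤ (n+1)^k`, `n = card J` (induction: `card (ball (k+1)) ≤ c + n c`). If `ball M v r` and `ball M w r` meet then `w ∈ ball M v (2r)` (`ball_ball`, and `x ∈ ball M w r → w ∈ ball M x r` by induction using that every `M j` is an involution). So with `N v = ball M v r`,
`#{w : w ≠ v ∧ ¬ Disjoint ..} ≤ (n+1)^(2r) =: d`. `H28.local_lemma` with `A v = univ.filter (bad v)`, `ι = V`; `4 q d ≤ 1` is `h4`, `4 q ≤ 4 q d ≤ 1`.
-/
import Pool.Agent.H67.HY.Loc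

set_option autoImplicit false

namespace Pool.Agent.H67.HY

open Finset
open Classical

theorem Llb_card {V J : Type} [Fintype J] (M : J → V → V) (v : V) (k : ℕ) :
    (ball M v k).card ≤ (Fintype.card J + 1) ^ k := by
  induction k with
  | zero =>
    change ({v} : Finset V).card ≤ _
    rw [card_singleton, pow_zero]
  | succ k ih =>
    change (ball M v k ∪ (univ : Finset J).biUnion (fun j => (ball M v k).image (M j))).card ≤ _
    have h1 : ((univ : Finset J).biUnion (fun j => (ball M v k).image (M j))).card ≤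
        Fintype.card J * (ball M v k).card := by
      refine card_biUnion_le.trans ?_
      refine (sum_le_sum fun j _ => card_image_le).trans ?_
      rw [sum_const, card_univ, smul_eq_mul]
    calc _ ≤ (ball M v k).card + Fintype.card J * (ball M v k).card :=
          (card_union_le _ _).trans (Nat.add_le_add_left h1 _)
      _ = (ball M v k).card * (Fintype.card J + 1) := by ring
      _ ≤ (Fintype.card J + 1) ^ k * (Fintype.card J + 1) := Nat.mul_le_mul_right _ ih
      _ = (Fintype.card J + 1) ^ (k + 1) := (pow_succ _ _).symm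

theorem Llb_one {V J : Type} [Fintype J] (M : J → V → V) (x : V) (j : J) : M j x ∈ ball M x 1 := by
  change M j x ∈ ({x} : Finset V) ∪ (univ : Finset J).biUnion (fun j => ({x} : Finset V).image (M j))
  rw [mem_union, mem_biUnion]
  exact Or.inr ⟨j, mem_univ j, mem_image.2 ⟨x, mem_singleton_self x, rfl⟩⟩

theorem Llb_symm {V J : Type} [Fintype J] (M : J → V → V) (hM : ∀ j v, M j (M j v) = v) (k : ℕ) :
    ∀ x w : V, x ∈ ball M w k → w ∈ ball M x k := by
  induction k with
  | zero =>
    intro x w hx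
    have h : x = w := mem_singleton.1 hx
    rw [h]
    exact mem_singleton_self w
  | succ k ih =>
    intro x w hx
    have hx' : x ∈ ball M w k ∪ (univ : Finset J).biUnion (fun j => (ball M w k).image (M j)) := hx
    rw [mem_union, mem_biUnion] at hx'
    rcases hx' with h | ⟨j, _, h⟩
    · exact ball_mono M x (Nat.le_succ k) (ih x w h)
    · obtain ⟨y, hy, rfl⟩ := mem_image.1 h
      have h1 := ih y w hy
      have h2 := Llb_one M (M j y) j
      rw [hM] at h2
      have h3 := ball_ball M (M j y) y 1 k h2 h1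
      rw [Nat.add_comm] at h3
      exact h3

theorem ball_lll {V J κ : Type} [Fintype V] [Fintype J] [Fintype κ] [Nonempty κ]
    (M : J → V → V) (hM : ∀ j v, M j (M j v) = v) (r : ℕ) (E : V → (V → κ) → Prop)
    (hloc : ∀ v ω ω', (∀ x ∈ ball M v r, ω x = ω' x) → E v ω → E v ω') (q : ℝ) (hq0 : 0 ≤ q)
    (hq : ∀ v, ((univ.filter (fun ω => E v ω)).card : ℝ) ≤ q * Fintype.card (V → κ))
    (h4 : 4 * q * ((Fintype.card J : ℝ) + 1) ^ (2 * r) ≤ 1) : ∃ ω : V → κ, ∀ v, ¬ E v ω := by
  have h1 : (1 : ℝ) ≤ ((Fintype.card J : ℝ) + 1) ^ (2 * r) := by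
    refine one_le_pow₀ ?_
    have : (0 : ℝ) ≤ Fintype.card J := Nat.cast_nonneg _
    linarith
  have h5 : 4 * q ≤ 1 := by
    refine le_trans ?_ h4
    exact le_mul_of_one_le_right (by linarith) h1
  obtain ⟨f, hf⟩ := Pool.Agent.H28.local_lemma (fun v => univ.filter (fun ω => E v ω))
    (fun v => ball M v r) (fun v ω ω' hω h => by
      rw [mem_filter] at h ⊢
      exact ⟨mem_univ _, hloc v ω ω' hω h.2⟩) ((Fintype.card J + 1) ^ (2 * r)) q hq0
    (fun v => by
      refine (card_le_card ?_).trans (Llb_card M v (2 * r))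
      intro w hw
      obtain ⟨_, _, hd⟩ := mem_filter.1 hw
      rw [not_disjoint_iff] at hd
      obtain ⟨z, hz1, hz2⟩ := hd
      have h6 := ball_ball M v z r r hz1 (Llb_symm M hM r z w hz2)
      rw [two_mul]
      exact h6) hq (by push_cast; exact h4) h5 Fintype.card_pos
  exact ⟨f, fun v hv => hf v (mem_filter.2 ⟨mem_univ _, hv⟩)⟩

end Pool.Agent.H67.HY
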