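import Pool.Agent.H67.HY.Defs

/-! Definitions for the repair lemma. -/

set_option autoImplicit false
set_option linter.unusedSectionVars false

namespace Pool.Agent.H67.HY

open Finset
open Classical

noncomputable section

variable {V : Type} {nb r : ℕ}

/-- `(v, κ)` is exposed: `v` is awake, its `κ`-partner is asleep and not exceptional. -/
def Ex (M : Fin nb ⊕ Fin r → V → V) (A : V → Fin nb → Prop) (Z : V → Prop) (v : V)
    (κ : Fin nb) : Prop :=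
  ¬ A v κ ∧ ¬ Z (M (Sum.inl κ) v) ∧ A (M (Sum.inl κ) v) κ

/-- The hypotheses (L1)-(L4) of the repair lemma. -/
structure GroupOK (M : Fin nb ⊕ Fin r → V → V) (A : V → Fin nb → Prop) (Z : V → Prop)
    (good : Fin nb → Prop) (a : Fin nb → ℝ) (δ : ℝ) (G h s3 : ℕ) : Prop where
  L1 : ∀ κ, good κ → ∀ v, |((univ.filter (fun ρ : Fin r =>
    ¬ Z (M (Sum.inl κ) (M (Sum.inr ρ) v)) ∧ A (M (Sum.inl κ) (M (Sum.inr ρ) v)) κ)).card : ℝ) -
      a κ| ≤ δ * a κ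
  L2 : ∀ κ, good κ → ∀ v, ((univ.filter (fun ρ : Fin r => A (M (Sum.inr ρ) v) κ ∧
    ¬ Z (M (Sum.inl κ) (M (Sum.inr ρ) v)) ∧ A (M (Sum.inl κ) (M (Sum.inr ρ) v)) κ)).card : ℝ) ≤
      δ * a κ
  L3 : ∀ κ κ', κ ≠ κ' → ∀ v, (univ.filter (fun ρ : Fin r =>
    (¬ Z (M (Sum.inl κ) (M (Sum.inr ρ) v)) ∧ A (M (Sum.inl κ) (M (Sum.inr ρ) v)) κ) ∧
    (¬ Z (M (Sum.inl κ') (M (Sum.inr ρ) v)) ∧
      A (M (Sum.inl κ') (M (Sum.inr ρ) v)) κ'))).card ≤ s3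
  L4 : ∀ v (g : ZMod G), (univ.filter (fun κ : Fin nb => ((κ : ℕ) : ZMod G) = g ∧
    ¬ Z (M (Sum.inl κ) v) ∧ A (M (Sum.inl κ) v) κ)).card ≤ h

/-- randomness of one vertex: a phase for every reservoir class and a side -/
abbrev PCoin (r G : ℕ) := (Fin r → ZMod G) × Bool

/-- phase of a reservoir edge -/
def tau {G : ℕ} (M : Fin nb ⊕ Fin r → V → V) (ω : V → PCoin r G) (v : V) (ρ : Fin r) : ZMod G :=
  (ω v).1 ρ + (ω (M (Sum.inr ρ) v)).1 ρ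

/-- number of candidates of `(v, κ)` -/
def dgr {G : ℕ} (M : Fin nb ⊕ Fin r → V → V) (A : V → Fin nb → Prop) (Z : V → Prop)
    (τ : V → Fin r → ZMod G) (side : V → Bool) (v : V) (κ : Fin nb) : ℕ :=
  (univ.filter (fun ρ : Fin r => Ex M A Z (M (Sum.inr ρ) v) κ ∧ τ v ρ = ((κ : ℕ) : ZMod G) ∧
    side (M (Sum.inr ρ) v) ≠ side v)).card

/-- the reservoir edge `(v, ρ)` has two common exposures in the class of its phase -/
def dup {G : ℕ} (M : Fin nb ⊕ Fin r → V → V) (A : V → Fin nb → Prop) (Z : V → Prop)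
    (τ : V → Fin r → ZMod G) (v : V) (ρ : Fin r) : Prop :=
  ∃ κ κ' : Fin nb, κ ≠ κ' ∧ Ex M A Z v κ ∧ Ex M A Z v κ' ∧ Ex M A Z (M (Sum.inr ρ) v) κ ∧
    Ex M A Z (M (Sum.inr ρ) v) κ' ∧ τ v ρ = ((κ : ℕ) : ZMod G) ∧ τ v ρ = ((κ' : ℕ) : ZMod G)

end

end Pool.Agent.H67.HY
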