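/-
ROW Seq. Sequential product bound.
PROOF. `seq_bound`: induction on `J.card` (generalising `J`). `J = ∅`: trivial. Otherwise let `v0 ∈ J` with maximal `rk` (`Finset.exists_max_image`), `J' = J.erase v0`; for `v ∈ J'`, `rk v < rk v0` by `hrk`, so for every
`σ, s`: `E v (update σ v0 s) ↔ E v σ` (`hdep` both ways: they agree at every `w` with `rk w ≤ rk v`, since `w ≠ v0`). The map `(σ, s) ↦ (update σ v0 s, σ v0)` is an involution of `(V → κ) × κ`, so
`card κ * #{σ : ∀ v ∈ J, E v σ} = ∑_σ #{s : ∀ v ∈ J, E v (update σ v0 s)} ≤ ∑_{σ : ∀ v∈J', E v σ} #{s : E v0 (update σ v0 s)} ≤ #{σ : ∀ v ∈ J', E v σ} * y v0 * card κ`. Divide by `card κ`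
(if `card κ = 0` then either `V` is empty, impossible as `v0 ∈ J`, or `V → κ` is empty and both sides are 0) and use the induction hypothesis for `J'`; `Finset.mul_prod_erase`.
`fib`: the map `(ω, σ) ↦ (upd i ω σ, fun v => (ω v i).2)` is an involution of `(V → Coin T N) × (V → Perm (Fin N))` (`upd i (upd i ω σ) (fun v => (ω v i).2) = ω`: `Function.update` twice), so
`card (V → Perm) * #{ω : Q ω} = ∑_ω #{σ : Q (upd i ω σ)} ≤ card Ω * q * card (V → Perm)`; divide by `card (V → Perm) > 0`.
-/
import Pool.Agent.H67.HY.Defs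

set_option autoImplicit false

namespace Pool.Agent.H67.HY

open Finset
open Classical

theorem seq_bound {V κ : Type} [Fintype V] [Fintype κ] (rk : V → ℤ) (J : Finset V)
    (hrk : ∀ v ∈ J, ∀ w ∈ J, rk v = rk w → v = w)
    (E : V → (V → κ) → Prop) (y : V → ℝ) (hy : ∀ v ∈ J, 0 ≤ y v)
    (hdep : ∀ v ∈ J, ∀ σ σ' : V → κ, (∀ w, rk w ≤ rk v → σ w = σ' w) → E v σ → E v σ')
    (hp : ∀ v ∈ J, ∀ σ : V → κ,
      ((univ.filter (fun s => E v (Function.update σ v s))).card : ℝ) ≤ y v * Fintype.card κ) :
    ((univ.filter (fun σ : V → κ => ∀ v ∈ J, E v σ)).card : ℝ) ≤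
      (∏ v ∈ J, y v) * Fintype.card (V → κ) := by
  obtain ⟨n, hn⟩ : ∃ n, J.card = n := ⟨_, rfl⟩
  induction n generalizing J with
  | zero =>
    rw [Finset.card_eq_zero] at hn
    subst hn
    simp
  | succ n ih =>
    have hne : J.Nonempty := by
      rw [← Finset.card_pos]
      omega
    obtain ⟨v0, hv0, hmax⟩ := J.exists_max_image rk hne
    have hsub : J.erase v0 ⊆ J := Finset.erase_subset _ _
    have hlt : ∀ v ∈ J.erase v0, rk v < rk v0 := by
      intro v hv
      rcases lt_or_eq_of_le (hmax v (hsub hv)) with h | h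
      · exact h
      · exact absurd (hrk v (hsub hv) v0 hv0 h) (Finset.ne_of_mem_erase hv)
    have IH := ih (J.erase v0) (fun v hv w hw => hrk v (hsub hv) w (hsub hw)) (fun v hv => hy v (hsub hv))
      (fun v hv => hdep v (hsub hv)) (fun v hv => hp v (hsub hv))
      (by rw [Finset.card_erase_of_mem hv0]; omega)
    set S := univ.filter (fun σ : V → κ => ∀ v ∈ J, E v σ) with hS
    set S' := univ.filter (fun σ : V → κ => ∀ v ∈ J.erase v0, E v σ) with hS'
    have hcard : S.card * Fintype.card κ ≤
        ∑ σ ∈ S', (univ.filter (fun s => E v0 (Function.update σ v0 s))).card := by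
      rw [← Finset.card_sigma, ← Finset.card_univ, ← Finset.card_product]
      apply Finset.card_le_card_of_injOn
        (fun p : (V → κ) × κ => (⟨Function.update p.1 v0 p.2, p.1 v0⟩ : Σ _ : V → κ, κ))
      · rintro ⟨τ, t⟩ hp'
        rw [Finset.mem_coe, Finset.mem_product] at hp'
        have hτ := (Finset.mem_filter.1 hp'.1).2
        rw [Finset.mem_coe, Finset.mem_sigma]
        refine ⟨Finset.mem_filter.2 ⟨Finset.mem_univ _, ?_⟩, Finset.mem_filter.2 ⟨Finset.mem_univ _, ?_⟩⟩
        · intro v hv
          refine hdep v (hsub hv) τ _ ?_ (hτ v (hsub hv))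
          intro w hw
          have hwne : w ≠ v0 := by
            rintro rfl
            exact absurd (hlt v hv) (not_lt.2 hw)
          exact (Function.update_of_ne hwne _ _).symm
        · show E v0 (Function.update (Function.update τ v0 t) v0 (τ v0))
          rw [Function.update_idem, Function.update_eq_self]
          exact hτ v0 hv0
      · rintro ⟨τ, t⟩ _ ⟨τ', t'⟩ _ h
        simp only [Sigma.mk.injEq, heq_eq_eq] at h
        obtain ⟨h1, h2⟩ := h
        have h3 : t = t' := by
          have := congrFun h1 v0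
          simpa using this
        have h4 : τ = τ' := by
          have h5 := congrArg (fun f => Function.update f v0 (τ v0)) h1
          simp only [Function.update_idem, Function.update_eq_self] at h5
          rw [h5, h2, Function.update_eq_self]
        rw [h3, h4]
    have hcard' : (S.card : ℝ) * Fintype.card κ ≤ S'.card * (y v0 * Fintype.card κ) := by
      calc (S.card : ℝ) * Fintype.card κ ≤
          ((∑ σ ∈ S', (univ.filter (fun s => E v0 (Function.update σ v0 s))).card : ℕ) : ℝ) := by
            exact_mod_cast hcard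
        _ = ∑ σ ∈ S', ((univ.filter (fun s => E v0 (Function.update σ v0 s))).card : ℝ) := by
            rw [Nat.cast_sum]
        _ ≤ ∑ σ ∈ S', y v0 * Fintype.card κ := Finset.sum_le_sum fun σ _ => hp v0 hv0 σ
        _ = S'.card * (y v0 * Fintype.card κ) := by rw [Finset.sum_const, nsmul_eq_mul]
    rcases Nat.eq_zero_or_pos (Fintype.card κ) with hκ | hκ
    · have : IsEmpty κ := Fintype.card_eq_zero_iff.1 hκ
      have hS0 : S = ∅ := by
        apply Finset.eq_empty_of_forall_notMem
        intro σ _
        exact IsEmpty.false (σ v0)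
      rw [hS0]
      have : 0 ≤ ∏ v ∈ J, y v := Finset.prod_nonneg hy
      simp only [Finset.card_empty, Nat.cast_zero]
      positivity
    · have hκ' : (0 : ℝ) < Fintype.card κ := by exact_mod_cast hκ
      have h1 : (S.card : ℝ) ≤ S'.card * y v0 := by
        rw [← mul_assoc] at hcard'
        exact le_of_mul_le_mul_right hcard' hκ'
      refine h1.trans ?_
      rw [← Finset.mul_prod_erase J y hv0]
      calc (S'.card : ℝ) * y v0 ≤ ((∏ v ∈ J.erase v0, y v) * Fintype.card (V → κ)) * y v0 :=
            mul_le_mul_of_nonneg_right IH (hy v0 hv0)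
        _ = (y v0 * ∏ v ∈ J.erase v0, y v) * Fintype.card (V → κ) := by ring

theorem fib {V : Type} [Fintype V] {T N : ℕ} (i : Fin T) (Q : (V → Coin T N) → Prop) (q : ℝ)
    (h : ∀ ω, ((univ.filter (fun σ : V → Equiv.Perm (Fin N) => Q (upd i ω σ))).card : ℝ) ≤
      q * Fintype.card (V → Equiv.Perm (Fin N))) :
    ((univ.filter (fun ω => Q ω)).card : ℝ) ≤ q * Fintype.card (V → Coin T N) := by
  have hback : ∀ (ω : V → Coin T N) (σ : V → Equiv.Perm (Fin N)),
      upd i (upd i ω σ) (fun v => (ω v i).2) = ω := by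
    intro ω σ
    funext v
    simp only [upd, Function.update_idem, Function.update_self, Prod.mk.eta, Function.update_eq_self]
  have hcard : (univ.filter (fun ω => Q ω)).card * Fintype.card (V → Equiv.Perm (Fin N)) ≤
      ∑ ω : V → Coin T N, (univ.filter (fun σ : V → Equiv.Perm (Fin N) => Q (upd i ω σ))).card := by
    rw [← Finset.card_sigma, ← Finset.card_univ, ← Finset.card_product]
    apply Finset.card_le_card_of_injOn
      (fun p : (V → Coin T N) × (V → Equiv.Perm (Fin N)) =>
        (⟨upd i p.1 p.2, fun v => (p.1 v i).2⟩ : Σ _ : V → Coin T N, V → Equiv.Perm (Fin N)))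
    · rintro ⟨ω, σ⟩ hp'
      rw [Finset.mem_coe, Finset.mem_product] at hp'
      have hτ := (Finset.mem_filter.1 hp'.1).2
      rw [Finset.mem_coe, Finset.mem_sigma]
      refine ⟨Finset.mem_univ _, Finset.mem_filter.2 ⟨Finset.mem_univ _, ?_⟩⟩
      show Q (upd i (upd i ω σ) (fun v => (ω v i).2))
      rw [hback]
      exact hτ
    · rintro ⟨ω, σ⟩ _ ⟨ω', σ'⟩ _ h'
      simp only [Sigma.mk.injEq, heq_eq_eq] at h'
      obtain ⟨h1, h2⟩ := h'
      have h3 : ω = ω' := by
        rw [← hback ω σ, ← hback ω' σ', h1, h2]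
      have h4 : σ = σ' := by
        funext v
        have h5 := congrFun (congrFun h1 v) i
        simp only [upd, Function.update_self, Prod.mk.injEq] at h5
        exact h5.2
      rw [h3, h4]
  have hpos : (0 : ℝ) < Fintype.card (V → Equiv.Perm (Fin N)) := by
    exact_mod_cast Fintype.card_pos
  have h1 : ((univ.filter (fun ω => Q ω)).card : ℝ) * Fintype.card (V → Equiv.Perm (Fin N)) ≤
      (q * Fintype.card (V → Coin T N)) * Fintype.card (V → Equiv.Perm (Fin N)) := by
    calc ((univ.filter (fun ω => Q ω)).card : ℝ) * Fintype.card (V → Equiv.Perm (Fin N)) ≤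
        ((∑ ω : V → Coin T N, (univ.filter (fun σ : V → Equiv.Perm (Fin N) => Q (upd i ω σ))).card : ℕ) : ℝ) := by
          exact_mod_cast hcard
      _ = ∑ ω : V → Coin T N, ((univ.filter (fun σ : V → Equiv.Perm (Fin N) => Q (upd i ω σ))).card : ℝ) := by
          rw [Nat.cast_sum]
      _ ≤ ∑ ω : V → Coin T N, q * Fintype.card (V → Equiv.Perm (Fin N)) :=
          Finset.sum_le_sum fun ω _ => h ω
      _ = (q * Fintype.card (V → Coin T N)) * Fintype.card (V → Equiv.Perm (Fin N)) := by
          rw [Finset.sum_const, nsmul_eq_mul, Finset.card_univ]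
          ring
  exact le_of_mul_le_mul_right h1 hpos

end Pool.Agent.H67.HY
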