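/-
ROW RPa. Random phases: degrees.
PROOF. Let `Ω = V → PCoin r G`, `S = {ρ : Ex M A Z (M (inr ρ) v) κ}`; `Ex (M ρ v) κ` is L1-condition and not `A (M ρ v) κ`, so `|S| = #L1-set - #L2-set ∈ [(1-2δ)a, (1+δ)a]`, `a = a κ > 0` (`16 G Λ ≤ δ² a`).
`B ρ ω := tau M ω v ρ = κ ∧ (ω (M ρ v)).2 ≠ (ω v).2`. `dgr M A Z (tau M ω) (fun x => (ω x).2) v κ = #{ρ ∈ S : B ρ ω}`.
For `J ⊆ S`: `#{ω : ∀ ρ ∈ J, B ρ ω} ≤ (1/(2G))^|J| |Ω|` and `#{ω : ∀ ρ ∈ J, ¬ B ρ ω} ≤ (1 - 1/(2G))^|J| |Ω|`: `seq_bound` with the vertex set `W = image of J under ρ ↦ M (inr ρ) v` (injective: `hM.dis`; `v ∉ W`: `hM.free`), rank `rk v = -1`, `rk w = index ≥ 0` (`Fintype.equivFin`) for `w ≠ v`,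
`E w ω := ∀ ρ ∈ J, M (inr ρ) v = w → B ρ ω` (resp. `¬ B ρ ω`): it involves `ω v`, `ω w` only. `hp`: for `w = M ρ v ≠ v` and fixed `ω v`: `#{s : PCoin r G | (ω v).1 ρ + s.1 ρ = κ ∧ s.2 ≠ (ω v).2} = card/(2G)` (one value of `s.1 ρ`, one of `s.2`; `card_box` for `Fin r → ZMod G`, `ZMod.card`).
Upper tail: `chernoff_upper` with `m = 1`, `w = 1`, `y = 1/(2G)`, `μ = (1+δ) a/(2G)`, `t = δ a/(2G)`: `μ + t ≤ (1+3δ) a/(2G)`, `t²/(4μ) = δ² a/(8G(1+δ)) ≥ Λ`, `t/2 = δ a/(4G) ≥ Λ`. Lower tail: `chernoff_lower` with `μ = (1-2δ)a/(2G)`, `t = δ a/(2G) ≤ μ`, `μ - t = (1-3δ)a/(2G)`, `t²/(4μ) ≥ δ² a/(8G) ≥ Λ`.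
Sum: `2 exp(-Λ)`.
-/
import Pool.Agent.H67.HY.GC
import Pool.Agent.H67.HY.Box
import Pool.Agent.H67.HY.Seq
import Pool.Agent.H67.HY.RpD

set_option autoImplicit false

namespace Pool.Agent.H67.HY

open Finset
open Classical

theorem RPa_le {α : Type} (f1 f2 : Fintype α) (p q : α → Prop) (i1 : DecidablePred p)
    (i2 : DecidablePred q) (h : ∀ x, p x → q x) :
    ((@Finset.filter α p i1 (@Finset.univ α f1)).card : ℝ) ≤
      ((@Finset.filter α q i2 (@Finset.univ α f2)).card : ℝ) := by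
  rw [Subsingleton.elim f1 f2]
  refine Nat.cast_le.2 (Finset.card_le_card ?_)
  intro x hx
  rw [Finset.mem_filter] at hx ⊢
  exact ⟨@Finset.mem_univ α f2 x, h x hx.2⟩

theorem RPa_card {α : Type} (f1 f2 : Fintype α) :
    (@Fintype.card α f1 : ℝ) = (@Fintype.card α f2 : ℝ) := by
  rw [Subsingleton.elim f1 f2]

theorem RPa_seq {V : Type} [Fintype V] {nb r : ℕ} {κc : Type} [Fintype κc]
    (M : Fin nb ⊕ Fin r → V → V) (hM : IsFac M) (v : V) (J : Finset (Fin r))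
    (E' : Fin r → κc → κc → Prop) (q : ℝ) (hq : 0 ≤ q)
    (hE : ∀ ρ c, ((univ.filter (fun s => E' ρ c s)).card : ℝ) ≤ q * Fintype.card κc) :
    ((univ.filter (fun ω : V → κc => ∀ ρ ∈ J, E' ρ (ω v) (ω (M (Sum.inr ρ) v)))).card : ℝ) ≤
      q ^ J.card * Fintype.card (V → κc) := by
  have hinj : Function.Injective (fun ρ : Fin r => M (Sum.inr ρ) v) := by
    intro ρ ρ' h
    by_contra hne
    exact hM.dis (Sum.inr ρ) (Sum.inr ρ') v (fun h' => hne (Sum.inr_injective h')) h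
  have hfree : ∀ ρ : Fin r, M (Sum.inr ρ) v ≠ v := fun ρ => hM.free _ v
  obtain ⟨rk, hrkv, hrk0, hrki⟩ : ∃ rk : V → ℤ, rk v = -1 ∧ (∀ w, w ≠ v → 0 ≤ rk w) ∧
      ∀ w w', w ≠ v → w' ≠ v → rk w = rk w' → w = w' := by
    refine ⟨fun w => if w = v then -1 else ((Fintype.equivFin V w : ℕ) : ℤ), by simp, ?_, ?_⟩
    · intro w hw
      simp only [if_neg hw]
      positivity
    · intro w w' hw hw' h
      simp only [if_neg hw, if_neg hw'] at h
      have h2 : (Fintype.equivFin V w : ℕ) = (Fintype.equivFin V w' : ℕ) := by exact_mod_cast h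
      exact (Fintype.equivFin V).injective (Fin.ext h2)
  have hmem : ∀ w ∈ J.image (fun ρ : Fin r => M (Sum.inr ρ) v), ∃ ρ ∈ J, M (Sum.inr ρ) v = w := by
    intro w hw
    exact Finset.mem_image.1 hw
  have hne : ∀ w ∈ J.image (fun ρ : Fin r => M (Sum.inr ρ) v), w ≠ v := by
    intro w hw
    obtain ⟨ρ, -, rfl⟩ := hmem w hw
    exact hfree ρ
  refine le_trans ?_ (le_trans (seq_bound (κ := κc) rk (J.image (fun ρ : Fin r => M (Sum.inr ρ) v))
    (fun w hw w' hw' h => hrki w w' (hne w hw) (hne w' hw') h)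
    (fun w σ => ∀ ρ ∈ J, M (Sum.inr ρ) v = w → E' ρ (σ v) (σ w)) (fun _ => q) (fun _ _ => hq) ?_ ?_)
    (le_of_eq ?_))
  · refine RPa_le _ _ _ _ _ _ ?_
    intro ω hω w hw ρ hρ he
    rw [← he]
    exact hω ρ hρ
  · intro w hw σ σ' h hE1 ρ hρ he
    have h1 := h v (by rw [hrkv]; linarith [hrk0 w (hne w hw)])
    have h2 := h w le_rfl
    rw [← h1, ← h2]
    exact hE1 ρ hρ he
  · intro w hw σ
    obtain ⟨ρ, hρ, he⟩ := hmem w hw
    refine le_trans ?_ (hE ρ (σ v))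
    refine RPa_le _ _ _ _ _ _ ?_
    intro s hs
    have h2 := hs ρ hρ he
    rw [Function.update_self, Function.update_of_ne (hne w hw).symm] at h2
    exact h2
  · rw [Finset.prod_const, Finset.card_image_of_injective _ hinj]

theorem RPa_count {r G : ℕ} [NeZero G] (ρ : Fin r) (z : ZMod G) (b : Bool) :
    ((univ.filter (fun s : PCoin r G => s.1 ρ = z ∧ s.2 ≠ b)).card : ℝ) =
      1 / (2 * G) * Fintype.card (PCoin r G) := by
  have h1 : (univ.filter (fun s : PCoin r G => s.1 ρ = z ∧ s.2 ≠ b)) =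
      (univ.filter (fun f : Fin r → ZMod G => ∀ p ∈ ({ρ} : Finset (Fin r)), f p = z)) ×ˢ
        (univ.filter (fun c : Bool => c ≠ b)) := by
    ext s
    simp only [Finset.mem_filter, Finset.mem_univ, true_and, Finset.mem_product,
      Finset.mem_singleton, forall_eq]
  have h2 : (univ.filter (fun c : Bool => c ≠ b)).card = 1 := by
    rw [Finset.card_eq_one]
    refine ⟨!b, ?_⟩
    ext c
    cases b <;> cases c <;> simp
  have h3 := card_box_eq ({ρ} : Finset (Fin r)) z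
  have h4 : ((univ.filter (fun f : Fin r → ZMod G => ∀ p ∈ ({ρ} : Finset (Fin r)), f p = z)).card : ℝ) =
      (1 / (Fintype.card (ZMod G) : ℝ)) ^ ({ρ} : Finset (Fin r)).card *
        Fintype.card (Fin r → ZMod G) := by
    rw [RPa_card (α := Fin r → ZMod G) _ _] at h3
    rw [← h3]
    exact le_antisymm (RPa_le _ _ _ _ _ _ fun _ h => h) (RPa_le _ _ _ _ _ _ fun _ h => h)
  rw [h1, Finset.card_product, Nat.cast_mul, h4, Finset.card_singleton, pow_one, ZMod.card,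
    h2, Fintype.card_prod, Fintype.card_bool]
  push_cast
  have hG : (G:ℝ) ≠ 0 := by exact_mod_cast NeZero.ne G
  field_simp

theorem RPa_neg {r G : ℕ} [NeZero G] (ρ : Fin r) (z : ZMod G) (c : PCoin r G) :
    ((univ.filter (fun s : PCoin r G => ¬ (c.1 ρ + s.1 ρ = z ∧ s.2 ≠ c.2))).card : ℝ) ≤
      (1 - 1 / (2 * (G:ℝ))) * Fintype.card (PCoin r G) := by
  have h1 := RPa_count (r := r) ρ (z - c.1 ρ) c.2
  have h2 := Finset.card_filter_add_card_filter_not (s := (univ : Finset (PCoin r G)))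
    (fun s : PCoin r G => s.1 ρ = z - c.1 ρ ∧ s.2 ≠ c.2)
  have h3 : ((univ.filter (fun s : PCoin r G => s.1 ρ = z - c.1 ρ ∧ s.2 ≠ c.2)).card : ℝ) +
      ((univ.filter (fun s : PCoin r G => ¬ (s.1 ρ = z - c.1 ρ ∧ s.2 ≠ c.2))).card : ℝ) =
      Fintype.card (PCoin r G) := by
    rw [← Finset.card_univ]
    exact_mod_cast h2
  have h4 : ((univ.filter (fun s : PCoin r G => ¬ (c.1 ρ + s.1 ρ = z ∧ s.2 ≠ c.2))).card : ℝ) ≤
      ((univ.filter (fun s : PCoin r G => ¬ (s.1 ρ = z - c.1 ρ ∧ s.2 ≠ c.2))).card : ℝ) := by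
    refine RPa_le _ _ _ _ _ _ ?_
    intro s hs h
    refine hs ⟨?_, h.2⟩
    rw [h.1]
    ring
  rw [sub_mul, one_mul, ← h1]
  linarith

theorem phase_degree {V : Type} [Fintype V] {nb r : ℕ} (M : Fin nb ⊕ Fin r → V → V)
    (hM : IsFac M) (A : V → Fin nb → Prop) (Z : V → Prop) (good : Fin nb → Prop)
    (a : Fin nb → ℝ) (δ Λ : ℝ) (G h s3 : ℕ) [NeZero G] (hδ0 : 0 < δ) (hδ : δ ≤ 1 / 10)
    (hΛ0 : 0 < Λ) (hOK : GroupOK M A Z good a δ G h s3) (κ : Fin nb) (hκ : good κ)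
    (ha : 16 * G * Λ ≤ δ ^ 2 * a κ) (v : V) :
    ((univ.filter (fun ω : V → PCoin r G =>
      ¬ ((1 - 3 * δ) * (a κ / (2 * G)) ≤ dgr M A Z (tau M ω) (fun x => (ω x).2) v κ ∧
        dgr M A Z (tau M ω) (fun x => (ω x).2) v κ ≤ (1 + 3 * δ) * (a κ / (2 * G))))).card : ℝ) ≤
      2 * Real.exp (-Λ) * Fintype.card (V → PCoin r G) := by
  have hG : (0:ℝ) < G := by exact_mod_cast Nat.pos_of_ne_zero (NeZero.ne G)
  have hG1 : (1:ℝ) ≤ G := by exact_mod_cast Nat.pos_of_ne_zero (NeZero.ne G)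
  have ha0 : 0 < a κ := by
    have h1 : 0 < 16 * (G:ℝ) * Λ := by positivity
    have h2 : 0 < δ ^ 2 * a κ := lt_of_lt_of_le h1 ha
    exact (mul_pos_iff_of_pos_left (by positivity)).1 h2
  obtain ⟨S, hS⟩ : ∃ S : Finset (Fin r),
      S = univ.filter (fun ρ : Fin r => Ex M A Z (M (Sum.inr ρ) v) κ) := ⟨_, rfl⟩
  have hL1 := abs_le.1 (hOK.L1 κ hκ v)
  have hL2 := hOK.L2 κ hκ v
  have hcard : (univ.filter (fun ρ : Fin r =>
    ¬ Z (M (Sum.inl κ) (M (Sum.inr ρ) v)) ∧ A (M (Sum.inl κ) (M (Sum.inr ρ) v)) κ)).card =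
      S.card + (univ.filter (fun ρ : Fin r => A (M (Sum.inr ρ) v) κ ∧
    ¬ Z (M (Sum.inl κ) (M (Sum.inr ρ) v)) ∧ A (M (Sum.inl κ) (M (Sum.inr ρ) v)) κ)).card := by
    have hd : Disjoint S (univ.filter (fun ρ : Fin r => A (M (Sum.inr ρ) v) κ ∧
        ¬ Z (M (Sum.inl κ) (M (Sum.inr ρ) v)) ∧ A (M (Sum.inl κ) (M (Sum.inr ρ) v)) κ)) := by
      rw [hS, Finset.disjoint_left]
      intro ρ h1 h2
      rw [Finset.mem_filter] at h1 h2
      exact h1.2.1 h2.2.1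
    rw [← Finset.card_union_of_disjoint hd, hS]
    refine congrArg Finset.card ?_
    ext ρ
    simp only [Ex, Finset.mem_union, Finset.mem_filter, Finset.mem_univ, true_and]
    tauto
  rw [hcard] at hL1
  push_cast at hL1
  have hnn : (0:ℝ) ≤ ((univ.filter (fun ρ : Fin r => A (M (Sum.inr ρ) v) κ ∧
    ¬ Z (M (Sum.inl κ) (M (Sum.inr ρ) v)) ∧ A (M (Sum.inl κ) (M (Sum.inr ρ) v)) κ)).card : ℝ) :=
    Nat.cast_nonneg _
  have hS1 : (1 - 2 * δ) * a κ ≤ S.card := by linarith [hL1.1]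
  have hS2 : (S.card : ℝ) ≤ (1 + δ) * a κ := by linarith [hL1.2]
  obtain ⟨B, hB⟩ : ∃ B : Fin r → (V → PCoin r G) → Prop, ∀ ρ ω, B ρ ω ↔
      ((ω v).1 ρ + (ω (M (Sum.inr ρ) v)).1 ρ = ((κ : ℕ) : ZMod G) ∧
        (ω (M (Sum.inr ρ) v)).2 ≠ (ω v).2) :=
    ⟨fun ρ ω => ((ω v).1 ρ + (ω (M (Sum.inr ρ) v)).1 ρ = ((κ : ℕ) : ZMod G) ∧
        (ω (M (Sum.inr ρ) v)).2 ≠ (ω v).2), fun _ _ => Iff.rfl⟩
  have hsum : ∀ ω : V → PCoin r G, (∑ ρ ∈ S, if B ρ ω then (1:ℝ) else 0) =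
      dgr M A Z (tau M ω) (fun x => (ω x).2) v κ := by
    intro ω
    unfold dgr
    rw [Finset.sum_boole]
    refine congrArg _ (congrArg Finset.card ?_)
    ext ρ
    rw [hS, Finset.mem_filter, Finset.mem_filter, Finset.mem_filter, hB]
    unfold tau
    tauto
  -- intersections
  have hpos : ∀ J ⊆ S, ((univ.filter (fun ω : V → PCoin r G => ∀ ρ ∈ J, B ρ ω)).card : ℝ) ≤
      (∏ ρ ∈ J, (1 / (2 * (G:ℝ)))) * Fintype.card (V → PCoin r G) := by
    intro J _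
    rw [Finset.prod_const]
    refine le_trans ?_ (RPa_seq (κc := PCoin r G) M hM v J
      (fun ρ c s => c.1 ρ + s.1 ρ = ((κ : ℕ) : ZMod G) ∧ s.2 ≠ c.2)
      (1 / (2 * (G:ℝ))) (by positivity) ?_)
    · refine RPa_le _ _ _ _ _ _ ?_
      intro ω hω ρ hρ
      exact (hB ρ ω).1 (hω ρ hρ)
    · intro ρ c
      rw [← RPa_count (r := r) ρ (((κ : ℕ) : ZMod G) - c.1 ρ) c.2]
      refine RPa_le _ _ _ _ _ _ ?_
      intro s hs
      refine ⟨?_, hs.2⟩
      rw [eq_sub_iff_add_eq, add_comm]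
      exact hs.1
  have hneg : ∀ J ⊆ S, ((univ.filter (fun ω : V → PCoin r G => ∀ ρ ∈ J, ¬ B ρ ω)).card : ℝ) ≤
      (∏ ρ ∈ J, (1 - 1 / (2 * (G:ℝ)))) * Fintype.card (V → PCoin r G) := by
    intro J _
    rw [Finset.prod_const]
    have h0 : 1 / (2 * (G:ℝ)) ≤ 1 := by
      rw [div_le_one (by positivity)]
      linarith
    refine le_trans ?_ (RPa_seq (κc := PCoin r G) M hM v J
      (fun ρ c s => ¬ (c.1 ρ + s.1 ρ = ((κ : ℕ) : ZMod G) ∧ s.2 ≠ c.2))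
      (1 - 1 / (2 * (G:ℝ))) (by linarith) ?_)
    · refine RPa_le _ _ _ _ _ _ ?_
      intro ω hω ρ hρ h
      exact hω ρ hρ ((hB ρ ω).2 h)
    · intro ρ c
      exact (RPa_le _ _ _ _ _ _ fun _ h => h).trans (RPa_neg ρ ((κ : ℕ) : ZMod G) c)
  have hcc : (0:ℝ) ≤ Fintype.card (V → PCoin r G) := Nat.cast_nonneg _
  -- upper tail
  have hup := chernoff_upper S B (fun _ => 1) (fun _ => 1 / (2 * (G:ℝ))) 1
    ((1 + δ) * (a κ / (2 * G))) (δ * (a κ / (2 * G))) one_pos (fun _ _ => zero_le_one)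
    (fun _ _ => le_rfl) (fun _ _ => by positivity)
    (fun J hJ => (RPa_le _ _ _ _ _ _ fun _ h => h).trans (hpos J hJ)) (by
      rw [Finset.sum_const, nsmul_eq_mul]
      calc (S.card : ℝ) * (1 / (2 * (G:ℝ)) * 1) = S.card / (2 * G) := by ring
        _ ≤ ((1 + δ) * a κ) / (2 * G) := div_le_div_of_nonneg_right hS2 (by positivity)
        _ = _ := by ring) (by positivity) (by positivity)
  have hlo := chernoff_lower S B (fun _ => 1) (fun _ => 1 / (2 * (G:ℝ))) 1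
    ((1 - 2 * δ) * (a κ / (2 * G))) (δ * (a κ / (2 * G))) one_pos (fun _ _ => zero_le_one)
    (fun _ _ => le_rfl) (fun _ _ => by positivity) (fun _ _ => by
      rw [div_le_one (by positivity)]
      linarith) (fun J hJ => (RPa_le _ _ _ _ _ _ fun _ h => h).trans (hneg J hJ)) (by
      rw [Finset.sum_const, nsmul_eq_mul]
      calc (1 - 2 * δ) * (a κ / (2 * G)) = ((1 - 2 * δ) * a κ) / (2 * G) := by ring
        _ ≤ S.card / (2 * G) := div_le_div_of_nonneg_right hS1 (by positivity)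
        _ = _ := by ring) (mul_pos (by linarith) (by positivity)) (by positivity)
    (mul_le_mul_of_nonneg_right (by linarith) (by positivity))
  have hsub : ((univ.filter (fun ω : V → PCoin r G =>
      ¬ ((1 - 3 * δ) * (a κ / (2 * G)) ≤ dgr M A Z (tau M ω) (fun x => (ω x).2) v κ ∧
        dgr M A Z (tau M ω) (fun x => (ω x).2) v κ ≤ (1 + 3 * δ) * (a κ / (2 * G))))).card : ℝ) ≤
      ((univ.filter (fun ω : V → PCoin r G => (1 + δ) * (a κ / (2 * G)) + δ * (a κ / (2 * G)) ≤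
        ∑ ρ ∈ S, if B ρ ω then (1:ℝ) else 0)).card : ℝ) +
      ((univ.filter (fun ω : V → PCoin r G => (∑ ρ ∈ S, if B ρ ω then (1:ℝ) else 0) ≤
        (1 - 2 * δ) * (a κ / (2 * G)) - δ * (a κ / (2 * G)))).card : ℝ) := by
    have h1 : (univ.filter (fun ω : V → PCoin r G =>
      ¬ ((1 - 3 * δ) * (a κ / (2 * G)) ≤ dgr M A Z (tau M ω) (fun x => (ω x).2) v κ ∧
        dgr M A Z (tau M ω) (fun x => (ω x).2) v κ ≤ (1 + 3 * δ) * (a κ / (2 * G))))) ⊆
      (univ.filter (fun ω : V → PCoin r G => (1 + δ) * (a κ / (2 * G)) + δ * (a κ / (2 * G)) ≤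
        ∑ ρ ∈ S, if B ρ ω then (1:ℝ) else 0)) ∪
      (univ.filter (fun ω : V → PCoin r G => (∑ ρ ∈ S, if B ρ ω then (1:ℝ) else 0) ≤
        (1 - 2 * δ) * (a κ / (2 * G)) - δ * (a κ / (2 * G)))) := by
      intro ω hω
      rw [Finset.mem_filter] at hω
      rw [Finset.mem_union, Finset.mem_filter, Finset.mem_filter, hsum ω]
      have h2 := hω.2
      have h3 : 0 < δ * (a κ / (2 * G)) := by positivity
      by_cases h4 : (1 - 3 * δ) * (a κ / (2 * G)) ≤ dgr M A Z (tau M ω) (fun x => (ω x).2) v κ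
      · left
        refine ⟨Finset.mem_univ _, ?_⟩
        by_contra h5
        refine h2 ⟨h4, ?_⟩
        linarith
      · right
        refine ⟨Finset.mem_univ _, ?_⟩
        linarith
    exact_mod_cast (Finset.card_le_card h1).trans (Finset.card_union_le _ _)
  have hx1 : Λ ≤ min ((δ * (a κ / (2 * G))) ^ 2 / (4 * 1 * ((1 + δ) * (a κ / (2 * G)))))
      (δ * (a κ / (2 * G)) / (2 * 1)) := by
    refine le_min ?_ ?_
    · have h1 : (δ * (a κ / (2 * G))) ^ 2 / (4 * 1 * ((1 + δ) * (a κ / (2 * G)))) =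
          δ ^ 2 * a κ / (8 * G * (1 + δ)) := by
        field_simp
        ring
      rw [h1, le_div_iff₀ (by positivity)]
      have h2 : G * Λ * (1 + δ) ≤ G * Λ * 2 := mul_le_mul_of_nonneg_left (by linarith) (by positivity)
      linarith
    · have h1 : δ * (a κ / (2 * G)) / (2 * 1) = δ * a κ / (4 * G) := by
        field_simp
        ring
      rw [h1, le_div_iff₀ (by positivity)]
      have h2 : δ ^ 2 * a κ ≤ δ * a κ := mul_le_mul_of_nonneg_right (by nlinarith) ha0.le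
      have h3 : 0 < G * Λ := by positivity
      linarith
  have hx2 : Λ ≤ (δ * (a κ / (2 * G))) ^ 2 / (4 * 1 * ((1 - 2 * δ) * (a κ / (2 * G)))) := by
    have hd : 0 < 1 - 2 * δ := by linarith
    have h1 : (δ * (a κ / (2 * G))) ^ 2 / (4 * 1 * ((1 - 2 * δ) * (a κ / (2 * G)))) =
        δ ^ 2 * a κ / (8 * G * (1 - 2 * δ)) := by
      field_simp
      ring
    rw [h1, le_div_iff₀ (by positivity)]
    have h2 : G * Λ * (1 - 2 * δ) ≤ G * Λ * 1 := mul_le_mul_of_nonneg_left (by linarith) (by positivity)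
    have h3 : 0 < G * Λ := by positivity
    linarith
  have hy1 := mul_le_mul_of_nonneg_right (Real.exp_le_exp.2 (neg_le_neg hx1)) hcc
  have hy2 := mul_le_mul_of_nonneg_right (Real.exp_le_exp.2 (neg_le_neg hx2)) hcc
  have hz1 := hup.trans hy1
  have hz2 := hlo.trans hy2
  refine hsub.trans ((add_le_add hz1 hz2).trans (le_of_eq ?_))
  ring

end Pool.Agent.H67.HY
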