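/-
ROW RPb. Random phases: duplicates.
PROOF. Let `Ω = V → PCoin r G`, `n ρ = #{g : ZMod G | ∃ κ κ', κ ≠ κ', (κ : ZMod G) = g = (κ' : ZMod G), Ex v κ, Ex v κ', Ex (M ρ v) κ, Ex (M ρ v) κ'}`, `B ρ ω = dup M A Z (tau M ω) v ρ`, `y ρ = n ρ/G`. For `J : Finset (Fin r)`: `#{ω : ∀ ρ ∈ J, B ρ ω} ≤ (∏_{ρ∈J} y ρ) |Ω|`: `seq_bound` as in row RPa (vertex set
`{M (inr ρ) v : ρ ∈ J}`, `rk v = -1`, other ranks `≥ 0`; for `w = M ρ v`, `hp`: `(ω v).1 ρ + s.1 ρ` must be one of the `n ρ` classes `g`: `card * n ρ/G` values of `s`).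
`∑_ρ n ρ ≤ G h² s3`: choose for every class counted in `n ρ` a pair `(κ, κ')` (injective in the class), so `∑_ρ n ρ ≤ ∑_ρ #{(κ,κ') : ..} = ∑_{(κ,κ') : κ ≠ κ', same class, Ex v κ, Ex v κ'} #{ρ : Ex (M ρ v) κ ∧ Ex (M ρ v) κ'} ≤ (number of pairs) * s3` (`L3`), and the number of pairs is `≤ ∑_{g} h² = G h²` (`L4`: `Ex v κ` implies the L4-condition;
`ZMod.card`, `Finset.sum_comm`, sum over `g`). So `∑ y ≤ h² s3`; `chernoff_three` with `S = univ`, `μ = h² s3`, `lam = Λ`.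
-/
import Pool.Agent.H67.HY.GC
import Pool.Agent.H67.HY.Box
import Pool.Agent.H67.HY.Seq
import Pool.Agent.H67.HY.RpD

set_option autoImplicit false

namespace Pool.Agent.H67.HY

open Finset
open Classical

theorem RPb_dec {α : Type} (s : Finset α) (p : α → Prop) (d1 d2 : DecidablePred p) :
    @Finset.filter α p d1 s = @Finset.filter α p d2 s := by
  rw [Subsingleton.elim d1 d2]

theorem RPb_cnt {r G : ℕ} [NeZero G] (ρ0 : Fin r) (c : ZMod G) (K : Finset (ZMod G)) :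
    ((univ.filter (fun s : PCoin r G => c + s.1 ρ0 ∈ K)).card : ℝ) ≤
      (K.card : ℝ) / G * Fintype.card (PCoin r G) := by
  have hG : (0 : ℝ) < G := by exact_mod_cast NeZero.pos G
  have h := card_box (I := Fin r) (κ := ZMod G) {ρ0} (fun _ => K.image (fun g => g - c))
  have hK : (K.image (fun g => g - c)).card = K.card :=
    Finset.card_image_of_injective _ (sub_left_injective)
  rw [Finset.prod_singleton, Finset.card_singleton, pow_one, ZMod.card, hK] at h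
  have e : univ.filter (fun s : PCoin r G => c + s.1 ρ0 ∈ K) =
      (univ.filter (fun ω : Fin r → ZMod G => ∀ p ∈ ({ρ0} : Finset (Fin r)),
        ω p ∈ K.image (fun g => g - c))) ×ˢ (univ : Finset Bool) := by
    ext s
    simp only [mem_filter, mem_univ, true_and, mem_product, mem_singleton, forall_eq, mem_image,
      and_true]
    constructor
    · intro hs
      exact ⟨_, hs, by ring⟩
    · rintro ⟨g, hg, h1⟩
      rw [← h1]
      have : c + (g - c) = g := by ring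
      rwa [this]
  rw [e, Finset.card_product, Fintype.card_prod, Finset.card_univ]
  push_cast
  have h2 : ((univ.filter (fun ω : Fin r → ZMod G => ∀ p ∈ ({ρ0} : Finset (Fin r)),
        ω p ∈ K.image (fun g => g - c))).card : ℝ) * G =
      (K.card : ℝ) * Fintype.card (Fin r → ZMod G) := by
    have hD : (fun a b : Fin r => Classical.propDecidable (a = b)) = instDecidableEqFin r :=
      Subsingleton.elim _ _
    rw [hD] at h
    refine Eq.trans ?_ h
    exact congrArg (fun t : Finset (Fin r → ZMod G) => (t.card : ℝ) * (G : ℝ))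
      (RPb_dec _ _ _ _)
  have h3 : ((univ.filter (fun ω : Fin r → ZMod G => ∀ p ∈ ({ρ0} : Finset (Fin r)),
        ω p ∈ K.image (fun g => g - c))).card : ℝ) =
      (K.card : ℝ) / G * Fintype.card (Fin r → ZMod G) := by
    field_simp
    linarith
  rw [h3]
  exact le_of_eq (by ring)

/-- the classes with two common exposures -/
noncomputable def RPb_K {V : Type} {nb r : ℕ} (M : Fin nb ⊕ Fin r → V → V) (A : V → Fin nb → Prop)
    (Z : V → Prop) (G : ℕ) [NeZero G] (v : V) (ρ : Fin r) : Finset (ZMod G) :=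
  univ.filter (fun g => ∃ κ κ' : Fin nb, κ ≠ κ' ∧ Ex M A Z v κ ∧ Ex M A Z v κ' ∧
    Ex M A Z (M (Sum.inr ρ) v) κ ∧ Ex M A Z (M (Sum.inr ρ) v) κ' ∧ g = ((κ : ℕ) : ZMod G) ∧
    g = ((κ' : ℕ) : ZMod G))

theorem RPb_dup {V : Type} {nb r : ℕ} (M : Fin nb ⊕ Fin r → V → V) (A : V → Fin nb → Prop)
    (Z : V → Prop) (G : ℕ) [NeZero G] (v : V) (ρ : Fin r) (τ : V → Fin r → ZMod G) :
    dup M A Z τ v ρ ↔ τ v ρ ∈ RPb_K M A Z G v ρ := by
  unfold dup RPb_K
  simp only [mem_filter, mem_univ, true_and]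

/-- the event of one vertex -/
def RPb_E {V : Type} {nb r : ℕ} (M : Fin nb ⊕ Fin r → V → V) (A : V → Fin nb → Prop)
    (Z : V → Prop) (G : ℕ) [NeZero G] (v : V) (J : Finset (Fin r)) (w : V) (ω : V → PCoin r G) :
    Prop := ∀ ρ ∈ J, M (Sum.inr ρ) v = w → tau M ω v ρ ∈ RPb_K M A Z G v ρ

theorem RPb_seq {V : Type} [Fintype V] {nb r : ℕ} (M : Fin nb ⊕ Fin r → V → V)
    (hM : IsFac M) (A : V → Fin nb → Prop) (Z : V → Prop) (G : ℕ) [NeZero G] (v : V)
    (J : Finset (Fin r)) :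
    ((univ.filter (fun ω : V → PCoin r G => ∀ ρ ∈ J, dup M A Z (tau M ω) v ρ)).card : ℝ) ≤
      (∏ ρ ∈ J, ((RPb_K M A Z G v ρ).card : ℝ) / G) * Fintype.card (V → PCoin r G) := by
  have hG : (0 : ℝ) < G := by exact_mod_cast NeZero.pos G
  have hinj : ∀ ρ ρ' : Fin r, M (Sum.inr ρ) v = M (Sum.inr ρ') v → ρ = ρ' := by
    intro ρ ρ' h1
    by_contra hne
    exact hM.dis (Sum.inr ρ) (Sum.inr ρ') v (fun h2 => hne (Sum.inr.inj h2)) h1
  have hne : ∀ w ∈ J.image (fun ρ => M (Sum.inr ρ) v), w ≠ v := by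
    intro w hw
    obtain ⟨ρ, _, rfl⟩ := Finset.mem_image.1 hw
    exact hM.free _ v
  have hy' : ∀ ρ ∈ J, (∏ ρ' ∈ J.filter (fun ρ' => M (Sum.inr ρ') v = M (Sum.inr ρ) v),
      ((RPb_K M A Z G v ρ').card : ℝ) / G) = ((RPb_K M A Z G v ρ).card : ℝ) / G := by
    intro ρ hρ
    have : J.filter (fun ρ' => M (Sum.inr ρ') v = M (Sum.inr ρ) v) = {ρ} := by
      ext ρ'
      simp only [mem_filter, mem_singleton]
      constructor
      · rintro ⟨_, h1⟩
        exact hinj _ _ h1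
      · rintro rfl
        exact ⟨hρ, rfl⟩
    rw [this, Finset.prod_singleton]
  have key := seq_bound (V := V) (κ := PCoin r G)
    (fun x => if x = v then -1 else ((Fintype.equivFin V x : ℕ) : ℤ))
    (J.image (fun ρ => M (Sum.inr ρ) v)) ?_
    (fun w ω => RPb_E M A Z G v J w ω)
    (fun w => ∏ ρ ∈ J.filter (fun ρ => M (Sum.inr ρ) v = w), ((RPb_K M A Z G v ρ).card : ℝ) / G)
    ?_ ?_ ?_
  · have hpr : ∏ w ∈ J.image (fun ρ => M (Sum.inr ρ) v),
        ∏ ρ ∈ J.filter (fun ρ => M (Sum.inr ρ) v = w), ((RPb_K M A Z G v ρ).card : ℝ) / G =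
        ∏ ρ ∈ J, ((RPb_K M A Z G v ρ).card : ℝ) / G :=
      Finset.prod_fiberwise_of_maps_to (g := fun ρ => M (Sum.inr ρ) v)
        (fun ρ hρ => Finset.mem_image_of_mem _ hρ) _
    rw [← hpr]
    refine le_trans ?_ key
    refine Nat.cast_le.2 (Finset.card_le_card ?_)
    intro ω hω
    rw [mem_filter] at hω ⊢
    refine ⟨mem_univ _, fun w _ ρ hρ _ => ?_⟩
    exact (RPb_dup M A Z G v ρ (tau M ω)).1 (hω.2 ρ hρ)
  · intro x hx w hw hxw
    have h1 := hne x hx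
    have h2 := hne w hw
    simp only [h1, h2, if_false] at hxw
    have h3 : (Fintype.equivFin V x : ℕ) = (Fintype.equivFin V w : ℕ) := by exact_mod_cast hxw
    exact (Fintype.equivFin V).injective (Fin.ext h3)
  · intro w _
    exact Finset.prod_nonneg fun ρ _ => by positivity
  · intro w hw σ σ' hσ hE ρ hρ hρw
    have h1 := hE ρ hρ hρw
    have e1 : σ v = σ' v := by
      apply hσ
      simp only [if_true]
      split_ifs
      · exact le_rfl
      · have : (0 : ℤ) ≤ ((Fintype.equivFin V w : ℕ) : ℤ) := Int.natCast_nonneg _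
        linarith
    have e2 : σ (M (Sum.inr ρ) v) = σ' (M (Sum.inr ρ) v) := by
      apply hσ
      rw [hρw]
    unfold tau at h1 ⊢
    rw [← e1, ← e2]
    exact h1
  · intro w hw σ
    obtain ⟨ρ, hρ, rfl⟩ := Finset.mem_image.1 hw
    have h1 := hy' ρ hρ
    beta_reduce
    rw [h1]
    refine le_trans ?_ (RPb_cnt ρ ((σ v).1 ρ) (RPb_K M A Z G v ρ))
    refine Nat.cast_le.2 (Finset.card_le_card ?_)
    intro s hs
    rw [mem_filter] at hs ⊢
    refine ⟨mem_univ _, ?_⟩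
    have h2 := hs.2 ρ hρ rfl
    unfold tau at h2
    rw [Function.update_self, Function.update_of_ne (hM.free (Sum.inr ρ) v).symm] at h2
    exact h2

theorem RPb_sum {V : Type} {nb r : ℕ} (M : Fin nb ⊕ Fin r → V → V)
    (A : V → Fin nb → Prop) (Z : V → Prop) (good : Fin nb → Prop)
    (a : Fin nb → ℝ) (δ : ℝ) (G h s3 : ℕ) [NeZero G]
    (hOK : GroupOK M A Z good a δ G h s3) (v : V) :
    ∑ ρ : Fin r, (RPb_K M A Z G v ρ).card ≤ G * (h * h) * s3 := by
  let P : Fin nb × Fin nb → Fin r → Prop := fun p ρ =>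
    (p.1 ≠ p.2 ∧ ((p.1 : ℕ) : ZMod G) = ((p.2 : ℕ) : ZMod G) ∧ Ex M A Z v p.1 ∧ Ex M A Z v p.2) ∧
    Ex M A Z (M (Sum.inr ρ) v) p.1 ∧ Ex M A Z (M (Sum.inr ρ) v) p.2
  let Q : Finset (Fin nb × Fin nb) := univ.filter (fun p =>
    p.1 ≠ p.2 ∧ ((p.1 : ℕ) : ZMod G) = ((p.2 : ℕ) : ZMod G) ∧ Ex M A Z v p.1 ∧ Ex M A Z v p.2)
  have h1 : ∀ ρ : Fin r, (RPb_K M A Z G v ρ).card ≤ (Q.filter (fun p => P p ρ)).card := by
    intro ρ
    refine le_trans (Finset.card_le_card (t := (Q.filter (fun p => P p ρ)).image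
      (fun p => ((p.1 : ℕ) : ZMod G))) ?_) Finset.card_image_le
    intro g hg
    unfold RPb_K at hg
    rw [mem_filter] at hg
    obtain ⟨_, κ, κ', hne, e1, e2, e3, e4, e5, e6⟩ := hg
    rw [mem_image]
    refine ⟨(κ, κ'), ?_, e5.symm⟩
    rw [mem_filter, mem_filter]
    have e7 : ((κ : ℕ) : ZMod G) = ((κ' : ℕ) : ZMod G) := e5.symm.trans e6
    exact ⟨⟨mem_univ _, hne, e7, e1, e2⟩, ⟨hne, e7, e1, e2⟩, e3, e4⟩
  have h2 : ∀ p ∈ Q, (univ.filter (fun ρ : Fin r => P p ρ)).card ≤ s3 := by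
    intro p hp
    rw [mem_filter] at hp
    refine le_trans (Finset.card_le_card ?_) (hOK.L3 p.1 p.2 hp.2.1 v)
    intro ρ hρ
    rw [mem_filter] at hρ ⊢
    obtain ⟨_, _, h3, h4⟩ := hρ
    exact ⟨mem_univ _, ⟨h3.2.1, h3.2.2⟩, ⟨h4.2.1, h4.2.2⟩⟩
  have h3 : Q.card ≤ G * (h * h) := by
    have h4 : Q ⊆ (univ : Finset (ZMod G)).biUnion (fun g =>
        (univ.filter (fun κ : Fin nb => ((κ : ℕ) : ZMod G) = g ∧
          ¬ Z (M (Sum.inl κ) v) ∧ A (M (Sum.inl κ) v) κ)) ×ˢ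
        (univ.filter (fun κ : Fin nb => ((κ : ℕ) : ZMod G) = g ∧
          ¬ Z (M (Sum.inl κ) v) ∧ A (M (Sum.inl κ) v) κ))) := by
      intro p hp
      rw [mem_filter] at hp
      obtain ⟨_, _, e1, e2, e3⟩ := hp
      rw [mem_biUnion]
      refine ⟨((p.1 : ℕ) : ZMod G), mem_univ _, ?_⟩
      rw [mem_product, mem_filter, mem_filter]
      exact ⟨⟨mem_univ _, rfl, e2.2.1, e2.2.2⟩, ⟨mem_univ _, e1.symm, e3.2.1, e3.2.2⟩⟩
    refine (Finset.card_le_card h4).trans (Finset.card_biUnion_le.trans ?_)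
    refine (Finset.sum_le_card_nsmul _ _ (h * h) fun g _ => ?_).trans (le_of_eq ?_)
    · rw [Finset.card_product]
      exact Nat.mul_le_mul (hOK.L4 v g) (hOK.L4 v g)
    · rw [Finset.card_univ, ZMod.card, smul_eq_mul]
  calc ∑ ρ : Fin r, (RPb_K M A Z G v ρ).card ≤ ∑ ρ : Fin r, (Q.filter (fun p => P p ρ)).card :=
        Finset.sum_le_sum fun ρ _ => h1 ρ
    _ = ∑ p ∈ Q, (univ.filter (fun ρ : Fin r => P p ρ)).card := by
        simp only [Finset.card_filter]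
        exact Finset.sum_comm
    _ ≤ Q.card • s3 := Finset.sum_le_card_nsmul _ _ _ h2
    _ ≤ G * (h * h) * s3 := by
        rw [smul_eq_mul]
        exact Nat.mul_le_mul_right _ h3

theorem phase_dup {V : Type} [Fintype V] {nb r : ℕ} (M : Fin nb ⊕ Fin r → V → V)
    (hM : IsFac M) (A : V → Fin nb → Prop) (Z : V → Prop) (good : Fin nb → Prop)
    (a : Fin nb → ℝ) (δ Λ : ℝ) (G h s3 : ℕ) [NeZero G] (hΛ0 : 0 < Λ)
    (hOK : GroupOK M A Z good a δ G h s3) (v : V) :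
    ((univ.filter (fun ω : V → PCoin r G => 3 * ((h : ℝ) ^ 2 * s3) + 2 * Λ ≤
      ((univ.filter (fun ρ => dup M A Z (tau M ω) v ρ)).card : ℝ))).card : ℝ) ≤
      Real.exp (-Λ) * Fintype.card (V → PCoin r G) := by
  have hG : (0 : ℝ) < G := by exact_mod_cast NeZero.pos G
  refine chernoff_three (Ω := V → PCoin r G) (univ : Finset (Fin r))
    (fun ρ ω => dup M A Z (tau M ω) v ρ) (fun ρ => ((RPb_K M A Z G v ρ).card : ℝ) / G)
    ((h : ℝ) ^ 2 * s3) Λ (fun ρ _ => by positivity)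
    (fun J _ => by
      have h0 := RPb_seq M hM A Z G v J
      convert h0) ?_ hΛ0.le
  have h1 := RPb_sum M A Z good a δ G h s3 hOK v
  have h2 : (∑ ρ : Fin r, ((RPb_K M A Z G v ρ).card : ℝ)) ≤ G * (h * h) * s3 := by
    exact_mod_cast h1
  rw [← Finset.sum_div, div_le_iff₀ hG]
  refine h2.trans (le_of_eq (by ring))

end Pool.Agent.H67.HY
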