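/-
ROW RPc. Random phases: local lemma.
PROOF. `ball_lll` with `J = Fin r`, `M' ρ = M (inr ρ)`, `r = 1`, `κ = PCoin r G` and `E v ω := (∃ κ, good κ ∧ ¬ (degree bounds of (v,κ))) ∨ 3 (h² s3) + 2 Λ ≤ #{ρ : dup M A Z (tau M ω) v ρ}`. Local: `dgr`, `dup` at `v` involve `ω` at `v` and at the `M (inr ρ) v` only, all in `ball M' v 1`.
`q = (2 nb + 1) exp(-Λ)` by `phase_degree` (for the at most `nb` good `κ`) and `phase_dup`. `4 q (r+1)^2 ≤ 8 (nb+1) (r+1)^2 exp(-Λ) ≤ 1` by `hΛ`. Take `τ = tau M ω`, `side x = (ω x).2`; `τ (M ρ v) ρ = τ v ρ` by `add_comm` and `hM.inv`.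
-/
import Pool.Agent.H67.HY.RPa
import Pool.Agent.H67.HY.RPb
import Pool.Agent.H67.HY.Llb

set_option autoImplicit false

namespace Pool.Agent.H67.HY

open Finset
open Classical

theorem phases {V : Type} [Fintype V] {nb r : ℕ} (M : Fin nb ⊕ Fin r → V → V)
    (hM : IsFac M) (A : V → Fin nb → Prop) (Z : V → Prop) (good : Fin nb → Prop)
    (a : Fin nb → ℝ) (δ Λ : ℝ) (G h s3 : ℕ) [NeZero G] (hδ0 : 0 < δ) (hδ : δ ≤ 1 / 10)
    (hΛ0 : 0 < Λ) (hOK : GroupOK M A Z good a δ G h s3)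
    (ha : ∀ κ, good κ → 16 * G * Λ ≤ δ ^ 2 * a κ)
    (hΛ : 8 * ((nb : ℝ) + 1) * ((r : ℝ) + 1) ^ 2 ≤ Real.exp Λ) :
    ∃ (τ : V → Fin r → ZMod G) (side : V → Bool), (∀ v ρ, τ (M (Sum.inr ρ) v) ρ = τ v ρ) ∧
      (∀ κ, good κ → ∀ v, (1 - 3 * δ) * (a κ / (2 * G)) ≤ dgr M A Z τ side v κ ∧
        dgr M A Z τ side v κ ≤ (1 + 3 * δ) * (a κ / (2 * G))) ∧
      ∀ v, ((univ.filter (fun ρ => dup M A Z τ v ρ)).card : ℝ) ≤ 3 * ((h : ℝ) ^ 2 * s3) + 2 * Λ := by
  obtain ⟨D, hD⟩ : ∃ D : V → Fin nb → (V → PCoin r G) → Prop, D = fun v κ ω =>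
      ¬ ((1 - 3 * δ) * (a κ / (2 * G)) ≤ dgr M A Z (tau M ω) (fun x => (ω x).2) v κ ∧
        dgr M A Z (tau M ω) (fun x => (ω x).2) v κ ≤ (1 + 3 * δ) * (a κ / (2 * G))) := ⟨_, rfl⟩
  obtain ⟨P, hP⟩ : ∃ P : V → (V → PCoin r G) → Prop, P = fun v ω =>
      3 * ((h : ℝ) ^ 2 * s3) + 2 * Λ ≤
        ((univ.filter (fun ρ => dup M A Z (tau M ω) v ρ)).card : ℝ) := ⟨_, rfl⟩
  have hDc : ∀ v κ, good κ → ((univ.filter (fun ω => D v κ ω)).card : ℝ) ≤
      2 * Real.exp (-Λ) * Fintype.card (V → PCoin r G) := by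
    intro v κ hκ
    have h0 := phase_degree M hM A Z good a δ Λ G h s3 hδ0 hδ hΛ0 hOK κ hκ (ha κ hκ) v
    refine le_trans (le_of_eq ?_) h0
    congr 2
    refine filter_congr fun ω _ => ?_
    rw [hD]
  have hPc : ∀ v, ((univ.filter (fun ω => P v ω)).card : ℝ) ≤
      Real.exp (-Λ) * Fintype.card (V → PCoin r G) := by
    intro v
    have h0 := phase_dup M hM A Z good a δ Λ G h s3 hΛ0 hOK v
    refine le_trans (le_of_eq ?_) h0
    congr 2
    refine filter_congr fun ω _ => ?_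
    rw [hP]
  obtain ⟨E, hE⟩ : ∃ E : V → (V → PCoin r G) → Prop,
      ∀ v ω, E v ω ↔ ((∃ κ, good κ ∧ D v κ ω) ∨ P v ω) := ⟨_, fun _ _ => Iff.rfl⟩
  have key : ∃ ω : V → PCoin r G, ∀ v, ¬ E v ω := by
    refine ball_lll (fun ρ : Fin r => M (Sum.inr ρ)) (fun ρ v => hM.inv _ _) 1
      E ?_ ((2 * (nb : ℝ) + 1) * Real.exp (-Λ))
      (by positivity) ?_ ?_
    · intro v ω ω' hω
      have hv : ω v = ω' v := hω v (ball_mono (fun ρ : Fin r => M (Sum.inr ρ)) v (Nat.zero_le 1)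
        (mem_singleton_self v))
      have hρ : ∀ ρ, ω (M (Sum.inr ρ) v) = ω' (M (Sum.inr ρ) v) := fun ρ =>
        hω _ (Llb_one (fun ρ : Fin r => M (Sum.inr ρ)) v ρ)
      have htau : ∀ ρ, tau M ω v ρ = tau M ω' v ρ := by
        intro ρ
        unfold tau
        rw [hv, hρ]
      have hdgr : ∀ κ, dgr M A Z (tau M ω) (fun x => (ω x).2) v κ =
          dgr M A Z (tau M ω') (fun x => (ω' x).2) v κ := by
        intro κ
        unfold dgr
        congr 1
        refine filter_congr fun ρ _ => ?_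
        simp only
        rw [htau ρ, hv, hρ ρ]
      have hdup : ∀ ρ, dup M A Z (tau M ω) v ρ ↔ dup M A Z (tau M ω') v ρ := by
        intro ρ
        unfold dup
        rw [htau ρ]
      rw [hE, hE]
      rintro (⟨κ, hκ, h1⟩ | h1)
      · left
        refine ⟨κ, hκ, ?_⟩
        rw [hD] at h1 ⊢
        simp only at h1 ⊢
        rw [← hdgr κ]
        exact h1
      · right
        rw [hP] at h1 ⊢
        simp only at h1 ⊢
        have h2 : (univ.filter (fun ρ => dup M A Z (tau M ω') v ρ)) =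
            (univ.filter (fun ρ => dup M A Z (tau M ω) v ρ)) :=
          filter_congr fun ρ _ => (hdup ρ).symm
        rw [h2]
        exact h1
    · intro v
      have hsub : (univ.filter (fun ω => E v ω)) ⊆
          ((univ.filter good).biUnion (fun κ => univ.filter (fun ω => D v κ ω))) ∪
            univ.filter (fun ω => P v ω) := by
        intro ω hω
        rw [mem_filter, hE] at hω
        rw [mem_union, mem_biUnion]
        rcases hω.2 with ⟨κ, hκ, h1⟩ | h1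
        · exact Or.inl ⟨κ, mem_filter.2 ⟨mem_univ _, hκ⟩, mem_filter.2 ⟨mem_univ _, h1⟩⟩
        · exact Or.inr (mem_filter.2 ⟨mem_univ _, h1⟩)
      have h1 : ((univ.filter (fun ω => E v ω)).card : ℝ) ≤
          (∑ κ ∈ univ.filter good, ((univ.filter (fun ω => D v κ ω)).card : ℝ)) +
            ((univ.filter (fun ω => P v ω)).card : ℝ) := by
        have h2 := card_le_card hsub
        have h3 := (h2.trans (card_union_le _ _)).trans
          (Nat.add_le_add_right card_biUnion_le _)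
        exact_mod_cast h3
      have h2 : (∑ κ ∈ univ.filter good, ((univ.filter (fun ω => D v κ ω)).card : ℝ)) ≤
          (nb : ℝ) * (2 * Real.exp (-Λ) * Fintype.card (V → PCoin r G)) := by
        have h3 : (∑ κ ∈ univ.filter good, ((univ.filter (fun ω => D v κ ω)).card : ℝ)) ≤
            ∑ _κ ∈ univ.filter good, (2 * Real.exp (-Λ) * Fintype.card (V → PCoin r G)) :=
          sum_le_sum fun κ hκ => hDc v κ (mem_filter.1 hκ).2
        refine h3.trans ?_
        rw [sum_const, nsmul_eq_mul]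
        refine mul_le_mul_of_nonneg_right ?_ (by positivity)
        have h4 : (univ.filter good).card ≤ nb := by
          refine (card_le_univ _).trans ?_
          rw [Fintype.card_fin]
        exact_mod_cast h4
      have h3 := hPc v
      refine h1.trans ((add_le_add h2 h3).trans (le_of_eq ?_))
      ring
    · rw [Fintype.card_fin]
      have h1 : Real.exp Λ * Real.exp (-Λ) = 1 := by
        rw [← Real.exp_add, add_neg_cancel, Real.exp_zero]
      have h2 : 4 * ((2 * (nb : ℝ) + 1) * Real.exp (-Λ)) * ((r : ℝ) + 1) ^ (2 * 1) ≤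
          8 * ((nb : ℝ) + 1) * ((r : ℝ) + 1) ^ 2 * Real.exp (-Λ) := by
        have h3 : 4 * (2 * (nb : ℝ) + 1) ≤ 8 * ((nb : ℝ) + 1) := by linarith
        have h4 : 4 * (2 * (nb : ℝ) + 1) * (((r : ℝ) + 1) ^ 2 * Real.exp (-Λ)) ≤
            8 * ((nb : ℝ) + 1) * (((r : ℝ) + 1) ^ 2 * Real.exp (-Λ)) :=
          mul_le_mul_of_nonneg_right h3 (by positivity)
        calc _ = 4 * (2 * (nb : ℝ) + 1) * (((r : ℝ) + 1) ^ 2 * Real.exp (-Λ)) := by ring
          _ ≤ 8 * ((nb : ℝ) + 1) * (((r : ℝ) + 1) ^ 2 * Real.exp (-Λ)) := h4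
          _ = _ := by ring
      exact (h2.trans (mul_le_mul_of_nonneg_right hΛ (Real.exp_pos _).le)).trans (le_of_eq h1)
  obtain ⟨ω, hω⟩ := key
  refine ⟨tau M ω, fun x => (ω x).2, ?_, ?_, ?_⟩
  · intro v ρ
    unfold tau
    rw [hM.inv, add_comm]
  · intro κ hκ v
    by_contra hcon
    refine hω v ((hE v ω).2 (Or.inl ⟨κ, hκ, ?_⟩))
    rw [hD]
    exact hcon
  · intro v
    by_contra hcon
    refine hω v ((hE v ω).2 (Or.inr ?_))
    rw [hP]
    exact (not_le.1 hcon).le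

end Pool.Agent.H67.HY
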