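/-
ROW ReA. One matching for all exposures.
PROOF. `A0 = {p : V × Fin nb // X p.1 p.2 ∧ side p.1 = false}`, `B0 = {p // X p.1 p.2 ∧ side p.1 = true}`. `E (v,κ) (w,κ') := κ' = κ ∧ ∃ ρ, M (inr ρ) v = w ∧ τ v ρ = κ`. Let `d κ = (1+3δ) a κ/(2G) > 0`. `w p q = 1/d p.2` if `E p q`, else 0. Row `(v,κ)`: the `q` with `E p q` are the `(M ρ v, κ)` with `X (M ρ v) κ`, `side (M ρ v) = true`,
`τ v ρ = κ` (distinct for distinct `ρ`, `hM.dis`), their number is the count in `hdeg` `≥ (1-3δ) a κ/(2G)`; so the row sum is `≥ (1-3δ)/(1+3δ) ≥ 1 - 6δ`. Column `(w,κ)`: the `p` with `E p (w,κ)`: `v = M ρ w` (`hM.inv`), `τ w ρ = τ v ρ = κ` (`hτ`): at most the count in `hdeg` for `w`: sum `≤ 1`.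
`hall_dummy` with `ε = 6δ`, `own p = p.1.1`, `D v = ⌈6 δ #{κ : X v κ}⌉₊` (`#{p ∈ A0 : own p = v} ≤ #{κ : X v κ}`) gives `m1`. The same with `A0` and `B0` exchanged (relation `E' q p = E p q`) gives `m2`. `mendelsohn_dulmage` gives `m`. Define
`P v ρ κ := ∃ (p : A0) (q : B0), m p = some q ∧ p.2 = κ ∧ ((p.1 = v ∧ q.1 = M ρ v) ∨ (q.1 = v ∧ p.1 = M ρ v)) ∧ τ v ρ = κ` (with `E p q`: `q.2 = p.2`, `q.1 = M ρ' p.1`, `τ p.1 ρ' = κ`; so `ρ' = ρ` by `hM.dis`). (1) symmetric: `hM.inv`, `hτ`. (2) from `E` and membership. (3) `P v ρ κ`, `P v ρ' κ`: if `side v = false` both come from `p = (v,κ)`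
and the same `q`, so `M ρ v = M ρ' v`, `ρ = ρ'`; if `side v = true` both have `q = (v,κ)` and `p` is unique by injectivity. (4) if `side v = false`: `κ` with `X v κ` and no `P v ρ κ` has `m (v,κ) = none` (if `m (v,κ) = some q` then `q.1 = M ρ v` for some `ρ` by `E`), hence `m1 (v,κ) = none`: at most `D v`. If `side v = true`: `(v,κ)` is not covered by `m`, so `m2 (v,κ) = none`.
-/
import Pool.Agent.H67.HY.HM
import Pool.Agent.H67.HY.RpD

set_option autoImplicit false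

namespace Pool.Agent.H67.HY

open Finset
open Classical

/-- the pairs on one side -/
abbrev ReA_S {V : Type} {nb : ℕ} (X : V → Fin nb → Prop) (side : V → Bool) (b : Bool) : Type :=
  {p : V × Fin nb // X p.1 p.2 ∧ side p.1 = b}

/-- the relation -/
def ReA_E {V : Type} {nb r G : ℕ} (M : Fin nb ⊕ Fin r → V → V) (τ : V → Fin r → ZMod G)
    (p q : V × Fin nb) : Prop :=
  q.2 = p.2 ∧ ∃ ρ, M (Sum.inr ρ) p.1 = q.1 ∧ τ p.1 ρ = (((p.2 : Fin nb) : ℕ) : ZMod G)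

theorem ReA_symm {V : Type} {nb r G : ℕ} {M : Fin nb ⊕ Fin r → V → V} (hM : IsFac M)
    {τ : V → Fin r → ZMod G} (hτ : ∀ v ρ, τ (M (Sum.inr ρ) v) ρ = τ v ρ) {p q : V × Fin nb}
    (h : ReA_E M τ p q) : ReA_E M τ q p := by
  obtain ⟨h1, ρ, h2, h3⟩ := h
  refine ⟨h1.symm, ρ, ?_, ?_⟩
  · rw [← h2, hM.inv]
  · rw [← h2, hτ, h3, h1]

/-- number of neighbours of a pair -/
theorem ReA_card {V : Type} [Fintype V] {nb r G : ℕ} {M : Fin nb ⊕ Fin r → V → V} (hM : IsFac M)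
    (X : V → Fin nb → Prop) (τ : V → Fin r → ZMod G) (side : V → Bool) (b : Bool)
    (p : ReA_S X side b) :
    (univ.filter (fun q : ReA_S X side (!b) => ReA_E M τ p.1 q.1)).card =
      (univ.filter (fun ρ : Fin r => X (M (Sum.inr ρ) p.1.1) p.1.2 ∧
        τ p.1.1 ρ = (((p.1.2 : Fin nb) : ℕ) : ZMod G) ∧
          side (M (Sum.inr ρ) p.1.1) ≠ side p.1.1)).card := by
  symm
  have hb : side p.1.1 = b := p.2.2
  refine Finset.card_bij (fun ρ hρ => (⟨(M (Sum.inr ρ) p.1.1, p.1.2), by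
      rw [mem_filter] at hρ
      refine ⟨hρ.2.1, ?_⟩
      have h := hρ.2.2.2
      rw [hb] at h
      exact Bool.eq_not.2 h⟩ : ReA_S X side (!b))) ?_ ?_ ?_
  · intro ρ hρ
    rw [mem_filter] at hρ ⊢
    exact ⟨mem_univ _, rfl, ρ, rfl, hρ.2.2.1⟩
  · intro ρ _ ρ' _ h
    have h1 : M (Sum.inr ρ) p.1.1 = M (Sum.inr ρ') p.1.1 :=
      congrArg (fun t : ReA_S X side (!b) => t.1.1) h
    by_contra hne
    exact hM.dis (Sum.inr ρ) (Sum.inr ρ') p.1.1 (fun h2 => hne (Sum.inr.inj h2)) h1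
  · intro q hq
    rw [mem_filter] at hq
    obtain ⟨_, h1, ρ, h2, h3⟩ := hq
    refine ⟨ρ, ?_, ?_⟩
    · rw [mem_filter]
      refine ⟨mem_univ _, ?_, h3, ?_⟩
      · rw [h2, ← h1]
        exact q.2.1
      · rw [h2, hb]
        have h4 : side q.1.1 = !b := q.2.2
        rw [h4]
        cases b <;> simp
    · apply Subtype.ext
      exact Prod.ext h2 h1.symm

/-- one side of the matching -/
theorem ReA_half {V : Type} [Fintype V] {nb r G : ℕ} (hG : 1 ≤ G) (M : Fin nb ⊕ Fin r → V → V)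
    (hM : IsFac M) (X : V → Fin nb → Prop) (a : Fin nb → ℝ) (ha : ∀ κ v, X v κ → 0 < a κ)
    (δ : ℝ) (hδ0 : 0 < δ) (hδ : δ ≤ 1 / 10) (τ : V → Fin r → ZMod G) (side : V → Bool)
    (hτ : ∀ v ρ, τ (M (Sum.inr ρ) v) ρ = τ v ρ)
    (hdeg : ∀ κ v, X v κ → (1 - 3 * δ) * (a κ / (2 * G)) ≤ ((univ.filter (fun ρ : Fin r =>
        X (M (Sum.inr ρ) v) κ ∧ τ v ρ = ((κ : ℕ) : ZMod G) ∧
          side (M (Sum.inr ρ) v) ≠ side v)).card : ℝ) ∧
      ((univ.filter (fun ρ : Fin r => X (M (Sum.inr ρ) v) κ ∧ τ v ρ = ((κ : ℕ) : ZMod G) ∧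
          side (M (Sum.inr ρ) v) ≠ side v)).card : ℝ) ≤ (1 + 3 * δ) * (a κ / (2 * G))) (b : Bool) :
    ∃ m : ReA_S X side b → Option (ReA_S X side (!b)),
      (∀ p q, m p = some q → ReA_E M τ p.1 q.1) ∧
      (∀ p p' q, m p = some q → m p' = some q → p = p') ∧
      ∀ v, (univ.filter (fun p => p.1.1 = v ∧ m p = none)).card ≤
        ⌈6 * δ * ((univ.filter (fun κ => X v κ)).card : ℝ)⌉₊ := by
  have hG0 : (0 : ℝ) < G := by exact_mod_cast hG
  set c : Fin nb → ℝ := fun κ => 1 / ((1 + 3 * δ) * (a κ / (2 * G))) with hc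
  have hcpos : ∀ κ v, X v κ → 0 < c κ := by
    intro κ v h
    have := ha κ v h
    simp only [hc]
    positivity
  have hcnt : ∀ p : ReA_S X side b, ∑ q : ReA_S X side (!b),
      (if ReA_E M τ p.1 q.1 then c p.1.2 else 0) =
        ((univ.filter (fun ρ : Fin r => X (M (Sum.inr ρ) p.1.1) p.1.2 ∧
        τ p.1.1 ρ = (((p.1.2 : Fin nb) : ℕ) : ZMod G) ∧
          side (M (Sum.inr ρ) p.1.1) ≠ side p.1.1)).card : ℝ) * c p.1.2 := by
    intro p
    rw [← Finset.sum_filter, Finset.sum_const, ReA_card hM X τ side b p, nsmul_eq_mul]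
  refine hall_dummy (fun (p : ReA_S X side b) (q : ReA_S X side (!b)) => ReA_E M τ p.1 q.1)
    (fun p q => if ReA_E M τ p.1 q.1 then c p.1.2 else 0) ?_ ?_ (6 * δ) (by linarith) ?_ ?_
    (fun p => p.1.1) (fun v => ⌈6 * δ * ((univ.filter (fun κ => X v κ)).card : ℝ)⌉₊) ?_
  · intro p q
    split_ifs
    · exact (hcpos _ _ p.2.1).le
    · exact le_rfl
  · intro p q h
    rw [if_neg h]
  · intro p
    rw [hcnt p]
    have h1 := (hdeg p.1.2 p.1.1 p.2.1).1
    have hap := ha p.1.2 p.1.1 p.2.1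
    have h2 : 0 < a p.1.2 / (2 * (G : ℝ)) := by positivity
    have h3 := mul_le_mul_of_nonneg_right h1 (hcpos p.1.2 p.1.1 p.2.1).le
    refine le_trans ?_ h3
    simp only [hc]
    rw [mul_one_div, le_div_iff₀ (by positivity)]
    have h4 : (1 - 6 * δ) * (1 + 3 * δ) ≤ 1 - 3 * δ := by nlinarith
    calc (1 - 6 * δ) * ((1 + 3 * δ) * (a p.1.2 / (2 * G)))
        = ((1 - 6 * δ) * (1 + 3 * δ)) * (a p.1.2 / (2 * G)) := by ring
      _ ≤ (1 - 3 * δ) * (a p.1.2 / (2 * G)) := mul_le_mul_of_nonneg_right h4 h2.le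
  · intro q
    have e1 : ∀ p : ReA_S X side b, (if ReA_E M τ p.1 q.1 then c p.1.2 else 0) =
        if ReA_E M τ q.1 p.1 then c q.1.2 else 0 := by
      intro p
      by_cases h : ReA_E M τ p.1 q.1
      · rw [if_pos h, if_pos (ReA_symm hM hτ h), h.1]
      · rw [if_neg h, if_neg (fun h' => h (ReA_symm hM hτ h'))]
    rw [Finset.sum_congr rfl fun p _ => e1 p, ← Finset.sum_filter, Finset.sum_const, nsmul_eq_mul]
    have e2 : (univ.filter (fun p : ReA_S X side b => ReA_E M τ q.1 p.1)).card =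
      (univ.filter (fun ρ : Fin r => X (M (Sum.inr ρ) q.1.1) q.1.2 ∧
        τ q.1.1 ρ = (((q.1.2 : Fin nb) : ℕ) : ZMod G) ∧
          side (M (Sum.inr ρ) q.1.1) ≠ side q.1.1)).card := by
      have := ReA_card hM X τ side (!b) q
      rw [← this]
      have hbb : (!(!b)) = b := Bool.not_not b
      cases b <;> rfl
    rw [e2]
    have h1 := (hdeg q.1.2 q.1.1 q.2.1).2
    have haq := ha q.1.2 q.1.1 q.2.1
    have h2 := mul_le_mul_of_nonneg_right h1 (hcpos q.1.2 q.1.1 q.2.1).le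
    refine h2.trans (le_of_eq ?_)
    simp only [hc]
    have h3 : (0 : ℝ) < (1 + 3 * δ) * (a q.1.2 / (2 * G)) := by positivity
    exact mul_one_div_cancel h3.ne'
  · intro v
    refine le_trans ?_ (Nat.le_ceil _)
    apply mul_le_mul_of_nonneg_left _ (by linarith)
    have h1 : (univ.filter (fun p : ReA_S X side b => p.1.1 = v)).card ≤
        (univ.filter (fun κ => X v κ)).card := by
      refine Finset.card_le_card_of_injOn (fun p => p.1.2) ?_ ?_
      · intro p hp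
        rw [Finset.mem_coe, mem_filter] at hp
        rw [Finset.mem_coe, mem_filter]
        refine ⟨mem_univ _, ?_⟩
        have := p.2.1
        rw [hp.2] at this
        exact this
      · intro p hp p' hp' h
        rw [Finset.mem_coe, mem_filter] at hp hp'
        apply Subtype.ext
        exact Prod.ext (hp.2.trans hp'.2.symm) h
    exact_mod_cast h1

theorem merge {V : Type} [Fintype V] {nb r G : ℕ} (hG : 1 ≤ G) (M : Fin nb ⊕ Fin r → V → V)
    (hM : IsFac M) (X : V → Fin nb → Prop) (a : Fin nb → ℝ) (ha : ∀ κ v, X v κ → 0 < a κ)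
    (δ : ℝ) (hδ0 : 0 < δ) (hδ : δ ≤ 1 / 10) (τ : V → Fin r → ZMod G) (side : V → Bool)
    (hτ : ∀ v ρ, τ (M (Sum.inr ρ) v) ρ = τ v ρ)
    (hdeg : ∀ κ v, X v κ → (1 - 3 * δ) * (a κ / (2 * G)) ≤ ((univ.filter (fun ρ : Fin r =>
        X (M (Sum.inr ρ) v) κ ∧ τ v ρ = ((κ : ℕ) : ZMod G) ∧
          side (M (Sum.inr ρ) v) ≠ side v)).card : ℝ) ∧
      ((univ.filter (fun ρ : Fin r => X (M (Sum.inr ρ) v) κ ∧ τ v ρ = ((κ : ℕ) : ZMod G) ∧
          side (M (Sum.inr ρ) v) ≠ side v)).card : ℝ) ≤ (1 + 3 * δ) * (a κ / (2 * G))) :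
    ∃ P : V → Fin r → Fin nb → Prop,
      (∀ v ρ κ, P v ρ κ → P (M (Sum.inr ρ) v) ρ κ) ∧
      (∀ v ρ κ, P v ρ κ → X v κ ∧ X (M (Sum.inr ρ) v) κ ∧ τ v ρ = ((κ : ℕ) : ZMod G)) ∧
      (∀ v ρ ρ' κ, P v ρ κ → P v ρ' κ → ρ = ρ') ∧
      ∀ v, (univ.filter (fun κ => X v κ ∧ ∀ ρ, ¬ P v ρ κ)).card ≤
        ⌈6 * δ * ((univ.filter (fun κ => X v κ)).card : ℝ)⌉₊ := by
  obtain ⟨m1, h1E, h1i, h1c⟩ := ReA_half hG M hM X a ha δ hδ0 hδ τ side hτ hdeg false
  obtain ⟨m2, h2E, h2i, h2c⟩ := ReA_half hG M hM X a ha δ hδ0 hδ τ side hτ hdeg true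
  obtain ⟨m, hE, hi, hc1, hc2⟩ := mendelsohn_dulmage
    (A := ReA_S X side false) (B := ReA_S X side true)
    (fun p q => ReA_E M τ p.1 q.1) m1 m2 h1E h1i
    (fun q p h => ReA_symm hM hτ (h2E q p h)) h2i
  have hside0 : ∀ p : ReA_S X side false, side p.1.1 = false := fun p => p.2.2
  have hside1 : ∀ q : ReA_S X side true, side q.1.1 = true := fun q => q.2.2
  obtain ⟨P, hP⟩ : ∃ P : V → Fin r → Fin nb → Prop, ∀ v ρ κ, P v ρ κ ↔
      ∃ (p : ReA_S X side false) (q : ReA_S X side true), m p = some q ∧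
        p.1.2 = κ ∧ ((p.1.1 = v ∧ q.1.1 = M (Sum.inr ρ) v) ∨
          (q.1.1 = v ∧ p.1.1 = M (Sum.inr ρ) v)) ∧
        τ v ρ = ((κ : ℕ) : ZMod G) := ⟨fun v ρ κ => _, fun _ _ _ => Iff.rfl⟩
  refine ⟨P, ?_, ?_, ?_, ?_⟩
  · intro v ρ κ h
    obtain ⟨p, q, hm, hκ, hor, ht⟩ := (hP _ _ _).1 h
    refine (hP _ _ _).2 ⟨p, q, hm, hκ, ?_, (hτ v ρ).trans ht⟩
    rcases hor with ⟨h1, h2⟩ | ⟨h1, h2⟩
    · right
      exact ⟨h2, h1.trans (hM.inv _ _).symm⟩
    · left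
      exact ⟨h2, h1.trans (hM.inv _ _).symm⟩
  · intro v ρ κ h
    obtain ⟨p, q, hm, hκ, hor, ht⟩ := (hP _ _ _).1 h
    have hq : q.1.2 = κ := (hE p q hm).1.trans hκ
    have hp1 : X p.1.1 p.1.2 := p.2.1
    have hq1 : X q.1.1 q.1.2 := q.2.1
    rw [hκ] at hp1
    rw [hq] at hq1
    rcases hor with ⟨h1, h2⟩ | ⟨h1, h2⟩
    · rw [h1] at hp1
      rw [h2] at hq1
      exact ⟨hp1, hq1, ht⟩
    · rw [h1] at hq1
      rw [h2] at hp1
      exact ⟨hq1, hp1, ht⟩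
  · intro v ρ ρ' κ h h'
    obtain ⟨p, q, hm, hκ, hor, _⟩ := (hP _ _ _).1 h
    obtain ⟨p', q', hm', hκ', hor', _⟩ := (hP _ _ _).1 h'
    have hfin : M (Sum.inr ρ) v = M (Sum.inr ρ') v → ρ = ρ' := by
      intro h
      by_contra hne
      exact hM.dis (Sum.inr ρ) (Sum.inr ρ') v (fun h2 => hne (Sum.inr.inj h2)) h
    rcases hor with ⟨h1, h2⟩ | ⟨h1, h2⟩
    · rcases hor' with ⟨h1', h2'⟩ | ⟨h1', h2'⟩
      · have hpp : p = p' := Subtype.ext (Prod.ext (h1.trans h1'.symm) (hκ.trans hκ'.symm))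
        subst hpp
        have hqq : q = q' := Option.some.inj (hm.symm.trans hm')
        subst hqq
        exact hfin (h2.symm.trans h2')
      · have e1 := hside0 p
        have e2 := hside1 q'
        rw [h1] at e1
        rw [h1'] at e2
        rw [e1] at e2
        exact absurd e2 (by simp)
    · rcases hor' with ⟨h1', h2'⟩ | ⟨h1', h2'⟩
      · have e1 := hside1 q
        have e2 := hside0 p'
        rw [h1] at e1
        rw [h1'] at e2
        rw [e1] at e2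
        exact absurd e2 (by simp)
      · have hqq : q = q' := Subtype.ext (Prod.ext (h1.trans h1'.symm)
          (((hE p q hm).1.trans hκ).trans ((hE p' q' hm').1.trans hκ').symm))
        subst hqq
        have hpp : p = p' := hi p p' q hm hm'
        subst hpp
        exact hfin (h2.symm.trans h2')
  · intro v
    rcases hsv : side v with _ | _
    · refine le_trans ?_ (h1c v)
      have hsub : univ.filter (fun κ => X v κ ∧ ∀ ρ, ¬ P v ρ κ) ⊆
          (univ.filter (fun p : ReA_S X side false => p.1.1 = v ∧ m1 p = none)).image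
            (fun p => p.1.2) := by
        intro κ hκ
        rw [mem_filter] at hκ
        rw [mem_image]
        refine ⟨⟨(v, κ), hκ.2.1, hsv⟩, ?_, rfl⟩
        rw [mem_filter]
        refine ⟨mem_univ _, rfl, ?_⟩
        by_contra hne
        obtain ⟨q, hq⟩ := Option.ne_none_iff_exists'.1 (hc1 _ hne)
        obtain ⟨_, ρ, e2, e3⟩ := hE _ q hq
        exact hκ.2.2 ρ ((hP _ _ _).2 ⟨_, q, hq, rfl, Or.inl ⟨rfl, e2.symm⟩, e3⟩)
      exact (card_le_card hsub).trans card_image_le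
    · refine le_trans ?_ (h2c v)
      have hsub : univ.filter (fun κ => X v κ ∧ ∀ ρ, ¬ P v ρ κ) ⊆
          (univ.filter (fun p : ReA_S X side true => p.1.1 = v ∧ m2 p = none)).image
            (fun p => p.1.2) := by
        intro κ hκ
        rw [mem_filter] at hκ
        rw [mem_image]
        refine ⟨⟨(v, κ), hκ.2.1, hsv⟩, ?_, rfl⟩
        rw [mem_filter]
        refine ⟨mem_univ _, rfl, ?_⟩
        by_contra hne
        obtain ⟨p, hp⟩ := hc2 _ hne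
        obtain ⟨e1, ρ, e2, e3⟩ := hE p _ hp
        have e1' : κ = p.1.2 := e1
        have e2' : M (Sum.inr ρ) p.1.1 = v := e2
        have e4 : p.1.1 = M (Sum.inr ρ) v := by
          rw [← e2', hM.inv]
        refine hκ.2.2 ρ ((hP _ _ _).2 ⟨p, _, hp, e1'.symm, Or.inr ⟨rfl, e4⟩, ?_⟩)
        rw [← e2', hτ, e3, e1']
      exact (card_le_card hsub).trans card_image_le

end Pool.Agent.H67.HY
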