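/-
ROW Rep. The repair lemma (assembly).
PROOF. `phases` gives `τ, side`. `X v κ := good κ ∧ Ex M A Z v κ`; `a κ > 0` for good `κ` (`16 G Λ ≤ δ² a κ`). For good `κ` the count in `hdeg` of `merge` is `dgr M A Z τ side v κ` (for `X (M ρ v) κ ↔ Ex (M ρ v) κ`). `merge` gives `P`. Define `use v ρ = some κ` for the least `κ` with `P v ρ κ` (`Finset.min'` of `univ.filter (P v ρ)` if nonempty), `none` if there is none.
Symmetric since `P (M ρ v) ρ κ ↔ P v ρ κ` (`hM.inv`). `use v ρ = some κ → P v ρ κ → Ex v κ → ¬A v κ ∧ A (M κ v) κ`. Injective: (3) of `merge`.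
Count: let `X v κ` and `use v ρ ≠ some κ` for all `ρ`. Either `∀ ρ, ¬ P v ρ κ`: at most `⌈6 δ e⌉₊ ≤ 6 δ e + 1`, `e = #{κ : X v κ} ≤ G h` (`L4` summed over the `G` classes; `Ex v κ` implies the L4-condition). Or `P v ρ κ` for some `ρ`; then `use v ρ = some κ'` with `κ' ≠ κ`, `P v ρ κ'`, so `dup M A Z τ v ρ`, and `κ` is in the class `τ v ρ` and satisfies the L4-condition:
at most `h` such `κ` for each such `ρ` (`L4` with `g = τ v ρ`), `Finset.card_biUnion_le`: at most `#dup * h ≤ (3 h² s3 + 2 Λ) h`.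
-/
import Pool.Agent.H67.HY.RPc
import Pool.Agent.H67.HY.ReA

set_option autoImplicit false

namespace Pool.Agent.H67.HY

open Finset
open Classical

theorem Rep_pick {n : ℕ} : ∃ U : Finset (Fin n) → Option (Fin n),
    (∀ s κ, U s = some κ → κ ∈ s) ∧ ∀ s, s.Nonempty → ∃ κ ∈ s, U s = some κ := by
  refine ⟨fun s => if h : s.Nonempty then some (s.min' h) else none, ?_, ?_⟩
  · intro s κ hs
    beta_reduce at hs
    by_cases h : s.Nonempty
    · rw [dif_pos h] at hs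
      have := Option.some_injective _ hs
      rw [← this]
      exact s.min'_mem h
    · rw [dif_neg h] at hs
      exact absurd hs (by simp)
  · intro s h
    exact ⟨s.min' h, s.min'_mem h, dif_pos h⟩

theorem Rep_card {n G h : ℕ} [NeZero G] (p : Fin n → Prop)
    (hp : ∀ g : ZMod G, (univ.filter (fun κ : Fin n => ((κ : ℕ) : ZMod G) = g ∧ p κ)).card ≤ h) :
    (univ.filter (fun κ => p κ)).card ≤ G * h := by
  have h1 : univ.filter (fun κ => p κ) ⊆ (univ : Finset (ZMod G)).biUnion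
      (fun g => univ.filter (fun κ : Fin n => ((κ : ℕ) : ZMod G) = g ∧ p κ)) := by
    intro κ hκ
    rw [mem_biUnion]
    exact ⟨((κ : ℕ) : ZMod G), mem_univ _, mem_filter.2 ⟨mem_univ _, rfl, (mem_filter.1 hκ).2⟩⟩
  refine (card_le_card h1).trans (card_biUnion_le.trans ?_)
  calc ∑ g : ZMod G, (univ.filter (fun κ : Fin n => ((κ : ℕ) : ZMod G) = g ∧ p κ)).card
      ≤ ∑ _g : ZMod G, h := sum_le_sum fun g _ => hp g
    _ = G * h := by rw [sum_const, card_univ, ZMod.card, smul_eq_mul]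

theorem repair {V : Type} [Fintype V] {nb r : ℕ} (M : Fin nb ⊕ Fin r → V → V)
    (hM : IsFac M) (A : V → Fin nb → Prop) (Z : V → Prop) (good : Fin nb → Prop)
    (a : Fin nb → ℝ) (δ Λ : ℝ) (G h s3 : ℕ) (hG : 1 ≤ G) (hδ0 : 0 < δ) (hδ : δ ≤ 1 / 10)
    (hΛ0 : 0 < Λ) (hOK : GroupOK M A Z good a δ G h s3)
    (ha : ∀ κ, good κ → 16 * G * Λ ≤ δ ^ 2 * a κ)
    (hΛ : 8 * ((nb : ℝ) + 1) * ((r : ℝ) + 1) ^ 2 ≤ Real.exp Λ) :
    ∃ use : V → Fin r → Option (Fin nb),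
      (∀ v ρ, use (M (Sum.inr ρ) v) ρ = use v ρ) ∧
      (∀ v ρ κ, use v ρ = some κ → ¬ A v κ ∧ A (M (Sum.inl κ) v) κ) ∧
      (∀ v ρ ρ' κ, use v ρ = some κ → use v ρ' = some κ → ρ = ρ') ∧
      ∀ v, ((univ.filter (fun κ => good κ ∧ Ex M A Z v κ ∧ ∀ ρ, use v ρ ≠ some κ)).card : ℝ) ≤
        6 * δ * (G * h) + 1 + (3 * ((h : ℝ) ^ 2 * s3) + 2 * Λ) * h := by
  have : NeZero G := ⟨by omega⟩
  obtain ⟨τ, side, hτ, hdg, hdup⟩ := phases M hM A Z good a δ Λ G h s3 hδ0 hδ hΛ0 hOK ha hΛ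
  have hGR : (0 : ℝ) < G := by exact_mod_cast hG
  have hapos : ∀ κ, good κ → 0 < a κ := by
    intro κ hκ
    have h1 := ha κ hκ
    have h2 : 0 < 16 * (G : ℝ) * Λ := by positivity
    by_contra hn
    have : δ ^ 2 * a κ ≤ 0 := mul_nonpos_of_nonneg_of_nonpos (by positivity) (not_lt.1 hn)
    linarith
  obtain ⟨X, hXd⟩ : ∃ X : V → Fin nb → Prop, ∀ v κ, X v κ ↔ (good κ ∧ Ex M A Z v κ) :=
    ⟨fun v κ => good κ ∧ Ex M A Z v κ, fun _ _ => Iff.rfl⟩
  obtain ⟨P, hP1, hP2, hP3, hP4⟩ := merge hG M hM X a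
    (fun κ v hX => hapos κ ((hXd v κ).1 hX).1) δ hδ0 hδ τ side hτ (by
      intro κ v hX
      have hX' := (hXd v κ).1 hX
      have h1 := hdg κ hX'.1 v
      have h2 : (univ.filter (fun ρ : Fin r => X (M (Sum.inr ρ) v) κ ∧
          τ v ρ = ((κ : ℕ) : ZMod G) ∧ side (M (Sum.inr ρ) v) ≠ side v)).card =
          dgr M A Z τ side v κ := by
        unfold dgr
        congr 1
        apply filter_congr
        intro ρ _
        rw [hXd]
        constructor
        · rintro ⟨⟨-, a1⟩, a2, a3⟩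
          exact ⟨a1, a2, a3⟩
        · rintro ⟨a1, a2, a3⟩
          exact ⟨⟨hX'.1, a1⟩, a2, a3⟩
      rw [h2]
      exact h1)
  obtain ⟨U, hU1, hU2⟩ := Rep_pick (n := nb)
  have hsym : ∀ v ρ κ, P (M (Sum.inr ρ) v) ρ κ ↔ P v ρ κ := by
    intro v ρ κ
    constructor
    · intro h1
      have h2 := hP1 _ _ _ h1
      rwa [hM.inv] at h2
    · exact hP1 v ρ κ
  refine ⟨fun v ρ => U (univ.filter (fun κ => P v ρ κ)), ?_, ?_, ?_, ?_⟩
  · intro v ρ
    show U (univ.filter (fun κ => P (M (Sum.inr ρ) v) ρ κ)) = U (univ.filter (fun κ => P v ρ κ))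
    congr 1
    apply filter_congr
    intro κ _
    exact hsym v ρ κ
  · intro v ρ κ hu
    have h1 := (mem_filter.1 (hU1 _ _ hu)).2
    have h2 := ((hXd v κ).1 (hP2 v ρ κ h1).1).2
    exact ⟨h2.1, h2.2.2⟩
  · intro v ρ ρ' κ hu hu'
    exact hP3 v ρ ρ' κ (mem_filter.1 (hU1 _ _ hu)).2 (mem_filter.1 (hU1 _ _ hu')).2
  · intro v
    have hsub : univ.filter (fun κ => good κ ∧ Ex M A Z v κ ∧
        ∀ ρ, (fun v ρ => U (univ.filter (fun κ => P v ρ κ))) v ρ ≠ some κ) ⊆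
        (univ.filter (fun κ => X v κ ∧ ∀ ρ, ¬ P v ρ κ)) ∪
        (univ.filter (fun ρ => dup M A Z τ v ρ)).biUnion (fun ρ =>
          univ.filter (fun κ : Fin nb => ((κ : ℕ) : ZMod G) = τ v ρ ∧
            ¬ Z (M (Sum.inl κ) v) ∧ A (M (Sum.inl κ) v) κ)) := by
      intro κ hκ
      obtain ⟨-, hg, hE, hno⟩ := mem_filter.1 hκ
      rw [mem_union]
      by_cases hex : ∃ ρ, P v ρ κ
      · right
        obtain ⟨ρ, hρ⟩ := hex
        obtain ⟨κ', hκ', hU'⟩ := hU2 (univ.filter (fun κ => P v ρ κ))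
          ⟨κ, mem_filter.2 ⟨mem_univ _, hρ⟩⟩
        have hPk' : P v ρ κ' := (mem_filter.1 hκ').2
        have hne : κ ≠ κ' := by
          intro he
          apply hno ρ
          show U (univ.filter (fun κ => P v ρ κ)) = some κ
          rw [he]
          exact hU'
        obtain ⟨b1, b2, b3⟩ := hP2 v ρ κ hρ
        obtain ⟨c1, c2, c3⟩ := hP2 v ρ κ' hPk'
        rw [hXd] at b1 b2 c1 c2
        rw [mem_biUnion]
        refine ⟨ρ, mem_filter.2 ⟨mem_univ _, κ, κ', hne, b1.2, c1.2, b2.2, c2.2, b3, c3⟩, ?_⟩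
        exact mem_filter.2 ⟨mem_univ _, b3.symm, b1.2.2.1, b1.2.2.2⟩
      · left
        exact mem_filter.2 ⟨mem_univ _, (hXd v κ).2 ⟨hg, hE⟩, fun ρ hρ => hex ⟨ρ, hρ⟩⟩
    have h1 := (card_le_card hsub).trans (card_union_le _ _)
    have h2 := hP4 v
    have h3 : ((univ.filter (fun ρ => dup M A Z τ v ρ)).biUnion (fun ρ =>
          univ.filter (fun κ : Fin nb => ((κ : ℕ) : ZMod G) = τ v ρ ∧
            ¬ Z (M (Sum.inl κ) v) ∧ A (M (Sum.inl κ) v) κ))).card ≤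
        (univ.filter (fun ρ => dup M A Z τ v ρ)).card * h :=
      card_biUnion_le_card_mul _ _ _ fun ρ _ => hOK.L4 v (τ v ρ)
    have h4 : (univ.filter (fun κ => X v κ)).card ≤ G * h := by
      apply Rep_card
      intro g
      refine (card_le_card ?_).trans (hOK.L4 v g)
      intro κ hκ
      obtain ⟨-, b1, b5⟩ := mem_filter.1 hκ
      obtain ⟨-, b2, b3, b4⟩ := (hXd v κ).1 b5
      exact mem_filter.2 ⟨mem_univ _, b1, b3, b4⟩
    have h5 : (⌈6 * δ * ((univ.filter (fun κ => X v κ)).card : ℝ)⌉₊ : ℝ) ≤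
        6 * δ * (G * h) + 1 := by
      have b1 := Nat.ceil_lt_add_one (a := 6 * δ * ((univ.filter (fun κ => X v κ)).card : ℝ))
        (by positivity)
      have b2 : ((univ.filter (fun κ => X v κ)).card : ℝ) ≤ (G : ℝ) * h := by
        exact_mod_cast h4
      have b3 := mul_le_mul_of_nonneg_left b2 (by positivity : 0 ≤ 6 * δ)
      linarith
    have h6 := hdup v
    have hh : (0 : ℝ) ≤ h := Nat.cast_nonneg h
    have h7 := mul_le_mul_of_nonneg_right h6 hh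
    have h8 : ((univ.filter (fun κ => good κ ∧ Ex M A Z v κ ∧
        ∀ ρ, (fun v ρ => U (univ.filter (fun κ => P v ρ κ))) v ρ ≠ some κ)).card : ℝ) ≤
        (⌈6 * δ * ((univ.filter (fun κ => X v κ)).card : ℝ)⌉₊ : ℝ) +
        ((univ.filter (fun ρ => dup M A Z τ v ρ)).card : ℝ) * h := by
      have := h1.trans (add_le_add h2 h3)
      exact_mod_cast this
    linarith

end Pool.Agent.H67.HY
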