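/-
One group: repair + pool.
-/
import Pool.Agent.H67.HY.Rep
import Pool.Agent.H67.HY.Pool

set_option autoImplicit false

namespace Pool.Agent.H67.HY

open Finset
open Classical

theorem group {V : Type} [Fintype V] {nb r k g0 : ℕ} (M : Fin nb ⊕ Fin r → V → V)
    (hM : IsFac M) (NB bb u fin bd : ℕ) (slot : Fin nb → ℕ) (Fsl : Col k g0 → ℕ)
    (W : V → Finset ℕ)
    (hslot : Function.Injective slot) (hFsl : Function.Injective Fsl)
    (hne : ∀ κ c, slot κ ≠ Fsl c) (hslotN : ∀ κ, slot κ < NB) (hFslN : ∀ c, Fsl c < NB)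
    (hWN : ∀ v, ∀ s ∈ W v, s < NB)
    (hWb : ∀ v, (univ.filter (fun κ => slot κ ∈ W v)).card ≤ bb)
    (hWg : ∀ v, (univ.filter (fun c => Fsl c ∈ W v)).card ≤ g0)
    (hWT : ∀ v, (univ.filter (fun y : Fin k → Bool => ∃ j, Fsl (y, j) ∈ W v)).card ≤ 2)
    (Z : V → Prop) (good : Fin nb → Prop) (a : Fin nb → ℝ) (δ Λ z : ℝ) (G h s3 : ℕ)
    (hG : 1 ≤ G) (hδ0 : 0 < δ) (hδ : δ ≤ 1 / 10) (hΛ0 : 0 < Λ)
    (hOK : GroupOK M (fun v κ => slot κ ∈ W v) Z good a δ G h s3)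
    (ha : ∀ κ, good κ → 16 * G * Λ ≤ δ ^ 2 * a κ)
    (hΛ : 8 * ((nb : ℝ) + 1) * ((r : ℝ) + 1) ^ 2 ≤ Real.exp Λ)
    (hbd : (univ.filter (fun κ => ¬ good κ)).card ≤ bd)
    (hz : ∀ v, ((univ.filter (fun κ : Fin nb => Z (M (Sum.inl κ) v))).card : ℝ) ≤ z)
    (hu : 6 * δ * (G * h) + 1 + (3 * ((h : ℝ) ^ 2 * s3) + 2 * Λ) * h + bd + z ≤ u)
    (f : ℕ) (hf : f = 2 ^ k * g0) (hfr : r + bb + u + 1 ≤ f) (hf100 : 100 ≤ f)
    (hfin : 5 * (g0 : ℝ) + 4000 * Real.log f + 2 * k + 1 ≤ fin) :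
    ∃ e : V → Fin nb ⊕ Fin r → ℕ, (∀ v j, e (M j v) j = e v j) ∧
      (∀ v j j', e v j = e v j' → j = j') ∧ (∀ v j, e v j ∉ W v) ∧
      (∀ v j, e v j < NB + fin) := by
  obtain ⟨use, h1, h2, h3, h4⟩ := repair M hM (fun v κ => slot κ ∈ W v) Z good a δ Λ G h s3 hG
    hδ0 hδ hΛ0 hOK ha hΛ
  refine pool M hM NB bb u fin slot Fsl W hslot hFsl hne hslotN hFslN hWN hWb hWg hWT use h1 h2 h3
    ?_ f hf hfr hf100 hfin
  intro v
  have hsub : univ.filter (fun κ => slot κ ∉ W v ∧ slot κ ∈ W (M (Sum.inl κ) v) ∧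
      ∀ ρ, use v ρ ≠ some κ) ⊆
      (univ.filter (fun κ => good κ ∧ Ex M (fun v κ => slot κ ∈ W v) Z v κ ∧
        ∀ ρ, use v ρ ≠ some κ) ∪ univ.filter (fun κ => ¬ good κ)) ∪
      univ.filter (fun κ : Fin nb => Z (M (Sum.inl κ) v)) := by
    intro κ hκ
    simp only [mem_filter, mem_univ, true_and, mem_union] at hκ ⊢
    by_cases hg : good κ
    · by_cases hZ : Z (M (Sum.inl κ) v)
      · exact Or.inr hZ
      · exact Or.inl (Or.inl ⟨hg, ⟨hκ.1, hZ, hκ.2.1⟩, hκ.2.2⟩)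
    · exact Or.inl (Or.inr hg)
  have hc := (card_le_card hsub).trans ((card_union_le _ _).trans
    (Nat.add_le_add_right (card_union_le _ _) _))
  have hc' : ((univ.filter (fun κ => slot κ ∉ W v ∧ slot κ ∈ W (M (Sum.inl κ) v) ∧
      ∀ ρ, use v ρ ≠ some κ)).card : ℝ) ≤
      ((univ.filter (fun κ => good κ ∧ Ex M (fun v κ => slot κ ∈ W v) Z v κ ∧
        ∀ ρ, use v ρ ≠ some κ)).card : ℝ) + (univ.filter (fun κ => ¬ good κ)).card +
      (univ.filter (fun κ : Fin nb => Z (M (Sum.inl κ) v))).card := by exact_mod_cast hc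
  have hb' : ((univ.filter (fun κ => ¬ good κ)).card : ℝ) ≤ bd := by exact_mod_cast hbd
  have h4' := h4 v
  have hz' := hz v
  have : ((univ.filter (fun κ => slot κ ∉ W v ∧ slot κ ∈ W (M (Sum.inl κ) v) ∧
      ∀ ρ, use v ρ ≠ some κ)).card : ℝ) ≤ u := by linarith
  exact_mod_cast this

end Pool.Agent.H67.HY
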