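/-
ROW TmA. The slots.
PROOF. `e : (Fin k → Bool) ≃ Fin (2^k)` (cards: `Fintype.equivFinOfCardEq`, `Fintype.card_fun`), `Fsl (y, j) = X * ((e y) * g0 + j)`; injective (`X ≥ 1`; Euclidean division by `g0`), `(e y) * g0 + j < 2^k g0`, so `Fsl < X * (2^k g0) ≤ NB`. Let `F = univ.image Fsl` (card `2^k g0`), `S = range NB \ F`, card `nb`; `slot = S.orderEmbOfFin` (or `S.equivFin`)
gives an injective `slot : Fin nb → ℕ` with values in `S`. Let `W` be contained in `[l, l+bb)`. The numbers `a` with `X a ∈ W` lie in `[a0, a0 + g0)` where `a0 = ⌈l/X⌉` i.e. `a0 = (l + X - 1)/X`: `l ≤ X a` gives `a ≥ a0`, and `X a < l + bb ≤ X a0 + bb` gives `a - a0 < bb/X + 1 ≤ g0` (`a - a0 ≤ (bb-1)/X ≤ bb/X`). So at most `g0` colours;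
and `y` with `(e y) g0 + j ∈ [a0, a0+g0)` has `e y ∈ {a0/g0, a0/g0 + 1}`: at most 2. `#{κ : slot κ ∈ W} ≤ card W ≤ bb` by injectivity (`W ⊆ Ico l (l+bb)`).
-/
import Pool.Agent.H67.HY.Defs

set_option autoImplicit false

namespace Pool.Agent.H67.HY

open Finset
open Classical

theorem slots (X k g0 bb nb NB : ℕ) (hX : 1 ≤ X) (hg : bb / X + 1 ≤ g0)
    (hNB : NB = nb + 2 ^ k * g0) (hXf : X * (2 ^ k * g0) ≤ NB) :
    ∃ (slot : Fin nb → ℕ) (Fsl : Col k g0 → ℕ), Function.Injective slot ∧
      Function.Injective Fsl ∧ (∀ κ c, slot κ ≠ Fsl c) ∧ (∀ κ, slot κ < NB) ∧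
      (∀ c, Fsl c < NB) ∧
      ∀ (l : ℕ) (W : Finset ℕ), (∀ s ∈ W, l ≤ s ∧ s < l + bb) →
        (univ.filter (fun κ => slot κ ∈ W)).card ≤ bb ∧
        (univ.filter (fun c => Fsl c ∈ W)).card ≤ g0 ∧
        (univ.filter (fun y : Fin k → Bool => ∃ j, Fsl (y, j) ∈ W)).card ≤ 2 := by
  have hcard : Fintype.card (Fin k → Bool) = 2 ^ k := by
    rw [Fintype.card_fun, Fintype.card_bool, Fintype.card_fin]
  let e : (Fin k → Bool) ≃ Fin (2 ^ k) := Fintype.equivFinOfCardEq hcard
  obtain ⟨idx, hidx⟩ : ∃ idx : Col k g0 → ℕ, ∀ c, idx c = (e c.1).val * g0 + c.2.val :=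
    ⟨fun c => (e c.1).val * g0 + c.2.val, fun _ => rfl⟩
  have hg0 : 0 < g0 := lt_of_lt_of_le (Nat.succ_pos _) hg
  have hdiv : ∀ c, idx c / g0 = (e c.1).val := by
    intro c
    rw [hidx, Nat.mul_comm, Nat.mul_add_div hg0, Nat.div_eq_of_lt c.2.isLt, Nat.add_zero]
  have hmod : ∀ c, idx c % g0 = c.2.val := by
    intro c
    rw [hidx, Nat.mul_comm, Nat.mul_add_mod, Nat.mod_eq_of_lt c.2.isLt]
  have hinj : Function.Injective idx := by
    intro c c' h
    have h1 : (e c.1).val = (e c'.1).val := by rw [← hdiv c, ← hdiv c', h]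
    have h2 : c.2.val = c'.2.val := by rw [← hmod c, ← hmod c', h]
    exact Prod.ext (e.injective (Fin.ext h1)) (Fin.ext h2)
  have hlt : ∀ c, idx c < 2 ^ k * g0 := by
    intro c
    rw [hidx]
    have h1 : (e c.1).val + 1 ≤ 2 ^ k := (e c.1).isLt
    have h2 := c.2.isLt
    calc (e c.1).val * g0 + c.2.val < (e c.1).val * g0 + g0 := by omega
      _ = ((e c.1).val + 1) * g0 := by ring
      _ ≤ 2 ^ k * g0 := Nat.mul_le_mul_right _ h1
  obtain ⟨Fsl, hFsl⟩ : ∃ Fsl : Col k g0 → ℕ, ∀ c, Fsl c = X * idx c := ⟨fun c => X * idx c, fun _ => rfl⟩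
  have hFinj : Function.Injective Fsl := by
    intro c c' h
    rw [hFsl, hFsl] at h
    exact hinj (Nat.eq_of_mul_eq_mul_left (by omega) h)
  have hFlt : ∀ c, Fsl c < NB := by
    intro c
    rw [hFsl]
    exact lt_of_lt_of_le (Nat.mul_lt_mul_of_pos_left (hlt c) (by omega)) hXf
  obtain ⟨F, hF⟩ : ∃ F : Finset ℕ, F = univ.image Fsl := ⟨_, rfl⟩
  have hFc : F.card = 2 ^ k * g0 := by
    rw [hF, card_image_of_injective _ hFinj, card_univ, Fintype.card_prod, hcard, Fintype.card_fin]
  have hFsub : F ⊆ range NB := by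
    intro x hx
    rw [hF, mem_image] at hx
    obtain ⟨c, _, rfl⟩ := hx
    exact mem_range.2 (hFlt c)
  have hSc : (range NB \ F).card = nb := by
    rw [card_sdiff_of_subset hFsub, card_range, hFc, hNB]
    omega
  have hmem : ∀ κ : Fin nb, (range NB \ F).orderEmbOfFin hSc κ ∈ range NB \ F :=
    fun κ => orderEmbOfFin_mem _ hSc κ
  refine ⟨fun κ => (range NB \ F).orderEmbOfFin hSc κ, Fsl,
    ((range NB \ F).orderEmbOfFin hSc).injective, hFinj, ?_, ?_, hFlt, ?_⟩
  · intro κ c h
    have h1 := (mem_sdiff.1 (hmem κ)).2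
    apply h1
    have h2 : Fsl c ∈ F := by
      rw [hF, mem_image]
      exact ⟨c, mem_univ _, rfl⟩
    have h3 : (range NB \ F).orderEmbOfFin hSc κ = Fsl c := h
    rw [h3]
    exact h2
  · intro κ
    exact mem_range.1 (mem_sdiff.1 (hmem κ)).1
  · intro l W hW
    have hWc : W.card ≤ bb := by
      have h1 : W ⊆ Ico l (l + bb) := fun s hs => mem_Ico.2 (hW s hs)
      have h2 := card_le_card h1
      rw [Nat.card_Ico] at h2
      omega
    obtain ⟨a0, ha0⟩ : ∃ a0, a0 = (l + X - 1) / X := ⟨_, rfl⟩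
    have hl0 : l ≤ X * a0 := by
      rw [ha0]
      have h1 := Nat.div_add_mod (l + X - 1) X
      have h2 := Nat.mod_lt (l + X - 1) (by omega : 0 < X)
      omega
    have hbb : bb < X * (bb / X + 1) := by
      have h1 := Nat.div_add_mod bb X
      have h2 := Nat.mod_lt bb (by omega : 0 < X)
      rw [Nat.mul_add, Nat.mul_one]
      omega
    have hkey : ∀ c, Fsl c ∈ W → a0 ≤ idx c ∧ idx c < a0 + g0 := by
      intro c hc
      obtain ⟨h1, h2⟩ := hW _ hc
      rw [hFsl] at h1 h2
      constructor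
      · rw [ha0]
        have h3 : (l + X - 1) / X < idx c + 1 := by
          rw [Nat.div_lt_iff_lt_mul (by omega)]
          have h4 : (idx c + 1) * X = X * idx c + X := by ring
          rw [h4]
          omega
        omega
      · by_contra hcon
        have h3 : a0 + (bb / X + 1) ≤ idx c := by omega
        have h4 : X * (a0 + (bb / X + 1)) ≤ X * idx c := Nat.mul_le_mul_left _ h3
        rw [Nat.mul_add] at h4
        omega
    refine ⟨?_, ?_, ?_⟩
    · refine le_trans ?_ hWc
      refine card_le_card_of_injOn (fun κ => (range NB \ F).orderEmbOfFin hSc κ) ?_ ?_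
      · intro κ hκ
        rw [mem_coe, mem_filter] at hκ
        exact mem_coe.2 hκ.2
      · intro κ _ κ' _ h
        exact ((range NB \ F).orderEmbOfFin hSc).injective h
    · have h1 : (univ.filter (fun c => Fsl c ∈ W)).card ≤ (Ico a0 (a0 + g0)).card := by
        refine card_le_card_of_injOn idx ?_ ?_
        · intro c hc
          rw [mem_coe, mem_filter] at hc
          exact mem_coe.2 (mem_Ico.2 (hkey c hc.2))
        · intro c _ c' _ h
          exact hinj h
      rw [Nat.card_Ico] at h1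
      omega
    · have h1 : (univ.filter (fun y : Fin k → Bool => ∃ j, Fsl (y, j) ∈ W)).card ≤
          (Icc (a0 / g0) (a0 / g0 + 1)).card := by
        refine card_le_card_of_injOn (fun y => (e y).val) ?_ ?_
        · intro y hy
          rw [mem_coe, mem_filter] at hy
          obtain ⟨_, j, hj⟩ := hy
          obtain ⟨h2, h3⟩ := hkey _ hj
          have h4 := hdiv (y, j)
          have h4' : idx (y, j) / g0 = (e y).val := h4
          rw [mem_coe, mem_Icc]
          constructor
          · show a0 / g0 ≤ (e y).val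
            rw [← h4']
            exact Nat.div_le_div_right h2
          · show (e y).val ≤ a0 / g0 + 1
            rw [← h4']
            have h5 : idx (y, j) / g0 ≤ (a0 + g0) / g0 := Nat.div_le_div_right h3.le
            rw [Nat.add_div_right _ hg0] at h5
            exact h5
        · intro y _ y' _ h
          exact e.injective (Fin.ext h)
      rw [Nat.card_Icc] at h1
      omega

end Pool.Agent.H67.HY
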