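/-
ROW TmB. Sleeping slots and windows.
PROOF. `slp_interval`: if `s, s' ∈ slp`, `s ≤ s'`, then `q (s' - s) ≤ 2p - 2`: `q s' + i < x + p`, `x < q s + i + p`; so `s' < s + ((2p-1)/q + 1)` (`Nat.lt_mul_div_succ` / `Nat.div_lt_iff_lt_mul`). `l` = minimum of `slp` (0 if empty).
`slp_far`: if `s < NB` then by definition not (`x < q s+i+p` and `q s + i < x + p`). If `s ≥ NB`: `q s + i ≥ q NB = Nt + p - 1 ≥ x + p`.
`win_card`: the `x` lie in `(t - p, t + p)`, `t = q (slot κ) + i`: contained in `Ico (t + 1 - p) (t + p)` (truncated subtraction), `2p - 1` integers at most; `Fin Nt → ℕ` injective.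
`win_bad`: let `s = slot κ`, `t = q s + i`. The window contains all `x < Nt` with `t + 1 - p ≤ x < t + p` (truncated). If `t + p ≤ Nt`: it contains `[t, t+p)`, `p ≥ b'` elements. If `t + p > Nt` and `t + 1 ≤ p`: it contains all `x < Nt`, `≥ b'`. If `t + p > Nt`, `t ≥ p`: it contains `[t+1-p, Nt)`: `Nt + p - 1 - t = q NB - t = q (NB - s) - i` elements; if this is `< b'`
then `q (NB - s) < b' + q`, so `NB - s ≤ (b' - 1)/q + 1 ≤ b'/q + 1`, `NB - s ≥ 1`. So the bad `κ` have `NB - slot κ ∈ [1, b'/q + 1]`, at most `b'/q + 1` of them by injectivity of `slot`.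
-/
import Pool.Agent.H67.HY.Defs

set_option autoImplicit false

namespace Pool.Agent.H67.HY

open Finset
open Classical

/-- The slots of group `i` at which the vertex with label `x` sleeps. -/
def slp (q p i NB x : ℕ) : Finset ℕ :=
  (range NB).filter (fun s => x < q * s + i + p ∧ q * s + i < x + p)

private theorem TmB_mem {q p i NB x s : ℕ} :
    s ∈ slp q p i NB x ↔ s < NB ∧ x < q * s + i + p ∧ q * s + i < x + p := by
  unfold slp
  rw [mem_filter, mem_range]

theorem slp_interval (q p i NB x : ℕ) (hq : 1 ≤ q) (hp : 1 ≤ p) :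
    ∃ l, ∀ s ∈ slp q p i NB x, l ≤ s ∧ s < l + ((2 * p - 1) / q + 1) := by
  by_cases hne : (slp q p i NB x).Nonempty
  · refine ⟨(slp q p i NB x).min' hne, fun s hs => ⟨min'_le _ _ hs, ?_⟩⟩
    obtain ⟨l, hl⟩ : ∃ l, l = (slp q p i NB x).min' hne := ⟨_, rfl⟩
    have hlm : l ∈ slp q p i NB x := by
      rw [hl]
      exact min'_mem _ _
    rw [← hl]
    rw [TmB_mem] at hs hlm
    obtain ⟨-, -, h1⟩ := hs
    obtain ⟨-, h2, -⟩ := hlm
    by_contra hcon
    have h3 : l + ((2 * p - 1) / q + 1) ≤ s := not_lt.1 hcon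
    have h4 : q * (l + ((2 * p - 1) / q + 1)) ≤ q * s := Nat.mul_le_mul_left q h3
    have h5 : 2 * p - 1 < q * ((2 * p - 1) / q + 1) := Nat.lt_mul_div_succ _ (by omega)
    rw [mul_add] at h4
    omega
  · refine ⟨0, fun s hs => absurd ⟨s, hs⟩ hne⟩

theorem slp_far (q p i NB Nt x s : ℕ) (hNt : Nt + p = q * NB + 1) (hx : x < Nt)
    (hs : s ∉ slp q p i NB x) : (p : ℤ) ≤ |(x : ℤ) - ((q * s + i : ℕ) : ℤ)| := by
  rw [TmB_mem] at hs
  rw [le_abs]
  by_cases h1 : s < NB
  · by_cases h2 : x < q * s + i + p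
    · have h3 : ¬ q * s + i < x + p := fun h => hs ⟨h1, h2, h⟩
      right
      omega
    · left
      omega
  · have h2 : q * NB ≤ q * s := Nat.mul_le_mul_left q (not_lt.1 h1)
    right
    omega

theorem win_card (q p i NB Nt s : ℕ) (hp : 1 ≤ p) :
    (univ.filter (fun x : Fin Nt => s ∈ slp q p i NB x)).card ≤ 2 * p - 1 := by
  have h1 : (univ.filter (fun x : Fin Nt => s ∈ slp q p i NB x)).card =
      ((univ.filter (fun x : Fin Nt => s ∈ slp q p i NB x)).image (fun x : Fin Nt => (x : ℕ))).card := by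
    rw [card_image_of_injective _ Fin.val_injective]
  have h2 : (univ.filter (fun x : Fin Nt => s ∈ slp q p i NB x)).image (fun x : Fin Nt => (x : ℕ)) ⊆
      Ico (q * s + i + 1 - p) (q * s + i + p) := by
    intro y hy
    rw [mem_image] at hy
    obtain ⟨x, hx, rfl⟩ := hy
    rw [mem_filter, TmB_mem] at hx
    rw [mem_Ico]
    omega
  rw [h1]
  refine (card_le_card h2).trans ?_
  rw [Nat.card_Ico]
  omega

private theorem TmB_win {q p i NB Nt s : ℕ} (hs : s < NB) (a b : ℕ)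
    (ha : q * s + i < a + p) (hb : b ≤ q * s + i + p) (hbN : b ≤ Nt) :
    b - a ≤ (univ.filter (fun x : Fin Nt => s ∈ slp q p i NB x)).card := by
  have h2 : Ico a b ⊆
      (univ.filter (fun x : Fin Nt => s ∈ slp q p i NB x)).image (fun x : Fin Nt => (x : ℕ)) := by
    intro y hy
    rw [mem_Ico] at hy
    rw [mem_image]
    refine ⟨⟨y, by omega⟩, ?_, rfl⟩
    rw [mem_filter, TmB_mem]
    refine ⟨mem_univ _, hs, ?_, ?_⟩
    · show y < q * s + i + p
      omega
    · show q * s + i < y + p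
      omega
  have h3 := (card_le_card h2).trans card_image_le
  rw [Nat.card_Ico] at h3
  exact h3

theorem win_bad (q p i NB nb Nt b' : ℕ) (hq : 1 ≤ q) (hp : 1 ≤ p) (hi : i < q)
    (hNt : Nt + p = q * NB + 1) (slot : Fin nb → ℕ) (hslot : Function.Injective slot)
    (hs : ∀ κ, slot κ < NB) (hb' : b' ≤ p) (hb'N : b' ≤ Nt) :
    (univ.filter (fun κ => ¬ b' ≤
      (univ.filter (fun x : Fin Nt => slot κ ∈ slp q p i NB x)).card)).card ≤ b' / q + 1 := by
  have hdq : b' < q * (b' / q + 1) := Nat.lt_mul_div_succ _ (by omega)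
  obtain ⟨d, hd⟩ : ∃ d, d = b' / q := ⟨_, rfl⟩
  rw [← hd] at hdq ⊢
  have hc : (Icc 1 (d + 1)).card = d + 1 := by
    rw [Nat.card_Icc]
    omega
  rw [← hc]
  refine card_le_card_of_injOn (fun κ => NB - slot κ) ?_ ?_
  · intro κ hκ
    rw [mem_coe, mem_filter] at hκ
    obtain ⟨-, hκ⟩ := hκ
    have hlt : (univ.filter (fun x : Fin Nt => slot κ ∈ slp q p i NB x)).card < b' := not_le.1 hκ
    have h0 := hs κ
    rw [mem_coe, mem_Icc]
    show 1 ≤ NB - slot κ ∧ NB - slot κ ≤ d + 1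
    refine ⟨by omega, ?_⟩
    obtain ⟨s, hsd⟩ : ∃ s, s = slot κ := ⟨_, rfl⟩
    rw [← hsd] at hlt h0 ⊢
    have h1 : q * (s + 1) ≤ q * NB := Nat.mul_le_mul_left q h0
    rw [mul_add, mul_one] at h1
    by_contra hcon
    have h2 : d + 1 + 1 ≤ NB - s := by omega
    have h3 : q * (s + (d + 1 + 1)) ≤ q * NB := Nat.mul_le_mul_left q (by omega)
    have h5 : q * (s + (d + 1 + 1)) = q * s + q * (d + 1) + q := by ring
    rw [h5] at h3
    rcases le_or_gt (q * s + i + p) Nt with h6 | h6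
    · have h7 := TmB_win (q := q) (p := p) (i := i) (NB := NB) (Nt := Nt) h0 (q * s + i + 1 - p)
        (q * s + i + p) (by omega) le_rfl h6
      omega
    · have h7 := TmB_win (q := q) (p := p) (i := i) (NB := NB) (Nt := Nt) h0 (q * s + i + 1 - p)
        Nt (by omega) h6.le le_rfl
      omega
  · intro κ hκ κ' hκ' h
    apply hslot
    have h0 := hs κ
    have h1 := hs κ'
    simp only at h
    omega

end Pool.Agent.H67.HY
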