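import Pool.Agent.H67.HY.Lab
import Pool.Agent.H67.HY.Grp
import Pool.Agent.H67.HY.TmA
import Pool.Agent.H67.HY.TmB

/-! The core theorem with all parameters as hypotheses. -/

set_option autoImplicit false

namespace Pool.Agent.H67.HY

open Finset
open Classical

/-- The numerical conditions. -/
structure Params (q nb r k g0 p X bb u fin NB Nt f b' T lam t G : ℕ) (δ Λ : ℝ) : Prop where
  hq : 1 ≤ q
  hp : 1 ≤ p
  hX : 1 ≤ X
  hrn : r ≤ nb
  hG : 1 ≤ G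
  hGn : G ≤ nb
  hT : 1 ≤ T
  hlam : 1 ≤ lam
  hbb : bb = (2 * p - 1) / q + 1
  hg0 : bb / X + 1 ≤ g0
  hf : f = 2 ^ k * g0
  hf100 : 100 ≤ f
  hNB : NB = nb + f
  hXf : X * f ≤ NB
  hfr : r + bb + u + 1 ≤ f
  hNt : Nt + p = q * NB + 1
  hN : q * (nb + r) < Nt
  hNe : (Nt : ℝ) ≤ Real.exp lam
  hlamT : 4000 * (lam : ℝ) ≤ th ^ T * r
  hbig : 128 * T * ((q * (nb + r) : ℕ) + 1 : ℝ) ^ (4 * T + 14) ≤ Real.exp lam
  hδ0 : 0 < δ
  hδ : δ ≤ 1 / 10
  h6 : 6 * th ^ T ≤ δ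
  hL1 : 16 * ((T * lam : ℕ) : ℝ) * (lam + 1) ≤ δ ^ 2 * (r * b' / Nt)
  hL2 : 4 * ((T * lam * lam : ℕ) : ℝ) + 3 * th ^ T * r ≤ δ * (r * b' / Nt)
  h36 : 36 * (r * (2 * p - 1) ^ 2) ≤ lam * Nt ^ 2
  h4 : 4 * lam ≤ Nt
  ht1 : lam ≤ t
  ht2 : 2 * t ≤ Nt
  h18 : 18 * ((nb / G + 1) * (2 * p - 1)) ≤ t * Nt
  hb'p : b' ≤ p
  hb'N : b' ≤ Nt
  hΛ0 : 0 < Λ
  hΛ : 8 * ((nb : ℝ) + 1) * ((r : ℝ) + 1) ^ 2 ≤ Real.exp Λ
  ha : 16 * G * Λ ≤ δ ^ 2 * (r * b' / Nt)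
  hu : 6 * δ * (G * ((T * lam * t : ℕ) : ℝ)) + 1 +
    (3 * (((T * lam * t : ℕ) : ℝ) ^ 2 * ((4 * (T * lam * lam) + 4 * (T * lam) : ℕ) : ℝ)) + 2 * Λ) *
      ((T * lam * t : ℕ) : ℝ) + ((b' / q + 1 : ℕ) : ℝ) + 3 * th ^ T * nb ≤ u
  hfin : 5 * (g0 : ℝ) + 4000 * Real.log f + 2 * k + 1 ≤ fin

theorem core {V : Type} [Fintype V] {q nb r k g0 : ℕ} (M : Fin q × (Fin nb ⊕ Fin r) → V → V)
    (hM : IsFac M) (p X bb u fin NB Nt f b' T lam t G : ℕ) (δ Λ : ℝ)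
    (P : Params q nb r k g0 p X bb u fin NB Nt f b' T lam t G δ Λ) :
    ∃ (c : V → ℕ) (e : V → Fin q × (Fin nb ⊕ Fin r) → ℕ),
      (∀ v j, c v ≠ c (M j v)) ∧ (∀ v j, e (M j v) j = e v j) ∧
      (∀ v j j', e v j = e v j' → j = j') ∧
      (∀ v j, (p : ℤ) ≤ |(c v : ℤ) - (e v j : ℤ)|) ∧
      (∀ v, c v < q * (NB + fin)) ∧ (∀ v j, e v j < q * (NB + fin)) := by
  obtain ⟨slot, Fsl, hslot, hFsl, hne, hslotN, hFslN, hint⟩ := slots X k g0 bb nb NB P.hX P.hg0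
    (by rw [P.hNB, P.hf]) (by rw [← P.hf]; exact P.hXf)
  obtain ⟨c, Z, hc, hZ, hOK⟩ := lab (N := Nt) M hM
    (fun i κ => univ.filter (fun x : Fin Nt => slot κ ∈ slp q p i NB x)) (2 * p - 1) b' T lam t G δ
    (fun i κ => win_card q p i NB Nt (slot κ) P.hp) P.hq P.hrn P.hG P.hGn P.hT P.hlam P.hN P.hNe
    P.hlamT P.hbig P.hδ0 (P.hδ.trans (by norm_num)) P.h6 P.hL1 P.hL2 P.h36 P.h4 P.ht1 P.ht2 P.h18
  have key : ∀ i : Fin q, ∃ e : V → Fin nb ⊕ Fin r → ℕ, (∀ v j, e (M (i, j) v) j = e v j) ∧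
      (∀ v j j', e v j = e v j' → j = j') ∧ (∀ v j, e v j ∉ slp q p i NB (c v)) ∧
      (∀ v j, e v j < NB + fin) := by
    intro i
    have hMi : IsFac (fun j v => M (i, j) v) := by
      refine ⟨fun j v => hM.inv _ v, fun j v => hM.free _ v, fun j j' v hj => hM.dis _ _ v ?_⟩
      intro hh
      exact hj (Prod.ext_iff.1 hh).2
    have hW : ∀ v, ∃ l, ∀ s ∈ slp q p i NB (c v), l ≤ s ∧ s < l + bb := by
      intro v
      rw [P.hbb]
      exact slp_interval q p i NB (c v) P.hq P.hp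
    refine group (fun j v => M (i, j) v) hMi NB bb u fin (b' / q + 1) slot Fsl
      (fun v => slp q p i NB (c v)) hslot hFsl hne hslotN hFslN ?_ ?_ ?_ ?_ Z
      (fun κ => b' ≤ (univ.filter (fun x : Fin Nt => slot κ ∈ slp q p i NB x)).card)
      (fun κ => r * (univ.filter (fun x : Fin Nt => slot κ ∈ slp q p i NB x)).card / Nt) δ Λ
      (3 * th ^ T * nb) G (T * lam * t) (4 * (T * lam * lam) + 4 * (T * lam)) P.hG P.hδ0 P.hδ P.hΛ0
      ?_ ?_ P.hΛ ?_ (hZ i) P.hu f P.hf P.hfr P.hf100 P.hfin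
    · intro v s hs
      exact mem_range.1 (mem_filter.1 hs).1
    · intro v
      obtain ⟨l, hl⟩ := hW v
      exact (hint l _ hl).1
    · intro v
      obtain ⟨l, hl⟩ := hW v
      exact (hint l _ hl).2.1
    · intro v
      obtain ⟨l, hl⟩ := hW v
      exact (hint l _ hl).2.2
    · have h0 := hOK i
      have heq : (fun v κ => c v ∈ univ.filter (fun x : Fin Nt => slot κ ∈ slp q p i NB x)) =
          (fun v κ => slot κ ∈ slp q p i NB (c v)) := by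
        funext v κ
        simp
      rw [heq] at h0
      exact h0
    · intro κ hκ
      refine P.ha.trans ?_
      have hN0 : (0 : ℝ) ≤ Nt := Nat.cast_nonneg _
      have : (b' : ℝ) ≤ (univ.filter (fun x : Fin Nt => slot κ ∈ slp q p i NB x)).card := by
        exact_mod_cast hκ
      gcongr
    · convert win_bad q p i NB nb Nt b' P.hq P.hp i.2 P.hNt slot hslot hslotN P.hb'p P.hb'N
  choose e he1 he2 he3 he4 using key
  refine ⟨fun v => c v, fun v j => q * e j.1 v j.2 + j.1, ?_, ?_, ?_, ?_, ?_, ?_⟩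
  · intro v j h
    exact hc v j (Fin.ext h)
  · rintro v ⟨i, j⟩
    show q * e i (M (i, j) v) j + i = q * e i v j + i
    rw [he1]
  · rintro v ⟨i, j⟩ ⟨i', j'⟩ h
    have h0 : q * e i v j + (i : ℕ) = q * e i' v j' + (i' : ℕ) := h
    have hi : (i : ℕ) = i' := by
      have h1 : (q * e i v j + (i : ℕ)) % q = i := by
        rw [Nat.mul_add_mod, Nat.mod_eq_of_lt i.2]
      have h2 : (q * e i' v j' + (i' : ℕ)) % q = i' := by
        rw [Nat.mul_add_mod, Nat.mod_eq_of_lt i'.2]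
      rw [← h1, h0, h2]
    have hi' : i = i' := Fin.ext hi
    subst hi'
    have h3 : q * e i v j = q * e i v j' := by omega
    have h4 : e i v j = e i v j' := Nat.eq_of_mul_eq_mul_left P.hq h3
    rw [he2 i v j j' h4]
  · rintro v ⟨i, j⟩
    exact slp_far q p i NB Nt (c v) (e i v j) P.hNt (c v).2 (he3 i v j)
  · intro v
    have h1 := (c v).2
    have h2 := P.hNt
    have h3 : q * NB ≤ q * (NB + fin) := Nat.mul_le_mul_left _ (Nat.le_add_right _ _)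
    have h4 := P.hp
    show (c v : ℕ) < q * (NB + fin)
    omega
  · rintro v ⟨i, j⟩
    show q * e i v j + (i : ℕ) < q * (NB + fin)
    have h1 := he4 i v j
    have h2 := i.2
    have h3 : q * (e i v j + 1) ≤ q * (NB + fin) := Nat.mul_le_mul_left _ h1
    have h4 : q * (e i v j + 1) = q * e i v j + q := by ring
    omega

end Pool.Agent.H67.HY
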