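/-
ROW PK. The first element of a random list is uniform; behaviour under permutations of the colours.
PROOF. `first_mem`: `(S.image σ.symm).min' h ∈ S.image σ.symm`, so it is `σ.symm c` with `c ∈ S` and `σ (σ.symm c) = c`. `first_none` clear. `first_mul`: `(S.image g).image (g*σ).symm = S.image σ.symm`
(`(g*σ).symm (g c) = σ.symm c`), so the `min'` agree and `(g * σ) x = g (σ x)`.
`pick_count`: for `c, c' ∈ L` let `g = Equiv.swap c c'`; `L.image g = L`, so by `first_mul` `first (g * σ) L = (first σ L).map g`, and `σ ↦ g * σ` is a bijection from `{σ : first σ L = some c}` to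
`{first σ L = some c'}`. So all `n_c = #{σ : first σ L = some c}`, `c ∈ L`, are equal; they are disjoint, so `L.card * n_c ≤ N!` (`Fintype.card_perm`, `Fintype.card_fin`). For `c ∉ L`, `n_c = 0` by `first_mem`.
Hence `#{σ : ∃ c ∈ B, ..} ≤ ∑_{c ∈ B ∩ L} n_c` and `* L.card ≤ (B ∩ L).card * N!`. (`L = ∅`: both sides 0.)
`avail_app`: `c ∈ avail M (app g φ) v ↔ ∀ j, (φ (M j v)).map g ≠ some c ↔ g⁻¹ c ∈ avail M φ v`. `avail_ge`: the colours NOT in `avail` are among the colours `φ (M j v)` of the coloured neighbours: at most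
`card J - #{j : φ (M j v) = none}` of them (image of `{j : φ (M j v) ≠ none}`), so `N - card J + #{j : φ (M j v) = none} ≤ (avail M φ v).card`.
-/
import Pool.Agent.H67.HY.PD

set_option autoImplicit false

namespace Pool.Agent.H67.HY

open Finset
open Classical

theorem first_mem {N : ℕ} (σ : Equiv.Perm (Fin N)) (S : Finset (Fin N)) (c : Fin N)
    (h : first σ S = some c) : c ∈ S := by
  unfold first at h
  by_cases hn : (S.image σ.symm).Nonempty
  · rw [dif_pos hn, Option.some.injEq] at h
    have h1 := Finset.min'_mem _ hn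
    rw [Finset.mem_image] at h1
    obtain ⟨a, ha, h2⟩ := h1
    rw [← h2, Equiv.apply_symm_apply] at h
    rw [← h]
    exact ha
  · rw [dif_neg hn] at h
    exact absurd h (by simp)

theorem first_none {N : ℕ} (σ : Equiv.Perm (Fin N)) (S : Finset (Fin N)) :
    first σ S = none ↔ S = ∅ := by
  unfold first
  by_cases hn : (S.image σ.symm).Nonempty
  · rw [dif_pos hn]
    have h1 : S.Nonempty := Finset.image_nonempty.1 hn
    constructor
    · intro h
      exact absurd h (by simp)
    · intro h
      exact absurd h h1.ne_empty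
  · rw [dif_neg hn]
    constructor
    · intro _
      by_contra hS
      exact hn (Finset.image_nonempty.2 (Finset.nonempty_iff_ne_empty.2 hS))
    · intro _
      rfl

theorem PK_min {N : ℕ} {A B : Finset (Fin N)} (e : A = B) (hA : A.Nonempty) (hB : B.Nonempty) :
    A.min' hA = B.min' hB := by
  subst e
  rfl

theorem first_mul {N : ℕ} (g σ : Equiv.Perm (Fin N)) (S : Finset (Fin N)) :
    first (g * σ) (S.image g) = (first σ S).map g := by
  have e : (S.image g).image (g * σ).symm = S.image σ.symm := by
    rw [Finset.image_image]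
    refine Finset.image_congr fun c _ => ?_
    show (g * σ).symm (g c) = σ.symm c
    rw [Equiv.symm_apply_eq, Equiv.Perm.mul_apply, Equiv.apply_symm_apply]
  unfold first
  by_cases hn : (S.image σ.symm).Nonempty
  · have hn' : ((S.image g).image (g * σ).symm).Nonempty := by rw [e]; exact hn
    rw [dif_pos hn, dif_pos hn', Option.map_some, PK_min e hn' hn]
    rfl
  · have hn' : ¬ ((S.image g).image (g * σ).symm).Nonempty := by rw [e]; exact hn
    rw [dif_neg hn, dif_neg hn']
    rfl

theorem PK_le {N : ℕ} {L : Finset (Fin N)} {c c' : Fin N} (hc : c ∈ L) (hc' : c' ∈ L) :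
    (univ.filter (fun σ : Equiv.Perm (Fin N) => first σ L = some c)).card ≤
      (univ.filter (fun σ : Equiv.Perm (Fin N) => first σ L = some c')).card := by
  have hg : L.image (Equiv.swap c c') = L := by
    ext x
    rw [Finset.mem_image]
    constructor
    · rintro ⟨y, hy, rfl⟩
      rcases eq_or_ne y c with h | h
      · rw [h, Equiv.swap_apply_left]; exact hc'
      · rcases eq_or_ne y c' with h' | h'
        · rw [h', Equiv.swap_apply_right]; exact hc
        · rw [Equiv.swap_apply_of_ne_of_ne h h']; exact hy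
    · intro hx
      refine ⟨Equiv.swap c c' x, ?_, Equiv.swap_apply_self c c' x⟩
      rcases eq_or_ne x c with h | h
      · rw [h, Equiv.swap_apply_left]; exact hc'
      · rcases eq_or_ne x c' with h' | h'
        · rw [h', Equiv.swap_apply_right]; exact hc
        · rw [Equiv.swap_apply_of_ne_of_ne h h']; exact hx
  refine Finset.card_le_card_of_injOn (fun σ => Equiv.swap c c' * σ) ?_ ?_
  · intro σ hσ
    rw [Finset.mem_coe, Finset.mem_filter] at hσ ⊢
    refine ⟨Finset.mem_univ _, ?_⟩
    have h := first_mul (Equiv.swap c c') σ L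
    rw [hg, hσ.2, Option.map_some, Equiv.swap_apply_left] at h
    exact h
  · intro σ _ τ _ h
    exact mul_left_cancel h

theorem PK_one {N : ℕ} {L : Finset (Fin N)} {c : Fin N} (hc : c ∈ L) :
    (univ.filter (fun σ : Equiv.Perm (Fin N) => first σ L = some c)).card * L.card ≤
      Fintype.card (Equiv.Perm (Fin N)) := by
  have h1 : (L.biUnion fun c' => univ.filter (fun σ : Equiv.Perm (Fin N) => first σ L = some c')).card =
      ∑ c' ∈ L, (univ.filter (fun σ : Equiv.Perm (Fin N) => first σ L = some c')).card := by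
    refine Finset.card_biUnion fun x _ y _ hxy => ?_
    refine Finset.disjoint_left.2 ?_
    intro σ hx hy
    rw [Finset.mem_filter] at hx hy
    have h := hx.2.symm.trans hy.2
    exact hxy (Option.some.inj h)
  have h2 := Finset.card_le_univ
    (L.biUnion fun c' => univ.filter (fun σ : Equiv.Perm (Fin N) => first σ L = some c'))
  rw [h1] at h2
  refine le_trans ?_ h2
  rw [mul_comm, ← smul_eq_mul, ← Finset.sum_const]
  exact Finset.sum_le_sum fun c' hc' => PK_le hc hc'

theorem pick_count {N : ℕ} (L B : Finset (Fin N)) :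
    ((univ.filter (fun σ : Equiv.Perm (Fin N) => ∃ c ∈ B, first σ L = some c)).card : ℝ) *
      L.card ≤ (B ∩ L).card * (Fintype.card (Equiv.Perm (Fin N)) : ℝ) := by
  have h1 : (univ.filter (fun σ : Equiv.Perm (Fin N) => ∃ c ∈ B, first σ L = some c)) ⊆
      (B ∩ L).biUnion fun c => univ.filter (fun σ : Equiv.Perm (Fin N) => first σ L = some c) := by
    intro σ hσ
    rw [Finset.mem_filter] at hσ
    obtain ⟨-, c, hcB, hc⟩ := hσ
    rw [Finset.mem_biUnion]
    refine ⟨c, Finset.mem_inter.2 ⟨hcB, first_mem σ L c hc⟩, ?_⟩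
    rw [Finset.mem_filter]
    exact ⟨Finset.mem_univ _, hc⟩
  have h2 := (Finset.card_le_card h1).trans Finset.card_biUnion_le
  have h3 : (univ.filter (fun σ : Equiv.Perm (Fin N) => ∃ c ∈ B, first σ L = some c)).card * L.card ≤
      (B ∩ L).card * Fintype.card (Equiv.Perm (Fin N)) := by
    refine (Nat.mul_le_mul_right _ h2).trans ?_
    rw [Finset.sum_mul, ← smul_eq_mul, ← Finset.sum_const]
    refine Finset.sum_le_sum fun c hc => ?_
    exact PK_one (Finset.mem_inter.1 hc).2
  exact_mod_cast h3

theorem avail_app {V J : Type} [Fintype J] {N : ℕ} (M : J → V → V) (g : Equiv.Perm (Fin N))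
    (φ : V → Option (Fin N)) (v : V) :
    avail M (app g φ) v = (avail M φ v).image g := by
  ext c
  unfold avail app
  rw [Finset.mem_filter, Finset.mem_image]
  constructor
  · rintro ⟨-, h⟩
    refine ⟨g.symm c, ?_, Equiv.apply_symm_apply g c⟩
    rw [Finset.mem_filter]
    refine ⟨Finset.mem_univ _, fun j hj => h j ?_⟩
    rw [hj, Option.map_some, Equiv.apply_symm_apply]
  · rintro ⟨a, ha, rfl⟩
    rw [Finset.mem_filter] at ha
    refine ⟨Finset.mem_univ _, fun j hj => ha.2 j ?_⟩
    rw [Option.map_eq_some_iff] at hj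
    obtain ⟨b, hb, hb2⟩ := hj
    rw [hb, g.injective hb2]

theorem avail_ge {V J : Type} [Fintype J] {N : ℕ} (M : J → V → V)
    (φ : V → Option (Fin N)) (v : V) (hN : Fintype.card J ≤ N) :
    (univ.filter (fun j => φ (M j v) = none)).card ≤ (avail M φ v).card := by
  have h1 : ((avail M φ v)ᶜ.image some) ⊆
      (univ.filter (fun j => ¬ φ (M j v) = none)).image (fun j => φ (M j v)) := by
    intro o ho
    rw [Finset.mem_image] at ho
    obtain ⟨c, hc, rfl⟩ := ho
    rw [Finset.mem_compl, avail, Finset.mem_filter] at hc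
    have h2 : ∃ j, φ (M j v) = some c := by
      by_contra h3
      exact hc ⟨Finset.mem_univ _, fun j hj => h3 ⟨j, hj⟩⟩
    obtain ⟨j, hj⟩ := h2
    rw [Finset.mem_image]
    refine ⟨j, ?_, hj⟩
    rw [Finset.mem_filter]
    exact ⟨Finset.mem_univ _, by rw [hj]; simp⟩
  have h2 := (Finset.card_le_card h1).trans Finset.card_image_le
  rw [Finset.card_image_of_injective _ (Option.some_injective _), Finset.card_compl,
    Fintype.card_fin] at h2
  have h3 := Finset.card_filter_add_card_filter_not (s := (univ : Finset J)) (fun j => φ (M j v) = none)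
  rw [Finset.card_univ] at h3
  have h4 : (avail M φ v).card ≤ N := by
    have := Finset.card_le_univ (avail M φ v)
    rwa [Fintype.card_fin] at this
  omega

end Pool.Agent.H67.HY
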