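/-
ROW Eqv. Equivariance, properness and history of the process.
PROOF. `run_gact` by induction on `i`: `act (gact g ω) i = act ω i`, `sig (gact g ω) i v = g * sig ω i v` for `i < T`; for `i ≥ T` `sig` is `1` on both sides, so the statement is for `i ≤ T`. Step: with `φ = run M ω i`:
`pk M (fun v => g * σ v) (app g φ) v = (pk M σ φ v).map g` (`avail_app`, `first_mul`), `actv a (app g φ) v ↔ actv a φ v` (`Option.map_eq_none`), clash is equivalent as `Option.map g` is injective. So the two `if`s agree.
`run_part`: `step` with `¬ (actv ..)` gives `φ v`. `run_upd`: `run M (upd i ω σ) j = run M ω j` for `j ≤ i` (induction on `j`: `act` only sees the first components, `sig (upd i ω σ) j = sig ω j` for `j ≠ i`), `act (upd i ω σ) = act ω`,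
`sig (upd i ω σ) i = σ`. `run_prop` (properness): induction on `i`: let `φ = run M ω i`, `ψ` the next, `ψ v = ψ (M j v) = some c`. If both unchanged: IH. If `v` is newly coloured (`actv`, `¬ clash`, `ψ v = pk v`): either `M j v` is also
newly coloured, then `pk (M j v) = pk v` and `actv (M j v)` contradict `¬ clash`; or `φ (M j v) = some c`, but `c = pk v ∈ avail M φ v` (`first_mem`) says `φ (M j v) ≠ some c`. The case `M j v` newly coloured, `v` not: symmetric with `hM.inv`.
`run_none_of_not_act`: if `x` is not activated up to round `i - 1` then `run M ω i x = none`: induction (`act ω i x` is monotone in `i`).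
`run_mono`: coloured vertices keep the colour: `actv` requires `φ v = none`.
`run_succ_none`: if `run M ω (i+1) x = none` and `act ω i x` then `run M ω i x = none` by `run_mono`, so `part M ω i x`; if not `fail`, then `run M ω (i+1) x = pk = none` says `avail = ∅` (`first_none`).
`run_new`: `run (i+1) x = some c`, `run i x ≠ some c`: by the definition of `step` `actv ∧ ¬clash` and `pick = some c`.
-/
import Pool.Agent.H67.HY.PK

set_option autoImplicit false

namespace Pool.Agent.H67.HY

open Finset
open Classical

variable {V J : Type} [Fintype J] {N T : ℕ}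

theorem Eqv_sig_gact (g : Equiv.Perm (Fin N)) (ω : V → Coin T N) (i : ℕ) (hi : i < T) :
    sig (gact g ω) i = fun v => g * sig ω i v := by
  funext v
  unfold sig gact
  rw [dif_pos hi, dif_pos hi]

theorem Eqv_pk (M : J → V → V) (g : Equiv.Perm (Fin N)) (σ : V → Equiv.Perm (Fin N))
    (φ : V → Option (Fin N)) (v : V) :
    pk M (fun v => g * σ v) (app g φ) v = (pk M σ φ v).map g := by
  unfold pk
  rw [avail_app, first_mul]

theorem Eqv_actv (g : Equiv.Perm (Fin N)) (a : V → Prop) (φ : V → Option (Fin N)) (v : V) :
    actv a (app g φ) v ↔ actv a φ v := by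
  unfold actv app
  rw [Option.map_eq_none_iff]

theorem Eqv_clash (M : J → V → V) (g : Equiv.Perm (Fin N)) (a : V → Prop)
    (σ : V → Equiv.Perm (Fin N)) (φ : V → Option (Fin N)) (v : V) :
    clash M a (fun v => g * σ v) (app g φ) v ↔ clash M a σ φ v := by
  unfold clash
  refine exists_congr fun j => and_congr (Eqv_actv g a φ (M j v)) ?_
  rw [Eqv_pk, Eqv_pk]
  constructor
  · intro h
    exact Option.map_injective g.injective h
  · intro h
    rw [h]

theorem Eqv_step (M : J → V → V) (g : Equiv.Perm (Fin N)) (a : V → Prop)
    (σ : V → Equiv.Perm (Fin N)) (φ : V → Option (Fin N)) :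
    step M a (fun v => g * σ v) (app g φ) = app g (step M a σ φ) := by
  funext v
  have hiff : (actv a (app g φ) v ∧ ¬ clash M a (fun v => g * σ v) (app g φ) v) ↔
      (actv a φ v ∧ ¬ clash M a σ φ v) :=
    and_congr (Eqv_actv g a φ v) (not_congr (Eqv_clash M g a σ φ v))
  by_cases h : actv a φ v ∧ ¬ clash M a σ φ v
  · have e1 : step M a σ φ v = pk M σ φ v := if_pos h
    have e2 : step M a (fun v => g * σ v) (app g φ) v = pk M (fun v => g * σ v) (app g φ) v :=
      if_pos (hiff.2 h)
    rw [e2, Eqv_pk]
    show _ = (step M a σ φ v).map g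
    rw [e1]
  · have e1 : step M a σ φ v = φ v := if_neg h
    have e2 : step M a (fun v => g * σ v) (app g φ) v = app g φ v :=
      if_neg (fun h' => h (hiff.1 h'))
    rw [e2]
    show _ = (step M a σ φ v).map g
    rw [e1]
    rfl

theorem run_gact (M : J → V → V) (g : Equiv.Perm (Fin N)) (ω : V → Coin T N) (i : ℕ)
    (hi : i ≤ T) : run M (gact g ω) i = app g (run M ω i) := by
  induction i with
  | zero => rfl
  | succ i ih =>
    have h1 : i < T := hi
    show step M (act (gact g ω) i) (sig (gact g ω) i) (run M (gact g ω) i) =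
      app g (step M (act ω i) (sig ω i) (run M ω i))
    rw [ih h1.le, Eqv_sig_gact g ω i h1]
    exact Eqv_step M g (act ω i) (sig ω i) (run M ω i)

theorem run_upd (M : J → V → V) (i : Fin T) (ω : V → Coin T N)
    (σ : V → Equiv.Perm (Fin N)) (j : ℕ) (hj : j ≤ i.1) : run M (upd i ω σ) j = run M ω j := by
  induction j with
  | zero => rfl
  | succ j ih =>
    have h1 : j < i.1 := hj
    have e1 : act (upd i ω σ) j = act ω j := by
      funext x
      unfold act
      refine propext (exists_congr fun k => and_congr Iff.rfl ?_)
      have : (upd i ω σ x k).1 = (ω x k).1 := by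
        unfold upd
        by_cases hk : k = i
        · subst hk
          rw [Function.update_self]
        · rw [Function.update_of_ne hk]
      rw [this]
    have e2 : sig (upd i ω σ) j = sig ω j := by
      funext x
      unfold sig
      by_cases h : j < T
      · rw [dif_pos h, dif_pos h]
        unfold upd
        rw [Function.update_of_ne]
        intro h2
        rw [← h2] at h1
        exact absurd h1 (lt_irrefl _)
      · rw [dif_neg h, dif_neg h]
    show step M (act (upd i ω σ) j) (sig (upd i ω σ) j) (run M (upd i ω σ) j) =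
      step M (act ω j) (sig ω j) (run M ω j)
    rw [e1, e2, ih h1.le]

theorem act_upd (i : Fin T) (ω : V → Coin T N) (σ : V → Equiv.Perm (Fin N)) (j : ℕ) (x : V) :
    act (upd i ω σ) j x ↔ act ω j x := by
  unfold act
  refine exists_congr fun k => and_congr Iff.rfl ?_
  have : (upd i ω σ x k).1 = (ω x k).1 := by
    unfold upd
    by_cases hk : k = i
    · subst hk
      rw [Function.update_self]
    · rw [Function.update_of_ne hk]
  rw [this]

theorem sig_upd (i : Fin T) (ω : V → Coin T N) (σ : V → Equiv.Perm (Fin N)) :
    sig (upd i ω σ) i.1 = σ := by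
  funext x
  unfold sig
  rw [dif_pos i.2]
  unfold upd
  rw [Function.update_self]

theorem run_prop (M : J → V → V) (hM : IsFac M) (ω : V → Coin T N) (i : ℕ) :
    PropCol M (run M ω i) := by
  induction i with
  | zero =>
    intro v j h
    exact absurd rfl h
  | succ i ih =>
    intro v j hψ heq
    have hstep : ∀ x, run M ω (i + 1) x = step M (act ω i) (sig ω i) (run M ω i) x := fun x => rfl
    rw [hstep] at hψ
    rw [hstep, hstep] at heq
    have hinv : M j (M j v) = v := hM.inv j v
    by_cases hv : actv (act ω i) (run M ω i) v ∧ ¬ clash M (act ω i) (sig ω i) (run M ω i) v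
    · have e1 : step M (act ω i) (sig ω i) (run M ω i) v = pk M (sig ω i) (run M ω i) v := if_pos hv
      rw [e1] at hψ heq
      by_cases hu : actv (act ω i) (run M ω i) (M j v) ∧
          ¬ clash M (act ω i) (sig ω i) (run M ω i) (M j v)
      · have e2 : step M (act ω i) (sig ω i) (run M ω i) (M j v) =
            pk M (sig ω i) (run M ω i) (M j v) := if_pos hu
        rw [e2] at heq
        exact hv.2 ⟨j, hu.1, heq.symm⟩
      · have e2 : step M (act ω i) (sig ω i) (run M ω i) (M j v) = run M ω i (M j v) := if_neg hu
        rw [e2] at heq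
        obtain ⟨c, hc⟩ := Option.ne_none_iff_exists'.1 hψ
        have hmem : c ∈ avail M (run M ω i) v := first_mem _ _ _ hc
        unfold avail at hmem
        rw [Finset.mem_filter] at hmem
        exact hmem.2 j (heq.symm.trans hc)
    · have e1 : step M (act ω i) (sig ω i) (run M ω i) v = run M ω i v := if_neg hv
      rw [e1] at hψ heq
      by_cases hu : actv (act ω i) (run M ω i) (M j v) ∧
          ¬ clash M (act ω i) (sig ω i) (run M ω i) (M j v)
      · have e2 : step M (act ω i) (sig ω i) (run M ω i) (M j v) =
            pk M (sig ω i) (run M ω i) (M j v) := if_pos hu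
        rw [e2] at heq
        obtain ⟨c, hc⟩ := Option.ne_none_iff_exists'.1 hψ
        have hmem : c ∈ avail M (run M ω i) (M j v) := first_mem _ _ _ (heq.symm.trans hc)
        unfold avail at hmem
        rw [Finset.mem_filter] at hmem
        apply hmem.2 j
        rw [hinv]
        exact hc
      · have e2 : step M (act ω i) (sig ω i) (run M ω i) (M j v) = run M ω i (M j v) := if_neg hu
        rw [e2] at heq
        exact ih v j hψ heq

theorem Eqv_act_mono (ω : V → Coin T N) {i j : ℕ} (hij : i ≤ j) (x : V) (h : act ω i x) :
    act ω j x := by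
  obtain ⟨k, hk, h0⟩ := h
  exact ⟨k, hk.trans hij, h0⟩

theorem Eqv_step_of_not_act (M : J → V → V) (ω : V → Coin T N) (i : ℕ) (x : V)
    (h : ¬ act ω i x) : run M ω (i + 1) x = run M ω i x := by
  show step M (act ω i) (sig ω i) (run M ω i) x = run M ω i x
  exact if_neg (fun h' => h h'.1.2)

theorem Eqv_none (M : J → V → V) (ω : V → Coin T N) (x : V) (i : ℕ)
    (h : ¬ act ω i x) : run M ω i x = none := by
  induction i with
  | zero => rfl
  | succ i ih =>
    have h1 : ¬ act ω i x := fun h' => h (Eqv_act_mono ω (Nat.le_succ i) x h')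
    rw [Eqv_step_of_not_act M ω i x h1]
    exact ih h1

theorem run_none_of_not_act (M : J → V → V) (ω : V → Coin T N) (i : ℕ) (x : V)
    (h : ¬ act ω i x) : run M ω i x = none ∧ run M ω (i + 1) x = none := by
  have h1 := Eqv_none M ω x i h
  exact ⟨h1, (Eqv_step_of_not_act M ω i x h).trans h1⟩

theorem run_mono (M : J → V → V) (ω : V → Coin T N) (i : ℕ) (x : V) (c : Fin N)
    (h : run M ω i x = some c) : run M ω (i + 1) x = some c := by
  have e1 : run M ω (i + 1) x = run M ω i x := by
    show step M (act ω i) (sig ω i) (run M ω i) x = run M ω i x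
    refine if_neg (fun h' => ?_)
    have := h'.1.1
    rw [h] at this
    exact absurd this (Option.some_ne_none c)
  rw [e1, h]

theorem run_succ_none (M : J → V → V) (ω : V → Coin T N) (i : ℕ) (x : V)
    (h : run M ω (i + 1) x = none) (ha : act ω i x) (hav : (avail M (run M ω i) x).Nonempty) :
    fail M ω i x := by
  have h0 : run M ω i x = none := by
    by_contra hne
    obtain ⟨c, hc⟩ := Option.ne_none_iff_exists'.1 hne
    have := run_mono M ω i x c hc
    rw [h] at this
    exact absurd this.symm (Option.some_ne_none c)
  have hp : part M ω i x := ⟨h0, ha⟩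
  refine ⟨hp, ?_⟩
  by_contra hcl
  have e1 : run M ω (i + 1) x = pk M (sig ω i) (run M ω i) x := if_pos ⟨hp, hcl⟩
  rw [h] at e1
  have e2 := (first_none _ _).1 e1.symm
  rw [e2] at hav
  exact absurd hav Finset.not_nonempty_empty

theorem run_new (M : J → V → V) (ω : V → Coin T N) (i : ℕ) (x : V) (c : Fin N)
    (h : run M ω (i + 1) x = some c) (h' : run M ω i x ≠ some c) :
    part M ω i x ∧ pick M ω i x = some c := by
  by_cases hp : actv (act ω i) (run M ω i) x ∧ ¬ clash M (act ω i) (sig ω i) (run M ω i) x
  · have e1 : run M ω (i + 1) x = pk M (sig ω i) (run M ω i) x := if_pos hp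
    rw [h] at e1
    exact ⟨hp.1, e1.symm⟩
  · have e1 : run M ω (i + 1) x = run M ω i x := if_neg hp
    exact absurd (e1.symm.trans h) h'

end Pool.Agent.H67.HY
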