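/-
ROW RD. Multiplicities and coincidences in one round.
PROOF. `rk : V → ℤ` injective. `round_mult`: `B x σ := pk M σ φ x = some c`, `S' = S.filter (actv a φ)`; by `seq_bound` (or directly) for `J ⊆ S'`: `#{σ : ∀ x ∈ J, B x σ} ≤ (1/A)^J.card * |Ω|` (`hp`: `pick_count` with `B = {c}`: count `* |avail| ≤ N!`). `union_exp` with
`k = lam`, `y = 1/A`, `|S'| * y ≤ 1/20`.
`round_coin`: let `coin (step ..) (x ρ) (y ρ)` and `¬ coin φ (x ρ) (y ρ)`, common colour `c`. If both `x ρ, y ρ` keep an old colour, contradiction. So at least one of them is newly coloured (`actv`, colour `= pk`). Four classes: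
 (1) `x ρ` new, `φ (y ρ) = some c`: `actv a φ (x ρ) ∧ pk M σ φ (x ρ) = φ (y ρ)`, `φ (y ρ) ≠ none`;
 (2) `y ρ` new, `φ (x ρ) = some c`: symmetric;
 (3) both new, `rk (y ρ) < rk (x ρ)`: `actv (x ρ)`, `pk (x ρ) = pk (y ρ)`; (4) both new, `rk (x ρ) < rk (y ρ)` (they are different vertices: `hne`).
For each class the number of `ρ` is `≥ lam` with probability `≤ exp(-2 lam)`: `union_exp` on `{ρ : actv a φ (x ρ)}` (classes 1,3) resp. `{ρ : actv a φ (y ρ)}` (2,4), `y = 1/A`; its hypothesis: for a set `J` of `ρ`'s use `seq_bound` with the set of vertices `x '' J` (card `J.card`, `x` injective;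
`E v σ := ∀ ρ, x ρ = v → (class condition)`), `hdep`: in class 3 the condition involves `σ (x ρ)` and `σ (y ρ)` with `rk (y ρ) < rk (x ρ)` only; `hp`: for fixed `σ` outside `v = x ρ` it says `first s (avail M φ v) = some c0` for a fixed `c0` (the value of `pk` at `y ρ ≠ x ρ`, resp. `φ (y ρ)`), or is impossible
(`pk (y ρ) = none` is excluded since `first s (avail) ≠ none`): count `≤ N!/|avail| ≤ N!/A`. If the number of new coincidences is `> 4 lam` then one class has `> lam`, so `≥ lam`.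
-/
import Pool.Agent.H67.HY.UC
import Pool.Agent.H67.HY.Seq
import Pool.Agent.H67.HY.PK

set_option autoImplicit false

namespace Pool.Agent.H67.HY

open Finset
open Classical

theorem RD_monoN {α : Type} (S T : Finset α) (p q : α → Prop) (i1 : DecidablePred p)
    (i2 : DecidablePred q) (h : ∀ a ∈ S, p a → a ∈ T ∧ q a) :
    (@Finset.filter α p i1 S).card ≤ (@Finset.filter α q i2 T).card := by
  refine Finset.card_le_card ?_
  intro a ha
  rw [Finset.mem_filter] at ha ⊢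
  exact h a ha.1 ha.2

theorem RD_mono {α : Type} (S T : Finset α) (p q : α → Prop) (i1 : DecidablePred p)
    (i2 : DecidablePred q) (h : ∀ a ∈ S, p a → a ∈ T ∧ q a) :
    ((@Finset.filter α p i1 S).card : ℝ) ≤ ((@Finset.filter α q i2 T).card : ℝ) :=
  Nat.cast_le.2 (RD_monoN S T p q i1 i2 h)

theorem RD_pick {N : ℕ} (L : Finset (Fin N)) (A : ℝ) (hA0 : 0 < A) (hA : A ≤ (L.card : ℝ))
    (o : Option (Fin N)) (P : Equiv.Perm (Fin N) → Prop) (h : ∀ s, P s → first s L = o) :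
    ((univ.filter (fun s => P s)).card : ℝ) ≤ 1 / A * Fintype.card (Equiv.Perm (Fin N)) := by
  have hL : L ≠ ∅ := by
    rintro rfl
    rw [Finset.card_empty, Nat.cast_zero] at hA
    linarith
  have hLc : (0 : ℝ) < L.card := lt_of_lt_of_le hA0 hA
  rcases o with _ | c
  · have h0 : univ.filter (fun s => P s) = ∅ := by
      apply Finset.eq_empty_of_forall_notMem
      intro s hs
      exact hL ((first_none s L).1 (h s (Finset.mem_filter.1 hs).2))
    rw [h0, Finset.card_empty, Nat.cast_zero]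
    positivity
  · have h1 := pick_count L {c}
    have h2 : (univ.filter (fun s => P s)).card ≤
        (univ.filter (fun σ : Equiv.Perm (Fin N) => ∃ c' ∈ ({c} : Finset (Fin N)),
          first σ L = some c')).card := by
      refine Finset.card_le_card ?_
      intro s hs
      rw [Finset.mem_filter] at hs ⊢
      exact ⟨hs.1, c, Finset.mem_singleton_self c, h s hs.2⟩
    have h3 : ((({c} : Finset (Fin N)) ∩ L).card : ℝ) ≤ 1 := by
      have : (({c} : Finset (Fin N)) ∩ L).card ≤ 1 := by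
        refine (Finset.card_le_card Finset.inter_subset_left).trans ?_
        rw [Finset.card_singleton]
      exact_mod_cast this
    have h2' : ((univ.filter (fun s => P s)).card : ℝ) ≤
        ((univ.filter (fun σ : Equiv.Perm (Fin N) => ∃ c' ∈ ({c} : Finset (Fin N)),
          first σ L = some c')).card : ℝ) := by exact_mod_cast h2
    have hP : (0 : ℝ) ≤ Fintype.card (Equiv.Perm (Fin N)) := Nat.cast_nonneg _
    have h4 : ((univ.filter (fun s => P s)).card : ℝ) * A ≤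
        Fintype.card (Equiv.Perm (Fin N)) := by
      calc ((univ.filter (fun s => P s)).card : ℝ) * A
          ≤ ((univ.filter (fun σ : Equiv.Perm (Fin N) => ∃ c' ∈ ({c} : Finset (Fin N)),
            first σ L = some c')).card : ℝ) * L.card :=
            mul_le_mul h2' hA hA0.le (Nat.cast_nonneg _)
        _ ≤ _ := h1
        _ ≤ 1 * Fintype.card (Equiv.Perm (Fin N)) := mul_le_mul_of_nonneg_right h3 hP
        _ = _ := one_mul _
    rw [one_div, inv_mul_eq_div, le_div_iff₀ hA0]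
    exact h4

theorem RD_class {V R : Type} [Fintype V] [Fintype R] {N : ℕ} (x : R → V)
    (hx : Function.Injective x) (rk : V → ℤ) (hrk : Function.Injective rk) (Q : R → Prop)
    (Cond : R → (V → Equiv.Perm (Fin N)) → Prop) (A : ℝ) (lam : ℕ) (hA0 : 0 < A)
    (hdep : ∀ ρ, ∀ σ σ' : V → Equiv.Perm (Fin N), (∀ w, rk w ≤ rk (x ρ) → σ w = σ' w) →
      Cond ρ σ → Cond ρ σ')
    (hp : ∀ ρ, Q ρ → ∀ σ : V → Equiv.Perm (Fin N),
      ((univ.filter (fun s => Cond ρ (Function.update σ (x ρ) s))).card : ℝ) ≤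
        1 / A * Fintype.card (Equiv.Perm (Fin N)))
    (hs : 20 * ((univ.filter (fun ρ => Q ρ)).card : ℝ) ≤ A) :
    ((univ.filter (fun σ : V → Equiv.Perm (Fin N) => lam ≤
      (univ.filter (fun ρ => Q ρ ∧ Cond ρ σ)).card)).card : ℝ) ≤
      Real.exp (-(2 * lam)) * Fintype.card (V → Equiv.Perm (Fin N)) := by
  have hyA : (0 : ℝ) ≤ 1 / A := by positivity
  have key := union_exp (Ω := V → Equiv.Perm (Fin N)) (univ.filter (fun ρ => Q ρ))
    (fun ρ σ => Cond ρ σ) (1 / A) lam hyA ?_ ?_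
  · refine le_trans (RD_mono _ _ _ _ _ _ (fun σ _ hσ => ⟨Finset.mem_univ _,
      hσ.trans (RD_monoN _ _ _ _ _ _ (fun ρ hρ h => ⟨?_, h.2⟩))⟩)) key
    exact Finset.mem_filter.2 ⟨hρ, h.1⟩
  · rw [mul_one_div, div_le_iff₀ hA0]
    linarith
  · intro I hI hIc
    have hseq := seq_bound (κ := Equiv.Perm (Fin N)) rk (I.image x)
      (fun v _ w _ h => hrk h) (fun v σ => ∀ ρ, x ρ = v → Cond ρ σ) (fun _ => 1 / A)
      (fun _ _ => hyA) ?_ ?_
    · rw [Finset.prod_const, Finset.card_image_of_injective _ hx, hIc] at hseq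
      refine le_trans (RD_mono _ _ _ _ _ _ (fun σ _ hσ => ⟨Finset.mem_univ _, ?_⟩)) hseq
      intro v hv ρ hρ
      rw [Finset.mem_image] at hv
      obtain ⟨ρ', hρ', h'⟩ := hv
      have : ρ = ρ' := hx (hρ.trans h'.symm)
      rw [this]
      exact hσ ρ' hρ'
    · intro v _ σ σ' hag hE ρ hρ
      refine hdep ρ σ σ' ?_ (hE ρ hρ)
      rw [hρ]
      exact hag
    · intro v hv σ
      rw [Finset.mem_image] at hv
      obtain ⟨ρ, hρ, rfl⟩ := hv
      have hQ : Q ρ := (Finset.mem_filter.1 (hI hρ)).2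
      exact le_trans (RD_mono _ _ _ _ _ _ (fun s _ hs' => ⟨Finset.mem_univ _, hs' ρ rfl⟩))
        (hp ρ hQ σ)

theorem RD_rk (V : Type) [Fintype V] : ∃ rk : V → ℤ, Function.Injective rk := by
  refine ⟨fun v => ((Fintype.equivFin V v : ℕ) : ℤ), ?_⟩
  intro v w h
  have h1 : ((Fintype.equivFin V v : ℕ)) = (Fintype.equivFin V w : ℕ) := Nat.cast_injective h
  exact (Fintype.equivFin V).injective (Fin.ext h1)

theorem RD_update {V J : Type} [Fintype J] {N : ℕ} (M : J → V → V)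
    (φ : V → Option (Fin N)) (σ : V → Equiv.Perm (Fin N)) (v : V) (s : Equiv.Perm (Fin N)) :
    pk M (Function.update σ v s) φ v = first s (avail M φ v) := by
  unfold pk
  rw [Function.update_self]

theorem RD_update_ne {V J : Type} [Fintype J] {N : ℕ} (M : J → V → V)
    (φ : V → Option (Fin N)) (σ : V → Equiv.Perm (Fin N)) (v w : V) (s : Equiv.Perm (Fin N))
    (h : w ≠ v) : pk M (Function.update σ v s) φ w = pk M σ φ w := by
  unfold pk
  rw [Function.update_of_ne h]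

theorem RD_congr {V J : Type} [Fintype J] {N : ℕ} (M : J → V → V)
    (φ : V → Option (Fin N)) (σ σ' : V → Equiv.Perm (Fin N)) (v : V) (h : σ v = σ' v) :
    pk M σ φ v = pk M σ' φ v := by
  unfold pk
  rw [h]

theorem round_mult {V J : Type} [Fintype V] [Fintype J] {N : ℕ} (M : J → V → V)
    (a : V → Prop) (φ : V → Option (Fin N)) (S : Finset V) (A : ℝ) (lam : ℕ)
    (hA0 : 0 < A) (hA : ∀ x ∈ S, actv a φ x → A ≤ ((avail M φ x).card : ℝ))
    (hs : 20 * ((S.filter (fun x => actv a φ x)).card : ℝ) ≤ A) (c : Fin N) :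
    ((univ.filter (fun σ : V → Equiv.Perm (Fin N) => lam <
      (S.filter (fun x => actv a φ x ∧ pk M σ φ x = some c)).card)).card : ℝ) ≤
      Real.exp (-(2 * lam)) * Fintype.card (V → Equiv.Perm (Fin N)) := by
  obtain ⟨rk, hrk⟩ := RD_rk V
  have key := RD_class (R := V) (fun v => v) (fun _ _ h => h) rk hrk
    (fun x => x ∈ S ∧ actv a φ x) (fun x σ => pk M σ φ x = some c) A lam hA0 ?_ ?_ ?_
  · exact le_trans (RD_mono _ _ _ _ _ _ (fun σ _ hσ => ⟨Finset.mem_univ _,
      hσ.le.trans (RD_monoN _ _ _ _ _ _ (fun v hv h => ⟨Finset.mem_univ _, ⟨hv, h.1⟩, h.2⟩))⟩)) key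
  · intro ρ σ σ' hag h
    rw [← RD_congr M φ σ σ' ρ (hag ρ le_rfl)]
    exact h
  · intro ρ hQ σ
    refine RD_pick (avail M φ ρ) A hA0 (hA ρ hQ.1 hQ.2) (some c) _ ?_
    intro s hs'
    rw [← RD_update M φ σ ρ s]
    exact hs'
  · exact le_trans (mul_le_mul_of_nonneg_left (RD_mono _ _ _ _ _ _ (fun v _ h => h))
      (by norm_num)) hs

theorem RD_new {V J : Type} [Fintype J] {N : ℕ} (M : J → V → V)
    (a : V → Prop) (φ : V → Option (Fin N)) (σ : V → Equiv.Perm (Fin N)) (v : V) (c : Fin N)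
    (h : step M a σ φ v = some c) : (actv a φ v ∧ pk M σ φ v = some c) ∨ φ v = some c := by
  unfold step at h
  by_cases h1 : actv a φ v ∧ ¬ clash M a σ φ v
  · rw [if_pos h1] at h
    exact Or.inl ⟨h1.1, h⟩
  · rw [if_neg h1] at h
    exact Or.inr h

theorem round_coin {V J R : Type} [Fintype V] [Fintype J] [Fintype R] {N : ℕ} (M : J → V → V)
    (a : V → Prop) (φ : V → Option (Fin N)) (x y : R → V)
    (hx : Function.Injective x) (hy : Function.Injective y) (hne : ∀ ρ, x ρ ≠ y ρ)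
    (A : ℝ) (lam : ℕ) (hA0 : 0 < A)
    (hAx : ∀ ρ, actv a φ (x ρ) → A ≤ ((avail M φ (x ρ)).card : ℝ))
    (hAy : ∀ ρ, actv a φ (y ρ) → A ≤ ((avail M φ (y ρ)).card : ℝ))
    (hsx : 20 * ((univ.filter (fun ρ => actv a φ (x ρ))).card : ℝ) ≤ A)
    (hsy : 20 * ((univ.filter (fun ρ => actv a φ (y ρ))).card : ℝ) ≤ A) :
    ((univ.filter (fun σ : V → Equiv.Perm (Fin N) => 4 * lam <
      (univ.filter (fun ρ => coin (step M a σ φ) (x ρ) (y ρ) ∧
        ¬ coin φ (x ρ) (y ρ))).card)).card : ℝ) ≤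
      4 * Real.exp (-(2 * lam)) * Fintype.card (V → Equiv.Perm (Fin N)) := by
  obtain ⟨rk, hrk⟩ := RD_rk V
  -- class 1
  have key1 : ∀ (x y : R → V), Function.Injective x → (∀ ρ, x ρ ≠ y ρ) →
      (∀ ρ, actv a φ (x ρ) → A ≤ ((avail M φ (x ρ)).card : ℝ)) →
      (20 * ((univ.filter (fun ρ => actv a φ (x ρ))).card : ℝ) ≤ A) →
      ((univ.filter (fun σ : V → Equiv.Perm (Fin N) => lam ≤
        (univ.filter (fun ρ => actv a φ (x ρ) ∧ pk M σ φ (x ρ) = φ (y ρ))).card)).card : ℝ) ≤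
      Real.exp (-(2 * lam)) * Fintype.card (V → Equiv.Perm (Fin N)) := by
    intro x y hx hne hAx hsx
    have key := RD_class x hx rk hrk (fun ρ => actv a φ (x ρ))
      (fun ρ σ => pk M σ φ (x ρ) = φ (y ρ)) A lam hA0 ?_ ?_ hsx
    · exact le_trans (RD_mono _ _ _ _ _ _ (fun σ _ hσ => ⟨Finset.mem_univ _,
        hσ.trans (RD_monoN _ _ _ _ _ _ (fun ρ hρ h => ⟨hρ, h⟩))⟩)) key
    · intro ρ σ σ' hag h
      rw [← RD_congr M φ σ σ' (x ρ) (hag (x ρ) le_rfl)]
      exact h
    · intro ρ hQ σ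
      refine RD_pick (avail M φ (x ρ)) A hA0 (hAx ρ hQ) (φ (y ρ)) _ ?_
      intro s hs'
      rw [← RD_update M φ σ (x ρ) s]
      exact hs'
  -- class 3
  have key3 : ∀ (x y : R → V), Function.Injective x → (∀ ρ, x ρ ≠ y ρ) →
      (∀ ρ, actv a φ (x ρ) → A ≤ ((avail M φ (x ρ)).card : ℝ)) →
      (20 * ((univ.filter (fun ρ => actv a φ (x ρ))).card : ℝ) ≤ A) →
      ((univ.filter (fun σ : V → Equiv.Perm (Fin N) => lam ≤
        (univ.filter (fun ρ => actv a φ (x ρ) ∧ (rk (y ρ) < rk (x ρ) ∧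
          pk M σ φ (x ρ) = pk M σ φ (y ρ)))).card)).card : ℝ) ≤
      Real.exp (-(2 * lam)) * Fintype.card (V → Equiv.Perm (Fin N)) := by
    intro x y hx hne hAx hsx
    have key := RD_class x hx rk hrk (fun ρ => actv a φ (x ρ))
      (fun ρ σ => rk (y ρ) < rk (x ρ) ∧ pk M σ φ (x ρ) = pk M σ φ (y ρ)) A lam hA0 ?_ ?_ hsx
    · exact le_trans (RD_mono _ _ _ _ _ _ (fun σ _ hσ => ⟨Finset.mem_univ _,
        hσ.trans (RD_monoN _ _ _ _ _ _ (fun ρ hρ h => ⟨hρ, h⟩))⟩)) key
    · intro ρ σ σ' hag h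
      refine ⟨h.1, ?_⟩
      rw [← RD_congr M φ σ σ' (x ρ) (hag (x ρ) le_rfl),
        ← RD_congr M φ σ σ' (y ρ) (hag (y ρ) h.1.le)]
      exact h.2
    · intro ρ hQ σ
      refine RD_pick (avail M φ (x ρ)) A hA0 (hAx ρ hQ) (pk M σ φ (y ρ)) _ ?_
      intro s hs'
      have h2 := hs'.2
      rw [RD_update M φ σ (x ρ) s, RD_update_ne M φ σ (x ρ) (y ρ) s (hne ρ).symm] at h2
      exact h2
  have c1 := key1 x y hx hne hAx hsx
  have c2 := key1 y x hy (fun ρ => (hne ρ).symm) hAy hsy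
  have c3 := key3 x y hx hne hAx hsx
  have c4 := key3 y x hy (fun ρ => (hne ρ).symm) hAy hsy
  set F1 := univ.filter (fun σ : V → Equiv.Perm (Fin N) => lam ≤
        (univ.filter (fun ρ => actv a φ (x ρ) ∧ pk M σ φ (x ρ) = φ (y ρ))).card) with hF1
  set F2 := univ.filter (fun σ : V → Equiv.Perm (Fin N) => lam ≤
        (univ.filter (fun ρ => actv a φ (y ρ) ∧ pk M σ φ (y ρ) = φ (x ρ))).card) with hF2
  set F3 := univ.filter (fun σ : V → Equiv.Perm (Fin N) => lam ≤
        (univ.filter (fun ρ => actv a φ (x ρ) ∧ (rk (y ρ) < rk (x ρ) ∧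
          pk M σ φ (x ρ) = pk M σ φ (y ρ)))).card) with hF3
  set F4 := univ.filter (fun σ : V → Equiv.Perm (Fin N) => lam ≤
        (univ.filter (fun ρ => actv a φ (y ρ) ∧ (rk (x ρ) < rk (y ρ) ∧
          pk M σ φ (y ρ) = pk M σ φ (x ρ)))).card) with hF4
  have hsub : (univ.filter (fun σ : V → Equiv.Perm (Fin N) => 4 * lam <
      (univ.filter (fun ρ => coin (step M a σ φ) (x ρ) (y ρ) ∧
        ¬ coin φ (x ρ) (y ρ))).card)) ⊆ (F1 ∪ F2) ∪ (F3 ∪ F4) := by
    intro σ hσ
    rw [Finset.mem_filter] at hσ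
    have hcov : (univ.filter (fun ρ => coin (step M a σ φ) (x ρ) (y ρ) ∧
        ¬ coin φ (x ρ) (y ρ))) ⊆
        ((univ.filter (fun ρ => actv a φ (x ρ) ∧ pk M σ φ (x ρ) = φ (y ρ))) ∪
        (univ.filter (fun ρ => actv a φ (y ρ) ∧ pk M σ φ (y ρ) = φ (x ρ)))) ∪
        ((univ.filter (fun ρ => actv a φ (x ρ) ∧ (rk (y ρ) < rk (x ρ) ∧
          pk M σ φ (x ρ) = pk M σ φ (y ρ)))) ∪
        (univ.filter (fun ρ => actv a φ (y ρ) ∧ (rk (x ρ) < rk (y ρ) ∧
          pk M σ φ (y ρ) = pk M σ φ (x ρ))))) := by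
      intro ρ hρ
      rw [Finset.mem_filter] at hρ
      obtain ⟨-, ⟨c, hxc, hyc⟩, hnc⟩ := hρ
      simp only [Finset.mem_union, Finset.mem_filter, Finset.mem_univ, true_and]
      rcases RD_new M a φ σ (x ρ) c hxc with h1 | h1
      · rcases RD_new M a φ σ (y ρ) c hyc with h2 | h2
        · right
          have hrkne : rk (x ρ) ≠ rk (y ρ) := fun h => hne ρ (hrk h)
          rcases lt_or_gt_of_ne hrkne with h3 | h3
          · right
            exact ⟨h2.1, h3, h2.2.trans h1.2.symm⟩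
          · left
            exact ⟨h1.1, h3, h1.2.trans h2.2.symm⟩
        · left; left
          exact ⟨h1.1, h1.2.trans h2.symm⟩
      · rcases RD_new M a φ σ (y ρ) c hyc with h2 | h2
        · left; right
          exact ⟨h2.1, h2.2.trans h1.symm⟩
        · exact absurd ⟨c, h1, h2⟩ hnc
    have hcard := Finset.card_le_card hcov
    have u0 := Finset.card_union_le
      ((univ.filter (fun ρ => actv a φ (x ρ) ∧ pk M σ φ (x ρ) = φ (y ρ))) ∪
        (univ.filter (fun ρ => actv a φ (y ρ) ∧ pk M σ φ (y ρ) = φ (x ρ))))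
      ((univ.filter (fun ρ => actv a φ (x ρ) ∧ (rk (y ρ) < rk (x ρ) ∧
          pk M σ φ (x ρ) = pk M σ φ (y ρ)))) ∪
        (univ.filter (fun ρ => actv a φ (y ρ) ∧ (rk (x ρ) < rk (y ρ) ∧
          pk M σ φ (y ρ) = pk M σ φ (x ρ)))))
    have u1 := Finset.card_union_le
      (univ.filter (fun ρ => actv a φ (x ρ) ∧ pk M σ φ (x ρ) = φ (y ρ)))
      (univ.filter (fun ρ => actv a φ (y ρ) ∧ pk M σ φ (y ρ) = φ (x ρ)))
    have u2 := Finset.card_union_le
      (univ.filter (fun ρ => actv a φ (x ρ) ∧ (rk (y ρ) < rk (x ρ) ∧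
          pk M σ φ (x ρ) = pk M σ φ (y ρ))))
      (univ.filter (fun ρ => actv a φ (y ρ) ∧ (rk (x ρ) < rk (y ρ) ∧
          pk M σ φ (y ρ) = pk M σ φ (x ρ))))
    have h4 := hσ.2
    rw [Finset.mem_union, Finset.mem_union, Finset.mem_union, hF1, hF2, hF3, hF4,
      Finset.mem_filter, Finset.mem_filter, Finset.mem_filter, Finset.mem_filter]
    by_contra hcon
    push Not at hcon
    obtain ⟨⟨n1, n2⟩, n3, n4⟩ := hcon
    have n1' := n1 (Finset.mem_univ _)
    have n2' := n2 (Finset.mem_univ _)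
    have n3' := n3 (Finset.mem_univ _)
    have n4' := n4 (Finset.mem_univ _)
    omega
  have hc := Finset.card_le_card hsub
  have w0 := Finset.card_union_le (F1 ∪ F2) (F3 ∪ F4)
  have w1 := Finset.card_union_le F1 F2
  have w2 := Finset.card_union_le F3 F4
  have htot : ((univ.filter (fun σ : V → Equiv.Perm (Fin N) => 4 * lam <
      (univ.filter (fun ρ => coin (step M a σ φ) (x ρ) (y ρ) ∧
        ¬ coin φ (x ρ) (y ρ))).card)).card : ℝ) ≤ F1.card + F2.card + F3.card + F4.card := by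
    have : (univ.filter (fun σ : V → Equiv.Perm (Fin N) => 4 * lam <
      (univ.filter (fun ρ => coin (step M a σ φ) (x ρ) (y ρ) ∧
        ¬ coin φ (x ρ) (y ρ))).card)).card ≤ F1.card + F2.card + F3.card + F4.card := by
      omega
    exact_mod_cast this
  linarith

end Pool.Agent.H67.HY
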