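/-
ROW RF. Failures in one round.
PROOF. `rk : V → ℤ` injective (`Fintype.equivFin`), `S' = S.filter (actv a φ)`. `E1 x σ := ∃ j, actv a φ (M j x) ∧ rk (M j x) < rk x ∧ pk M σ φ (M j x) = pk M σ φ x`, `E2` with `rk x < rk (M j x)`. As `M j x ≠ x`, `clash` implies `E1` or `E2`. If more than
`6 y s + 4 lam` (`y = D/A`) of the `x ∈ S'` clash, then `#{x ∈ S' : E1} ≥ 3 y s + 2 lam` or the same for `E2`. Each by `chernoff_three` (`μ = y * s ≥ ∑_{S'} y`); hypothesis `hB` from `seq_bound` (with `rk` for `E1`, `-rk` for `E2`), for `J ⊆ S'`: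
`hdep`: `E1 v σ` only involves `σ v` and `σ w` with `rk w < rk v`. `hp`: for fixed `σ` and `v`, `pk M (update σ v s) φ (M j v) = pk M σ φ (M j v)` (as `M j v ≠ v`), so `E1 v (update σ v s)` implies `∃ c ∈ B, first s (avail M φ v) = some c` where `B` is the set of the
colours `c` with `pk M σ φ (M j v) = some c` for some `j` with `actv a φ (M j v)`: `B.card ≤ D` (note `avail M φ v ≠ ∅` since `A > 0`, so `first s (avail ..) ≠ none` by `first_none`). `pick_count`: count `* |avail| ≤ (B ∩ avail).card * N! ≤ D * N!`, so count `≤ (D/A) N!`.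
-/
import Pool.Agent.H67.HY.GC
import Pool.Agent.H67.HY.Seq
import Pool.Agent.H67.HY.PK

set_option autoImplicit false

namespace Pool.Agent.H67.HY

open Finset
open Classical

/-- a conflict at `x` with a neighbour of smaller rank -/
def RFE {V J : Type} [Fintype J] {N : ℕ} (M : J → V → V) (a : V → Prop) (φ : V → Option (Fin N))
    (rk : V → ℤ) (x : V) (σ : V → Equiv.Perm (Fin N)) : Prop :=
  ∃ j, actv a φ (M j x) ∧ rk (M j x) < rk x ∧ pk M σ φ (M j x) = pk M σ φ x

theorem RF_one {V J : Type} [Fintype V] [Fintype J] {N : ℕ} (M : J → V → V)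
    (hM : IsFac M) (a : V → Prop) (φ : V → Option (Fin N)) (A D : ℝ)
    (hA0 : 0 < A) (rk : V → ℤ) (v : V) (hA : A ≤ ((avail M φ v).card : ℝ))
    (hD : ((univ.filter (fun j => actv a φ (M j v))).card : ℝ) ≤ D)
    (σ : V → Equiv.Perm (Fin N)) :
    ((univ.filter (fun s => RFE M a φ rk v (Function.update σ v s))).card : ℝ) ≤
      D / A * Fintype.card (Equiv.Perm (Fin N)) := by
  set L := avail M φ v with hL
  set B : Finset (Fin N) := univ.filter (fun c => ∃ j, actv a φ (M j v) ∧ pk M σ φ (M j v) = some c)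
    with hB
  have hLne : L ≠ ∅ := by
    intro h
    rw [h] at hA
    simp only [Finset.card_empty, Nat.cast_zero] at hA
    linarith
  have h1 : (univ.filter (fun s => RFE M a φ rk v (Function.update σ v s))) ⊆
      univ.filter (fun s : Equiv.Perm (Fin N) => ∃ c ∈ B, first s L = some c) := by
    intro s hs
    rw [Finset.mem_filter] at hs ⊢
    refine ⟨Finset.mem_univ _, ?_⟩
    obtain ⟨j, hj, -, hpk⟩ := hs.2
    unfold pk at hpk
    rw [Function.update_of_ne (hM.free j v), Function.update_self, ← hL] at hpk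
    have hne : first s L ≠ none := fun h => hLne ((first_none s L).1 h)
    obtain ⟨c, hc⟩ := Option.ne_none_iff_exists'.1 hne
    refine ⟨c, ?_, hc⟩
    rw [hB, Finset.mem_filter]
    refine ⟨Finset.mem_univ _, j, hj, ?_⟩
    unfold pk
    rw [hpk, hc]
  have h2 := pick_count L B
  have h3 : B.card ≤ (univ.filter (fun j => actv a φ (M j v))).card := by
    have h4 : B.image some ⊆
        (univ.filter (fun j => actv a φ (M j v))).image (fun j => pk M σ φ (M j v)) := by
      intro o ho
      rw [Finset.mem_image] at ho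
      obtain ⟨c, hc, rfl⟩ := ho
      rw [hB, Finset.mem_filter] at hc
      obtain ⟨-, j, hj, hjc⟩ := hc
      rw [Finset.mem_image]
      exact ⟨j, Finset.mem_filter.2 ⟨Finset.mem_univ _, hj⟩, hjc⟩
    have h5 := (Finset.card_le_card h4).trans Finset.card_image_le
    rwa [Finset.card_image_of_injective _ (Option.some_injective _)] at h5
  have h4 : ((B ∩ L).card : ℝ) ≤ D := by
    refine le_trans ?_ hD
    exact_mod_cast (Finset.card_le_card Finset.inter_subset_left).trans h3
  have h5 : ((univ.filter (fun s => RFE M a φ rk v (Function.update σ v s))).card : ℝ) ≤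
      ((univ.filter (fun s : Equiv.Perm (Fin N) => ∃ c ∈ B, first s L = some c)).card : ℝ) := by
    exact_mod_cast Finset.card_le_card h1
  rw [div_mul_eq_mul_div, le_div_iff₀ hA0]
  set F : ℝ := (Fintype.card (Equiv.Perm (Fin N)) : ℝ) with hF
  have hF0 : 0 ≤ F := Nat.cast_nonneg _
  calc ((univ.filter (fun s => RFE M a φ rk v (Function.update σ v s))).card : ℝ) * A
      ≤ ((univ.filter (fun s : Equiv.Perm (Fin N) => ∃ c ∈ B, first s L = some c)).card : ℝ) * L.card :=
        mul_le_mul h5 hA hA0.le (Nat.cast_nonneg _)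
    _ ≤ ((B ∩ L).card : ℝ) * F := h2
    _ ≤ D * F := mul_le_mul_of_nonneg_right h4 hF0

theorem RF_half {V J : Type} [Fintype V] [Fintype J] {N : ℕ} (M : J → V → V)
    (hM : IsFac M) (a : V → Prop) (φ : V → Option (Fin N)) (S : Finset V) (A D s : ℝ) (lam : ℕ)
    (hA0 : 0 < A) (hA : ∀ x ∈ S, actv a φ x → A ≤ ((avail M φ x).card : ℝ)) (hD0 : 0 ≤ D)
    (hD : ∀ x ∈ S, ((univ.filter (fun j => actv a φ (M j x))).card : ℝ) ≤ D)
    (hs : ((S.filter (fun x => actv a φ x)).card : ℝ) ≤ s) (rk : V → ℤ)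
    (hrk : Function.Injective rk) :
    ((univ.filter (fun σ : V → Equiv.Perm (Fin N) => 3 * (D / A * s) + 2 * (lam : ℝ) ≤
      (((S.filter (fun x => actv a φ x)).filter (fun x => RFE M a φ rk x σ)).card : ℝ))).card : ℝ) ≤
      Real.exp (-lam) * Fintype.card (V → Equiv.Perm (Fin N)) := by
  have hy0 : 0 ≤ D / A := div_nonneg hD0 hA0.le
  refine chernoff_three (S.filter (fun x => actv a φ x)) (fun x σ => RFE M a φ rk x σ)
    (fun _ => D / A) (D / A * s) lam (fun _ _ => hy0) ?_ ?_ (Nat.cast_nonneg _)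
  · intro T hT
    have key := seq_bound rk T (fun v _ w _ h => hrk h) (fun v σ => RFE M a φ rk v σ)
      (fun _ => D / A) (fun _ _ => hy0) ?_ ?_
    · convert key using 3
      ext σ
      simp only [Finset.mem_filter, Finset.mem_univ, true_and]
    · intro v _ σ σ' h hE
      obtain ⟨j, hj, hr, hp⟩ := hE
      refine ⟨j, hj, hr, ?_⟩
      unfold pk at hp ⊢
      rw [← h v le_rfl, ← h (M j v) hr.le]
      exact hp
    · intro v hv σ
      have h1 := Finset.mem_filter.1 (hT hv)
      exact RF_one M hM a φ A D hA0 rk v (hA v h1.1 h1.2) (hD v h1.1) σ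
  · rw [Finset.sum_const, nsmul_eq_mul, mul_comm]
    exact mul_le_mul_of_nonneg_left hs hy0

theorem round_fail {V J : Type} [Fintype V] [Fintype J] {N : ℕ} (M : J → V → V)
    (hM : IsFac M) (a : V → Prop) (φ : V → Option (Fin N)) (S : Finset V) (A D s : ℝ) (lam : ℕ)
    (hA0 : 0 < A) (hA : ∀ x ∈ S, actv a φ x → A ≤ ((avail M φ x).card : ℝ)) (hD0 : 0 ≤ D)
    (hD : ∀ x ∈ S, ((univ.filter (fun j => actv a φ (M j x))).card : ℝ) ≤ D)
    (hs : ((S.filter (fun x => actv a φ x)).card : ℝ) ≤ s) :
    ((univ.filter (fun σ : V → Equiv.Perm (Fin N) => 6 * (D / A) * s + 4 * lam <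
      ((S.filter (fun x => actv a φ x ∧ clash M a σ φ x)).card : ℝ))).card : ℝ) ≤
      2 * Real.exp (-lam) * Fintype.card (V → Equiv.Perm (Fin N)) := by
  set rk : V → ℤ := fun v => ((Fintype.equivFin V v : ℕ) : ℤ) with hrk
  have hinj : Function.Injective rk := by
    intro v w h
    have h1 : ((Fintype.equivFin V v : ℕ) : ℤ) = ((Fintype.equivFin V w : ℕ) : ℤ) := h
    exact (Fintype.equivFin V).injective (Fin.ext (Int.ofNat.inj h1))
  have hinj' : Function.Injective (fun v => - rk v) := fun v w h => hinj (neg_injective h)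
  have h1 := RF_half M hM a φ S A D s lam hA0 hA hD0 hD hs rk hinj
  have h2 := RF_half M hM a φ S A D s lam hA0 hA hD0 hD hs (fun v => - rk v) hinj'
  have hsub : (univ.filter (fun σ : V → Equiv.Perm (Fin N) => 6 * (D / A) * s + 4 * lam <
      ((S.filter (fun x => actv a φ x ∧ clash M a σ φ x)).card : ℝ))) ⊆
      (univ.filter (fun σ : V → Equiv.Perm (Fin N) => 3 * (D / A * s) + 2 * (lam : ℝ) ≤
      (((S.filter (fun x => actv a φ x)).filter (fun x => RFE M a φ rk x σ)).card : ℝ))) ∪
      (univ.filter (fun σ : V → Equiv.Perm (Fin N) => 3 * (D / A * s) + 2 * (lam : ℝ) ≤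
      (((S.filter (fun x => actv a φ x)).filter
        (fun x => RFE M a φ (fun v => - rk v) x σ)).card : ℝ))) := by
    intro σ hσ
    rw [Finset.mem_filter] at hσ
    rw [Finset.mem_union, Finset.mem_filter, Finset.mem_filter]
    have hc : (S.filter (fun x => actv a φ x ∧ clash M a σ φ x)) ⊆
        ((S.filter (fun x => actv a φ x)).filter (fun x => RFE M a φ rk x σ)) ∪
        ((S.filter (fun x => actv a φ x)).filter (fun x => RFE M a φ (fun v => - rk v) x σ)) := by
      intro x hx
      rw [Finset.mem_filter] at hx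
      obtain ⟨hxS, hxa, j, hj, hp⟩ := hx
      rw [Finset.mem_union]
      have hxm : x ∈ S.filter (fun x => actv a φ x) := Finset.mem_filter.2 ⟨hxS, hxa⟩
      rcases lt_trichotomy (rk (M j x)) (rk x) with h | h | h
      · exact Or.inl (Finset.mem_filter.2 ⟨hxm, j, hj, h, hp⟩)
      · exact absurd (hinj h) (hM.free j x)
      · exact Or.inr (Finset.mem_filter.2 ⟨hxm, j, hj, neg_lt_neg h, hp⟩)
    have hc2 := (Finset.card_le_card hc).trans (Finset.card_union_le _ _)
    have hc3 : ((S.filter (fun x => actv a φ x ∧ clash M a σ φ x)).card : ℝ) ≤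
        (((S.filter (fun x => actv a φ x)).filter (fun x => RFE M a φ rk x σ)).card : ℝ) +
        (((S.filter (fun x => actv a φ x)).filter
          (fun x => RFE M a φ (fun v => - rk v) x σ)).card : ℝ) := by
      exact_mod_cast hc2
    by_contra hcon
    rw [not_or] at hcon
    have h3 : ¬ (3 * (D / A * s) + 2 * (lam : ℝ) ≤
      (((S.filter (fun x => actv a φ x)).filter (fun x => RFE M a φ rk x σ)).card : ℝ)) :=
      fun h => hcon.1 ⟨Finset.mem_univ _, h⟩
    have h4 : ¬ (3 * (D / A * s) + 2 * (lam : ℝ) ≤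
      (((S.filter (fun x => actv a φ x)).filter
        (fun x => RFE M a φ (fun v => - rk v) x σ)).card : ℝ)) :=
      fun h => hcon.2 ⟨Finset.mem_univ _, h⟩
    have h5 := hσ.2
    push Not at h3 h4
    nlinarith
  have h3 := (Finset.card_le_card hsub).trans (Finset.card_union_le _ _)
  have h4 : ((univ.filter (fun σ : V → Equiv.Perm (Fin N) => 6 * (D / A) * s + 4 * lam <
      ((S.filter (fun x => actv a φ x ∧ clash M a σ φ x)).card : ℝ))).card : ℝ) ≤
      ((univ.filter (fun σ : V → Equiv.Perm (Fin N) => 3 * (D / A * s) + 2 * (lam : ℝ) ≤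
      (((S.filter (fun x => actv a φ x)).filter (fun x => RFE M a φ rk x σ)).card : ℝ))).card : ℝ) +
      ((univ.filter (fun σ : V → Equiv.Perm (Fin N) => 3 * (D / A * s) + 2 * (lam : ℝ) ≤
      (((S.filter (fun x => actv a φ x)).filter
        (fun x => RFE M a φ (fun v => - rk v) x σ)).card : ℝ))).card : ℝ) := by
    exact_mod_cast h3
  linarith

end Pool.Agent.H67.HY
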