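/-
ROW EvA. Probabilities of bad rounds.
PROOF. For all three use `fib ⟨i, hi⟩`. For fixed `ω` let `φ = run M ω i`, `a = act ω i`. `run M (upd i ω σ) i = φ` (`run_upd`), `act (upd i ω σ) j = act ω j` (`act_upd`), `sig (upd i ω σ) i = σ`, `run M (upd i ω σ) (i+1) = step M a σ φ`. So `part` at `upd i ω σ` is `actv a φ`, `fail` is
`actv a φ x ∧ clash M a σ φ x`, `pick` is `pk M σ φ x`, and `cond` does not change (`A1` uses `act` only, `U` uses `part`). If `cond M k0 tst v i ω` fails the fibre is empty. Otherwise let `n = card J`, `A = th^(i+1) n/2`, `S = tst k v ⊆ ball M v 2`: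
`A ≤ #{j : ¬ act ω i (M j x)} ≤ #{j : φ (M j x) = none} ≤ |avail M φ x|` for `x ∈ S` (`A1`, `run_none_of_not_act`, `avail_ge`), `A > 0` (`n > 0` since `4000 lam ≤ th^T |S| ≤ th^T n`, `lam ≥ 1`; `th > 0`).
`evB1`: `D = th^i n/100` by `U M ω (tst k0 x) i` (`tst k0 x = image`, injective `j ↦ M j x`, card `≤ n`), `s = th^i |S|/100`; `6 (D/A) s = 6 * (1/(50 th)) * th^i |S|/100 ≤ th^i |S|/500` (`th ≥ 0.99`; `6/(5000 * th) ≤ 1/500`). `round_fail`.
`evB2`: `20 * #part ≤ 20 * th^i |S|/100 ≤ th^i n/5 ≤ A`; `round_mult` for each `c`, union over `c : Fin N`.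
`evB3`: `#{ρ : actv (x ρ)} ≤ #{z ∈ tst (p1 k) v : part z} ≤ th^i n/100` (`memx`, `injx`), the same for `y`; `round_coin`.
-/
import Pool.Agent.H67.HY.RF
import Pool.Agent.H67.HY.RD
import Pool.Agent.H67.HY.Eqv

set_option autoImplicit false

namespace Pool.Agent.H67.HY

open Finset
open Classical

variable {V J K K2 K3 R : Type} [Fintype V] [Fintype J] [Fintype R] {N T : ℕ}

theorem EvA_act (i : ℕ) (hi : i < T) (ω : V → Coin T N) (σ : V → Equiv.Perm (Fin N)) :
    act (upd ⟨i, hi⟩ ω σ) i = act ω i := by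
  funext x
  exact propext (act_upd ⟨i, hi⟩ ω σ i x)

theorem EvA_run (M : J → V → V) (i : ℕ) (hi : i < T) (ω : V → Coin T N)
    (σ : V → Equiv.Perm (Fin N)) : run M (upd ⟨i, hi⟩ ω σ) i = run M ω i :=
  run_upd M ⟨i, hi⟩ ω σ i le_rfl

theorem EvA_sig (i : ℕ) (hi : i < T) (ω : V → Coin T N) (σ : V → Equiv.Perm (Fin N)) :
    sig (upd ⟨i, hi⟩ ω σ) i = σ := sig_upd ⟨i, hi⟩ ω σ

theorem EvA_run1 (M : J → V → V) (i : ℕ) (hi : i < T) (ω : V → Coin T N)
    (σ : V → Equiv.Perm (Fin N)) :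
    run M (upd ⟨i, hi⟩ ω σ) (i + 1) = step M (act ω i) σ (run M ω i) := by
  show step M (act (upd ⟨i, hi⟩ ω σ) i) (sig (upd ⟨i, hi⟩ ω σ) i)
    (run M (upd ⟨i, hi⟩ ω σ) i) = _
  rw [EvA_act, EvA_sig, EvA_run]

theorem EvA_cond (M : J → V → V) (k0 : K) (tst : K → V → Finset V) (v : V) (i : ℕ)
    (hi : i < T) (ω : V → Coin T N) (σ : V → Equiv.Perm (Fin N)) :
    cond M k0 tst v i (upd ⟨i, hi⟩ ω σ) = cond M k0 tst v i ω := by
  unfold cond A1 U part
  rw [EvA_act, EvA_run]

theorem EvA_fib (i : Fin T) (Q : (V → Coin T N) → Prop) (q : ℝ) (d : DecidablePred Q)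
    (h : ∀ ω, ((univ.filter (fun σ : V → Equiv.Perm (Fin N) => Q (upd i ω σ))).card : ℝ) ≤
      q * Fintype.card (V → Equiv.Perm (Fin N))) :
    (((univ : Finset (V → Coin T N)).filter Q).card : ℝ) ≤
      q * Fintype.card (V → Coin T N) := by
  have hd : d = fun ω => Classical.propDecidable (Q ω) := by
    funext ω
    exact Subsingleton.elim _ _
  subst hd
  exact fib i Q q h

theorem EvA_th : 0 < th ∧ th ≤ 1 ∧ 0.99 ≤ th := by
  unfold th
  refine ⟨?_, ?_, ?_⟩ <;> norm_num

theorem EvA_pos (M : J → V → V) (lam : ℕ) (hlam : 1 ≤ lam) (k0 : K)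
    (tst : K → V → Finset V) (xs ys : K2 → V → R → V) (p1 p2 : K2 → K)
    (ht : IsTests M T lam k0 tst xs ys p1 p2) (v : V) : (0 : ℝ) < Fintype.card J := by
  have h1 := ht.ge k0 v
  have h2 : ((tst k0 v).card : ℝ) ≤ Fintype.card J := by exact_mod_cast ht.le k0 v
  have h3 : (1 : ℝ) ≤ lam := by exact_mod_cast hlam
  obtain ⟨t1, t2, -⟩ := EvA_th
  have h4 : 0 < th ^ T := pow_pos t1 T
  by_contra hneg
  have h5 : ((tst k0 v).card : ℝ) ≤ 0 := by linarith
  have h6 : th ^ T * ((tst k0 v).card : ℝ) ≤ 0 := mul_nonpos_of_nonneg_of_nonpos h4.le h5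
  linarith

theorem EvA_avail (M : J → V → V) (hN : Fintype.card J ≤ N) (i : ℕ) (ω : V → Coin T N) (x : V)
    (h : A1 M ω x i) :
    th ^ (i + 1) * Fintype.card J / 2 ≤ ((avail M (run M ω i) x).card : ℝ) := by
  unfold A1 at h
  refine h.trans ?_
  have h1 := avail_ge M (run M ω i) x hN
  have h2 : (univ.filter (fun j => ¬ act ω i (M j x))).card ≤
      (univ.filter (fun j => run M ω i (M j x) = none)).card := by
    apply Finset.card_le_card
    intro j hj
    rw [Finset.mem_filter] at hj ⊢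
    exact ⟨hj.1, (run_none_of_not_act M ω i (M j x) hj.2).1⟩
  exact_mod_cast h2.trans h1

theorem EvA_nb (M : J → V → V) (hM : IsFac M) (lam : ℕ) (k0 : K)
    (tst : K → V → Finset V) (xs ys : K2 → V → R → V) (p1 p2 : K2 → K)
    (ht : IsTests M T lam k0 tst xs ys p1 p2) (i : ℕ) (ω : V → Coin T N) (x : V)
    (h : U M ω (tst k0 x) i) :
    ((univ.filter (fun j => actv (act ω i) (run M ω i) (M j x))).card : ℝ) ≤
      th ^ i * Fintype.card J / 100 := by
  unfold U at h
  have h2 : ((tst k0 x).card : ℝ) ≤ Fintype.card J := by exact_mod_cast ht.le k0 x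
  obtain ⟨t1, t2, -⟩ := EvA_th
  have h4 : 0 < th ^ i := pow_pos t1 i
  have h5 : th ^ i * ((tst k0 x).card : ℝ) ≤ th ^ i * Fintype.card J :=
    mul_le_mul_of_nonneg_left h2 h4.le
  have hinj : Function.Injective (fun j => M j x) := by
    intro j1 j2 he
    by_contra hne
    exact hM.dis j1 j2 x hne he
  have h3 : (univ.filter (fun j => actv (act ω i) (run M ω i) (M j x))).card ≤
      ((tst k0 x).filter (fun z => part M ω i z)).card := by
    apply Finset.card_le_card_of_injOn (fun j => M j x)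
    · intro j hj
      have hj' := Finset.mem_coe.mp hj
      rw [Finset.mem_filter] at hj'
      apply Finset.mem_coe.mpr
      rw [Finset.mem_filter]
      refine ⟨?_, hj'.2⟩
      rw [ht.hood x]
      exact Finset.mem_image.mpr ⟨j, Finset.mem_univ j, rfl⟩
    · exact hinj.injOn
  have h6 : ((univ.filter (fun j => actv (act ω i) (run M ω i) (M j x))).card : ℝ) ≤
      (((tst k0 x).filter (fun z => part M ω i z)).card : ℝ) := by exact_mod_cast h3
  linarith

theorem EvA_mem (M : J → V → V) (S : Finset V) (n : ℝ) (hn : (S.card : ℝ) ≤ n) (i : ℕ)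
    (ω : V → Coin T N) (h : U M ω S i) (x : R → V) (hx : Function.Injective x)
    (hm : ∀ ρ, x ρ ∈ S) :
    20 * ((univ.filter (fun ρ => actv (act ω i) (run M ω i) (x ρ))).card : ℝ) ≤
      th ^ (i + 1) * n / 2 := by
  unfold U at h
  obtain ⟨t1, t2, t3⟩ := EvA_th
  have h4 : 0 < th ^ i := pow_pos t1 i
  have h0 : (0 : ℝ) ≤ n := le_trans (Nat.cast_nonneg _) hn
  have h5 : th ^ i * (S.card : ℝ) ≤ th ^ i * n := mul_le_mul_of_nonneg_left hn h4.le
  have h3 : (univ.filter (fun ρ => actv (act ω i) (run M ω i) (x ρ))).card ≤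
      (S.filter (fun z => part M ω i z)).card := by
    apply Finset.card_le_card_of_injOn x
    · intro j hj
      have hj' := Finset.mem_coe.mp hj
      rw [Finset.mem_filter] at hj'
      apply Finset.mem_coe.mpr
      rw [Finset.mem_filter]
      exact ⟨hm j, hj'.2⟩
    · exact hx.injOn
  have h6 : ((univ.filter (fun ρ => actv (act ω i) (run M ω i) (x ρ))).card : ℝ) ≤
      ((S.filter (fun z => part M ω i z)).card : ℝ) := by exact_mod_cast h3
  have h7 : 0 ≤ th ^ i * n := mul_nonneg h4.le h0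
  have h8 : th ^ (i + 1) * n / 2 = (th ^ i * n) * th / 2 := by ring
  have h9 : (th ^ i * n) * 0.99 ≤ (th ^ i * n) * th := mul_le_mul_of_nonneg_left t3 h7
  rw [h8]
  linarith

theorem evB1 (M : J → V → V) (hM : IsFac M) (lam : ℕ) (hlam : 1 ≤ lam) (k0 : K)
    (tst : K → V → Finset V) (xs ys : K2 → V → R → V) (p1 p2 : K2 → K)
    (ht : IsTests M T lam k0 tst xs ys p1 p2) (hN : Fintype.card J ≤ N) (v : V) (i : ℕ)
    (hi : i < T) (k : K) :
    ((univ.filter (fun ω : V → Coin T N => cond M k0 tst v i ω ∧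
      ¬ B1 M ω (tst k v) i lam)).card : ℝ) ≤
      2 * Real.exp (-lam) * Fintype.card (V → Coin T N) := by
  have hcardpos := EvA_pos M lam hlam k0 tst xs ys p1 p2 ht v
  obtain ⟨t1, t2, t3⟩ := EvA_th
  have hthi : 0 < th ^ i := pow_pos t1 i
  have hthi1 : 0 < th ^ (i + 1) := pow_pos t1 (i + 1)
  apply EvA_fib ⟨i, hi⟩
  intro ω
  by_cases hc : cond M k0 tst v i ω
  · obtain ⟨c1, c2, c3⟩ := hc
    have key := round_fail M hM (act ω i) (run M ω i) (tst k v)
      (th ^ (i + 1) * Fintype.card J / 2) (th ^ i * Fintype.card J / 100)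
      (th ^ i * (tst k v).card / 100) lam (by positivity)
      (fun x hx _ => EvA_avail M hN i ω x (c1 x (ht.sub k v hx))) (by positivity)
      (fun x hx => EvA_nb M hM lam k0 tst xs ys p1 p2 ht i ω x (c2 x (ht.sub k v hx)))
      (c3 k)
    refine le_trans ?_ key
    apply Nat.cast_le.mpr
    apply Finset.card_le_card
    · skip
      intro σ hσ
      rw [Finset.mem_filter] at hσ ⊢
      refine ⟨hσ.1, ?_⟩
      have h1 := hσ.2.2
      unfold B1 fail part at h1
      rw [EvA_act, EvA_run, EvA_sig, not_le] at h1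
      refine lt_of_le_of_lt ?_ (lt_of_lt_of_le h1 (Nat.cast_le.mpr (Finset.card_le_card ?_)))
      swap
      · intro x hx
        simp only [Finset.mem_filter] at hx ⊢
        exact hx
      have h2 : 6 * (th ^ i * Fintype.card J / 100 / (th ^ (i + 1) * Fintype.card J / 2)) *
            (th ^ i * (tst k v).card / 100) = (th ^ i * (tst k v).card) * (3 / (2500 * th)) := by
        rw [pow_succ]
        field_simp
        ring
      have h3 : 3 / (2500 * th) ≤ 1 / 500 := by
        rw [div_le_div_iff₀ (by positivity) (by norm_num)]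
        linarith
      have h4 : 0 ≤ th ^ i * ((tst k v).card : ℝ) := by positivity
      have h5 := mul_le_mul_of_nonneg_left h3 h4
      rw [h2]
      linarith
  · refine le_trans (le_of_eq (?_ : _ = (0 : ℝ))) (by positivity)
    rw [Nat.cast_eq_zero, Finset.card_eq_zero, Finset.filter_eq_empty_iff]
    intro σ _ hσ
    have hσ1 := hσ.1
    rw [EvA_cond] at hσ1
    exact hc hσ1

theorem evB2 (M : J → V → V) (hM : IsFac M) (lam : ℕ) (hlam : 1 ≤ lam) (k0 : K)
    (tst : K → V → Finset V) (xs ys : K2 → V → R → V) (p1 p2 : K2 → K)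
    (ht : IsTests M T lam k0 tst xs ys p1 p2) (hN : Fintype.card J ≤ N) (v : V) (i : ℕ)
    (hi : i < T) (k : K) :
    ((univ.filter (fun ω : V → Coin T N => cond M k0 tst v i ω ∧
      ¬ B2 M ω (tst k v) i lam)).card : ℝ) ≤
      N * Real.exp (-(2 * lam)) * Fintype.card (V → Coin T N) := by
  have hcardpos := EvA_pos M lam hlam k0 tst xs ys p1 p2 ht v
  obtain ⟨t1, t2, t3⟩ := EvA_th
  have hthi : 0 < th ^ i := pow_pos t1 i
  have hthi1 : 0 < th ^ (i + 1) := pow_pos t1 (i + 1)
  apply EvA_fib ⟨i, hi⟩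
  intro ω
  by_cases hc : cond M k0 tst v i ω
  · obtain ⟨c1, c2, c3⟩ := hc
    have hs : 20 * (((tst k v).filter (fun x => actv (act ω i) (run M ω i) x)).card : ℝ) ≤
        th ^ (i + 1) * Fintype.card J / 2 := by
      have h1 := c3 k
      unfold U part at h1
      have h2 : ((tst k v).card : ℝ) ≤ Fintype.card J := by exact_mod_cast ht.le k v
      have h5 : th ^ i * ((tst k v).card : ℝ) ≤ th ^ i * Fintype.card J :=
        mul_le_mul_of_nonneg_left h2 hthi.le
      have h7 : 0 ≤ th ^ i * (Fintype.card J : ℝ) := by positivity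
      have h8 : th ^ (i + 1) * (Fintype.card J : ℝ) / 2 = (th ^ i * Fintype.card J) * th / 2 := by
        ring
      have h9 : (th ^ i * (Fintype.card J : ℝ)) * 0.99 ≤ (th ^ i * Fintype.card J) * th :=
        mul_le_mul_of_nonneg_left t3 h7
      rw [h8]
      linarith
    have key : ∀ c : Fin N, _ := fun c => round_mult M (act ω i) (run M ω i) (tst k v)
      (th ^ (i + 1) * Fintype.card J / 2) lam (by positivity)
      (fun x hx _ => EvA_avail M hN i ω x (c1 x (ht.sub k v hx))) hs c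
    refine le_trans (Nat.cast_le.mpr ((Finset.card_le_card (t :=
        (univ : Finset (Fin N)).biUnion (fun c => univ.filter (fun σ : V → Equiv.Perm (Fin N) =>
          lam < ((tst k v).filter (fun x => actv (act ω i) (run M ω i) x ∧
            pk M σ (run M ω i) x = some c)).card))) ?_).trans Finset.card_biUnion_le)) ?_
    · intro σ hσ
      rw [Finset.mem_filter] at hσ
      rw [Finset.mem_biUnion]
      have h1 := hσ.2.2
      unfold B2 pick part at h1
      rw [EvA_act, EvA_run, EvA_sig] at h1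
      push Not at h1
      obtain ⟨c, hc⟩ := h1
      exact ⟨c, Finset.mem_univ c, Finset.mem_filter.mpr ⟨hσ.1, hc⟩⟩
    rw [Nat.cast_sum]
    refine (Finset.sum_le_sum (fun c _ => key c)).trans ?_
    rw [Finset.sum_const, Finset.card_univ, Fintype.card_fin, nsmul_eq_mul]
    linarith
  · refine le_trans (le_of_eq (?_ : _ = (0 : ℝ))) (by positivity)
    rw [Nat.cast_eq_zero, Finset.card_eq_zero, Finset.filter_eq_empty_iff]
    intro σ _ hσ
    have hσ1 := hσ.1
    rw [EvA_cond] at hσ1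
    exact hc hσ1

theorem evB3 (M : J → V → V) (hM : IsFac M) (lam : ℕ) (hlam : 1 ≤ lam) (k0 : K)
    (tst : K → V → Finset V) (xs ys : K2 → V → R → V) (p1 p2 : K2 → K)
    (ht : IsTests M T lam k0 tst xs ys p1 p2) (hN : Fintype.card J ≤ N) (v : V) (i : ℕ)
    (hi : i < T) (k : K2) :
    ((univ.filter (fun ω : V → Coin T N => cond M k0 tst v i ω ∧
      ¬ B3 M ω (xs k v) (ys k v) i lam)).card : ℝ) ≤
      4 * Real.exp (-(2 * lam)) * Fintype.card (V → Coin T N) := by
  have hcardpos := EvA_pos M lam hlam k0 tst xs ys p1 p2 ht v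
  obtain ⟨t1, t2, t3⟩ := EvA_th
  have hthi : 0 < th ^ i := pow_pos t1 i
  have hthi1 : 0 < th ^ (i + 1) := pow_pos t1 (i + 1)
  apply EvA_fib ⟨i, hi⟩
  intro ω
  by_cases hc : cond M k0 tst v i ω
  · obtain ⟨c1, c2, c3⟩ := hc
    have key := round_coin M (act ω i) (run M ω i) (xs k v) (ys k v) (ht.injx k v)
      (ht.injy k v) (ht.ne k v) (th ^ (i + 1) * Fintype.card J / 2) lam (by positivity)
      (fun ρ _ => EvA_avail M hN i ω _ (c1 _ (ht.sub _ v (ht.memx k v ρ))))
      (fun ρ _ => EvA_avail M hN i ω _ (c1 _ (ht.sub _ v (ht.memy k v ρ))))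
      (EvA_mem M (tst (p1 k) v) _ (by exact_mod_cast ht.le (p1 k) v) i ω (c3 (p1 k)) (xs k v)
        (ht.injx k v) (ht.memx k v))
      (EvA_mem M (tst (p2 k) v) _ (by exact_mod_cast ht.le (p2 k) v) i ω (c3 (p2 k)) (ys k v)
        (ht.injy k v) (ht.memy k v))
    refine le_trans ?_ key
    apply Nat.cast_le.mpr
    apply Finset.card_le_card
    · skip
      intro σ hσ
      rw [Finset.mem_filter] at hσ ⊢
      refine ⟨hσ.1, ?_⟩
      have h1 := hσ.2.2
      unfold B3 at h1
      rw [EvA_run1, EvA_run, not_le] at h1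
      exact h1
  · refine le_trans (le_of_eq (?_ : _ = (0 : ℝ))) (by positivity)
    rw [Nat.cast_eq_zero, Finset.card_eq_zero, Finset.filter_eq_empty_iff]
    intro σ _ hσ
    have hσ1 := hσ.1
    rw [EvA_cond] at hσ1
    exact hc hσ1

end Pool.Agent.H67.HY
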