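/-
ROW EvP. Probability of a failing final property (symmetrisation).
PROOF. Let `Ω = V → Coin T N`, `Q ω := finOK T lam tst xs ys v (run M ω T) ∧ PropCol M (run M ω T)`. For every `g : Perm (Fin N)`, `gact g` is a bijection of `Ω` (inverse `gact g⁻¹`), `run M (gact g ω) T = app g (run M ω T)` (`run_gact`), and `Q (gact g ω) ↔ Q ω`: for `finOK`: `(app g φ) x = none ↔ φ x = none`,
`(app g φ) x = some c ↔ φ x = some (g⁻¹ c)`, `coin (app g φ) x y ↔ coin φ x y` (`Option.map` injective); `PropCol M (app g φ) ↔ PropCol M φ`. Hence for every `g`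
 `#{ω : Q ω ∧ ¬ P k v (run M ω T)} = #{ω : Q ω ∧ ¬ P k v (app g (run M ω T))}`. Sum over the `N!` permutations `g` and exchange: `N! * # = ∑_{ω : Q ω} #{g : ¬ P k v (app g (run M ω T))} ≤ |Ω| * exp(-lam) * N!` by `hP`. Divide by `N! = card (Perm (Fin N)) > 0`.
-/
import Pool.Agent.H67.HY.Eqv

set_option autoImplicit false

namespace Pool.Agent.H67.HY

open Finset
open Classical

variable {V J K K2 K3 R : Type} [Fintype V] [Fintype J] [Fintype R] {N T : ℕ}

omit [Fintype V] [Fintype J] [Fintype R] in
theorem EvP_none (g : Equiv.Perm (Fin N)) (φ : V → Option (Fin N)) (x : V) :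
    app g φ x = none ↔ φ x = none := by
  unfold app
  exact Option.map_eq_none_iff

omit [Fintype V] [Fintype J] [Fintype R] in
theorem EvP_some (g : Equiv.Perm (Fin N)) (φ : V → Option (Fin N)) (x : V) (c : Fin N) :
    app g φ x = some (g c) ↔ φ x = some c := by
  unfold app
  rw [← Option.map_some (f := g)]
  exact (Option.map_injective g.injective).eq_iff

omit [Fintype V] [Fintype J] [Fintype R] in
theorem EvP_coin (g : Equiv.Perm (Fin N)) (φ : V → Option (Fin N)) (x y : V) :
    coin (app g φ) x y ↔ coin φ x y := by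
  constructor
  · rintro ⟨c, h1, h2⟩
    refine ⟨g.symm c, ?_, ?_⟩
    · rw [← EvP_some g φ x, Equiv.apply_symm_apply]
      exact h1
    · rw [← EvP_some g φ y, Equiv.apply_symm_apply]
      exact h2
  · rintro ⟨c, h1, h2⟩
    exact ⟨g c, (EvP_some g φ x c).2 h1, (EvP_some g φ y c).2 h2⟩

omit [Fintype V] [Fintype J] in
theorem EvP_fin (g : Equiv.Perm (Fin N)) (φ : V → Option (Fin N)) (lam : ℕ)
    (tst : K → V → Finset V) (xs ys : K2 → V → R → V) (v : V) :
    finOK T lam tst xs ys v (app g φ) ↔ finOK T lam tst xs ys v φ := by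
  unfold finOK
  simp only [EvP_none, EvP_coin]
  have h : (∀ k c, ((tst k v).filter (fun x => app g φ x = some c)).card ≤ T * lam) ↔
      (∀ k c, ((tst k v).filter (fun x => φ x = some c)).card ≤ T * lam) := by
    constructor
    · intro h k c
      have := h k (g c)
      simpa only [EvP_some] using this
    · intro h k c
      have := h k (g.symm c)
      rw [← g.apply_symm_apply c]
      simpa only [EvP_some] using this
  rw [h]

omit [Fintype V] [Fintype J] [Fintype R] in
theorem EvP_prop (M : J → V → V) (g : Equiv.Perm (Fin N)) (φ : V → Option (Fin N)) :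
    PropCol M (app g φ) ↔ PropCol M φ := by
  unfold PropCol
  have h1 : ∀ v, app g φ v ≠ none ↔ φ v ≠ none := fun v => not_congr (EvP_none g φ v)
  have h2 : ∀ v w, app g φ v ≠ app g φ w ↔ φ v ≠ φ w := fun v w =>
    not_congr (Option.map_injective g.injective).eq_iff
  simp only [h1, h2]

omit [Fintype V] [Fintype J] [Fintype R] in
theorem EvP_gact (g : Equiv.Perm (Fin N)) (ω : V → Coin T N) : gact g (gact g⁻¹ ω) = ω := by
  funext v j
  unfold gact
  simp only [mul_inv_cancel_left]

theorem evP (M : J → V → V) (lam : ℕ)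
    (tst : K → V → Finset V) (xs ys : K2 → V → R → V)
    (P : K3 → V → (V → Option (Fin N)) → Prop)
    (hP : ∀ k v φ, PropCol M φ → finOK T lam tst xs ys v φ →
      ((univ.filter (fun g : Equiv.Perm (Fin N) => ¬ P k v (app g φ))).card : ℝ) ≤
        Real.exp (-lam) * Fintype.card (Equiv.Perm (Fin N))) (k : K3) (v : V) :
    ((univ.filter (fun ω : V → Coin T N => finOK T lam tst xs ys v (run M ω T) ∧
      PropCol M (run M ω T) ∧ ¬ P k v (run M ω T))).card : ℝ) ≤
      Real.exp (-lam) * Fintype.card (V → Coin T N) := by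
  have key : ∀ g : Equiv.Perm (Fin N),
      (univ.filter (fun ω : V → Coin T N => finOK T lam tst xs ys v (run M ω T) ∧
        PropCol M (run M ω T) ∧ ¬ P k v (run M ω T))).card =
      (univ.filter (fun ω : V → Coin T N => (finOK T lam tst xs ys v (run M ω T) ∧
        PropCol M (run M ω T)) ∧ ¬ P k v (app g (run M ω T)))).card := by
    intro g
    symm
    refine Finset.card_nbij' (gact g) (gact g⁻¹) ?_ ?_ ?_ ?_
    · intro ω hω
      simp only [coe_filter, mem_univ, true_and, Set.mem_ofPred_eq] at hω ⊢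
      rw [run_gact M g ω T le_rfl, EvP_fin, EvP_prop]
      exact ⟨hω.1.1, hω.1.2, hω.2⟩
    · intro ω hω
      simp only [coe_filter, mem_univ, true_and, Set.mem_ofPred_eq] at hω ⊢
      have h1 : run M ω T = app g (run M (gact g⁻¹ ω) T) := by
        rw [← run_gact M g _ T le_rfl, EvP_gact]
      rw [h1, EvP_fin, EvP_prop] at hω
      exact ⟨⟨hω.1, hω.2.1⟩, hω.2.2⟩
    · intro ω _
      have := EvP_gact g⁻¹ ω
      rwa [inv_inv] at this
    · intro ω _
      exact EvP_gact g ω
  set S := univ.filter (fun ω : V → Coin T N => finOK T lam tst xs ys v (run M ω T) ∧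
      PropCol M (run M ω T) ∧ ¬ P k v (run M ω T)) with hS
  set n : ℝ := ((Fintype.card (Equiv.Perm (Fin N)) : ℕ) : ℝ) with hn
  have hn0 : 0 < n := by
    rw [hn]
    exact_mod_cast Fintype.card_pos
  have h1 : n * (S.card : ℝ) = ∑ ω : V → Coin T N, ∑ g : Equiv.Perm (Fin N),
      if (finOK T lam tst xs ys v (run M ω T) ∧ PropCol M (run M ω T)) ∧
        ¬ P k v (app g (run M ω T)) then (1 : ℝ) else 0 := by
    rw [Finset.sum_comm]
    have h2 : ∀ g : Equiv.Perm (Fin N), (∑ ω : V → Coin T N,
        if (finOK T lam tst xs ys v (run M ω T) ∧ PropCol M (run M ω T)) ∧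
          ¬ P k v (app g (run M ω T)) then (1 : ℝ) else 0) = S.card := by
      intro g
      rw [key g, Finset.sum_boole]
    rw [Finset.sum_congr rfl fun g _ => h2 g, Finset.sum_const, Finset.card_univ, nsmul_eq_mul]
  have h3 : n * (S.card : ℝ) ≤ ∑ _ω : V → Coin T N, Real.exp (-lam) * n := by
    rw [h1]
    refine Finset.sum_le_sum fun ω _ => ?_
    by_cases hq : finOK T lam tst xs ys v (run M ω T) ∧ PropCol M (run M ω T)
    · simp only [hq, true_and, and_self]
      rw [Finset.sum_boole]
      exact hP k v _ hq.2 hq.1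
    · simp only [hq, false_and, if_false, Finset.sum_const_zero]
      positivity
  rw [Finset.sum_const, Finset.card_univ, nsmul_eq_mul] at h3
  have h4 : n * (S.card : ℝ) ≤ n * (Real.exp (-lam) * Fintype.card (V → Coin T N)) := by
    refine h3.trans (le_of_eq ?_)
    ring
  exact le_of_mul_le_mul_left h4 hn0

end Pool.Agent.H67.HY
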