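/-
ROW Ext. Greedy extension of a proper partial colouring.
PROOF. Induction on `#{v : φ v = none}`. If it is 0, take `c v` the value. Otherwise pick `v` with `φ v = none`; there is `x : Fin N` with `φ (M j v) ≠ some x` for all `j` (at most `card J < N` colours are used); `φ' = Function.update φ v (some x)` is proper (`hM.free`, and for `w = M j v`: `φ w ≠ some x`; `hM.inv`), has one
uncoloured vertex less and extends `φ`.
-/
import Pool.Agent.H67.HY.Defs

set_option autoImplicit false

namespace Pool.Agent.H67.HY

open Finset
open Classical

theorem Ext_colour {V J : Type} [Fintype J] {N : ℕ} (M : J → V → V)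
    (hN : Fintype.card J < N) (φ : V → Option (Fin N)) (v : V) :
    ∃ x : Fin N, ∀ j, φ (M j v) ≠ some x := by
  by_contra hc
  push Not at hc
  choose f hf using hc
  have hinj : Function.Injective f := by
    intro x y hxy
    have h1 := hf x
    have h2 := hf y
    rw [hxy, h2] at h1
    exact (Option.some.inj h1).symm
  have := Fintype.card_le_of_injective f hinj
  rw [Fintype.card_fin] at this
  omega

theorem extend {V J : Type} [Fintype V] [Fintype J] {N : ℕ} (M : J → V → V) (hM : IsFac M)
    (hN : Fintype.card J < N) (φ : V → Option (Fin N)) (hφ : PropCol M φ) :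
    ∃ c : V → Fin N, (∀ v j, c v ≠ c (M j v)) ∧ ∀ v x, φ v = some x → c v = x := by
  obtain ⟨n, hn⟩ : ∃ n, (univ.filter (fun v => φ v = none)).card = n := ⟨_, rfl⟩
  induction n generalizing φ with
  | zero =>
    rw [Finset.card_eq_zero, Finset.filter_eq_empty_iff] at hn
    have h1 : ∀ v, ∃ x, φ v = some x := fun v => Option.ne_none_iff_exists'.1 (hn (mem_univ v))
    choose c hc using h1
    refine ⟨c, fun v j h => ?_, fun v x h => ?_⟩
    · refine hφ v j (hn (mem_univ v)) ?_
      rw [hc v, hc (M j v), h]
    · rw [hc v] at h
      exact Option.some.inj h
  | succ n ih =>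
    have hne : (univ.filter (fun v => φ v = none)).Nonempty := by
      rw [← Finset.card_pos]
      omega
    obtain ⟨v, hv⟩ := hne
    have hv' : φ v = none := (Finset.mem_filter.1 hv).2
    obtain ⟨x, hx⟩ := Ext_colour M hN φ v
    have hprop : PropCol M (Function.update φ v (some x)) := by
      intro w j hw
      by_cases hwv : w = v
      · subst hwv
        rw [Function.update_self, Function.update_of_ne (hM.free j w)]
        exact (hx j).symm
      · rw [Function.update_of_ne hwv] at hw ⊢
        by_cases hwj : M j w = v
        · rw [hwj, Function.update_self]
          have h2 := hx j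
          rw [← hwj, hM.inv] at h2
          exact h2
        · rw [Function.update_of_ne hwj]
          exact hφ w j hw
    have hcard : (univ.filter (fun w => Function.update φ v (some x) w = none)).card = n := by
      have h3 : univ.filter (fun w => Function.update φ v (some x) w = none) =
          (univ.filter (fun w => φ w = none)).erase v := by
        ext w
        simp only [Finset.mem_filter, Finset.mem_univ, true_and, Finset.mem_erase]
        by_cases hwv : w = v
        · subst hwv
          simp
        · rw [Function.update_of_ne hwv]
          simp [hwv]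
      rw [h3, Finset.card_erase_of_mem hv, hn]
      rfl
    obtain ⟨c, hc1, hc2⟩ := ih _ hprop hcard
    refine ⟨c, hc1, fun w y hw => ?_⟩
    refine hc2 w y ?_
    rw [Function.update_of_ne ?_]
    · exact hw
    · rintro rfl
      rw [hv'] at hw
      exact Option.some_ne_none _ hw.symm

end Pool.Agent.H67.HY
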