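/-
ROW FiA. Final numerics.
PROOF. `finA`: let `X` be the largest natural number with `X^76 ≤ p'` and `X^400 ≤ D` (`Nat.findGreatest` with bound `D`, or well-founded max; `L` itself satisfies both, since `L^76 ≤ p'`). So `L ≤ X`, and `p' < (X+1)^76` or `D < (X+1)^400`. In the second case `p'^4 ≤ D^3 < (X+1)^1200`, so `p' < (X+1)^300`; in the first
`p' < (X+1)^76 ≤ (X+1)^300`. So in both cases `p' < (X+1)^300 ≤ (2X)^300`, `p'^(1/300) ≤ 2X`, and `38 p'/X ≤ 76 p'/p'^(1/300) = 76 p'^(299/300)` (`p' > 0`; `Real.rpow_sub`/`rpow_add`). `p' ≤ p + L^76`, and `(a+b)^s ≤ a^s + b^s` for `0 ≤ s ≤ 1` (`Real.rpow_add_le_add_rpow`/`NNReal.rpow_add_le_add_rpow`; or treat the two cases of the `max` directly: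
`p' = p` or `p' = L^76`), `(L^76)^(299/300) ≤ L^76` (`Real.rpow_le_self_of..`: base `≥ 1`, exponent `≤ 1`). So `2p' + 38 p'/X ≤ 2 p + 2 L^76 + 76 p^(299/300) + 76 L^76`.
`finL`: `log (4 (D+1)) ≤ log 4 + log (D+2) ≤ 3 log (D+2)` (`log 4 = 2 log 2 ≤ 2 log (D+2)`), `⌈x⌉₊ ≤ x + 1` (`Nat.ceil_lt_add_one`), `log (D+2) ≥ log 2 ≥ 0.69`: `1 + 10^7 ≤ 1.5*10^7 log (D+2)`.
`finB`: `M = max p (L^76)`. If `M = p` (`L^76 ≤ p`): `D < p^(4/3)`: `D^(2/3) ≤ p^(8/9)`; `log (D+1) ≤ L ≤ p^(1/76)`, so `log(D+1)^(1/3) ≤ p^(1/228)`; product `≤ p^(8/9 + 1/228) ≤ p^(299/300)` (`p ≥ 1`). If `M = L^76`: `D^3 < L^304`, `D^(2/3) ≤ L^(608/9) ≤ L^68`, `log(D+1)^(1/3) ≤ L^(1/3) ≤ L`, product `≤ L^69 ≤ L^76`.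
`finC`: the condition fails for all large `D` (`isLittleO` of powers of `log`: `(log(4(D+1)) + 1 + 10^7)^400 = o(D)`; e.g. with `Real.isLittleO_log_id_atTop`, `isLittleO_pow_log_id_atTop`, or elementary: `log y ≤ 800 y^(1/800)` (`Real.log_le_rpow_div`/`Real.add_one_le_exp`), so the condition gives `D ≤ (c D^(1/800))^400 = c^400 D^(1/2)`), so `D ≤ D1` for a constant, and
`8 (D^(2/3) log(D+1)^(1/3)) ≤ 8 (D1^(2/3) log(D1+1)^(1/3)) + 1 =: C2` by monotonicity.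
-/
import Mathlib

set_option autoImplicit false

namespace Pool.Agent.H67.HY

theorem FiA_X (D L p' : ℕ) (hL : 10 ^ 7 ≤ L) (hLp : L ^ 76 ≤ p') (hDL : L ^ 400 ≤ D)
    (h4 : p' ^ 4 ≤ D ^ 3) :
    ∃ X : ℕ, L ≤ X ∧ X ^ 76 ≤ p' ∧ X ^ 400 ≤ D ∧ p' < (2 * X) ^ 300 := by
  classical
  have hL1 : 1 ≤ L := le_trans (by norm_num) hL
  have hLD : L ≤ D := (Nat.le_self_pow (by norm_num) L).trans hDL
  obtain ⟨X, hX⟩ : ∃ X, X = Nat.findGreatest (fun n => n ^ 76 ≤ p' ∧ n ^ 400 ≤ D) D := ⟨_, rfl⟩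
  have h1 : X ^ 76 ≤ p' ∧ X ^ 400 ≤ D := by
    rw [hX]
    exact Nat.findGreatest_spec (P := fun n => n ^ 76 ≤ p' ∧ n ^ 400 ≤ D) hLD ⟨hLp, hDL⟩
  have h2 : L ≤ X := by
    rw [hX]
    exact Nat.le_findGreatest hLD ⟨hLp, hDL⟩
  refine ⟨X, h2, h1.1, h1.2, ?_⟩
  have h3 : p' < (X + 1) ^ 76 ∨ D < (X + 1) ^ 400 := by
    rcases le_or_gt (X + 1) D with h | h
    · have h5 := Nat.findGreatest_is_greatest (P := fun n => n ^ 76 ≤ p' ∧ n ^ 400 ≤ D) (n := D) (k := X + 1)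
        (by rw [← hX]; exact Nat.lt_succ_self X) h
      by_contra h6
      rw [not_or, not_lt, not_lt] at h6
      exact h5 h6
    · exact Or.inr (h.trans_le (Nat.le_self_pow (by norm_num) (X + 1)))
  have h6 : p' < (X + 1) ^ 300 := by
    rcases h3 with h | h
    · exact h.trans_le (Nat.pow_le_pow_right (Nat.succ_pos X) (by norm_num))
    · have h7 : p' ^ 4 < ((X + 1) ^ 300) ^ 4 := by
        refine h4.trans_lt ?_
        rw [← pow_mul]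
        have h8 : D ^ 3 < ((X + 1) ^ 400) ^ 3 := Nat.pow_lt_pow_left h (by norm_num)
        rw [← pow_mul] at h8
        exact h8
      exact lt_of_pow_lt_pow_left₀ 4 (Nat.zero_le _) h7
  exact h6.trans_le (Nat.pow_le_pow_left (by omega) 300)

theorem finA (D p L p' : ℕ) (hL : 10 ^ 7 ≤ L) (hp' : p' = max p (L ^ 76)) (hDL : L ^ 400 ≤ D)
    (h4 : p' ^ 4 ≤ D ^ 3) :
    ∃ X : ℕ, L ≤ X ∧ X ^ 76 ≤ p' ∧ X ^ 400 ≤ D ∧
      2 * (p' : ℝ) + 38 * p' / X ≤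
        2 * p + 78 * ((p : ℝ) ^ ((299 : ℝ) / 300) + (L : ℝ) ^ 76) := by
  have hL1 : 1 ≤ L := le_trans (by norm_num) hL
  have hLp : L ^ 76 ≤ p' := by rw [hp']; exact le_max_right _ _
  obtain ⟨X, h1, h2, h3, h5⟩ := FiA_X D L p' hL hLp hDL h4
  refine ⟨X, h1, h2, h3, ?_⟩
  have hX1 : 1 ≤ X := hL1.trans h1
  have hX0 : (0 : ℝ) < X := by exact_mod_cast hX1
  have hp1 : 1 ≤ p' := (Nat.one_le_pow _ _ hL1).trans hLp
  obtain ⟨P, hP⟩ : ∃ P : ℝ, P = (p' : ℝ) := ⟨_, rfl⟩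
  have hP1 : 1 ≤ P := by rw [hP]; exact_mod_cast hp1
  have hP0 : 0 < P := by linarith
  have h6 : P ≤ (2 * (X : ℝ)) ^ 300 := by
    rw [hP]
    have h7 : (p' : ℝ) < ((2 * X : ℕ) : ℝ) ^ 300 := by
      rw [← Nat.cast_pow]
      exact Nat.cast_lt.2 h5
    rw [Nat.cast_mul, Nat.cast_ofNat] at h7
    exact h7.le
  have h7 : P ^ ((1 : ℝ) / 300) ≤ 2 * X := by
    have h8 := Real.rpow_le_rpow hP0.le h6 (by norm_num : (0 : ℝ) ≤ (1 : ℝ) / 300)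
    have h9 : ((2 * (X : ℝ)) ^ 300) ^ ((1 : ℝ) / 300) = 2 * X := by
      rw [← Real.rpow_natCast, ← Real.rpow_mul (by positivity)]
      norm_num
    rwa [h9] at h8
  have h8 : P = P ^ ((1 : ℝ) / 300) * P ^ ((299 : ℝ) / 300) := by
    rw [← Real.rpow_add hP0]
    norm_num
  have h9 : 38 * P / X ≤ 76 * P ^ ((299 : ℝ) / 300) := by
    rw [div_le_iff₀ hX0]
    have h10 := mul_le_mul_of_nonneg_right h7 (by positivity : 0 ≤ P ^ ((299 : ℝ) / 300))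
    rw [← h8] at h10
    linarith
  rw [← hP]
  have hLr : (0 : ℝ) ≤ (L : ℝ) ^ 76 := by positivity
  have hpr : (0 : ℝ) ≤ (p : ℝ) ^ ((299 : ℝ) / 300) := by positivity
  rcases le_total p (L ^ 76) with h | h
  · have h10 : P = (L : ℝ) ^ 76 := by
      rw [hP, hp', max_eq_right h, Nat.cast_pow]
    have h11 : P ^ ((299 : ℝ) / 300) ≤ P := by
      have := Real.rpow_le_rpow_of_exponent_le hP1 (by norm_num : (299 : ℝ) / 300 ≤ 1)
      rwa [Real.rpow_one] at this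
    have hp0 : (0 : ℝ) ≤ p := Nat.cast_nonneg p
    rw [← h10]
    linarith
  · have h10 : P = p := by
      rw [hP, hp', max_eq_left h]
    rw [h10] at h9 ⊢
    linarith

theorem finL (D : ℕ) : ((⌈Real.log (4 * (D + 1))⌉₊ + 10 ^ 7 : ℕ) : ℝ) ≤
    2 * 10 ^ 7 * Real.log (D + 2) := by
  have hD : (0 : ℝ) ≤ D := Nat.cast_nonneg D
  have h2 : Real.log 2 ≤ Real.log ((D : ℝ) + 2) := Real.log_le_log (by norm_num) (by linarith)
  have h1 : Real.log ((D : ℝ) + 1) ≤ Real.log ((D : ℝ) + 2) := Real.log_le_log (by positivity) (by linarith)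
  have h3 : Real.log (4 * ((D : ℝ) + 1)) ≤ 3 * Real.log ((D : ℝ) + 2) := by
    rw [Real.log_mul (by norm_num) (by positivity), show (4 : ℝ) = 2 ^ 2 by norm_num, Real.log_pow]
    push_cast
    linarith
  have h4 : 0 ≤ Real.log (4 * ((D : ℝ) + 1)) := Real.log_nonneg (by linarith)
  have h5 := (Nat.ceil_lt_add_one h4).le
  have h6 := Real.log_two_gt_d9
  push_cast
  linarith

theorem finB (D p L : ℕ) (hL1 : 10 ^ 7 ≤ L) (hL : Real.log (D + 1) ≤ L)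
    (h : D ^ 3 < (max p (L ^ 76)) ^ 4) :
    8 * ((D : ℝ) ^ ((2 : ℝ) / 3) * Real.log (D + 1) ^ ((1 : ℝ) / 3)) ≤
      8 * ((p : ℝ) ^ ((299 : ℝ) / 300) + (L : ℝ) ^ 76) := by
  have hL0 : 1 ≤ L := le_trans (by norm_num) hL1
  obtain ⟨m, hm⟩ : ∃ m, m = max p (L ^ 76) := ⟨_, rfl⟩
  rw [← hm] at h
  have hmL : L ^ 76 ≤ m := by rw [hm]; exact le_max_right _ _
  have hm1 : 1 ≤ m := (Nat.one_le_pow _ _ hL0).trans hmL
  obtain ⟨M, hM⟩ : ∃ M : ℝ, M = (m : ℝ) := ⟨_, rfl⟩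
  have hM1 : 1 ≤ M := by rw [hM]; exact_mod_cast hm1
  have hM0 : 0 < M := by linarith
  have hD0 : (0 : ℝ) ≤ D := Nat.cast_nonneg D
  have hLR : (0 : ℝ) ≤ L := Nat.cast_nonneg L
  have h1 : (D : ℝ) ^ 3 ≤ M ^ 4 := by
    rw [hM, ← Nat.cast_pow, ← Nat.cast_pow]
    exact Nat.cast_le.2 h.le
  have h2 : (D : ℝ) ^ ((2 : ℝ) / 3) ≤ M ^ ((8 : ℝ) / 9) := by
    have h3 := Real.rpow_le_rpow (by positivity) h1 (by norm_num : (0 : ℝ) ≤ (2 : ℝ) / 9)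
    rw [← Real.rpow_natCast, ← Real.rpow_natCast, ← Real.rpow_mul hD0, ← Real.rpow_mul hM0.le] at h3
    norm_num at h3 ⊢
    exact h3
  have h4 : (L : ℝ) ^ 76 ≤ M := by
    rw [hM, ← Nat.cast_pow]
    exact Nat.cast_le.2 hmL
  have h5 : (L : ℝ) ^ ((1 : ℝ) / 3) ≤ M ^ ((1 : ℝ) / 228) := by
    have h6 := Real.rpow_le_rpow (by positivity) h4 (by norm_num : (0 : ℝ) ≤ (1 : ℝ) / 228)
    rw [← Real.rpow_natCast, ← Real.rpow_mul hLR] at h6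
    norm_num at h6 ⊢
    exact h6
  have h7 : 0 ≤ Real.log ((D : ℝ) + 1) := Real.log_nonneg (by linarith)
  have h8 : Real.log ((D : ℝ) + 1) ^ ((1 : ℝ) / 3) ≤ M ^ ((1 : ℝ) / 228) :=
    (Real.rpow_le_rpow h7 hL (by norm_num)).trans h5
  have h9 : (D : ℝ) ^ ((2 : ℝ) / 3) * Real.log (D + 1) ^ ((1 : ℝ) / 3) ≤ M ^ ((299 : ℝ) / 300) := by
    calc (D : ℝ) ^ ((2 : ℝ) / 3) * Real.log (D + 1) ^ ((1 : ℝ) / 3) ≤ M ^ ((8 : ℝ) / 9) * M ^ ((1 : ℝ) / 228) :=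
          mul_le_mul h2 h8 (by positivity) (by positivity)
      _ = M ^ ((8 : ℝ) / 9 + (1 : ℝ) / 228) := by rw [← Real.rpow_add hM0]
      _ ≤ M ^ ((299 : ℝ) / 300) := Real.rpow_le_rpow_of_exponent_le hM1 (by norm_num)
  have hpr : (0 : ℝ) ≤ (p : ℝ) ^ ((299 : ℝ) / 300) := by positivity
  have hLr : (0 : ℝ) ≤ (L : ℝ) ^ 76 := by positivity
  rcases le_total p (L ^ 76) with h10 | h10
  · have h11 : M = (L : ℝ) ^ 76 := by
      rw [hM, hm, max_eq_right h10, Nat.cast_pow]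
    have h12 : M ^ ((299 : ℝ) / 300) ≤ M := by
      have := Real.rpow_le_rpow_of_exponent_le hM1 (by norm_num : (299 : ℝ) / 300 ≤ 1)
      rwa [Real.rpow_one] at this
    rw [← h11]
    linarith
  · have h11 : M = p := by
      rw [hM, hm, max_eq_left h10]
    rw [h11] at h9
    linarith

theorem FiA_bd (D k c : ℝ) (n : ℕ) (hn : 1 ≤ n) (hD0 : 0 ≤ D) (hk0 : 0 < k) (hc0 : 0 < c)
    (hc : c = (k * (2 * n)) ^ n) (h3 : D < (k * Real.log (D + 2)) ^ n) : D ≤ 2 + 2 * c ^ 2 := by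
  have hn0 : (0 : ℝ) < n := by exact_mod_cast hn
  have h4 : Real.log (D + 2) ≤ 2 * n * (D + 2) ^ (1 / (2 * n : ℝ)) := by
    have := Real.log_le_rpow_div (x := D + 2) (by positivity) (by positivity : (0 : ℝ) < 1 / (2 * n : ℝ))
    refine this.trans (le_of_eq ?_)
    field_simp
  have hl0 : 0 ≤ Real.log (D + 2) := Real.log_nonneg (by linarith)
  obtain ⟨q, hq⟩ : ∃ q, q = (D + 2) ^ (1 / (2 * n : ℝ)) := ⟨_, rfl⟩
  have hq0 : 0 < q := by rw [hq]; positivity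
  rw [← hq] at h4
  have h5 : (k * Real.log (D + 2)) ^ n ≤ (k * (2 * n) * q) ^ n := by
    refine pow_le_pow_left₀ (by positivity) ?_ n
    have := mul_le_mul_of_nonneg_left h4 hk0.le
    linarith
  rw [mul_pow (k * (2 * n)) q, ← hc] at h5
  have h6 : D < c * q ^ n := h3.trans_le h5
  obtain ⟨u, hu⟩ : ∃ u, u = q ^ n := ⟨_, rfl⟩
  have hu0 : 0 < u := by rw [hu]; positivity
  have hu2 : u ^ 2 = D + 2 := by
    rw [hu, ← pow_mul, hq, ← Real.rpow_natCast, ← Real.rpow_mul (by positivity)]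
    have : 1 / (2 * n : ℝ) * ((n * 2 : ℕ) : ℝ) = 1 := by
      push_cast
      field_simp
    rw [this, Real.rpow_one]
  rw [← hu] at h6
  by_contra h7
  have h8 : 2 + 2 * c ^ 2 < D := not_le.1 h7
  have h9 : D * D < (c * u) * (c * u) := by
    have hD1 : 0 < D := by nlinarith [sq_nonneg c]
    exact mul_lt_mul'' h6 h6 hD1.le hD1.le
  have h10 : (c * u) * (c * u) = c ^ 2 * (D + 2) := by rw [← hu2]; ring
  rw [h10] at h9
  have h11 : 0 < c ^ 2 := by positivity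
  nlinarith

theorem FiA_nat (x : ℝ) (D A n : ℕ) (hD : D < A ^ n) (h : (A : ℝ) ≤ x) : (D : ℝ) < x ^ n := by
  have h2 : (D : ℝ) < (A : ℝ) ^ n := by
    rw [← Nat.cast_pow]
    exact Nat.cast_lt.2 hD
  exact h2.trans_le (pow_le_pow_left₀ (Nat.cast_nonneg _) h n)

theorem FiA_fin (D E : ℝ) (hD0 : 0 ≤ D) (hDE : D ≤ E) :
    8 * (D ^ ((2 : ℝ) / 3) * Real.log (D + 1) ^ ((1 : ℝ) / 3)) ≤
      8 * (E ^ ((2 : ℝ) / 3) * Real.log (E + 1) ^ ((1 : ℝ) / 3)) + 1 := by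
  have h7 : D ^ ((2 : ℝ) / 3) ≤ E ^ ((2 : ℝ) / 3) := Real.rpow_le_rpow hD0 hDE (by norm_num)
  have h8 : Real.log (D + 1) ≤ Real.log (E + 1) := Real.log_le_log (by positivity) (by linarith)
  have h9 : 0 ≤ Real.log (D + 1) := Real.log_nonneg (by linarith)
  have h10 : Real.log (D + 1) ^ ((1 : ℝ) / 3) ≤ Real.log (E + 1) ^ ((1 : ℝ) / 3) :=
    Real.rpow_le_rpow h9 h8 (by norm_num)
  have h11 := mul_le_mul h7 h10 (by positivity) (by have := hD0.trans hDE; positivity)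
  linarith

theorem finC : ∃ C2 : ℝ, 0 < C2 ∧ ∀ D : ℕ,
    D < (⌈Real.log (4 * (D + 1))⌉₊ + 10 ^ 7) ^ 400 →
    8 * ((D : ℝ) ^ ((2 : ℝ) / 3) * Real.log (D + 1) ^ ((1 : ℝ) / 3)) ≤ C2 := by
  obtain ⟨k, hk⟩ : ∃ k : ℝ, k = 2 * 10 ^ 7 := ⟨_, rfl⟩
  have hk0 : 0 < k := by rw [hk]; norm_num
  obtain ⟨n, hn⟩ : ∃ n : ℕ, n = 400 := ⟨_, rfl⟩
  have hn1 : 1 ≤ n := by omega
  have hn0 : (0 : ℝ) < n := by exact_mod_cast hn1
  obtain ⟨c, hc⟩ : ∃ c : ℝ, c = (k * (2 * n)) ^ n := ⟨_, rfl⟩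
  have hc0 : 0 < c := by rw [hc]; positivity
  obtain ⟨E, hE⟩ : ∃ E : ℝ, E = 2 + 2 * c ^ 2 := ⟨_, rfl⟩
  have hE0 : 2 ≤ E := by rw [hE]; nlinarith [sq_nonneg c]
  have hE1 : 0 ≤ Real.log (E + 1) := Real.log_nonneg (by linarith)
  refine ⟨8 * (E ^ ((2 : ℝ) / 3) * Real.log (E + 1) ^ ((1 : ℝ) / 3)) + 1, by positivity, ?_⟩
  intro D hD
  rw [← hn] at hD
  have h1 := finL D
  rw [← hk] at h1
  have h3 := FiA_nat _ D _ n hD h1
  have h4 := FiA_bd D k c n hn1 (Nat.cast_nonneg D) hk0 hc0 hc h3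
  rw [← hE] at h4
  exact FiA_fin D E (Nat.cast_nonneg D) h4

end Pool.Agent.H67.HY
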