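import Mathlib
import Pool.Agent.H28.Asym

/-!
An asymptotic form of the Havet-Yu conjecture, uniform in `p`: for every finite simple graph `G`
of maximum degree `Δ` and every `p ≥ 1`, the `(p,1)`-total labeling number is at most
`Δ + 2p + 8 Δ^(2/3) (log (Δ+1))^(1/3)`.
-/

set_option autoImplicit false

namespace Pool.Agent.H67.HY

open Pool.Agent.H28

/-- For every finite simple graph `G` with maximum degree `Δ` and every `p ≥ 1` there is a
`(p,1)`-total labeling all of whose labels are at most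
`Δ + 2p + 8 Δ^(2/3) (log (Δ+1))^(1/3)`. -/
theorem uniform (V : Type) [Fintype V] (G : SimpleGraph V) [DecidableRel G.Adj] (p : ℕ)
    (hp : 1 ≤ p) :
    ∃ (fV : V → ℕ) (fE : Sym2 V → ℕ),
      (∀ v : V, (fV v : ℝ) ≤ G.maxDegree + 2 * p +
        8 * ((G.maxDegree : ℝ) ^ ((2 : ℝ) / 3) * Real.log (G.maxDegree + 1) ^ ((1 : ℝ) / 3))) ∧
      (∀ e ∈ G.edgeSet, (fE e : ℝ) ≤ G.maxDegree + 2 * p +
        8 * ((G.maxDegree : ℝ) ^ ((2 : ℝ) / 3) * Real.log (G.maxDegree + 1) ^ ((1 : ℝ) / 3))) ∧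
      (∀ u v : V, G.Adj u v → fV u ≠ fV v) ∧
      (∀ u v : V, G.Adj u v → (p : ℤ) ≤ |(fV u : ℤ) - (fE s(u, v) : ℤ)|) ∧
      (∀ u v w : V, G.Adj u v → G.Adj u w → v ≠ w → fE s(u, v) ≠ fE s(u, w)) := by
  classical
  obtain ⟨n, hn⟩ : ∃ n, n = G.maxDegree := ⟨_, rfl⟩
  have hdeg : ∀ v, G.degree v ≤ n := fun v => by rw [hn]; exact G.degree_le_maxDegree v
  rw [← hn]
  -- it suffices to find a partition
  have red : ∀ (K D : ℕ) (f : V → ℕ), (∀ v, f v < K) →
      (∀ v g, {u | G.Adj v u ∧ f u = g}.ncard < D) → 1 ≤ D →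
      (((K : ℝ) + 2) * D - 3 ≤ n +
        8 * ((n : ℝ) ^ ((2 : ℝ) / 3) * Real.log (n + 1) ^ ((1 : ℝ) / 3))) →
      ∃ (fV : V → ℕ) (fE : Sym2 V → ℕ),
      (∀ v : V, (fV v : ℝ) ≤ n + 2 * p +
        8 * ((n : ℝ) ^ ((2 : ℝ) / 3) * Real.log (n + 1) ^ ((1 : ℝ) / 3))) ∧
      (∀ e ∈ G.edgeSet, (fE e : ℝ) ≤ n + 2 * p +
        8 * ((n : ℝ) ^ ((2 : ℝ) / 3) * Real.log (n + 1) ^ ((1 : ℝ) / 3))) ∧
      (∀ u v : V, G.Adj u v → fV u ≠ fV v) ∧
      (∀ u v : V, G.Adj u v → (p : ℤ) ≤ |(fV u : ℤ) - (fE s(u, v) : ℤ)|) ∧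
      (∀ u v w : V, G.Adj u v → G.Adj u w → v ≠ w → fE s(u, v) ≠ fE s(u, w)) := by
    intro K D f hfK hf hD hbound
    obtain ⟨fV, fE, h1, h2, h3, h4, h5⟩ := scheme G p K D hp f hfK hf
    have key : ∀ x : ℕ, x < (K + 2) * D + 2 * p - 2 → (x : ℝ) ≤ n + 2 * p +
        8 * ((n : ℝ) ^ ((2 : ℝ) / 3) * Real.log (n + 1) ^ ((1 : ℝ) / 3)) := by
      intro x hx
      have hx' : x + 3 ≤ (K + 2) * D + 2 * p := by omega
      have hx'' : (x : ℝ) + 3 ≤ ((K : ℝ) + 2) * D + 2 * p := by exact_mod_cast hx'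
      linarith
    exact ⟨fV, fE, fun v => key _ (h1 v), fun e _ => key _ (h2 e), h3, h4, h5⟩
  rcases Nat.eq_zero_or_pos n with hn0 | hnpos
  · -- no edges
    refine red 1 1 (fun _ => 0) (fun _ => Nat.one_pos) ?_ le_rfl ?_
    · intro v g
      have : {u | G.Adj v u ∧ 0 = g} = ∅ := by
        rw [Set.eq_empty_iff_forall_notMem]
        rintro u ⟨hu, _⟩
        have h1 := hdeg v
        have h2 : 0 < G.degree v := (G.degree_pos_iff_exists_adj v).2 ⟨u, hu⟩
        omega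
      rw [this]
      simp
    · rw [hn0]
      norm_num
  · obtain ⟨L, hL⟩ : ∃ L, L = Real.log ((n : ℝ) + 1) := ⟨_, rfl⟩
    have hn1 : (1 : ℝ) ≤ n := by exact_mod_cast hnpos
    have hL0 : 0 < L := by rw [hL]; exact Real.log_pos (by linarith)
    obtain ⟨y, hy⟩ : ∃ y : ℝ, y = ((n : ℝ) / L) ^ ((1 : ℝ) / 3) := ⟨_, rfl⟩
    have hquot : 0 < (n : ℝ) / L := by positivity
    have hy0 : 0 < y := by rw [hy]; exact Real.rpow_pos_of_pos hquot _
    have hy3 : y ^ 3 * L = n := by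
      have : y ^ 3 = (n : ℝ) / L := by
        rw [hy, ← Real.rpow_natCast, ← Real.rpow_mul hquot.le]
        norm_num
      rw [this]
      field_simp
    have hE : (n : ℝ) ^ ((2 : ℝ) / 3) * L ^ ((1 : ℝ) / 3) = y ^ 2 * L := by
      have h1 : (n : ℝ) = y ^ 3 * L := hy3.symm
      have h2 : ((y ^ 3 * L : ℝ)) ^ ((2 : ℝ) / 3) = y ^ 2 * L ^ ((2 : ℝ) / 3) := by
        rw [Real.mul_rpow (by positivity) hL0.le, ← Real.rpow_natCast, ← Real.rpow_mul hy0.le]
        congr 1
        rw [← Real.rpow_natCast]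
        norm_num
      rw [h1, h2, mul_assoc, ← Real.rpow_add hL0]
      norm_num
    rw [← hL, hE] at red ⊢
    rcases le_or_gt y 4 with hy4 | hy4
    · -- one class
      refine red 1 (n + 1) (fun _ => 0) (fun _ => Nat.one_pos) ?_ (by omega) ?_
      · intro v g
        have h1 : {u | G.Adj v u ∧ 0 = g} ⊆ (G.neighborFinset v : Set V) := by
          rintro u ⟨hu, _⟩
          simpa using hu
        have h2 := Set.ncard_le_ncard h1 (Set.toFinite _)
        rw [Set.ncard_coe_finset, SimpleGraph.card_neighborFinset_eq_degree] at h2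
        have := hdeg v
        omega
      · push_cast
        have h1 : (n : ℝ) ≤ 4 * (y ^ 2 * L) := by
          have : (n : ℝ) = y * (y ^ 2 * L) := by rw [← hy3]; ring
          rw [this]
          exact mul_le_mul_of_nonneg_right hy4 (by positivity)
        linarith
    · obtain ⟨K, m, s, hK, hs0, hs1, hm, hm0, h1, h2, h3⟩ := params n hnpos y hy4 (by rw [← hL]; exact hy3)
      rw [← hL] at h3
      obtain ⟨f, hf⟩ := exists_partition G K hK m s hs0 hs1 (by rw [← hn]; exact hm)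
        (by rw [← hn]; exact h1) h2
      have hT : 0 ≤ (1 + 2 * s) * m := by positivity
      refine red K (⌈(1 + 2 * s) * m⌉₊ + 1 - 1 + (if ⌈(1 + 2 * s) * m⌉₊ = 0 then 1 else 0)) (fun v => (f v : ℕ)) (fun v => (f v).2) ?_ ?_ ?_
      · intro v g
        have hceil := Nat.le_ceil ((1 + 2 * s) * m)
        by_cases hg : g < K
        · have h4 := hf v ⟨g, hg⟩
          have h5 : {u | G.Adj v u ∧ ((f u : ℕ)) = g} =
              (((G.neighborFinset v).filter (fun u => f u = ⟨g, hg⟩) : Finset V) : Set V) := by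
            ext u
            simp [Fin.ext_iff]
          rw [h5, Set.ncard_coe_finset]
          have h6 : (((G.neighborFinset v).filter (fun u => f u = ⟨g, hg⟩)).card : ℝ) <
              (⌈(1 + 2 * s) * m⌉₊ : ℝ) := lt_of_lt_of_le h4 hceil
          have h7 : ((G.neighborFinset v).filter (fun u => f u = ⟨g, hg⟩)).card <
              ⌈(1 + 2 * s) * m⌉₊ := by exact_mod_cast h6
          omega
        · have h5 : {u | G.Adj v u ∧ ((f u : ℕ)) = g} = ∅ := by
            rw [Set.eq_empty_iff_forall_notMem]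
            rintro u ⟨_, hu⟩
            exact hg (hu ▸ (f u).2)
          rw [h5, Set.ncard_empty]
          split_ifs <;> omega
      · split_ifs <;> omega
      · have hpos : 0 < (1 + 2 * s) * m := by
          rcases hm0.lt_or_eq with hlt | heq
          · positivity
          · exfalso
            rw [← heq] at hm
            linarith
        have hne : ⌈(1 + 2 * s) * m⌉₊ ≠ 0 := by
          have := Nat.ceil_pos.2 hpos
          omega
        rw [if_neg hne]
        have hlt := Nat.ceil_lt_add_one hT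
        have h8 : ((⌈(1 + 2 * s) * m⌉₊ + 1 - 1 + 0 : ℕ) : ℝ) ≤ (1 + 2 * s) * m + 1 := by
          have : ⌈(1 + 2 * s) * m⌉₊ + 1 - 1 + 0 = ⌈(1 + 2 * s) * m⌉₊ := by omega
          rw [this]
          exact hlt.le
        have h9 := mul_le_mul_of_nonneg_left h8 (by positivity : (0:ℝ) ≤ (K : ℝ) + 2)
        linarith

end Pool.Agent.H67.HY
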