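import Pool.Agent.H67.HY.Num
import Pool.Agent.H67.HY.FiA
import Pool.Agent.H67.HY.Uni

/-! The final case analysis. -/

set_option autoImplicit false

namespace Pool.Agent.H67.HY

/-- a `(p,1)`-total labeling with labels at most `B` -/
def Lab (V : Type) (G : SimpleGraph V) (p : ℕ) (B : ℝ) : Prop :=
  ∃ (fV : V → ℕ) (fE : Sym2 V → ℕ),
      (∀ v : V, (fV v : ℝ) ≤ B) ∧ (∀ e ∈ G.edgeSet, (fE e : ℝ) ≤ B) ∧
      (∀ u v : V, G.Adj u v → fV u ≠ fV v) ∧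
      (∀ u v : V, G.Adj u v → (p : ℤ) ≤ |(fV u : ℤ) - (fE s(u, v) : ℤ)|) ∧
      (∀ u v w : V, G.Adj u v → G.Adj u w → v ≠ w → fE s(u, v) ≠ fE s(u, w))

theorem Lab.mono {V : Type} {G : SimpleGraph V} {p p' : ℕ} {B B' : ℝ} (h : Lab V G p' B')
    (hp : p ≤ p') (hB : B' ≤ B) : Lab V G p B := by
  obtain ⟨fV, fE, h1, h2, h3, h4, h5⟩ := h
  refine ⟨fV, fE, fun v => (h1 v).trans hB, fun e he => (h2 e he).trans hB, h3, ?_, h5⟩
  intro u v huv
  have h := h4 u v huv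
  have hp' : (p : ℤ) ≤ p' := by exact_mod_cast hp
  exact hp'.trans h

theorem final : ∃ C : ℝ, 0 < C ∧ ∀ (V : Type) [Fintype V] (G : SimpleGraph V)
    [DecidableRel G.Adj] (p : ℕ), 1 ≤ p →
    Lab V G p (G.maxDegree + 2 * p +
      C * ((p : ℝ) ^ ((299 : ℝ) / 300) + Real.log (G.maxDegree + 2) ^ 76)) := by
  obtain ⟨C2, hC2, hfinC⟩ := finC
  obtain ⟨K, hK⟩ : ∃ K : ℝ, K = (2 * 10 ^ 7) ^ 76 := ⟨_, rfl⟩
  have hK0 : 1 ≤ K := by rw [hK]; exact one_le_pow₀ (by norm_num)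
  refine ⟨78 * K + C2, by linarith, ?_⟩
  intro V _ G _ p hp
  obtain ⟨D, hD⟩ : ∃ D, D = G.maxDegree := ⟨_, rfl⟩
  rw [← hD]
  obtain ⟨L, hL⟩ : ∃ L, L = ⌈Real.log (4 * (D + 1))⌉₊ + 10 ^ 7 := ⟨_, rfl⟩
  have hp1 : (1 : ℝ) ≤ p := by exact_mod_cast hp
  have hps : (1 : ℝ) ≤ (p : ℝ) ^ ((299 : ℝ) / 300) := Real.one_le_rpow hp1 (by norm_num)
  have hL7 : 10 ^ 7 ≤ L := by omega
  have hLlog : (L : ℝ) ≤ 2 * 10 ^ 7 * Real.log (D + 2) := by rw [hL]; exact finL D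
  have hD0 : (0 : ℝ) ≤ D := Nat.cast_nonneg _
  have hlog0 : 0 < Real.log (D + 2) := Real.log_pos (by linarith)
  have hL76 : (L : ℝ) ^ 76 ≤ K * Real.log (D + 2) ^ 76 := by
    rw [hK, ← mul_pow]
    exact pow_le_pow_left₀ (Nat.cast_nonneg _) hLlog _
  have hle : Real.log (4 * (D + 1)) ≤ L := by
    rw [hL]
    push_cast
    have := Nat.le_ceil (Real.log (4 * ((D : ℝ) + 1)))
    have h7 : (0 : ℝ) ≤ 10 ^ 7 := by norm_num
    linarith
  have hlog76 : 0 ≤ Real.log (D + 2) ^ 76 := by positivity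
  -- the uniform bound
  have huni : Lab V G p (D + 2 * p +
      8 * ((D : ℝ) ^ ((2 : ℝ) / 3) * Real.log (D + 1) ^ ((1 : ℝ) / 3))) := by
    have h := uniform V G p hp
    rw [← hD] at h
    exact h
  by_cases hC : D < L ^ 400
  · -- bounded degree
    have h1 := hfinC D (by rw [← hL]; exact hC)
    refine huni.mono le_rfl ?_
    have h2 : C2 ≤ C2 * (p : ℝ) ^ ((299 : ℝ) / 300) := by nlinarith
    nlinarith [mul_nonneg (by linarith : (0 : ℝ) ≤ 78 * K)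
      (by positivity : (0 : ℝ) ≤ (p : ℝ) ^ ((299 : ℝ) / 300) + Real.log (D + 2) ^ 76),
      mul_nonneg hC2.le hlog76]
  · have hDL : L ^ 400 ≤ D := not_lt.1 hC
    have hcomb : 78 * ((p : ℝ) ^ ((299 : ℝ) / 300) + (L : ℝ) ^ 76) ≤
        (78 * K + C2) * ((p : ℝ) ^ ((299 : ℝ) / 300) + Real.log (D + 2) ^ 76) := by
      have e1 : (p : ℝ) ^ ((299 : ℝ) / 300) ≤ K * (p : ℝ) ^ ((299 : ℝ) / 300) := by nlinarith
      have e2 : 0 ≤ C2 * ((p : ℝ) ^ ((299 : ℝ) / 300) + Real.log (D + 2) ^ 76) := by positivity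
      nlinarith
    by_cases h4 : (max p (L ^ 76)) ^ 4 ≤ D ^ 3
    · obtain ⟨X, hLX, hX1, hX2, hX3⟩ := finA D p L _ hL7 rfl hDL h4
      have hreg : Lab V G (max p (L ^ 76)) (D + 2 * (max p (L ^ 76) : ℕ) +
          38 * (max p (L ^ 76) : ℕ) / X) := by
        refine main_regime G D (max p (L ^ 76)) X L ?_ (by omega) hLX (hL7.trans hLX) hX1 hX2 h4 ?_
        · intro v
          rw [hD]
          have h1 : (G.neighborSet v).ncard = G.degree v := by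
            rw [Set.ncard_eq_toFinset_card', Set.toFinset_card,
              SimpleGraph.card_neighborSet_eq_degree]
          rw [h1]
          exact G.degree_le_maxDegree v
        · have h5 : (0 : ℝ) < 4 * (D + 1) := by linarith
          calc (4 * (D + 1) : ℝ) = Real.exp (Real.log (4 * (D + 1))) := (Real.exp_log h5).symm
            _ ≤ Real.exp L := Real.exp_le_exp.2 hle
      refine hreg.mono (le_max_left _ _) ?_
      linarith
    · refine huni.mono le_rfl ?_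
      have h5 : Real.log (D + 1) ≤ L := by
        refine le_trans (Real.log_le_log (by linarith) ?_) hle
        linarith
      have h6 := finB D p L hL7 h5 (not_le.1 h4)
      have h7 : 0 ≤ (p : ℝ) ^ ((299 : ℝ) / 300) + (L : ℝ) ^ 76 := by positivity
      linarith

theorem final_min : ∃ C : ℝ, 0 < C ∧ ∀ (V : Type) [Fintype V] (G : SimpleGraph V)
    [DecidableRel G.Adj] (p : ℕ), 1 ≤ p →
    Lab V G p (G.maxDegree + 2 * p +
      C * min ((p : ℝ) ^ ((299 : ℝ) / 300) + Real.log (G.maxDegree + 2) ^ 76)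
        ((G.maxDegree : ℝ) ^ ((2 : ℝ) / 3) * Real.log (G.maxDegree + 1) ^ ((1 : ℝ) / 3))) := by
  obtain ⟨C, hC, h⟩ := final
  refine ⟨C + 8, by linarith, ?_⟩
  intro V _ G _ p hp
  have hD0 : (0 : ℝ) ≤ G.maxDegree := Nat.cast_nonneg _
  have e0 : 0 ≤ Real.log (G.maxDegree + 1) := Real.log_nonneg (by linarith)
  have e0' : 0 ≤ Real.log (G.maxDegree + 2) := Real.log_nonneg (by linarith)
  have e1 : 0 ≤ (G.maxDegree : ℝ) ^ ((2 : ℝ) / 3) *
      Real.log (G.maxDegree + 1) ^ ((1 : ℝ) / 3) := by positivity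
  have e2 : 0 ≤ (p : ℝ) ^ ((299 : ℝ) / 300) + Real.log (G.maxDegree + 2) ^ 76 := by positivity
  rcases min_choice ((p : ℝ) ^ ((299 : ℝ) / 300) + Real.log (G.maxDegree + 2) ^ 76)
    ((G.maxDegree : ℝ) ^ ((2 : ℝ) / 3) * Real.log (G.maxDegree + 1) ^ ((1 : ℝ) / 3)) with hm | hm
  · rw [hm]
    refine (h V G p hp).mono le_rfl ?_
    nlinarith
  · rw [hm]
    refine Lab.mono (uniform V G p hp) le_rfl ?_
    nlinarith

end Pool.Agent.H67.HY
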