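/-
ROW Ind. Deterministic induction: if no bad event happens then everything is fine at the end.
PROOF. Write `S = tst k v`. From `h` (no `bad` at any `v`): `A1 M ω v i`, `A2 ω S i` for `i < T`, `A3 ω S`, and `cond v i ω → roundOK v i ω` for `i < T`.
Claim: for `i < T`, for all `v k`: `U M ω (tst k v) i`. `i = 0`: `part M ω 0 x` implies `act ω 0 x`, so `newly ω 0 x` (no `j < 0`), and `A2` with `1/256 ≤ 1/100`. Step `i → i+1 < T`: `cond v i ω` holds for all `v` by the claim for `i`, so `roundOK v i ω`. Let `x ∈ S`, `part M ω (i+1) x`, i.e. `run M ω (i+1) x = none`, `act ω (i+1) x`.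
Either `act ω i x`: then `fail M ω i x` by `run_succ_none` (`avail ≠ ∅`: `A1 M ω x i` and `avail_ge`, `run_none_of_not_act`: `|avail| ≥ th^(i+1) n/2 > 0`, where `n > 0` because `4000 lam ≤ th^T n`, `lam ≥ 1`); or not, then `newly ω (i+1) x`. So
`#part(i+1) ≤ th^i |S|/500 + 4 lam + th^(i+1) |S|/256 ≤ th^(i+1) |S| (0.00201 + 0.001 + 0.00391) ≤ th^(i+1) |S|/100`, using `4 lam ≤ th^T |S|/1000 ≤ th^(i+1) |S|/1000` and `th^i = th^(i+1)/th ≤ 1.001 th^(i+1)`.
So `roundOK v i ω` for all `i < T`, `v`. End: (uncoloured) `x ∈ S`, `run M ω T x = none`: `¬ act ω (T-1) x` (`A3`) or `fail M ω (T-1) x` (`run_succ_none`, `T = (T-1)+1`): `≤ 2 th^T |S| + th^(T-1) |S|/500 + 4 lam ≤ 3 th^T |S|`. (multiplicities) `run M ω T x = some c`: let `i` be the first with `run M ω (i+1) x = some c`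
(`run M ω 0 x = none`), so `part` and `pick = some c` in round `i` (`run_new`): `S.filter (run T = some c) ⊆ biUnion over i < T`, `card ≤ T * lam` (`B2`). (coincidences) the same: `coin (run M ω 0) = False`, so some `i < T` has `coin (run (i+1))`, not `coin (run i)`: `≤ T * (4 lam)` (`B3`).
The last claim `P`: from `h`, `finOK` and `run_prop`.
-/
import Pool.Agent.H67.HY.Eqv

set_option autoImplicit false

namespace Pool.Agent.H67.HY

open Finset
open Classical

variable {V J K K2 K3 R : Type} [Fintype V] [Fintype J] [Fintype R] {N T : ℕ}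

theorem Ind_th_pos : (0:ℝ) < th := by
  unfold th
  norm_num

theorem Ind_th_le : th ≤ 1 := by
  unfold th
  norm_num

omit [Fintype V] in
theorem Ind_first (M : J → V → V) (ω : V → Coin T N) (x : V) (c : Fin N) : ∀ i : ℕ,
    run M ω i x = some c → ∃ j, j < i ∧ part M ω j x ∧ pick M ω j x = some c := by
  intro i
  induction i with
  | zero =>
    intro h
    simp [run] at h
  | succ i ih =>
    intro h
    by_cases h' : run M ω i x = some c
    · obtain ⟨j, hj, hp⟩ := ih h'
      exact ⟨j, by omega, hp⟩
    · exact ⟨i, by omega, run_new M ω i x c h h'⟩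

omit [Fintype V] in
theorem Ind_coin (M : J → V → V) (ω : V → Coin T N) (x y : V) : ∀ i : ℕ, coin (run M ω i) x y →
    ∃ j, j < i ∧ coin (run M ω (j + 1)) x y ∧ ¬ coin (run M ω j) x y := by
  intro i
  induction i with
  | zero =>
    rintro ⟨c, h, -⟩
    simp [run] at h
  | succ i ih =>
    intro h
    by_cases h' : coin (run M ω i) x y
    · obtain ⟨j, hj, hp⟩ := ih h'
      exact ⟨j, by omega, hp⟩
    · exact ⟨i, by omega, h, h'⟩

omit [Fintype V] in
theorem Ind_avail (M : J → V → V) (hN : Fintype.card J ≤ N) (ω : V → Coin T N) (i : ℕ) (x : V)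
    (hn : 0 < Fintype.card J) (hA : A1 M ω x i) : (avail M (run M ω i) x).Nonempty := by
  have h1 : (univ.filter (fun j => ¬ act ω i (M j x))).card ≤
      (univ.filter (fun j => run M ω i (M j x) = none)).card := by
    refine Finset.card_le_card ?_
    intro j hj
    rw [Finset.mem_filter] at hj ⊢
    exact ⟨Finset.mem_univ _, (run_none_of_not_act M ω i _ hj.2).1⟩
  have h2 := avail_ge M (run M ω i) x hN
  have h3 : (0:ℝ) < ((univ.filter (fun j => ¬ act ω i (M j x))).card : ℝ) := by
    refine lt_of_lt_of_le ?_ hA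
    have h5 := pow_pos Ind_th_pos (i + 1)
    have h6 : (0:ℝ) < Fintype.card J := by exact_mod_cast hn
    positivity
  have h4 : 0 < (univ.filter (fun j => ¬ act ω i (M j x))).card := by exact_mod_cast h3
  rw [← Finset.card_pos]
  exact lt_of_lt_of_le h4 (h1.trans h2)

omit [Fintype V] in
theorem Ind_part (M : J → V → V) (hN : Fintype.card J ≤ N) (ω : V → Coin T N) (i : ℕ) (x : V)
    (hn : 0 < Fintype.card J) (hA : A1 M ω x i) (h : part M ω (i + 1) x) :
    fail M ω i x ∨ newly ω (i + 1) x := by
  by_cases ha : act ω i x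
  · left
    exact run_succ_none M ω i x h.1 ha (Ind_avail M hN ω i x hn hA)
  · right
    exact ⟨h.2, fun j hj h0 => ha ⟨j, by omega, h0⟩⟩

omit [Fintype V] in
theorem Ind_last (M : J → V → V) (hN : Fintype.card J ≤ N) (ω : V → Coin T N) (i : ℕ) (x : V)
    (hn : 0 < Fintype.card J) (hA : A1 M ω x i) (m : ℕ) (hm : m = i + 1)
    (h : run M ω m x = none) : ¬ act ω i x ∨ fail M ω i x := by
  subst hm
  by_cases ha : act ω i x
  · right
    exact run_succ_none M ω i x h ha (Ind_avail M hN ω i x hn hA)
  · exact Or.inl ha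

theorem ind (M : J → V → V) (hM : IsFac M) (hT : 1 ≤ T) (lam : ℕ) (hlam : 1 ≤ lam) (k0 : K)
    (tst : K → V → Finset V) (xs ys : K2 → V → R → V) (p1 p2 : K2 → K)
    (ht : IsTests M T lam k0 tst xs ys p1 p2) (hN : Fintype.card J ≤ N)
    (P : K3 → V → (V → Option (Fin N)) → Prop) (ω : V → Coin T N)
    (h : ∀ v, ¬ bad M lam k0 tst xs ys P v ω) (v : V) :
    finOK T lam tst xs ys v (run M ω T) ∧ ∀ k, P k v (run M ω T) := by
  have hA1 : ∀ v i, i < T → A1 M ω v i := by
    intro v i hi
    by_contra hc
    exact h v (Or.inl ⟨i, hi, hc⟩)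
  have hA2 : ∀ v k i, i < T → A2 ω (tst k v) i := by
    intro v k i hi
    by_contra hc
    exact h v (Or.inr (Or.inl ⟨i, k, hi, hc⟩))
  have hA3 : ∀ v k, A3 ω (tst k v) := by
    intro v k
    by_contra hc
    exact h v (Or.inr (Or.inr (Or.inl ⟨k, hc⟩)))
  have hR : ∀ v i, i < T → cond M k0 tst v i ω → roundOK M lam tst xs ys v i ω := by
    intro v i hi hc
    by_contra hr
    exact h v (Or.inr (Or.inr (Or.inr (Or.inl ⟨i, hi, hc, hr⟩))))
  have hlam1 : (1:ℝ) ≤ lam := by exact_mod_cast hlam
  have hthT : (0:ℝ) < th ^ T := pow_pos Ind_th_pos T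
  have hn : 0 < Fintype.card J := by
    have h1 := ht.ge k0 v
    have h2 := ht.le k0 v
    by_contra h0
    have h3 : (tst k0 v).card = 0 := by omega
    rw [h3, Nat.cast_zero, mul_zero] at h1
    linarith
  have hth : th = 1023 / 1024 := rfl
  -- the active vertices
  have hU : ∀ i, i < T → ∀ v k, U M ω (tst k v) i := by
    intro i
    induction i with
    | zero =>
      intro hi v k
      have h1 := hA2 v k 0 hi
      have h2 : ((tst k v).filter (fun x => part M ω 0 x)).card ≤
          ((tst k v).filter (fun x => newly ω 0 x)).card := by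
        refine Finset.card_le_card ?_
        intro x hx
        rw [Finset.mem_filter] at hx ⊢
        exact ⟨hx.1, hx.2.2, fun j hj => absurd hj (by omega)⟩
      have h3 : (((tst k v).filter (fun x => part M ω 0 x)).card : ℝ) ≤
          ((tst k v).filter (fun x => newly ω 0 x)).card := by exact_mod_cast h2
      have h4 : (0:ℝ) ≤ (tst k v).card := Nat.cast_nonneg _
      unfold U
      unfold A2 at h1
      rw [pow_zero, one_mul] at h1 ⊢
      linarith
    | succ i ih =>
      intro hi v k
      have hi' : i < T := by omega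
      have hc : cond M k0 tst v i ω :=
        ⟨fun x _ => hA1 x i hi', fun x _ => ih hi' x k0, fun k => ih hi' v k⟩
      have hB := (hR v i hi' hc).1 k
      have h2 : ((tst k v).filter (fun x => part M ω (i + 1) x)).card ≤
          ((tst k v).filter (fun x => fail M ω i x)).card +
          ((tst k v).filter (fun x => newly ω (i + 1) x)).card := by
        refine (Finset.card_le_card ?_).trans (Finset.card_union_le _ _)
        intro x hx
        rw [Finset.mem_filter] at hx
        rw [Finset.mem_union, Finset.mem_filter, Finset.mem_filter]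
        rcases Ind_part M hN ω i x hn (hA1 x i hi') hx.2 with h3 | h3
        · exact Or.inl ⟨hx.1, h3⟩
        · exact Or.inr ⟨hx.1, h3⟩
      have h3 : (((tst k v).filter (fun x => part M ω (i + 1) x)).card : ℝ) ≤
          ((tst k v).filter (fun x => fail M ω i x)).card +
          ((tst k v).filter (fun x => newly ω (i + 1) x)).card := by exact_mod_cast h2
      have hnew := hA2 v k (i + 1) hi
      have h4 : (0:ℝ) ≤ (tst k v).card := Nat.cast_nonneg _
      have h5 := ht.ge k v
      have h6 : th ^ T * ((tst k v).card : ℝ) ≤ th ^ (i + 1) * (tst k v).card :=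
        mul_le_mul_of_nonneg_right (pow_le_pow_of_le_one Ind_th_pos.le Ind_th_le hi.le) h4
      have h7 : th ^ i * ((tst k v).card : ℝ) = 1024 / 1023 * (th ^ (i + 1) * (tst k v).card) := by
        rw [pow_succ, hth]
        ring
      unfold U
      unfold A2 at hnew
      unfold B1 at hB
      linarith
  have hRound : ∀ i, i < T → ∀ v, roundOK M lam tst xs ys v i ω := fun i hi v =>
    hR v i hi ⟨fun x _ => hA1 x i hi, fun x _ => hU i hi x k0, fun k => hU i hi v k⟩
  have hfin : finOK T lam tst xs ys v (run M ω T) := by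
    refine ⟨fun k => ?_, fun k c => ?_, fun k => ?_⟩
    · have hi : T - 1 < T := by omega
      have hB := (hRound (T - 1) hi v).1 k
      have hA := hA3 v k
      have h2 : ((tst k v).filter (fun x => run M ω T x = none)).card ≤
          ((tst k v).filter (fun x => ¬ act ω (T - 1) x)).card +
          ((tst k v).filter (fun x => fail M ω (T - 1) x)).card := by
        refine (Finset.card_le_card ?_).trans (Finset.card_union_le _ _)
        intro x hx
        rw [Finset.mem_filter] at hx
        rw [Finset.mem_union, Finset.mem_filter, Finset.mem_filter]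
        rcases Ind_last M hN ω (T - 1) x hn (hA1 x (T - 1) hi) T (by omega) hx.2 with h3 | h3
        · exact Or.inl ⟨hx.1, h3⟩
        · exact Or.inr ⟨hx.1, h3⟩
      have h3 : (((tst k v).filter (fun x => run M ω T x = none)).card : ℝ) ≤
          ((tst k v).filter (fun x => ¬ act ω (T - 1) x)).card +
          ((tst k v).filter (fun x => fail M ω (T - 1) x)).card := by exact_mod_cast h2
      have h4 : (0:ℝ) ≤ (tst k v).card := Nat.cast_nonneg _
      have h5 := ht.ge k v
      have h7 : th ^ (T - 1) * ((tst k v).card : ℝ) = 1024 / 1023 * (th ^ T * (tst k v).card) := by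
        have h8 : th ^ T = th ^ (T - 1) * th := (pow_sub_one_mul (by omega) th).symm
        have h9 : th ^ T = th ^ (T - 1) * (1023 / 1024) := h8
        rw [h9]
        ring
      have h10 : 0 ≤ th ^ T * ((tst k v).card : ℝ) := mul_nonneg hthT.le h4
      unfold A3 at hA
      unfold B1 at hB
      linarith
    · have h1 : (tst k v).filter (fun x => run M ω T x = some c) ⊆
          (Finset.range T).biUnion
            (fun i => (tst k v).filter (fun x => part M ω i x ∧ pick M ω i x = some c)) := by
        intro x hx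
        rw [Finset.mem_filter] at hx
        obtain ⟨j, hj, hp⟩ := Ind_first M ω x c T hx.2
        rw [Finset.mem_biUnion]
        exact ⟨j, Finset.mem_range.2 hj, Finset.mem_filter.2 ⟨hx.1, hp⟩⟩
      refine (Finset.card_le_card h1).trans
        ((Finset.card_biUnion_le_card_mul _ _ lam ?_).trans (le_of_eq ?_))
      · intro i hi
        exact (hRound i (Finset.mem_range.1 hi) v).2.1 k c
      · rw [Finset.card_range]
    · have h1 : (univ.filter (fun ρ => coin (run M ω T) (xs k v ρ) (ys k v ρ))) ⊆
          (Finset.range T).biUnion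
            (fun i => univ.filter (fun ρ => coin (run M ω (i + 1)) (xs k v ρ) (ys k v ρ) ∧
              ¬ coin (run M ω i) (xs k v ρ) (ys k v ρ))) := by
        intro ρ hρ
        rw [Finset.mem_filter] at hρ
        obtain ⟨j, hj, hp⟩ := Ind_coin M ω _ _ T hρ.2
        rw [Finset.mem_biUnion]
        exact ⟨j, Finset.mem_range.2 hj, Finset.mem_filter.2 ⟨hρ.1, hp⟩⟩
      refine (Finset.card_le_card h1).trans
        ((Finset.card_biUnion_le_card_mul _ _ (4 * lam) ?_).trans (le_of_eq ?_))
      · intro i hi
        exact (hRound i (Finset.mem_range.1 hi) v).2.2 k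
      · rw [Finset.card_range]
        ring
  exact ⟨hfin, fun k => by_contra fun hc =>
    h v (Or.inr (Or.inr (Or.inr (Or.inr ⟨hfin, run_prop M hM ω T, k, hc⟩))))⟩

end Pool.Agent.H67.HY
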