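import Pool.Agent.H67.HY.PD
import Pool.Agent.H67.HY.RpD

/-! Definitions for the labelling. -/

set_option autoImplicit false
set_option linter.unusedSectionVars false

namespace Pool.Agent.H67.HY

open Finset
open Classical

noncomputable section

variable {V : Type} {q nb r N : ℕ}

/-- index type of the test sets -/
abbrev LK (q nb : ℕ) := Unit ⊕ (Fin q ⊕ (Fin q ⊕ (Fin q × Fin nb)))

/-- index type of the pair tests -/
abbrev LK2 (q nb : ℕ) := Fin q × {p : Fin nb × Fin nb // p.1 ≠ p.2}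

/-- index type of the final properties -/
abbrev LK3 (q nb G : ℕ) :=
  (Fin q × Fin nb) ⊕ ((Fin q × Fin nb) ⊕ ((Fin q × {p : Fin nb × Fin nb // p.1 ≠ p.2}) ⊕
    (Fin q × ZMod G)))

/-- the far vertex -/
def far (M : Fin q × (Fin nb ⊕ Fin r) → V → V) (i : Fin q) (κ : Fin nb) (v : V) (ρ : Fin r) : V :=
  M (i, Sum.inl κ) (M (i, Sum.inr ρ) v)

/-- the test sets -/
def ltst (M : Fin q × (Fin nb ⊕ Fin r) → V → V) : LK q nb → V → Finset V
  | Sum.inl _, v => univ.image (fun j => M j v)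
  | Sum.inr (Sum.inl i), v => univ.image (fun ρ : Fin r => M (i, Sum.inr ρ) v)
  | Sum.inr (Sum.inr (Sum.inl i)), v => univ.image (fun κ : Fin nb => M (i, Sum.inl κ) v)
  | Sum.inr (Sum.inr (Sum.inr (i, κ))), v => univ.image (fun ρ : Fin r => far M i κ v ρ)

def lxs (M : Fin q × (Fin nb ⊕ Fin r) → V → V) (t : LK2 q nb) (v : V) (ρ : Fin r) : V :=
  far M t.1 t.2.1.1 v ρ

def lys (M : Fin q × (Fin nb ⊕ Fin r) → V → V) (t : LK2 q nb) (v : V) (ρ : Fin r) : V :=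
  far M t.1 t.2.1.2 v ρ

def lp1 (t : LK2 q nb) : LK q nb := Sum.inr (Sum.inr (Sum.inr (t.1, t.2.1.1)))

def lp2 (t : LK2 q nb) : LK q nb := Sum.inr (Sum.inr (Sum.inr (t.1, t.2.1.2)))

/-- (L1) for a partial colouring -/
def PL1 (M : Fin q × (Fin nb ⊕ Fin r) → V → V) (Wd : Fin q → Fin nb → Finset (Fin N)) (b' : ℕ)
    (δ : ℝ) (i : Fin q) (κ : Fin nb) (v : V) (φ : V → Option (Fin N)) : Prop :=
  b' ≤ (Wd i κ).card → |((univ.filter (fun ρ : Fin r => ∃ c, φ (far M i κ v ρ) = some c ∧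
    c ∈ Wd i κ)).card : ℝ) - r * (Wd i κ).card / N| ≤ δ * (r * (Wd i κ).card / N)

/-- (L2) -/
def PL2 (M : Fin q × (Fin nb ⊕ Fin r) → V → V) (Wd : Fin q → Fin nb → Finset (Fin N)) (B : ℕ)
    (i : Fin q) (κ : Fin nb) (v : V) (φ : V → Option (Fin N)) : Prop :=
  (univ.filter (fun ρ : Fin r => ∃ c c', φ (M (i, Sum.inr ρ) v) = some c ∧
    φ (far M i κ v ρ) = some c' ∧ c ≠ c' ∧ c ∈ Wd i κ ∧ c' ∈ Wd i κ)).card ≤ B

/-- (L3) -/
def PL3 (M : Fin q × (Fin nb ⊕ Fin r) → V → V) (Wd : Fin q → Fin nb → Finset (Fin N)) (B : ℕ)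
    (i : Fin q) (κ κ' : Fin nb) (v : V) (φ : V → Option (Fin N)) : Prop :=
  (univ.filter (fun ρ : Fin r => ∃ c c', φ (far M i κ v ρ) = some c ∧
    φ (far M i κ' v ρ) = some c' ∧ c ≠ c' ∧ c ∈ Wd i κ ∧ c' ∈ Wd i κ')).card ≤ B

/-- (L4) -/
def PL4 (M : Fin q × (Fin nb ⊕ Fin r) → V → V) (Wd : Fin q → Fin nb → Finset (Fin N)) (B G : ℕ)
    (i : Fin q) (g : ZMod G) (v : V) (φ : V → Option (Fin N)) : Prop :=
  ((univ.filter (fun κ : Fin nb => ((κ : ℕ) : ZMod G) = g)).filter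
    (fun κ => ∃ c, φ (M (i, Sum.inl κ) v) = some c ∧ c ∈ Wd i κ)).card ≤ B

/-- all final properties -/
def LP (M : Fin q × (Fin nb ⊕ Fin r) → V → V) (Wd : Fin q → Fin nb → Finset (Fin N))
    (b' B B4 : ℕ) (δ : ℝ) (G : ℕ) : LK3 q nb G → V → (V → Option (Fin N)) → Prop
  | Sum.inl (i, κ), v, φ => PL1 M Wd b' δ i κ v φ
  | Sum.inr (Sum.inl (i, κ)), v, φ => PL2 M Wd B i κ v φ
  | Sum.inr (Sum.inr (Sum.inl (i, p))), v, φ => PL3 M Wd B i p.1.1 p.1.2 v φ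
  | Sum.inr (Sum.inr (Sum.inr (i, g))), v, φ => PL4 M Wd B4 G i g v φ

end

end Pool.Agent.H67.HY
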