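/-
ROW LbA. The test sets are fine; locality; cardinalities.
PROOF. `ltests`: `hood` rfl. `sub`: `M j v ∈ ball M v 1 ⊆ ball M v 2`, `far` = two steps. Cards: `j ↦ M j v` is injective (`hM.dis`), so `card (ltst k v)` is `q (nb + r)` (`Fintype.card_prod`, `card_sum`, `card_fin`), `r`, `nb`, `r` (`far M i κ v` is injective: `M (i, inl κ)` is injective by `hM.inv`). `le`: all `≤ q (nb+r)` as `q ≥ 1`.
`ge`: all cards are `≥ r` (`r ≤ nb`), `th^T ≥ 0`. `injx, injy`: `far` injective. `ne`: `M (i, inl κ) w ≠ M (i, inl κ') w` (`hM.dis`, `κ ≠ κ'`). `memx, memy`: `Finset.mem_image_of_mem`.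
`LP_local`: each of the four counts only evaluates `φ` at `M (i,·) v` and `far M i κ v ρ`, all in `ball M v 2` (`Finset.filter_congr`).
`lcard`: `card LK = 1 + (q + (q + q nb))`, `card LK2 ≤ q nb²` (`Fintype.card_subtype_le`), `card LK3 ≤ q nb + q nb + q nb² + q G` (`ZMod.card`). With `n = q (nb+r)`: `q ≤ n`, `q nb ≤ n`, `q nb² ≤ n²`, `q G ≤ n`, so the sum is `≤ T (7 + 21 n + 5 n²) ≤ 16 T (n+1)²`.
-/
import Pool.Agent.H67.HY.LbD

set_option autoImplicit false

namespace Pool.Agent.H67.HY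

open Finset
open Classical

theorem LbA_ball_mono {V J : Type} [Fintype J] (M : J → V → V) (v x : V) (k : ℕ)
    (h : x ∈ ball M v k) : x ∈ ball M v (k + 1) := by
  change x ∈ ball M v k ∪ (univ : Finset J).biUnion (fun j => (ball M v k).image (M j))
  exact Finset.mem_union_left _ h

theorem LbA_ball_step {V J : Type} [Fintype J] (M : J → V → V) (v x : V) (k : ℕ) (j : J)
    (h : x ∈ ball M v k) : M j x ∈ ball M v (k + 1) := by
  change M j x ∈ ball M v k ∪ (univ : Finset J).biUnion (fun j => (ball M v k).image (M j))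
  apply Finset.mem_union_right
  rw [Finset.mem_biUnion]
  exact ⟨j, Finset.mem_univ j, Finset.mem_image_of_mem _ h⟩

theorem LbA_ball_one {V J : Type} [Fintype J] (M : J → V → V) (v : V) (j : J) :
    M j v ∈ ball M v 1 := by
  apply LbA_ball_step
  change v ∈ ({v} : Finset V)
  exact Finset.mem_singleton_self v

theorem LbA_ball_two {V J : Type} [Fintype J] (M : J → V → V) (v : V) (j : J) :
    M j v ∈ ball M v 2 := LbA_ball_mono M v _ 1 (LbA_ball_one M v j)

theorem LbA_far {V : Type} {q nb r : ℕ} (M : Fin q × (Fin nb ⊕ Fin r) → V → V)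
    (i : Fin q) (κ : Fin nb) (v : V) (ρ : Fin r) : far M i κ v ρ ∈ ball M v 2 :=
  LbA_ball_step M v _ 1 _ (LbA_ball_one M v _)

theorem LbA_inj {V J : Type} (M : J → V → V) (hM : IsFac M) (v : V) :
    Function.Injective (fun j => M j v) := by
  intro j1 j2 he
  by_contra hne
  exact hM.dis j1 j2 v hne he

theorem LbA_cardJ (q nb r : ℕ) : Fintype.card (Fin q × (Fin nb ⊕ Fin r)) = q * (nb + r) := by
  rw [Fintype.card_prod, Fintype.card_sum, Fintype.card_fin, Fintype.card_fin, Fintype.card_fin]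

theorem far_inj {V : Type} {q nb r : ℕ} (M : Fin q × (Fin nb ⊕ Fin r) → V → V) (hM : IsFac M)
    (i : Fin q) (κ : Fin nb) (v : V) : Function.Injective (far M i κ v) := by
  intro ρ1 ρ2 h
  unfold far at h
  have h1 : M (i, Sum.inr ρ1) v = M (i, Sum.inr ρ2) v := by
    have h2 := congrArg (M (i, Sum.inl κ)) h
    rw [hM.inv, hM.inv] at h2
    exact h2
  have h3 := LbA_inj M hM v h1
  have h4 := (Prod.mk.inj h3).2
  exact Sum.inr_injective h4

theorem ltests {V : Type} [Fintype V] {q nb r T lam : ℕ}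
    (M : Fin q × (Fin nb ⊕ Fin r) → V → V) (hM : IsFac M) (hq : 1 ≤ q) (hrn : r ≤ nb)
    (h : 4000 * (lam : ℝ) ≤ th ^ T * r) :
    IsTests M T lam (Sum.inl () : LK q nb) (ltst M) (lxs M) (lys M) lp1 lp2 := by
  obtain ⟨t1, t2⟩ : 0 < th ∧ th ≤ 1 := by
    unfold th
    constructor <;> norm_num
  have hT : 0 < th ^ T := pow_pos t1 T
  have hqr : r ≤ q * (nb + r) := by nlinarith
  have hqn : nb ≤ q * (nb + r) := by nlinarith
  have hI1 : ∀ (i : Fin q) (v : V), Function.Injective (fun ρ : Fin r => M (i, Sum.inr ρ) v) := by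
    intro i v ρ1 ρ2 h
    have h3 := LbA_inj M hM v h
    exact Sum.inr_injective (Prod.mk.inj h3).2
  have hI2 : ∀ (i : Fin q) (v : V), Function.Injective (fun κ : Fin nb => M (i, Sum.inl κ) v) := by
    intro i v ρ1 ρ2 h
    have h3 := LbA_inj M hM v h
    exact Sum.inl_injective (Prod.mk.inj h3).2
  have hc1 : ∀ v, (univ.image (fun j => M j v)).card = q * (nb + r) := by
    intro v
    rw [Finset.card_image_of_injective _ (LbA_inj M hM v), Finset.card_univ, LbA_cardJ]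
  have hc2 : ∀ (i : Fin q) (v : V),
      (univ.image (fun ρ : Fin r => M (i, Sum.inr ρ) v)).card = r := by
    intro i v
    rw [Finset.card_image_of_injective _ (hI1 i v), Finset.card_univ, Fintype.card_fin]
  have hc3 : ∀ (i : Fin q) (v : V),
      (univ.image (fun κ : Fin nb => M (i, Sum.inl κ) v)).card = nb := by
    intro i v
    rw [Finset.card_image_of_injective _ (hI2 i v), Finset.card_univ, Fintype.card_fin]
  have hc4 : ∀ (i : Fin q) (κ : Fin nb) (v : V),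
      (univ.image (fun ρ : Fin r => far M i κ v ρ)).card = r := by
    intro i κ v
    rw [Finset.card_image_of_injective _ (far_inj M hM i κ v), Finset.card_univ, Fintype.card_fin]
  have hcard : ∀ (k : LK q nb) (v : V), r ≤ (ltst M k v).card ∧
      (ltst M k v).card ≤ q * (nb + r) := by
    intro k v
    rcases k with _ | i | i | ⟨i, κ⟩
    · change r ≤ (univ.image (fun j => M j v)).card ∧ (univ.image (fun j => M j v)).card ≤ _
      rw [hc1]
      exact ⟨hqr, le_rfl⟩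
    · change r ≤ (univ.image (fun ρ : Fin r => M (i, Sum.inr ρ) v)).card ∧
        (univ.image (fun ρ : Fin r => M (i, Sum.inr ρ) v)).card ≤ _
      rw [hc2]
      exact ⟨le_rfl, hqr⟩
    · change r ≤ (univ.image (fun κ : Fin nb => M (i, Sum.inl κ) v)).card ∧
        (univ.image (fun κ : Fin nb => M (i, Sum.inl κ) v)).card ≤ _
      rw [hc3]
      exact ⟨hrn, hqn⟩
    · change r ≤ (univ.image (fun ρ : Fin r => far M i κ v ρ)).card ∧
        (univ.image (fun ρ : Fin r => far M i κ v ρ)).card ≤ _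
      rw [hc4]
      exact ⟨le_rfl, hqr⟩
  refine ⟨?_, ?_, ?_, ?_, ?_, ?_, ?_, ?_, ?_⟩
  · intro v
    rfl
  · intro k v x hx
    rcases k with _ | i | i | ⟨i, κ⟩
    · change x ∈ univ.image (fun j => M j v) at hx
      obtain ⟨j, -, rfl⟩ := Finset.mem_image.mp hx
      exact LbA_ball_two M v j
    · change x ∈ univ.image (fun ρ : Fin r => M (i, Sum.inr ρ) v) at hx
      obtain ⟨j, -, rfl⟩ := Finset.mem_image.mp hx
      exact LbA_ball_two M v _
    · change x ∈ univ.image (fun κ : Fin nb => M (i, Sum.inl κ) v) at hx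
      obtain ⟨j, -, rfl⟩ := Finset.mem_image.mp hx
      exact LbA_ball_two M v _
    · change x ∈ univ.image (fun ρ : Fin r => far M i κ v ρ) at hx
      obtain ⟨j, -, rfl⟩ := Finset.mem_image.mp hx
      exact LbA_far M i κ v j
  · intro k v
    rw [LbA_cardJ]
    exact (hcard k v).2
  · intro k v
    refine h.trans (mul_le_mul_of_nonneg_left ?_ hT.le)
    exact_mod_cast (hcard k v).1
  · intro k v
    exact far_inj M hM _ _ v
  · intro k v
    exact far_inj M hM _ _ v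
  · intro k v ρ
    apply hM.dis
    intro he
    have h1 := Sum.inl_injective (Prod.mk.inj he).2
    exact k.2.2 h1
  · intro k v ρ
    exact Finset.mem_image_of_mem (fun ρ : Fin r => far M k.1 k.2.1.1 v ρ) (Finset.mem_univ ρ)
  · intro k v ρ
    exact Finset.mem_image_of_mem (fun ρ : Fin r => far M k.1 k.2.1.2 v ρ) (Finset.mem_univ ρ)

theorem LP_local {V : Type} {q nb r N : ℕ} (M : Fin q × (Fin nb ⊕ Fin r) → V → V)
    (Wd : Fin q → Fin nb → Finset (Fin N)) (b' B B4 : ℕ) (δ : ℝ) (G : ℕ) (k : LK3 q nb G) (v : V)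
    (φ φ' : V → Option (Fin N)) (h : ∀ x ∈ ball M v 2, φ x = φ' x)
    (hP : LP M Wd b' B B4 δ G k v φ) : LP M Wd b' B B4 δ G k v φ' := by
  have hf : ∀ i κ ρ, φ (far M i κ v ρ) = φ' (far M i κ v ρ) := fun i κ ρ => h _ (LbA_far M i κ v ρ)
  have hm : ∀ j, φ (M j v) = φ' (M j v) := fun j => h _ (LbA_ball_two M v j)
  rcases k with ⟨i, κ⟩ | ⟨i, κ⟩ | ⟨i, p⟩ | ⟨i, g⟩
  · change PL1 M Wd b' δ i κ v φ at hP
    change PL1 M Wd b' δ i κ v φ'
    unfold PL1 at hP ⊢
    have e : (univ.filter (fun ρ : Fin r => ∃ c, φ (far M i κ v ρ) = some c ∧ c ∈ Wd i κ)) =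
        (univ.filter (fun ρ : Fin r => ∃ c, φ' (far M i κ v ρ) = some c ∧ c ∈ Wd i κ)) := by
      ext ρ
      simp only [Finset.mem_filter, hf]
    rw [e] at hP
    exact hP
  · change PL2 M Wd B i κ v φ at hP
    change PL2 M Wd B i κ v φ'
    unfold PL2 at hP ⊢
    have e : (univ.filter (fun ρ : Fin r => ∃ c c', φ (M (i, Sum.inr ρ) v) = some c ∧
        φ (far M i κ v ρ) = some c' ∧ c ≠ c' ∧ c ∈ Wd i κ ∧ c' ∈ Wd i κ)) =
        (univ.filter (fun ρ : Fin r => ∃ c c', φ' (M (i, Sum.inr ρ) v) = some c ∧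
        φ' (far M i κ v ρ) = some c' ∧ c ≠ c' ∧ c ∈ Wd i κ ∧ c' ∈ Wd i κ)) := by
      ext ρ
      simp only [Finset.mem_filter, hf, hm]
    rw [e] at hP
    exact hP
  · change PL3 M Wd B i p.1.1 p.1.2 v φ at hP
    change PL3 M Wd B i p.1.1 p.1.2 v φ'
    unfold PL3 at hP ⊢
    have e : (univ.filter (fun ρ : Fin r => ∃ c c', φ (far M i p.1.1 v ρ) = some c ∧
        φ (far M i p.1.2 v ρ) = some c' ∧ c ≠ c' ∧ c ∈ Wd i p.1.1 ∧ c' ∈ Wd i p.1.2)) =
        (univ.filter (fun ρ : Fin r => ∃ c c', φ' (far M i p.1.1 v ρ) = some c ∧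
        φ' (far M i p.1.2 v ρ) = some c' ∧ c ≠ c' ∧ c ∈ Wd i p.1.1 ∧ c' ∈ Wd i p.1.2)) := by
      ext ρ
      simp only [Finset.mem_filter, hf]
    rw [e] at hP
    exact hP
  · change PL4 M Wd B4 G i g v φ at hP
    change PL4 M Wd B4 G i g v φ'
    unfold PL4 at hP ⊢
    have e : ((univ.filter (fun κ : Fin nb => ((κ : ℕ) : ZMod G) = g)).filter
        (fun κ => ∃ c, φ (M (i, Sum.inl κ) v) = some c ∧ c ∈ Wd i κ)) =
        ((univ.filter (fun κ : Fin nb => ((κ : ℕ) : ZMod G) = g)).filter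
        (fun κ => ∃ c, φ' (M (i, Sum.inl κ) v) = some c ∧ c ∈ Wd i κ)) := by
      ext ρ
      simp only [Finset.mem_filter, hm]
    rw [e] at hP
    exact hP

theorem lcard {q nb r T G : ℕ} [NeZero G] (hq : 1 ≤ q) (hT : 1 ≤ T) (hG : G ≤ nb) :
    4 * (T * (1 + 5 * (Fintype.card (LK q nb) : ℝ) + 4 * Fintype.card (LK2 q nb)) +
      Fintype.card (LK q nb) + Fintype.card (LK3 q nb G)) *
      ((Fintype.card (Fin q × (Fin nb ⊕ Fin r)) : ℝ) + 1) ^ (4 * T + 12) ≤
      128 * T * ((q * (nb + r) : ℕ) + 1 : ℝ) ^ (4 * T + 14) := by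
  have hG1 : 1 ≤ G := Nat.one_le_iff_ne_zero.mpr (NeZero.ne G)
  have hnb : 1 ≤ nb := hG1.trans hG
  have hc2 : Fintype.card {p : Fin nb × Fin nb // p.1 ≠ p.2} ≤ nb ^ 2 := by
    refine (Fintype.card_subtype_le _).trans ?_
    rw [Fintype.card_prod, Fintype.card_fin, sq]
  have e1 : Fintype.card (LK q nb) = 1 + (q + (q + q * nb)) := by
    simp only [Fintype.card_sum, Fintype.card_prod, Fintype.card_fin, Fintype.card_unit]
  have e2 : Fintype.card (LK2 q nb) ≤ q * nb ^ 2 := by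
    rw [Fintype.card_prod, Fintype.card_fin]
    exact Nat.mul_le_mul_left q hc2
  have e3 : Fintype.card (LK3 q nb G) ≤ q * nb + (q * nb + (q * nb ^ 2 + q * G)) := by
    rw [Fintype.card_sum, Fintype.card_sum, Fintype.card_sum, Fintype.card_prod,
      Fintype.card_prod, Fintype.card_prod, Fintype.card_fin, Fintype.card_fin, ZMod.card]
    have := Nat.mul_le_mul_left q hc2
    omega
  have hn1 : q * nb ≤ q * (nb + r) := Nat.mul_le_mul_left q (by omega)
  have hn2 : q ≤ q * nb := by nlinarith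
  have hn3 : q * nb ^ 2 ≤ (q * nb) ^ 2 := by
    rw [mul_pow]
    exact Nat.mul_le_mul_right _ (by nlinarith)
  have hn4 : q * G ≤ q * nb := Nat.mul_le_mul_left q hG
  rw [LbA_cardJ, e1]
  set n : ℕ := q * (nb + r) with hn
  have f1 : ((q * nb : ℕ) : ℝ) ≤ n := by exact_mod_cast hn1
  have f2 : (q : ℝ) ≤ n := by exact_mod_cast hn2.trans hn1
  have f3 : ((q * nb ^ 2 : ℕ) : ℝ) ≤ (n : ℝ) ^ 2 := by
    have : q * nb ^ 2 ≤ n ^ 2 := hn3.trans (Nat.pow_le_pow_left hn1 2)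
    exact_mod_cast this
  have f4 : ((q * G : ℕ) : ℝ) ≤ n := by exact_mod_cast hn4.trans hn1
  have g2 : (Fintype.card (LK2 q nb) : ℝ) ≤ (n : ℝ) ^ 2 :=
    le_trans (by exact_mod_cast e2) f3
  have g3 : (Fintype.card (LK3 q nb G) : ℝ) ≤ n + (n + ((n : ℝ) ^ 2 + n)) := by
    have h1 : (Fintype.card (LK3 q nb G) : ℝ) ≤
        ((q * nb : ℕ) : ℝ) + (((q * nb : ℕ) : ℝ) + (((q * nb ^ 2 : ℕ) : ℝ) + ((q * G : ℕ) : ℝ))) := by
      exact_mod_cast e3
    linarith
  have g1 : ((1 + (q + (q + q * nb)) : ℕ) : ℝ) ≤ 1 + 3 * (n : ℝ) := by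
    push_cast at f1 ⊢
    linarith
  have hT1 : (1 : ℝ) ≤ T := by exact_mod_cast hT
  have hn0 : (0 : ℝ) ≤ n := Nat.cast_nonneg n
  have hmain : T * (1 + 5 * ((1 + (q + (q + q * nb)) : ℕ) : ℝ) + 4 * Fintype.card (LK2 q nb)) +
      ((1 + (q + (q + q * nb)) : ℕ) : ℝ) + Fintype.card (LK3 q nb G) ≤
      32 * T * ((n : ℝ) + 1) ^ 2 := by
    have h1 : T * (1 + 5 * ((1 + (q + (q + q * nb)) : ℕ) : ℝ) + 4 * Fintype.card (LK2 q nb)) ≤
        T * (1 + 5 * (1 + 3 * (n : ℝ)) + 4 * (n : ℝ) ^ 2) := by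
      apply mul_le_mul_of_nonneg_left _ (by linarith)
      linarith
    have h2 : ((1 + (q + (q + q * nb)) : ℕ) : ℝ) + Fintype.card (LK3 q nb G) ≤
        T * ((1 + 3 * (n : ℝ)) + (n + (n + ((n : ℝ) ^ 2 + n)))) := by
      have h3 : 0 ≤ (1 + 3 * (n : ℝ)) + (n + (n + ((n : ℝ) ^ 2 + n))) := by positivity
      nlinarith
    have h4 : (1 + 5 * (1 + 3 * (n : ℝ)) + 4 * (n : ℝ) ^ 2) +
        ((1 + 3 * (n : ℝ)) + (n + (n + ((n : ℝ) ^ 2 + n)))) ≤ 32 * ((n : ℝ) + 1) ^ 2 := by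
      nlinarith
    have h5 := mul_le_mul_of_nonneg_left h4 (by linarith : (0 : ℝ) ≤ T)
    nlinarith
  have hpow : (0 : ℝ) ≤ ((n : ℝ) + 1) ^ (4 * T + 12) := by positivity
  have h6 := mul_le_mul_of_nonneg_right hmain hpow
  calc _ = 4 * ((T * (1 + 5 * ((1 + (q + (q + q * nb)) : ℕ) : ℝ) +
        4 * Fintype.card (LK2 q nb)) + ((1 + (q + (q + q * nb)) : ℕ) : ℝ) +
        Fintype.card (LK3 q nb G)) * ((n : ℝ) + 1) ^ (4 * T + 12)) := by ring
    _ ≤ 4 * (32 * T * ((n : ℝ) + 1) ^ 2 * ((n : ℝ) + 1) ^ (4 * T + 12)) := by linarith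
    _ = _ := by ring

end Pool.Agent.H67.HY
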