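/-
ROW PM. Counting permutations.
PROOF. `perm_step`: let `F(J) = {g : ∀ i ∈ J, g (c i) ∈ W i}`, `Q = (univ : Finset (Fin N)) \ J.image c` (`card Q = N - J.card` by injectivity), `i0 ∉ J`, `c i0 ∈ Q`. The map `(g, x) ↦ (g * Equiv.swap (c i0) x, x)` is an involution and maps `{(g,x) : g ∈ F(J), x ∈ Q, g x ∈ W i0}` onto `{(h,x) : h ∈ F(insert i0 J), x ∈ Q}`
(for `x ∈ Q`, `swap (c i0) x` fixes all `c i`, `i ∈ J`; `(g * swap) (c i0) = g x`). So `#F(insert i0 J) * (N - |J|) = ∑_{g ∈ F(J)} #{x ∈ Q : g x ∈ W i0}`.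
`perm_count`: induction on `J` (`Finset.induction_on`): `#{x ∈ Q : g x ∈ W i0} ≤ (W i0).card ≤ b` (`g` injective), so `#F(insert i0 J) * (N - |J|) ≤ #F(J) * b ≤ b^(|J|+1) (N-|J|)!`, and `(N - |J|)! = (N-|J|) (N-|J|-1)!` (`N - |J| ≥ 1` as `c i0 ∈ Q`). `perm_same`: `I = Fin N`, `c = id`, `W` constant: for `g ∈ F(J)`
the `|J|` points of `J` are mapped into `W`, so `#{x ∈ Q : g x ∈ W} = |W| - |J|` and `(|W| - |J|)/(N - |J|) ≤ |W|/N` as `|W| ≤ N`; induction.
`perm_count2`: `N!/(N-j)! = descFactorial ≥ (N - j)^j ≥ (N/2)^j` for `2 j ≤ N` (`Nat.pow_sub_le_descFactorial`, `Nat.factorial_mul_descFactorial`), so `b^j (N-j)! ≤ (2b/N)^j N!`.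
-/
import Pool.Agent.H67.HY.Defs

set_option autoImplicit false

namespace Pool.Agent.H67.HY

open Finset
open Classical

theorem PM_dec {α : Type} (s : Finset α) (p : α → Prop) (d1 d2 : DecidablePred p) :
    @Finset.filter α p d1 s = @Finset.filter α p d2 s := by
  rw [Subsingleton.elim d1 d2]

theorem PM_Q {I : Type} {N : ℕ} (J : Finset I) (c : I → Fin N)
    (hc : ∀ i ∈ J, ∀ j ∈ J, c i = c j → i = j) :
    ((univ : Finset (Fin N)) \ J.image c).card = N - J.card := by
  rw [Finset.card_sdiff_of_subset (Finset.subset_univ _), Finset.card_univ, Fintype.card_fin,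
    Finset.card_image_of_injOn]
  intro i hi j hj hij
  exact hc i hi j hj hij

theorem perm_step {I : Type} {N : ℕ} (J : Finset I) (i0 : I) (hi0 : i0 ∉ J) (c : I → Fin N)
    (hc : ∀ i ∈ insert i0 J, ∀ j ∈ insert i0 J, c i = c j → i = j) (W : I → Finset (Fin N)) :
    (univ.filter (fun g : Equiv.Perm (Fin N) => ∀ i ∈ insert i0 J, g (c i) ∈ W i)).card *
        (N - J.card) =
      ∑ g ∈ univ.filter (fun g : Equiv.Perm (Fin N) => ∀ i ∈ J, g (c i) ∈ W i),
        ((univ \ J.image c).filter (fun x => g x ∈ W i0)).card := by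
  have hcJ : ∀ i ∈ J, ∀ j ∈ J, c i = c j → i = j := fun i hi j hj =>
    hc i (Finset.mem_insert_of_mem hi) j (Finset.mem_insert_of_mem hj)
  rw [← PM_Q J c hcJ, ← smul_eq_mul, ← Finset.sum_const, ← Finset.card_sigma, ← Finset.card_sigma]
  have hsw : ∀ x : Fin N, x ∉ J.image c → ∀ i ∈ J, Equiv.swap (c i0) x (c i) = c i := by
    intro x hx i hi
    apply Equiv.swap_apply_of_ne_of_ne
    · intro h
      have := hc i (Finset.mem_insert_of_mem hi) i0 (Finset.mem_insert_self _ _) h
      exact hi0 (this ▸ hi)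
    · intro h
      exact hx (h ▸ Finset.mem_image_of_mem c hi)
  have hsq : ∀ (g : Equiv.Perm (Fin N)) (x : Fin N),
      g * Equiv.swap (c i0) x * Equiv.swap (c i0) x = g := by
    intro g x
    rw [mul_assoc, Equiv.swap_mul_self, mul_one]
  refine Finset.card_nbij' (fun p => ⟨p.1 * Equiv.swap (c i0) p.2, p.2⟩)
    (fun p => ⟨p.1 * Equiv.swap (c i0) p.2, p.2⟩) ?_ ?_ ?_ ?_
  · rintro ⟨h, x⟩ hp
    rw [Finset.mem_coe, Finset.mem_sigma, mem_filter, mem_sdiff] at hp
    obtain ⟨⟨_, h1⟩, h2, h3⟩ := hp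
    simp only [Finset.mem_coe, Finset.mem_sigma, mem_filter, mem_univ, true_and, mem_sdiff]
    refine ⟨fun i hi => ?_, h3, ?_⟩
    · rw [Equiv.Perm.mul_apply, hsw x h3 i hi]
      exact h1 i (Finset.mem_insert_of_mem hi)
    · rw [Equiv.Perm.mul_apply, Equiv.swap_apply_right]
      exact h1 i0 (Finset.mem_insert_self _ _)
  · rintro ⟨g, x⟩ hp
    rw [Finset.mem_coe, Finset.mem_sigma, mem_filter, mem_filter, mem_sdiff] at hp
    obtain ⟨⟨_, h1⟩, ⟨h2, h3⟩, h4⟩ := hp
    simp only [Finset.mem_coe, Finset.mem_sigma, mem_filter, mem_univ, true_and, mem_sdiff]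
    refine ⟨fun i hi => ?_, h3⟩
    rw [Finset.mem_insert] at hi
    rcases hi with rfl | hi
    · rw [Equiv.Perm.mul_apply, Equiv.swap_apply_left]
      exact h4
    · rw [Equiv.Perm.mul_apply, hsw x h3 i hi]
      exact h1 i hi
  · rintro ⟨g, x⟩ _
    simp only [hsq]
  · rintro ⟨g, x⟩ _
    simp only [hsq]

theorem PM_le {I : Type} {N : ℕ} (J : Finset I) (c : I → Fin N)
    (hc : ∀ i ∈ J, ∀ j ∈ J, c i = c j → i = j) : J.card ≤ N := by
  have h1 : (J.image c).card = J.card :=
    Finset.card_image_of_injOn fun i hi j hj hij => hc i hi j hj hij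
  have h2 := Finset.card_le_univ (J.image c)
  rw [Fintype.card_fin, h1] at h2
  exact h2

theorem perm_count {I : Type} {N : ℕ} (J : Finset I) (c : I → Fin N)
    (hc : ∀ i ∈ J, ∀ j ∈ J, c i = c j → i = j) (W : I → Finset (Fin N)) (b : ℕ)
    (hW : ∀ i ∈ J, (W i).card ≤ b) :
    (univ.filter (fun g : Equiv.Perm (Fin N) => ∀ i ∈ J, g (c i) ∈ W i)).card ≤
      b ^ J.card * (N - J.card).factorial := by
  induction J using Finset.induction_on with
  | empty =>
    refine (Finset.card_le_univ _).trans (le_of_eq ?_)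
    rw [Fintype.card_perm, Fintype.card_fin, Finset.card_empty, pow_zero, one_mul, Nat.sub_zero]
  | insert i0 J hi0 ih =>
    have hcJ : ∀ i ∈ J, ∀ j ∈ J, c i = c j → i = j := fun i hi j hj =>
      hc i (Finset.mem_insert_of_mem hi) j (Finset.mem_insert_of_mem hj)
    have ih' := ih hcJ (fun i hi => hW i (Finset.mem_insert_of_mem hi))
    have hst := perm_step J i0 hi0 c hc W
    have hle := PM_le (insert i0 J) c hc
    rw [Finset.card_insert_of_notMem hi0] at hle ⊢
    obtain ⟨m, hm⟩ : ∃ m, N = J.card + 1 + m := Nat.exists_eq_add_of_le hle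
    have e1 : N - J.card = m + 1 := by omega
    have e2 : N - (J.card + 1) = m := by omega
    rw [e1] at hst ih'
    rw [e2]
    have h1 : ∑ g ∈ univ.filter (fun g : Equiv.Perm (Fin N) => ∀ i ∈ J, g (c i) ∈ W i),
        ((univ \ J.image c).filter (fun x => g x ∈ W i0)).card ≤
        (univ.filter (fun g : Equiv.Perm (Fin N) => ∀ i ∈ J, g (c i) ∈ W i)).card • b := by
      refine Finset.sum_le_card_nsmul _ _ _ fun g _ => ?_
      refine le_trans ?_ (hW i0 (Finset.mem_insert_self _ _))
      refine Finset.card_le_card_of_injOn g (fun x hx => ?_) (g.injective.injOn)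
      rw [Finset.mem_coe, mem_filter] at hx
      exact hx.2
    rw [← hst, smul_eq_mul] at h1
    have h2 : (univ.filter (fun g : Equiv.Perm (Fin N) => ∀ i ∈ insert i0 J, g (c i) ∈ W i)).card *
        (m + 1) ≤ (b ^ (J.card + 1) * m.factorial) * (m + 1) := by
      refine h1.trans ((Nat.mul_le_mul_right b ih').trans (le_of_eq ?_))
      rw [Nat.factorial_succ]
      ring
    exact Nat.le_of_mul_le_mul_right h2 (Nat.succ_pos m)

theorem perm_count2 {I : Type} {N : ℕ} (J : Finset I) (c : I → Fin N)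
    (hc : ∀ i ∈ J, ∀ j ∈ J, c i = c j → i = j) (W : I → Finset (Fin N)) (b : ℕ)
    (hW : ∀ i ∈ J, (W i).card ≤ b) (h2 : 2 * J.card ≤ N) :
    ((univ.filter (fun g : Equiv.Perm (Fin N) => ∀ i ∈ J, g (c i) ∈ W i)).card : ℝ) ≤
      (2 * b / N) ^ J.card * Fintype.card (Equiv.Perm (Fin N)) := by
  have h := perm_count J c hc W b hW
  have h' : ((univ.filter (fun g : Equiv.Perm (Fin N) => ∀ i ∈ J, g (c i) ∈ W i)).card : ℝ) ≤
      (b : ℝ) ^ J.card * ((N - J.card).factorial : ℝ) := by exact_mod_cast h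
  refine h'.trans ?_
  rw [Fintype.card_perm, Fintype.card_fin]
  rcases Nat.eq_zero_or_pos N with hN | hN
  · have : J.card = 0 := by omega
    rw [this, pow_zero, pow_zero, Nat.sub_zero]
  have h3 : (N - J.card).factorial * (N - J.card + 1) ^ J.card ≤ N.factorial := by
    have := Nat.factorial_mul_pow_le_factorial (m := N - J.card) (n := J.card)
    rwa [Nat.sub_add_cancel (by omega : J.card ≤ N)] at this
  have h3' : ((N - J.card).factorial : ℝ) * (((N - J.card : ℕ) : ℝ) + 1) ^ J.card ≤ N.factorial := by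
    exact_mod_cast h3
  have hNr : (0 : ℝ) < N := by exact_mod_cast hN
  have h4 : (N : ℝ) / 2 ≤ ((N - J.card : ℕ) : ℝ) + 1 := by
    rw [Nat.cast_sub (by omega : J.card ≤ N)]
    have : (2 : ℝ) * J.card ≤ N := by exact_mod_cast h2
    linarith
  have h5 : ((N : ℝ) / 2) ^ J.card ≤ (((N - J.card : ℕ) : ℝ) + 1) ^ J.card :=
    pow_le_pow_left₀ (by positivity) h4 _
  have h6 : (b : ℝ) ^ J.card = (2 * b / N) ^ J.card * ((N : ℝ) / 2) ^ J.card := by
    rw [← mul_pow]
    congr 1
    field_simp
  rw [h6, mul_assoc]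
  refine mul_le_mul_of_nonneg_left ?_ (by positivity)
  refine le_trans ?_ h3'
  rw [mul_comm]
  exact mul_le_mul_of_nonneg_left h5 (Nat.cast_nonneg _)

theorem perm_same {N : ℕ} (J W : Finset (Fin N)) :
    ((univ.filter (fun g : Equiv.Perm (Fin N) => ∀ c ∈ J, g c ∈ W)).card : ℝ) ≤
      ((W.card : ℝ) / N) ^ J.card * Fintype.card (Equiv.Perm (Fin N)) := by
  induction J using Finset.induction_on with
  | empty =>
    rw [Finset.card_empty, pow_zero, one_mul]
    exact_mod_cast Finset.card_le_univ _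
  | insert i0 J hi0 ih =>
    have hst := perm_step J i0 hi0 (fun i => i) (fun i _ j _ h => h) (fun _ => W)
    have hle := PM_le (insert i0 J) (fun i => i) (fun i _ j _ h => h)
    rw [Finset.card_insert_of_notMem hi0] at hle
    have hNJ : (J.card : ℝ) + 1 ≤ N := by exact_mod_cast hle
    have hN : (0 : ℝ) < N := by
      have : (0 : ℝ) ≤ J.card := Nat.cast_nonneg _
      linarith
    have hWN : (W.card : ℝ) ≤ N := by
      have := Finset.card_le_univ W
      rw [Fintype.card_fin] at this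
      exact_mod_cast this
    have h1 : ∀ g ∈ univ.filter (fun g : Equiv.Perm (Fin N) => ∀ i ∈ J, g i ∈ W),
        ((((univ : Finset (Fin N)) \ J.image (fun i => i)).filter (fun x => g x ∈ W)).card : ℝ) ≤
          (W.card : ℝ) / N * (N - J.card) := by
      intro g hg
      rw [mem_filter] at hg
      have e1 : (((univ : Finset (Fin N)) \ J.image (fun i => i)).filter (fun x => g x ∈ W)) =
          (univ.filter (fun x => g x ∈ W)) \ J := by
        ext x
        simp only [mem_filter, mem_sdiff, mem_univ, true_and, mem_image, exists_eq_right]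
        tauto
      have e2 : J ⊆ univ.filter (fun x => g x ∈ W) := fun x hx => by
        rw [mem_filter]
        exact ⟨mem_univ _, hg.2 x hx⟩
      have e3 : (univ.filter (fun x => g x ∈ W)).card = W.card := by
        refine Finset.card_nbij' g g.symm ?_ ?_ ?_ ?_
        · intro x hx
          exact (mem_filter.1 hx).2
        · intro x hx
          refine mem_filter.2 ⟨mem_univ _, ?_⟩
          rw [Equiv.apply_symm_apply]
          exact hx
        · intro x _
          exact g.symm_apply_apply x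
        · intro x _
          exact g.apply_symm_apply x
      have e4 : J.card ≤ W.card := by
        rw [← e3]
        exact Finset.card_le_card e2
      rw [e1, Finset.card_sdiff_of_subset e2, e3, Nat.cast_sub e4, div_mul_eq_mul_div,
        le_div_iff₀ hN]
      have : (0 : ℝ) ≤ J.card := Nat.cast_nonneg _
      nlinarith
    have h2 : ((univ.filter (fun g : Equiv.Perm (Fin N) => ∀ i ∈ insert i0 J, g i ∈ W)).card : ℝ) *
        (N - J.card) ≤
        (univ.filter (fun g : Equiv.Perm (Fin N) => ∀ i ∈ J, g i ∈ W)).card *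
          ((W.card : ℝ) / N * (N - J.card)) := by
      have h3 : ((univ.filter (fun g : Equiv.Perm (Fin N) => ∀ i ∈ insert i0 J, g i ∈ W)).card : ℝ) *
        ((N - J.card : ℕ) : ℝ) =
        ∑ g ∈ univ.filter (fun g : Equiv.Perm (Fin N) => ∀ i ∈ J, g i ∈ W),
        ((((univ : Finset (Fin N)) \ J.image (fun i => i)).filter (fun x => g x ∈ W)).card : ℝ) := by
        have hst' : (univ.filter (fun g : Equiv.Perm (Fin N) => ∀ i ∈ insert i0 J, g i ∈ W)).card *
          (N - J.card) =
          ∑ g ∈ univ.filter (fun g : Equiv.Perm (Fin N) => ∀ i ∈ J, g i ∈ W),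
          (((univ : Finset (Fin N)) \ J.image (fun i => i)).filter (fun x => g x ∈ W)).card := by
          have hD : (fun a b : Fin N => Classical.propDecidable (a = b)) = instDecidableEqFin N :=
            Subsingleton.elim _ _
          rw [hD] at hst
          refine Eq.trans (congrArg (fun t : Finset (Equiv.Perm (Fin N)) => t.card * (N - J.card))
            (PM_dec _ _ _ _)) (hst.trans (Finset.sum_congr (PM_dec _ _ _ _) (fun _ _ => ?_)))
          rfl
        exact_mod_cast hst'
      rw [Nat.cast_sub (by omega : J.card ≤ N)] at h3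
      rw [h3, ← nsmul_eq_mul]
      exact Finset.sum_le_card_nsmul _ _ _ h1
    have hpos : (0 : ℝ) < N - J.card := by linarith
    have h4 : ((univ.filter (fun g : Equiv.Perm (Fin N) => ∀ i ∈ insert i0 J, g i ∈ W)).card : ℝ) ≤
        (univ.filter (fun g : Equiv.Perm (Fin N) => ∀ i ∈ J, g i ∈ W)).card *
          ((W.card : ℝ) / N) := by
      refine le_of_mul_le_mul_right ?_ hpos
      rw [mul_assoc]
      exact h2
    rw [Finset.card_insert_of_notMem hi0, pow_succ]
    refine h4.trans ?_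
    have h5 : (0 : ℝ) ≤ (W.card : ℝ) / N := by positivity
    refine (mul_le_mul_of_nonneg_right ih h5).trans (le_of_eq ?_)
    ring

end Pool.Agent.H67.HY
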