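/-
ROW PMa. Sharp concentration under a random permutation.
PROOF. `m_c = #{ρ : f ρ = some c} ≤ m`, `X g = #{ρ : ∃ c, f ρ = some c ∧ g c ∈ W} = ∑_c if g c ∈ W then m_c else 0` (partition of the `ρ` by colour). `y = |W|/N ∈ [0,1]`, `a = |R| |W|/N`. `∑_c y m_c = y #{ρ : f ρ ≠ none} ∈ [(1-δ/2) a, a]`. `a > 0` from `hlam` (`m ≥ 1`, `lam ≥ 0`).
Upper: `chernoff_upper` with `Ω = Perm (Fin N)`, `S = univ`, `B c g = (g c ∈ W)`, `hB` by `perm_same`, `μ = a`, `t = δ a`: `min (δ² a/(4m)) (δ a/(2m)) = .. ≥ δ² a/(4m) ≥ lam + 1` (`δ ≤ 1`). Lower: `hB`: `#{g : ∀ c ∈ J, ¬ g c ∈ W} ≤ (1 - y)^|J| N!` by `perm_same` for `Wᶜ` (`card = N - |W|`); `μ = (1-δ/2) a`, `t = δ a/2 ≤ μ`,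
`μ - t = (1-δ) a`, `t²/(4mμ) ≥ δ² a/(16 m) ≥ lam + 1`. If not `|X - a| ≤ δ a` then `X ≥ a + δ a` or `X ≤ a - δ a`. Total `2 exp(-(lam+1)) ≤ exp(-lam)` (`exp 1 ≥ 2`).
-/
import Pool.Agent.H67.HY.GC
import Pool.Agent.H67.HY.PM

set_option autoImplicit false

namespace Pool.Agent.H67.HY

open Finset
open Classical

theorem PMa_sum {R : Type} [Fintype R] {N : ℕ} (f : R → Option (Fin N)) (P : Fin N → Prop) :
    ((univ.filter (fun ρ => ∃ c, f ρ = some c ∧ P c)).card : ℝ) =
      ∑ c : Fin N, if P c then ((univ.filter (fun ρ => f ρ = some c)).card : ℝ) else 0 := by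
  have h : univ.filter (fun ρ => ∃ c, f ρ = some c ∧ P c) =
      (univ.filter (fun c => P c)).biUnion (fun c => univ.filter (fun ρ => f ρ = some c)) := by
    ext ρ
    simp only [mem_filter, mem_univ, true_and, mem_biUnion]
    constructor
    · rintro ⟨c, h1, h2⟩
      exact ⟨c, h2, h1⟩
    · rintro ⟨c, h1, h2⟩
      exact ⟨c, h2, h1⟩
  rw [h, Finset.card_biUnion]
  · push_cast
    rw [Finset.sum_filter]
  · intro c _ d _ hcd
    refine Finset.disjoint_left.2 ?_
    intro ρ h1 h2
    rw [mem_filter] at h1 h2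
    rw [h1.2] at h2
    exact hcd (Option.some_injective _ h2.2)

theorem perm_L1 {R : Type} [Fintype R] {N : ℕ} (f : R → Option (Fin N)) (W : Finset (Fin N))
    (m : ℕ) (δ lam : ℝ) (hm1 : 1 ≤ m) (hm : ∀ c, (univ.filter (fun ρ => f ρ = some c)).card ≤ m)
    (hu : ((univ.filter (fun ρ => f ρ = none)).card : ℝ) ≤ δ / 2 * Fintype.card R)
    (hδ0 : 0 < δ) (hδ1 : δ ≤ 1) (hlam0 : 0 ≤ lam)
    (hlam : 16 * m * (lam + 1) ≤ δ ^ 2 * (Fintype.card R * W.card / N)) :
    ((univ.filter (fun g : Equiv.Perm (Fin N) =>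
      ¬ |((univ.filter (fun ρ => ∃ c, f ρ = some c ∧ g c ∈ W)).card : ℝ) -
        Fintype.card R * W.card / N| ≤ δ * (Fintype.card R * W.card / N))).card : ℝ) ≤
      Real.exp (-lam) * Fintype.card (Equiv.Perm (Fin N)) := by
  have hm1' : (1 : ℝ) ≤ m := by exact_mod_cast hm1
  have hm0 : (0 : ℝ) < m := by linarith
  set a : ℝ := Fintype.card R * W.card / N with ha
  have ha0 : 0 < a := by
    by_contra hneg
    push Not at hneg
    have h1 : δ ^ 2 * a ≤ 0 := mul_nonpos_of_nonneg_of_nonpos (sq_nonneg _) hneg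
    have h2 : 0 < 16 * (m : ℝ) * (lam + 1) := by positivity
    linarith
  have hN : (N : ℝ) ≠ 0 := by
    intro h0
    rw [h0, div_zero] at ha
    linarith
  have hN0 : (0 : ℝ) < N := lt_of_le_of_ne (Nat.cast_nonneg _) (Ne.symm hN)
  set y : ℝ := (W.card : ℝ) / N with hy
  have hy0 : 0 ≤ y := by positivity
  have hWN : W.card ≤ N := by
    have := Finset.card_le_univ W
    rwa [Fintype.card_fin] at this
  have hy1 : y ≤ 1 := by
    rw [hy, div_le_one hN0]
    exact_mod_cast hWN
  have hay : a = y * Fintype.card R := by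
    rw [ha, hy]
    ring
  -- the sum of the multiplicities
  have hS : (∑ c : Fin N, ((univ.filter (fun ρ => f ρ = some c)).card : ℝ)) +
      ((univ.filter (fun ρ => f ρ = none)).card : ℝ) = Fintype.card R := by
    have h1 := PMa_sum f (fun _ => True)
    simp only [and_true, if_true] at h1
    rw [← h1]
    have h2 := Finset.card_filter_add_card_filter_not (s := (univ : Finset R))
      (fun ρ => f ρ = none)
    have h3 : (univ.filter (fun ρ : R => ¬ f ρ = none)) = univ.filter (fun ρ => ∃ c, f ρ = some c) := by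
      ext ρ
      simp only [mem_filter, mem_univ, true_and]
      exact Option.ne_none_iff_exists'
    rw [h3, Finset.card_univ] at h2
    have h4 : ((univ.filter (fun ρ => f ρ = none)).card : ℝ) +
      ((univ.filter (fun ρ => ∃ c, f ρ = some c)).card : ℝ) = Fintype.card R := by
      exact_mod_cast h2
    linarith
  have hsum : ∑ c : Fin N, y * ((univ.filter (fun ρ => f ρ = some c)).card : ℝ) =
      y * (Fintype.card R - ((univ.filter (fun ρ => f ρ = none)).card : ℝ)) := by
    rw [← Finset.mul_sum]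
    congr 1
    linarith
  have hup : ∑ c : Fin N, y * ((univ.filter (fun ρ => f ρ = some c)).card : ℝ) ≤ a := by
    rw [hsum, hay]
    have : (0 : ℝ) ≤ ((univ.filter (fun ρ => f ρ = none)).card : ℝ) := Nat.cast_nonneg _
    exact mul_le_mul_of_nonneg_left (by linarith) hy0
  have hlo : (1 - δ / 2) * a ≤ ∑ c : Fin N, y * ((univ.filter (fun ρ => f ρ = some c)).card : ℝ) := by
    rw [hsum, hay]
    have h1 : (1 - δ / 2) * (Fintype.card R : ℝ) ≤
      Fintype.card R - ((univ.filter (fun ρ => f ρ = none)).card : ℝ) := by linarith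
    calc (1 - δ / 2) * (y * Fintype.card R) = y * ((1 - δ / 2) * (Fintype.card R : ℝ)) := by ring
      _ ≤ _ := mul_le_mul_of_nonneg_left h1 hy0
  -- the two tails
  obtain ⟨B, hB⟩ : ∃ B : Fin N → Equiv.Perm (Fin N) → Prop, B = fun c g => g c ∈ W := ⟨_, rfl⟩
  have hX : ∀ g : Equiv.Perm (Fin N),
      ((univ.filter (fun ρ => ∃ c, f ρ = some c ∧ g c ∈ W)).card : ℝ) =
      ∑ c : Fin N, if B c g then ((univ.filter (fun ρ => f ρ = some c)).card : ℝ) else 0 := by
    intro g
    have h1 := PMa_sum f (fun c => B c g)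
    rw [← h1]
    subst hB
    congr
  have hU := chernoff_upper (Ω := Equiv.Perm (Fin N)) (univ : Finset (Fin N))
    B (fun c => ((univ.filter (fun ρ => f ρ = some c)).card : ℝ))
    (fun _ => y) m a (δ * a) hm0 (fun _ _ => Nat.cast_nonneg _)
    (fun c _ => by exact_mod_cast hm c) (fun _ _ => hy0)
    (fun J _ => by
      rw [Finset.prod_const, hB]
      convert perm_same J W) hup ha0 (by positivity)
  have hL := chernoff_lower (Ω := Equiv.Perm (Fin N)) (univ : Finset (Fin N))
    B (fun c => ((univ.filter (fun ρ => f ρ = some c)).card : ℝ))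
    (fun _ => y) m ((1 - δ / 2) * a) (δ * a / 2) hm0 (fun _ _ => Nat.cast_nonneg _)
    (fun c _ => by exact_mod_cast hm c) (fun _ _ => hy0) (fun _ _ => hy1)
    (fun J _ => by
      rw [Finset.prod_const, hB]
      have h1 := perm_same J Wᶜ
      have h2 : ((Wᶜ.card : ℕ) : ℝ) / N = 1 - y := by
        rw [Finset.card_compl, Fintype.card_fin, Nat.cast_sub hWN, hy]
        field_simp
      rw [h2] at h1
      simp only [Finset.mem_compl] at h1
      convert h1) hlo (mul_pos (by linarith) ha0) (by positivity) (by nlinarith)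
  have hexp1 : Real.exp (-(min ((δ * a) ^ 2 / (4 * m * a)) (δ * a / (2 * m)))) ≤
      Real.exp (-(lam + 1)) := by
    refine Real.exp_le_exp.2 (neg_le_neg (le_min ?_ ?_))
    · rw [le_div_iff₀ (by positivity)]
      nlinarith [mul_le_mul_of_nonneg_right hlam ha0.le, mul_nonneg hm0.le
        (mul_nonneg (by linarith : (0:ℝ) ≤ lam + 1) ha0.le)]
    · rw [le_div_iff₀ (by positivity)]
      have h1 : δ ^ 2 * a ≤ δ * a := by
        have : δ ^ 2 ≤ δ := by nlinarith
        exact mul_le_mul_of_nonneg_right this ha0.le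
      have h2 : 0 ≤ (m : ℝ) * (lam + 1) := by positivity
      linarith
  have hexp2 : Real.exp (-((δ * a / 2) ^ 2 / (4 * m * ((1 - δ / 2) * a)))) ≤
      Real.exp (-(lam + 1)) := by
    refine Real.exp_le_exp.2 (neg_le_neg ?_)
    have h1 : 0 < (1 - δ / 2) * a := mul_pos (by linarith) ha0
    rw [le_div_iff₀ (by positivity)]
    have h2 : (1 - δ / 2) * a ≤ a := by nlinarith
    have h3 : 0 ≤ (lam + 1) * (4 * (m : ℝ)) := by positivity
    calc (lam + 1) * (4 * m * ((1 - δ / 2) * a)) = (lam + 1) * (4 * m) * ((1 - δ / 2) * a) := by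
          ring
      _ ≤ (lam + 1) * (4 * m) * a := mul_le_mul_of_nonneg_left h2 h3
      _ = 16 * m * (lam + 1) * a / 4 := by ring
      _ ≤ δ ^ 2 * a * a / 4 := by
          have := mul_le_mul_of_nonneg_right hlam ha0.le
          linarith
      _ = (δ * a / 2) ^ 2 := by ring
  have hcard : (0 : ℝ) ≤ Fintype.card (Equiv.Perm (Fin N)) := Nat.cast_nonneg _
  have hU' := hU.trans (mul_le_mul_of_nonneg_right hexp1 hcard)
  have hL' := hL.trans (mul_le_mul_of_nonneg_right hexp2 hcard)
  have hsub : (univ.filter (fun g : Equiv.Perm (Fin N) =>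
      ¬ |((univ.filter (fun ρ => ∃ c, f ρ = some c ∧ g c ∈ W)).card : ℝ) - a| ≤ δ * a)) ⊆
      (univ.filter (fun g : Equiv.Perm (Fin N) => a + δ * a ≤
        ∑ c : Fin N, if B c g then ((univ.filter (fun ρ => f ρ = some c)).card : ℝ) else 0)) ∪
      (univ.filter (fun g : Equiv.Perm (Fin N) =>
        (∑ c : Fin N, if B c g then ((univ.filter (fun ρ => f ρ = some c)).card : ℝ) else 0) ≤
          (1 - δ / 2) * a - δ * a / 2)) := by
    intro g hg
    rw [mem_filter] at hg
    have hg2 := hg.2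
    rw [hX g, abs_le, not_and_or] at hg2
    rw [mem_union, mem_filter, mem_filter]
    rcases hg2 with h | h
    · right
      refine ⟨mem_univ _, ?_⟩
      push Not at h
      linarith
    · left
      refine ⟨mem_univ _, ?_⟩
      push Not at h
      linarith
  have hc := (Finset.card_le_card hsub).trans (Finset.card_union_le _ _)
  have hc' : ((univ.filter (fun g : Equiv.Perm (Fin N) =>
      ¬ |((univ.filter (fun ρ => ∃ c, f ρ = some c ∧ g c ∈ W)).card : ℝ) - a| ≤ δ * a)).card : ℝ) ≤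
      ((univ.filter (fun g : Equiv.Perm (Fin N) => a + δ * a ≤
        ∑ c : Fin N, if B c g then ((univ.filter (fun ρ => f ρ = some c)).card : ℝ) else 0)).card : ℝ) +
      ((univ.filter (fun g : Equiv.Perm (Fin N) =>
        (∑ c : Fin N, if B c g then ((univ.filter (fun ρ => f ρ = some c)).card : ℝ) else 0) ≤
          (1 - δ / 2) * a - δ * a / 2)).card : ℝ) := by
    exact_mod_cast hc
  have he : 2 * Real.exp (-(lam + 1)) ≤ Real.exp (-lam) := by
    have h1 : Real.exp (-lam) = Real.exp 1 * Real.exp (-(lam + 1)) := by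
      rw [← Real.exp_add]
      congr 1
      ring
    rw [h1]
    have h2 : (2 : ℝ) ≤ Real.exp 1 := by
      have := Real.add_one_le_exp (1 : ℝ)
      linarith
    exact mul_le_mul_of_nonneg_right h2 (Real.exp_pos _).le
  calc _ ≤ _ := hc'
    _ ≤ Real.exp (-(lam + 1)) * Fintype.card (Equiv.Perm (Fin N)) +
        Real.exp (-(lam + 1)) * Fintype.card (Equiv.Perm (Fin N)) := add_le_add hU' hL'
    _ = 2 * Real.exp (-(lam + 1)) * Fintype.card (Equiv.Perm (Fin N)) := by ring
    _ ≤ _ := mul_le_mul_of_nonneg_right he hcard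

end Pool.Agent.H67.HY
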