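/-
ROW PMb. Pairs and classes under a random permutation.
PROOF. `greedy`: induction on `k` (for all `S`): `k = 0`: `∅`. `k+1`: `S` is nonempty (`d (k+1) ≤ |S|`, `d ≥ 1`); pick `i ∈ S`, `S' = S.filter (¬ conf i ·)`, `|S'| ≥ |S| - d ≥ d k`, IH gives `J' ⊆ S'`; `J = insert i J'` (`i ∉ S'` by reflexivity). Symmetry of `conf` gives both directions.
`perm_class`: if `m t < #{i ∈ S : ∃ c, f i = some c ∧ g c ∈ W i}`, apply `greedy` to this set `S_g` with `conf i j := f i = f j` (`d = m`: `f i = some c`, `hm`; if `m = 0` then `S_g` is empty) to get `J ⊆ S_g`, `|J| = t`, with distinct colours. For fixed `J` with `f i = some (c i)` distinct on `J`, the number of `g` with `g (c i) ∈ W i` is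
`≤ (2b/N)^t N!` (`perm_count2`; `N > 0` as `1 ≤ t`, `2 t ≤ N`). Union over `J ∈ S.powersetCard t`: `choose |S| t * (2b/N)^t ≤ exp(-t)` by `choose_mul_pow_le` (`9 (|S| 2b/N) ≤ t`).
`perm_pairs`: if `4 m lam < #{..}`: `greedy` with `k = lam`, `d = 4 m`, `conf ρ ρ'` := the colour pairs `{f1 ρ, f2 ρ}`, `{f1 ρ', f2 ρ'}` meet (`f1 ρ = f1 ρ' ∨ f1 ρ = f2 ρ' ∨ f2 ρ = f1 ρ' ∨ f2 ρ = f2 ρ'`): for fixed `ρ` (both coloured) each alternative has `≤ m` solutions `ρ'`. So `J`, `|J| = lam`, pairwise disjoint colour pairs, `c ≠ c'` in each;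
`perm_count2` with index set `J ×ˢ {true,false}` (`2 lam` distinct colours, windows `W1`, `W2`, `2 (2 lam) ≤ N`): `≤ (2b/N)^(2 lam) N! = (4 b²/N²)^lam N!`; union over `powersetCard lam univ`, `choose_mul_pow_le` with `y = 4b²/N²`: `9 |R| 4 b²/N² ≤ lam`.
-/
import Pool.Agent.H67.HY.UC
import Pool.Agent.H67.HY.PM

set_option autoImplicit false

namespace Pool.Agent.H67.HY

open Finset
open Classical

theorem PMb_mf {α : Type} {p : α → Prop} {inst : DecidablePred p} {s : Finset α} {a : α} :
    a ∈ @Finset.filter α p inst s ↔ a ∈ s ∧ p a := Finset.mem_filter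

theorem PMb_fe {α : Type} {p : α → Prop} {inst : DecidablePred p} {s : Finset α} :
    @Finset.filter α p inst s = ∅ ↔ ∀ ⦃x⦄, x ∈ s → ¬ p x := Finset.filter_eq_empty_iff

theorem PMb_union {I Ω : Type} [Fintype Ω] (S : Finset I) (k : ℕ) (E : Ω → Prop)
    [DecidablePred E] (P : Finset I → Ω → Prop) (y : ℝ) (hy : 0 ≤ y)
    (hE : ∀ ω, E ω → ∃ J ⊆ S, J.card = k ∧ P J ω)
    (hP : ∀ J ⊆ S, J.card = k →
      ((univ.filter (fun ω => P J ω)).card : ℝ) ≤ y ^ k * Fintype.card Ω)
    (h9 : 9 * (S.card * y) ≤ k) :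
    ((univ.filter (fun ω => E ω)).card : ℝ) ≤ Real.exp (-k) * Fintype.card Ω := by
  have hsub : univ.filter (fun ω => E ω) ⊆
      (S.powersetCard k).biUnion (fun J => univ.filter (fun ω => P J ω)) := by
    intro ω hω
    obtain ⟨J, hJ, hJk, hPJ⟩ := hE ω (mem_filter.1 hω).2
    rw [Finset.mem_biUnion]
    exact ⟨J, Finset.mem_powersetCard.2 ⟨hJ, hJk⟩, mem_filter.2 ⟨mem_univ _, hPJ⟩⟩
  have h1 : ((univ.filter (fun ω => E ω)).card : ℝ) ≤
      ∑ J ∈ S.powersetCard k, ((univ.filter (fun ω => P J ω)).card : ℝ) := by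
    have := (Finset.card_le_card hsub).trans Finset.card_biUnion_le
    exact_mod_cast this
  have h2 : ∑ J ∈ S.powersetCard k, ((univ.filter (fun ω => P J ω)).card : ℝ) ≤
      ∑ J ∈ S.powersetCard k, y ^ k * Fintype.card Ω := by
    refine Finset.sum_le_sum (fun J hJ => ?_)
    rw [Finset.mem_powersetCard] at hJ
    exact hP J hJ.1 hJ.2
  refine h1.trans (h2.trans ?_)
  rw [Finset.sum_const, Finset.card_powersetCard, nsmul_eq_mul, ← mul_assoc]
  exact mul_le_mul_of_nonneg_right (choose_mul_pow_le _ _ _ hy h9) (Nat.cast_nonneg _)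

theorem greedy {I : Type} (conf : I → I → Prop) (hrefl : ∀ i, conf i i)
    (hsymm : ∀ i j, conf i j → conf j i) (d : ℕ) (hd1 : 1 ≤ d) (k : ℕ) (S : Finset I)
    (hd : ∀ i ∈ S, (S.filter (fun j => conf i j)).card ≤ d) (hS : d * k ≤ S.card) :
    ∃ J ⊆ S, J.card = k ∧ ∀ i ∈ J, ∀ j ∈ J, i ≠ j → ¬ conf i j := by
  induction k generalizing S with
  | zero => exact ⟨∅, Finset.empty_subset _, rfl, by simp⟩
  | succ k ih =>
    have hne : S.Nonempty := by
      rw [← Finset.card_pos]
      have : 1 * 1 ≤ d * (k + 1) := Nat.mul_le_mul hd1 (Nat.succ_le_succ (Nat.zero_le k))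
      omega
    obtain ⟨i, hi⟩ := hne
    have hcard : (S.filter (fun j => conf i j)).card + (S.filter (fun j => ¬ conf i j)).card =
        S.card := Finset.card_filter_add_card_filter_not _
    have hdi := hd i hi
    have hmul : d * (k + 1) = d * k + d := by ring
    obtain ⟨J, hJS, hJk, hJ⟩ := ih (S.filter (fun j => ¬ conf i j)) (fun i' hi' => by
      refine le_trans (Finset.card_le_card ?_) (hd i' (Finset.filter_subset _ _ hi'))
      exact Finset.filter_subset_filter _ (Finset.filter_subset _ _)) (by omega)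
    have hiJ : i ∉ J := fun h => (mem_filter.1 (hJS h)).2 (hrefl i)
    refine ⟨insert i J, ?_, ?_, ?_⟩
    · intro j hj
      rw [Finset.mem_insert] at hj
      rcases hj with rfl | hj
      · exact hi
      · exact Finset.filter_subset _ _ (hJS hj)
    · rw [Finset.card_insert_of_notMem hiJ, hJk]
    · intro a ha b hb hab
      rw [Finset.mem_insert] at ha hb
      rcases ha with rfl | ha
      · rcases hb with rfl | hb
        · exact absurd rfl hab
        · exact (mem_filter.1 (hJS hb)).2
      · rcases hb with rfl | hb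
        · exact fun h => (mem_filter.1 (hJS ha)).2 (hsymm _ _ h)
        · exact hJ a ha b hb hab

theorem perm_class {I : Type} {N : ℕ} (S : Finset I) (f : I → Option (Fin N))
    (W : I → Finset (Fin N)) (m b t : ℕ)
    (hm : ∀ c, (S.filter (fun i => f i = some c)).card ≤ m) (hW : ∀ i ∈ S, (W i).card ≤ b)
    (ht : 1 ≤ t) (h2 : 2 * t ≤ N) (hb : 18 * (S.card * b) ≤ t * N) :
    ((univ.filter (fun g : Equiv.Perm (Fin N) => m * t <
      (S.filter (fun i => ∃ c, f i = some c ∧ g c ∈ W i)).card)).card : ℝ) ≤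
      Real.exp (-t) * Fintype.card (Equiv.Perm (Fin N)) := by
  have hN : 0 < N := by omega
  have hNr : (0 : ℝ) < N := by exact_mod_cast hN
  refine PMb_union S t _ (fun J g => (∀ i ∈ J, ∀ j ∈ J, i ≠ j → ¬ f i = f j) ∧
    ∀ i ∈ J, ∃ c, f i = some c ∧ g c ∈ W i) (2 * b / N) (by positivity) ?_ ?_ ?_
  · intro g hg
    set Sg := S.filter (fun i => ∃ c, f i = some c ∧ g c ∈ W i) with hSg
    have hm1 : 1 ≤ m := by
      by_contra h0
      have hm0 : m = 0 := by omega
      rw [hm0, zero_mul] at hg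
      obtain ⟨i, hi⟩ := Finset.card_pos.1 hg
      rw [hSg, mem_filter] at hi
      obtain ⟨hiS, c, hc, -⟩ := hi
      have := hm c
      rw [hm0] at this
      have h3 : i ∈ S.filter (fun i => f i = some c) := mem_filter.2 ⟨hiS, hc⟩
      rw [Nat.le_zero, Finset.card_eq_zero] at this
      rw [this] at h3
      exact absurd h3 (Finset.notMem_empty _)
    obtain ⟨J, hJS, hJt, hJ⟩ := greedy (fun i j => f i = f j) (fun _ => rfl)
      (fun _ _ h => h.symm) m hm1 t Sg (fun i hi => by
        rw [hSg, mem_filter] at hi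
        obtain ⟨hiS, c, hc, -⟩ := hi
        refine le_trans (Finset.card_le_card ?_) (hm c)
        intro j hj
        rw [PMb_mf, hSg, PMb_mf] at hj
        rw [PMb_mf]
        exact ⟨hj.1.1, hj.2 ▸ hc⟩) hg.le
    exact ⟨J, hJS.trans (Finset.filter_subset _ _), hJt, hJ, fun i hi =>
      (mem_filter.1 (hJS hi)).2⟩
  · intro J hJS hJt
    by_cases hex : ∃ g : Equiv.Perm (Fin N), (∀ i ∈ J, ∀ j ∈ J, i ≠ j → ¬ f i = f j) ∧
        ∀ i ∈ J, ∃ c, f i = some c ∧ g c ∈ W i
    · obtain ⟨g0, hdist, hg0⟩ := hex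
      have hc : ∀ i ∈ J, f i = some ((f i).getD ⟨0, hN⟩) := by
        intro i hi
        obtain ⟨c, hc, -⟩ := hg0 i hi
        rw [hc, Option.getD_some]
      have hmain := perm_count2 J (fun i => (f i).getD ⟨0, hN⟩) (fun i hi j hj hij => by
        by_contra hne
        apply hdist i hi j hj hne
        rw [hc i hi, hc j hj]
        exact congrArg some hij) W b (fun i hi => hW i (hJS hi)) (by omega)
      rw [hJt] at hmain
      refine le_trans (Nat.cast_le.2 (Finset.card_le_card ?_)) hmain
      intro g hg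
      rw [PMb_mf] at hg ⊢
      refine ⟨mem_univ _, fun i hi => ?_⟩
      obtain ⟨c, hc', hgc⟩ := hg.2.2 i hi
      rw [hc', Option.getD_some]
      exact hgc
    · refine le_trans (le_of_eq (?_ : _ = (0 : ℝ))) (by positivity)
      rw [Nat.cast_eq_zero, Finset.card_eq_zero, PMb_fe]
      exact fun g _ hg => hex ⟨g, hg⟩
  · have hb' : 18 * ((S.card : ℝ) * b) ≤ t * N := by exact_mod_cast hb
    have : 9 * ((S.card : ℝ) * (2 * b / N)) = 18 * ((S.card : ℝ) * b) / N := by ring
    rw [this, div_le_iff₀ hNr]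
    exact hb'

theorem perm_pairs {R : Type} [Fintype R] {N : ℕ} (f1 f2 : R → Option (Fin N))
    (W1 W2 : Finset (Fin N)) (m b lam : ℕ)
    (h1 : ∀ c, (univ.filter (fun ρ => f1 ρ = some c)).card ≤ m)
    (h2 : ∀ c, (univ.filter (fun ρ => f2 ρ = some c)).card ≤ m)
    (hW1 : W1.card ≤ b) (hW2 : W2.card ≤ b) (hlam : 1 ≤ lam) (h4 : 4 * lam ≤ N)
    (hb : 36 * (Fintype.card R * b ^ 2) ≤ lam * N ^ 2) :
    ((univ.filter (fun g : Equiv.Perm (Fin N) => 4 * (m * lam) <
      (univ.filter (fun ρ => ∃ c c', f1 ρ = some c ∧ f2 ρ = some c' ∧ c ≠ c' ∧ g c ∈ W1 ∧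
        g c' ∈ W2)).card)).card : ℝ) ≤
      Real.exp (-lam) * Fintype.card (Equiv.Perm (Fin N)) := by
  have hN : 0 < N := by omega
  have hNr : (0 : ℝ) < N := by exact_mod_cast hN
  set conf : R → R → Prop := fun ρ ρ' =>
    f1 ρ = f1 ρ' ∨ f1 ρ = f2 ρ' ∨ f2 ρ = f1 ρ' ∨ f2 ρ = f2 ρ' with hconf
  refine PMb_union (univ : Finset R) lam _ (fun J g => (∀ i ∈ J, ∀ j ∈ J, i ≠ j → ¬ conf i j) ∧
    ∀ ρ ∈ J, ∃ c c', f1 ρ = some c ∧ f2 ρ = some c' ∧ c ≠ c' ∧ g c ∈ W1 ∧ g c' ∈ W2)
    ((2 * b / N) ^ 2) (by positivity) ?_ ?_ ?_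
  · intro g hg
    set Sg := univ.filter (fun ρ => ∃ c c', f1 ρ = some c ∧ f2 ρ = some c' ∧ c ≠ c' ∧
      g c ∈ W1 ∧ g c' ∈ W2) with hSg
    have hm1 : 1 ≤ m := by
      by_contra h0
      have hm0 : m = 0 := by omega
      rw [hm0, zero_mul, mul_zero] at hg
      obtain ⟨i, hi⟩ := Finset.card_pos.1 hg
      rw [hSg, mem_filter] at hi
      obtain ⟨-, c, c', hc, -⟩ := hi
      have := h1 c
      rw [hm0] at this
      have h3 : i ∈ univ.filter (fun i => f1 i = some c) := mem_filter.2 ⟨mem_univ _, hc⟩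
      rw [Nat.le_zero, Finset.card_eq_zero] at this
      rw [this] at h3
      exact absurd h3 (Finset.notMem_empty _)
    obtain ⟨J, hJS, hJt, hJ⟩ := greedy conf (fun _ => Or.inl rfl)
      (fun i j h => by
        rcases h with h | h | h | h
        · exact Or.inl h.symm
        · exact Or.inr (Or.inr (Or.inl h.symm))
        · exact Or.inr (Or.inl h.symm)
        · exact Or.inr (Or.inr (Or.inr h.symm))) (4 * m) (by omega) lam Sg (fun i hi => by
        rw [hSg, mem_filter] at hi
        obtain ⟨-, c, c', hc, hc', -⟩ := hi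
        have hsub : Sg.filter (fun j => conf i j) ⊆
            (univ.filter (fun ρ => f1 ρ = some c) ∪ univ.filter (fun ρ => f2 ρ = some c)) ∪
            (univ.filter (fun ρ => f1 ρ = some c') ∪ univ.filter (fun ρ => f2 ρ = some c')) := by
          intro j hj
          rw [mem_filter] at hj
          rw [Finset.mem_union, Finset.mem_union, Finset.mem_union, mem_filter, mem_filter,
            mem_filter, mem_filter]
          rcases hj.2 with h | h | h | h
          · exact Or.inl (Or.inl ⟨mem_univ _, h ▸ hc⟩)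
          · exact Or.inl (Or.inr ⟨mem_univ _, h ▸ hc⟩)
          · exact Or.inr (Or.inl ⟨mem_univ _, h ▸ hc'⟩)
          · exact Or.inr (Or.inr ⟨mem_univ _, h ▸ hc'⟩)
        have hc1 := Finset.card_union_le
          (univ.filter (fun ρ => f1 ρ = some c) ∪ univ.filter (fun ρ => f2 ρ = some c))
          (univ.filter (fun ρ => f1 ρ = some c') ∪ univ.filter (fun ρ => f2 ρ = some c'))
        have hc2 := Finset.card_union_le (univ.filter (fun ρ => f1 ρ = some c))
          (univ.filter (fun ρ => f2 ρ = some c))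
        have hc3 := Finset.card_union_le (univ.filter (fun ρ => f1 ρ = some c'))
          (univ.filter (fun ρ => f2 ρ = some c'))
        have hc4 := Finset.card_le_card hsub
        refine le_trans (le_of_eq (by congr)) (?_ : (Sg.filter (fun j => conf i j)).card ≤ 4 * m)
        have a1 := h1 c
        have a2 := h2 c
        have a3 := h1 c'
        have a4 := h2 c'
        omega) (by
          have : 4 * (m * lam) = 4 * m * lam := by ring
          omega)
    exact ⟨J, Finset.subset_univ _, hJt, hJ, fun i hi => (mem_filter.1 (hJS hi)).2⟩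
  · intro J _ hJt
    by_cases hex : ∃ g : Equiv.Perm (Fin N), (∀ i ∈ J, ∀ j ∈ J, i ≠ j → ¬ conf i j) ∧
        ∀ ρ ∈ J, ∃ c c', f1 ρ = some c ∧ f2 ρ = some c' ∧ c ≠ c' ∧ g c ∈ W1 ∧ g c' ∈ W2
    · obtain ⟨g0, hdist, hg0⟩ := hex
      have hc1 : ∀ i ∈ J, f1 i = some ((f1 i).getD ⟨0, hN⟩) := by
        intro i hi
        obtain ⟨c, c', hc, -⟩ := hg0 i hi
        rw [hc, Option.getD_some]
      have hc2 : ∀ i ∈ J, f2 i = some ((f2 i).getD ⟨0, hN⟩) := by
        intro i hi
        obtain ⟨c, c', -, hc, -⟩ := hg0 i hi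
        rw [hc, Option.getD_some]
      have hmain := perm_count2 (J ×ˢ (univ : Finset Bool))
        (fun p => if p.2 = true then (f1 p.1).getD ⟨0, hN⟩ else (f2 p.1).getD ⟨0, hN⟩)
        (fun i hi j hj hij => by
          rw [Finset.mem_product] at hi hj
          obtain ⟨i, a⟩ := i
          obtain ⟨j, a'⟩ := j
          simp only at hi hj hij
          have key : ¬ conf i j → (i = j → False) → False := by
            intro h3 _
            rw [hconf] at h3
            simp only [not_or] at h3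
            obtain ⟨k1, k2, k3, k4⟩ := h3
            cases a <;> cases a' <;>
              simp only [if_true, if_false, Bool.false_eq_true] at hij
            · exact k4 (by rw [hc2 i hi.1, hc2 j hj.1, hij])
            · exact k3 (by rw [hc2 i hi.1, hc1 j hj.1, hij])
            · exact k2 (by rw [hc1 i hi.1, hc2 j hj.1, hij])
            · exact k1 (by rw [hc1 i hi.1, hc1 j hj.1, hij])
          have hij' : i = j := by
            by_contra hne
            exact key (hdist i hi.1 j hj.1 hne) hne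
          subst hij'
          obtain ⟨c, c', e1, e2, hne, -⟩ := hg0 i hi.1
          rw [e1, e2] at hij
          simp only [Option.getD_some] at hij
          cases a <;> cases a' <;>
            simp only [if_true, if_false, Bool.false_eq_true] at hij
          · rfl
          · exact absurd hij.symm hne
          · exact absurd hij hne
          · rfl) (fun p => if p.2 = true then W1 else W2) b (fun p _ => by
            by_cases h : p.2 = true
            · simp only [h, if_true]
              exact hW1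
            · simp only [h]
              exact hW2) (by
            rw [Finset.card_product, hJt, Finset.card_univ, Fintype.card_bool]
            omega)
      have hcp : (J ×ˢ (univ : Finset Bool)).card = 2 * lam := by
        rw [Finset.card_product, hJt, Finset.card_univ, Fintype.card_bool, mul_comm]
      rw [hcp, pow_mul] at hmain
      refine le_trans (Nat.cast_le.2 (Finset.card_le_card ?_)) hmain
      intro g hg
      rw [PMb_mf] at hg ⊢
      refine ⟨mem_univ _, fun p hp => ?_⟩
      obtain ⟨ρ, a⟩ := p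
      rw [Finset.mem_product] at hp
      obtain ⟨c, c', e1, e2, -, g1, g2⟩ := hg.2.2 ρ hp.1
      cases a
      · simp only [Bool.false_eq_true, if_false, e2, Option.getD_some]
        exact g2
      · simp only [if_true, e1, Option.getD_some]
        exact g1
    · refine le_trans (le_of_eq (?_ : _ = (0 : ℝ))) (by positivity)
      rw [Nat.cast_eq_zero, Finset.card_eq_zero, PMb_fe]
      exact fun g _ hg => hex ⟨g, hg⟩
  · have hb' : 36 * ((Fintype.card R : ℝ) * (b : ℝ) ^ 2) ≤ lam * (N : ℝ) ^ 2 := by exact_mod_cast hb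
    rw [Finset.card_univ]
    have : 9 * ((Fintype.card R : ℝ) * (2 * b / N) ^ 2) =
        36 * ((Fintype.card R : ℝ) * (b : ℝ) ^ 2) / (N : ℝ) ^ 2 := by
      field_simp
      ring
    rw [this, div_le_iff₀ (by positivity)]
    exact hb'

end Pool.Agent.H67.HY
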