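/-
ROW LbB. The final properties have small failure probability.
PROOF. Let `m = T lam`, `φ` with `PropCol M φ`, `finOK T lam (ltst M) (lxs M) (lys M) v φ`. Note `(app g φ) x = (φ x).map g`: `∃ c, (app g φ) x = some c ∧ c ∈ W ↔ ∃ c, φ x = some c ∧ g c ∈ W`; for pairs: `c ≠ c' ↔ g c ≠ g c'`. By cases on `k`.
(PL1) if `b' ≤ |W|`, `W = Wd i κ` (otherwise nothing fails): `perm_L1` with `R = Fin r`, `f ρ = φ (far M i κ v ρ)`: `#{ρ : f ρ = some c} = #{x ∈ ltst (far) v : φ x = some c} ≤ m` (`far_inj`), `#{ρ : f ρ = none} ≤ 3 th^T r ≤ δ/2 r` (`h6`), `16 m (lam+1) ≤ δ² r b'/N ≤ δ² r |W|/N` (`hL1`).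
(PL2) `perm_pairs` with `f1 ρ = φ (M (i, inr ρ) v)` (multiplicities from the test set `inr (inl i)`), `f2 ρ = φ (far M i κ v ρ)`, `W1 = W2 = Wd i κ`, `B = 4 (m lam)`.
(PL3) `perm_pairs` with `f1 = φ ∘ far κ`, `f2 = φ ∘ far κ'`. (PL4) `perm_class` with `S = {κ : (κ : ZMod G) = g}`, `f κ = φ (M (i, inl κ) v)` (multiplicities from the test set `inr (inr (inl i))`), `W κ = Wd i κ`, `|S| ≤ nb/G + 1` (residue class: `Nat.count_modEq_card` or: `κ ↦ κ/G` is injective on `S` with values `≤ nb/G`),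
and `exp(-t) ≤ exp(-lam)`.
-/
import Pool.Agent.H67.HY.LbA
import Pool.Agent.H67.HY.PMa
import Pool.Agent.H67.HY.PMb

set_option autoImplicit false

namespace Pool.Agent.H67.HY

open Finset
open Classical

theorem LbB_card {V R : Type} [Fintype R] [DecidableEq V] (h : R → V)
    (hinj : Function.Injective h) (p : V → Prop) [DecidablePred p] :
    ((univ.image h).filter p).card = (univ.filter (fun ρ => p (h ρ))).card := by
  rw [Finset.filter_image, Finset.card_image_of_injective _ hinj]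

theorem LbB_one {N : ℕ} (g : Equiv.Perm (Fin N)) (o : Option (Fin N)) (W : Finset (Fin N)) :
    (∃ c, o.map g = some c ∧ c ∈ W) ↔ ∃ c, o = some c ∧ g c ∈ W := by
  constructor
  · rintro ⟨c, hc, hW⟩
    rw [Option.map_eq_some_iff] at hc
    obtain ⟨a, ha, rfl⟩ := hc
    exact ⟨a, ha, hW⟩
  · rintro ⟨c, hc, hW⟩
    exact ⟨g c, by rw [hc]; rfl, hW⟩

theorem LbB_two {N : ℕ} (g : Equiv.Perm (Fin N)) (o o' : Option (Fin N)) (W W' : Finset (Fin N)) :
    (∃ c c', o.map g = some c ∧ o'.map g = some c' ∧ c ≠ c' ∧ c ∈ W ∧ c' ∈ W') ↔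
      ∃ c c', o = some c ∧ o' = some c' ∧ c ≠ c' ∧ g c ∈ W ∧ g c' ∈ W' := by
  constructor
  · rintro ⟨c, c', hc, hc', hne, hW, hW'⟩
    rw [Option.map_eq_some_iff] at hc hc'
    obtain ⟨a, ha, rfl⟩ := hc
    obtain ⟨a', ha', rfl⟩ := hc'
    exact ⟨a, a', ha, ha', fun h => hne (by rw [h]), hW, hW'⟩
  · rintro ⟨c, c', hc, hc', hne, hW, hW'⟩
    exact ⟨g c, g c', by rw [hc]; rfl, by rw [hc']; rfl, fun h => hne (g.injective h), hW, hW'⟩

theorem LbB_class (nb G : ℕ) (g0 : ZMod G) :
    (univ.filter (fun κ : Fin nb => ((κ : ℕ) : ZMod G) = g0)).card ≤ nb / G + 1 := by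
  have h1 := Finset.card_le_card_of_injOn (s := univ.filter (fun κ : Fin nb => ((κ : ℕ) : ZMod G) = g0))
    (t := Finset.range (nb / G + 1)) (fun κ : Fin nb => (κ : ℕ) / G) ?_ ?_
  · rwa [Finset.card_range] at h1
  · intro κ _
    rw [Finset.mem_coe, Finset.mem_range]
    exact Nat.lt_succ_of_le (Nat.div_le_div_right κ.2.le)
  · intro κ hκ κ' hκ' h
    rw [Finset.mem_coe, Finset.mem_filter] at hκ hκ'
    have h2 : ((κ : ℕ) : ZMod G) = ((κ' : ℕ) : ZMod G) := hκ.2.trans hκ'.2.symm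
    rw [ZMod.natCast_eq_natCast_iff] at h2
    have h3 : (κ : ℕ) % G = (κ' : ℕ) % G := h2
    have h4 : (κ : ℕ) / G = (κ' : ℕ) / G := h
    have h5 := Nat.div_add_mod (κ : ℕ) G
    have h6 := Nat.div_add_mod (κ' : ℕ) G
    rw [h3, h4, h6] at h5
    exact Fin.ext h5.symm

theorem LP_prob {V : Type} [Fintype V] {q nb r N : ℕ}
    (M : Fin q × (Fin nb ⊕ Fin r) → V → V) (hM : IsFac M)
    (Wd : Fin q → Fin nb → Finset (Fin N)) (b b' T lam t G : ℕ) (δ : ℝ) (hG : 1 ≤ G)
    (hWd : ∀ i κ, (Wd i κ).card ≤ b) (hT : 1 ≤ T) (hlam : 1 ≤ lam)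
    (hδ0 : 0 < δ) (hδ1 : δ ≤ 1) (h6 : 6 * th ^ T ≤ δ)
    (hL1 : 16 * ((T * lam : ℕ) : ℝ) * (lam + 1) ≤ δ ^ 2 * (r * b' / N))
    (h36 : 36 * (r * b ^ 2) ≤ lam * N ^ 2) (h4 : 4 * lam ≤ N) (ht1 : lam ≤ t) (ht2 : 2 * t ≤ N)
    (h18 : 18 * ((nb / G + 1) * b) ≤ t * N) (k : LK3 q nb G) (v : V) (φ : V → Option (Fin N))
    (hφ : PropCol M φ) (hf : finOK T lam (ltst M) (lxs M) (lys M) v φ) :
    ((univ.filter (fun g : Equiv.Perm (Fin N) =>
      ¬ LP M Wd b' (4 * (T * lam * lam)) (T * lam * t) δ G k v (app g φ))).card : ℝ) ≤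
      Real.exp (-lam) * Fintype.card (Equiv.Perm (Fin N)) := by
  obtain ⟨hf1, hf2, -⟩ := hf
  have hpos : (0:ℝ) ≤ Real.exp (-lam) * Fintype.card (Equiv.Perm (Fin N)) := by positivity
  have hm1 : 1 ≤ T * lam := Nat.one_le_iff_ne_zero.2 (by positivity)
  -- multiplicities
  have hres : ∀ i c, (univ.filter (fun ρ : Fin r => φ (M (i, Sum.inr ρ) v) = some c)).card ≤
      T * lam := by
    intro i c
    have h1 := hf2 (Sum.inr (Sum.inl i)) c
    have hinj : Function.Injective (fun ρ : Fin r => M (i, Sum.inr ρ) v) := by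
      intro ρ ρ' h
      by_contra hne
      exact hM.dis (i, Sum.inr ρ) (i, Sum.inr ρ') v (fun h' => hne (by simpa using h')) h
    exact (LbB_card (fun ρ : Fin r => M (i, Sum.inr ρ) v) hinj (fun x => φ x = some c)).symm.trans_le h1
  have hbas : ∀ i c, (univ.filter (fun κ : Fin nb => φ (M (i, Sum.inl κ) v) = some c)).card ≤
      T * lam := by
    intro i c
    have h1 := hf2 (Sum.inr (Sum.inr (Sum.inl i))) c
    have hinj : Function.Injective (fun κ : Fin nb => M (i, Sum.inl κ) v) := by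
      intro ρ ρ' h
      by_contra hne
      exact hM.dis (i, Sum.inl ρ) (i, Sum.inl ρ') v (fun h' => hne (by simpa using h')) h
    exact (LbB_card (fun κ : Fin nb => M (i, Sum.inl κ) v) hinj (fun x => φ x = some c)).symm.trans_le h1
  have hfar : ∀ i κ c, (univ.filter (fun ρ : Fin r => φ (far M i κ v ρ) = some c)).card ≤
      T * lam := by
    intro i κ c
    have h1 := hf2 (Sum.inr (Sum.inr (Sum.inr (i, κ)))) c
    exact (LbB_card (fun ρ : Fin r => far M i κ v ρ) (far_inj M hM i κ v)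
      (fun x => φ x = some c)).symm.trans_le h1
  rcases k with ⟨i, κ⟩ | ⟨i, κ⟩ | ⟨i, p⟩ | ⟨i, g0⟩
  · -- PL1
    by_cases hb' : b' ≤ (Wd i κ).card
    · have hnone : ((univ.filter (fun ρ : Fin r => φ (far M i κ v ρ) = none)).card : ℝ) ≤
          δ / 2 * Fintype.card (Fin r) := by
        have h1 := hf1 (Sum.inr (Sum.inr (Sum.inr (i, κ))))
        have h2 := LbB_card (fun ρ : Fin r => far M i κ v ρ) (far_inj M hM i κ v)
          (fun x => φ x = none)
        have h3 : (ltst M (Sum.inr (Sum.inr (Sum.inr (i, κ)))) v).card = r := by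
          change (univ.image (fun ρ : Fin r => far M i κ v ρ)).card = r
          rw [Finset.card_image_of_injective _ (far_inj M hM i κ v), Finset.card_univ,
            Fintype.card_fin]
        rw [h3] at h1
        have h4 : ((univ.filter (fun ρ : Fin r => φ (far M i κ v ρ) = none)).card : ℝ) ≤
            3 * th ^ T * r := by
          refine le_trans (le_of_eq ?_) h1
          exact congrArg (Nat.cast : ℕ → ℝ) h2.symm
        rw [Fintype.card_fin]
        refine le_trans h4 ?_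
        refine mul_le_mul_of_nonneg_right ?_ (Nat.cast_nonneg _)
        linarith
      have hle : 16 * ((T * lam : ℕ) : ℝ) * ((lam : ℝ) + 1) ≤
          δ ^ 2 * ((Fintype.card (Fin r) : ℝ) * (Wd i κ).card / N) := by
        refine le_trans hL1 ?_
        rw [Fintype.card_fin]
        refine mul_le_mul_of_nonneg_left ?_ (by positivity)
        refine div_le_div_of_nonneg_right ?_ (Nat.cast_nonneg _)
        refine mul_le_mul_of_nonneg_left ?_ (Nat.cast_nonneg _)
        exact_mod_cast hb'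
      have key := perm_L1 (fun ρ : Fin r => φ (far M i κ v ρ)) (Wd i κ) (T * lam) δ (lam : ℝ)
        hm1 (hfar i κ) hnone hδ0 hδ1 (Nat.cast_nonneg _) hle
      refine le_trans (Nat.cast_le.2 (Finset.card_le_card ?_)) key
      intro g hg
      have hg1 := (Finset.mem_filter.1 hg).2
      refine Finset.mem_filter.2 ⟨Finset.mem_univ _, fun hcon => hg1 ?_⟩
      have hgoal : PL1 M Wd b' δ i κ v (app g φ) := by
        intro _
        have h1 : (univ.filter (fun ρ : Fin r => ∃ c, app g φ (far M i κ v ρ) = some c ∧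
            c ∈ Wd i κ)) = univ.filter (fun ρ : Fin r => ∃ c, φ (far M i κ v ρ) = some c ∧
            g c ∈ Wd i κ) := by
          ext ρ
          simp only [Finset.mem_filter, Finset.mem_univ, true_and]
          exact LbB_one g (φ (far M i κ v ρ)) (Wd i κ)
        rw [h1]
        rw [Fintype.card_fin] at hcon
        exact hcon
      exact hgoal
    · refine le_trans (le_of_eq ?_) hpos
      have h1 : (univ.filter (fun g : Equiv.Perm (Fin N) =>
          ¬ LP M Wd b' (4 * (T * lam * lam)) (T * lam * t) δ G (Sum.inl (i, κ)) v (app g φ))) =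
          ∅ := by
        refine Finset.filter_eq_empty_iff.2 ?_
        intro g _ hg
        exact hg fun h => absurd h hb'
      rw [h1]
      simp
  · -- PL2
    have key := perm_pairs (fun ρ : Fin r => φ (M (i, Sum.inr ρ) v))
      (fun ρ : Fin r => φ (far M i κ v ρ)) (Wd i κ) (Wd i κ) (T * lam) b lam (hres i) (hfar i κ)
      (hWd i κ) (hWd i κ) hlam h4 (by rw [Fintype.card_fin]; exact h36)
    refine le_trans (Nat.cast_le.2 (Finset.card_le_card ?_)) key
    intro g hg
    have hg1 := (Finset.mem_filter.1 hg).2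
    refine Finset.mem_filter.2 ⟨Finset.mem_univ _, ?_⟩
    have hg2 : ¬ PL2 M Wd (4 * (T * lam * lam)) i κ v (app g φ) := hg1
    unfold PL2 at hg2
    rw [not_le] at hg2
    refine hg2.trans_le (le_of_eq (congrArg Finset.card ?_))
    ext ρ
    simp only [Finset.mem_filter, Finset.mem_univ, true_and]
    exact LbB_two g _ _ _ _
  · -- PL3
    have key := perm_pairs (fun ρ : Fin r => φ (far M i p.1.1 v ρ))
      (fun ρ : Fin r => φ (far M i p.1.2 v ρ)) (Wd i p.1.1) (Wd i p.1.2) (T * lam) b lam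
      (hfar i p.1.1) (hfar i p.1.2) (hWd i p.1.1) (hWd i p.1.2) hlam h4
      (by rw [Fintype.card_fin]; exact h36)
    refine le_trans (Nat.cast_le.2 (Finset.card_le_card ?_)) key
    intro g hg
    have hg1 := (Finset.mem_filter.1 hg).2
    refine Finset.mem_filter.2 ⟨Finset.mem_univ _, ?_⟩
    have hg2 : ¬ PL3 M Wd (4 * (T * lam * lam)) i p.1.1 p.1.2 v (app g φ) := hg1
    unfold PL3 at hg2
    rw [not_le] at hg2
    refine hg2.trans_le (le_of_eq (congrArg Finset.card ?_))
    ext ρ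
    simp only [Finset.mem_filter, Finset.mem_univ, true_and]
    exact LbB_two g _ _ _ _
  · -- PL4
    have hS := LbB_class nb G g0
    have hcm : ∀ c, ((univ.filter (fun κ : Fin nb => ((κ : ℕ) : ZMod G) = g0)).filter
        (fun κ => φ (M (i, Sum.inl κ) v) = some c)).card ≤ T * lam := by
      intro c
      refine le_trans (Finset.card_le_card ?_) (hbas i c)
      intro κ hκ
      exact Finset.mem_filter.2 ⟨Finset.mem_univ _, (Finset.mem_filter.1 hκ).2⟩
    have hbb : 18 * ((univ.filter (fun κ : Fin nb => ((κ : ℕ) : ZMod G) = g0)).card * b) ≤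
        t * N := by
      refine le_trans ?_ h18
      exact Nat.mul_le_mul_left _ (Nat.mul_le_mul_right _ hS)
    have key := perm_class (univ.filter (fun κ : Fin nb => ((κ : ℕ) : ZMod G) = g0))
      (fun κ : Fin nb => φ (M (i, Sum.inl κ) v)) (fun κ => Wd i κ) (T * lam) b t hcm
      (fun κ _ => hWd i κ) (hlam.trans ht1) ht2 hbb
    have hexp : Real.exp (-(t : ℝ)) * (Fintype.card (Equiv.Perm (Fin N)) : ℝ) ≤
        Real.exp (-(lam : ℝ)) * Fintype.card (Equiv.Perm (Fin N)) := by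
      refine mul_le_mul_of_nonneg_right ?_ (Nat.cast_nonneg _)
      refine Real.exp_le_exp.2 (neg_le_neg ?_)
      exact_mod_cast ht1
    refine le_trans (le_trans (Nat.cast_le.2 (Finset.card_le_card ?_)) key) hexp
    intro g hg
    have hg1 := (Finset.mem_filter.1 hg).2
    refine Finset.mem_filter.2 ⟨Finset.mem_univ _, ?_⟩
    have hg2 : ¬ PL4 M Wd (T * lam * t) G i g0 v (app g φ) := hg1
    unfold PL4 at hg2
    rw [not_le] at hg2
    refine hg2.trans_le (le_of_eq (congrArg Finset.card ?_))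
    ext κ
    simp only [Finset.mem_filter, Finset.mem_univ, true_and]
    exact and_congr_right fun _ => LbB_one g _ _

end Pool.Agent.H67.HY
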