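/-
ROW LbC. From the partial colouring to (L1)-(L4).
PROOF. `Z x := φ x = none`; `hc`: `φ x = some y → c x = y`. So for `x` with `¬ Z x`: `c x ∈ W ↔ ∃ y, φ x = some y ∧ y ∈ W`, i.e. `(¬ Z x ∧ c x ∈ W) ↔ ∃ y, φ x = some y ∧ y ∈ W`. `M (i, inl κ) (M (i, inr ρ) v) = far M i κ v ρ`.
L1: the set is exactly the one of `PL1` (`hP` at `inl (i, κ)`), `good κ` is `b' ≤ |Wd i κ|`.
L2: `c (M ρ v) ∈ W`, `¬ Z (far)`, `c (far) ∈ W`: either `Z (M ρ v)`: at most `3 th^T r` (`finOK`, test set `inr (inl i)`, injective image of `Fin r`), or both coloured, `φ (M ρ v) = some y`, `φ (far) = some y'`, `y ≠ y'` by `PropCol` (`far = M (i, inl κ) (M ρ v)`): at most `4 (T lam lam)` by `PL2`. Sum `≤ δ (r b'/N) ≤ δ (r |W|/N)` by `hL2`.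
L3: both far vertices coloured with `y ∈ Wd i κ`, `y' ∈ Wd i κ'`: if `y ≠ y'`: `PL3` (index `⟨(κ,κ'), _⟩`): `≤ 4 (T lam lam)`; if `y = y'`: `coin φ (lxs ..) (lys ..)`: `≤ 4 (T lam)` (third part of `finOK`).
L4: the set is the one of `PL4`. The `Z`-count: test set `inr (inr (inl i))` (card `nb`).
-/
import Pool.Agent.H67.HY.LbA

set_option autoImplicit false

namespace Pool.Agent.H67.HY

open Finset
open Classical

theorem LbC_iff {V : Type} {N : ℕ} (φ : V → Option (Fin N)) (c : V → Fin N)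
    (hc : ∀ v x, φ v = some x → c v = x) (x : V) (W : Finset (Fin N)) :
    (¬ (φ x = none) ∧ c x ∈ W) ↔ ∃ y, φ x = some y ∧ y ∈ W := by
  constructor
  · rintro ⟨h1, h2⟩
    obtain ⟨y, hy⟩ := Option.ne_none_iff_exists'.mp h1
    refine ⟨y, hy, ?_⟩
    rw [← hc x y hy]
    exact h2
  · rintro ⟨y, hy, hyW⟩
    refine ⟨?_, ?_⟩
    · rw [hy]
      exact Option.some_ne_none y
    · rw [hc x y hy]
      exact hyW

theorem LbC_count {V : Type} {m : ℕ} (g : Fin m → V) (hg : Function.Injective g)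
    (p : V → Prop) {ip : DecidablePred p} {ip' : DecidablePred (fun k : Fin m => p (g k))}
    {id : DecidableEq V} (C : ℝ)
    (h : ((((univ.image g).filter p).card : ℕ) : ℝ) ≤ C * ((univ.image g).card : ℕ)) :
    ((univ.filter (fun k : Fin m => p (g k))).card : ℝ) ≤ C * m := by
  have h1 : (univ.image g).card = m := by
    rw [Finset.card_image_of_injective _ hg, Finset.card_univ, Fintype.card_fin]
  have h2 : (univ.filter (fun k : Fin m => p (g k))).card ≤ ((univ.image g).filter p).card := by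
    rw [← Finset.card_image_of_injective (univ.filter (fun k : Fin m => p (g k))) hg]
    apply Finset.card_le_card
    intro x hx
    rw [Finset.mem_image] at hx
    obtain ⟨k, hk, rfl⟩ := hx
    rw [Finset.mem_filter] at hk ⊢
    exact ⟨Finset.mem_image_of_mem g (Finset.mem_univ k), hk.2⟩
  rw [h1] at h
  calc ((univ.filter (fun k : Fin m => p (g k))).card : ℝ)
      ≤ ((((univ.image g).filter p).card : ℕ) : ℝ) := by exact_mod_cast h2
    _ ≤ C * m := h

theorem LbC_eq {α : Type} [Fintype α] (p a : α → Prop) {ip : DecidablePred p}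
    {ia : DecidablePred a} (x B : ℝ) (h : ∀ x, p x ↔ a x)
    (ha : |((univ.filter a).card : ℝ) - x| ≤ B) : |((univ.filter p).card : ℝ) - x| ≤ B := by
  rw [Finset.filter_congr (fun y _ => h y)]
  exact ha

theorem LbC_union {α : Type} [Fintype α] (p a b : α → Prop) {ip : DecidablePred p}
    {ia : DecidablePred a} {ib : DecidablePred b} (A B : ℕ)
    (h : ∀ x, p x → a x ∨ b x) (ha : (univ.filter a).card ≤ A) (hb : (univ.filter b).card ≤ B) :
    (univ.filter p).card ≤ A + B := by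
  have hsub : univ.filter p ⊆ univ.filter a ∪ univ.filter b := by
    intro x hx
    rw [Finset.mem_filter] at hx
    rw [Finset.mem_union, Finset.mem_filter, Finset.mem_filter]
    rcases h x hx.2 with h1 | h1
    · exact Or.inl ⟨Finset.mem_univ _, h1⟩
    · exact Or.inr ⟨Finset.mem_univ _, h1⟩
  exact ((Finset.card_le_card hsub).trans (Finset.card_union_le _ _)).trans
    (Nat.add_le_add ha hb)

theorem LbC_unionR {α : Type} [Fintype α] (p a b : α → Prop) {ip : DecidablePred p}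
    {ia : DecidablePred a} {ib : DecidablePred b} (A : ℝ) (B : ℕ)
    (h : ∀ x, p x → a x ∨ b x) (ha : ((univ.filter a).card : ℝ) ≤ A)
    (hb : (univ.filter b).card ≤ B) : ((univ.filter p).card : ℝ) ≤ A + B := by
  have h1 := LbC_union (ip := ip) p a b (univ.filter a).card B h le_rfl hb
  have h2 : ((univ.filter p).card : ℝ) ≤ ((univ.filter a).card : ℝ) + B := by exact_mod_cast h1
  linarith

theorem LbC_le2 {α : Type} [Fintype α] (p a b : α → Prop) {ip : DecidablePred p}
    {ia : DecidablePred a} {ib : DecidablePred b} (B : ℕ) (h : ∀ x, p x → a x ∧ b x)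
    (hb : ((univ.filter a).filter b).card ≤ B) : (univ.filter p).card ≤ B := by
  refine le_trans (Finset.card_le_card ?_) hb
  intro x hx
  rw [Finset.mem_filter] at hx
  rw [Finset.mem_filter, Finset.mem_filter]
  exact ⟨⟨Finset.mem_univ _, (h x hx.2).1⟩, (h x hx.2).2⟩

theorem LP_group {V : Type} [Fintype V] {q nb r N : ℕ}
    (M : Fin q × (Fin nb ⊕ Fin r) → V → V) (hM : IsFac M)
    (Wd : Fin q → Fin nb → Finset (Fin N)) (b' T lam t G : ℕ) (δ : ℝ) (hδ0 : 0 < δ)
    (hL2 : 4 * ((T * lam * lam : ℕ) : ℝ) + 3 * th ^ T * r ≤ δ * (r * b' / N))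
    (φ : V → Option (Fin N)) (hφ : PropCol M φ)
    (hf : ∀ v, finOK T lam (ltst M) (lxs M) (lys M) v φ)
    (hP : ∀ v k, LP M Wd b' (4 * (T * lam * lam)) (T * lam * t) δ G k v φ)
    (c : V → Fin N) (hc : ∀ v x, φ v = some x → c v = x) :
    (∀ i v, ((univ.filter (fun κ : Fin nb => φ (M (i, Sum.inl κ) v) = none)).card : ℝ) ≤
      3 * th ^ T * nb) ∧
    ∀ i, GroupOK (fun j v => M (i, j) v) (fun v κ => c v ∈ Wd i κ) (fun v => φ v = none)
      (fun κ => b' ≤ (Wd i κ).card) (fun κ => r * (Wd i κ).card / N) δ G (T * lam * t)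
      (4 * (T * lam * lam) + 4 * (T * lam)) := by
  have injl : ∀ (i : Fin q) (v : V), Function.Injective (fun κ : Fin nb => M (i, Sum.inl κ) v) := by
    intro i v κ κ' h
    by_contra hne
    refine hM.dis (i, Sum.inl κ) (i, Sum.inl κ') v ?_ h
    intro he
    exact hne (Sum.inl.inj (Prod.mk.inj he).2)
  have injr : ∀ (i : Fin q) (v : V), Function.Injective (fun ρ : Fin r => M (i, Sum.inr ρ) v) := by
    intro i v κ κ' h
    by_contra hne
    refine hM.dis (i, Sum.inr κ) (i, Sum.inr κ') v ?_ h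
    intro he
    exact hne (Sum.inr.inj (Prod.mk.inj he).2)
  refine ⟨?_, ?_⟩
  · intro i v
    have h := (hf v).1 (Sum.inr (Sum.inr (Sum.inl i)))
    unfold ltst at h
    exact LbC_count (fun κ : Fin nb => M (i, Sum.inl κ) v) (injl i v)
      (fun x => φ x = none) (3 * th ^ T) h
  · intro i
    refine ⟨?_, ?_, ?_, ?_⟩
    · -- L1
      intro κ hκ v
      have h : PL1 M Wd b' δ i κ v φ := hP v (Sum.inl (i, κ))
      exact LbC_eq _ _ _ _ (fun ρ => LbC_iff φ c hc _ _) (h hκ)
    · -- L2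
      intro κ hκ v
      have hPL : PL2 M Wd (4 * (T * lam * lam)) i κ v φ := hP v (Sum.inr (Sum.inl (i, κ)))
      have hq := (hf v).1 (Sum.inr (Sum.inl i))
      unfold ltst at hq
      have hr := LbC_count (ip' := fun k => propDecidable _)
        (fun ρ : Fin r => M (i, Sum.inr ρ) v) (injr i v)
        (fun x => φ x = none) (3 * th ^ T) hq
      have hmono : δ * ((r : ℝ) * b' / N) ≤ δ * ((r : ℝ) * ((Wd i κ).card : ℕ) / N) := by
        apply mul_le_mul_of_nonneg_left _ hδ0.le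
        apply div_le_div_of_nonneg_right _ (Nat.cast_nonneg N)
        apply mul_le_mul_of_nonneg_left _ (Nat.cast_nonneg r)
        exact_mod_cast hκ
      have hmain := fun ip => LbC_unionR (ip := ip) (fun ρ : Fin r => c (M (i, Sum.inr ρ) v) ∈ Wd i κ ∧
          ¬ (φ (M (i, Sum.inl κ) (M (i, Sum.inr ρ) v)) = none) ∧
          c (M (i, Sum.inl κ) (M (i, Sum.inr ρ) v)) ∈ Wd i κ) _ _ _ _ (by
        rintro ρ ⟨h1, h2, h3⟩
        by_cases hz : φ (M (i, Sum.inr ρ) v) = none
        · exact Or.inl hz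
        · right
          obtain ⟨y, hy, hyW⟩ := (LbC_iff φ c hc _ _).mp ⟨hz, h1⟩
          obtain ⟨y', hy', hyW'⟩ := (LbC_iff φ c hc _ _).mp ⟨h2, h3⟩
          refine ⟨y, y', hy, hy', ?_, hyW, hyW'⟩
          intro hyy
          apply hφ (M (i, Sum.inr ρ) v) (i, Sum.inl κ) hz
          rw [hy, hy', hyy]) hr hPL
      refine (hmain _).trans ?_
      push_cast at hL2 ⊢
      linarith
    · -- L3
      intro κ κ' hne v
      have hPL : PL3 M Wd (4 * (T * lam * lam)) i κ κ' v φ :=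
        hP v (Sum.inr (Sum.inr (Sum.inl (i, ⟨(κ, κ'), hne⟩))))
      have hco := (hf v).2.2 (i, ⟨(κ, κ'), hne⟩)
      refine LbC_union _ _ _ _ _ ?_ hPL hco
      rintro ρ ⟨h1, h2⟩
      obtain ⟨y, hy, hyW⟩ := (LbC_iff φ c hc _ _).mp h1
      obtain ⟨y', hy', hyW'⟩ := (LbC_iff φ c hc _ _).mp h2
      by_cases hyy : y = y'
      · right
        subst hyy
        exact ⟨y, hy, hy'⟩
      · left
        exact ⟨y, y', hy, hy', hyy, hyW, hyW'⟩
    · -- L4
      intro v g
      have hPL : PL4 M Wd (T * lam * t) G i g v φ :=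
        hP v (Sum.inr (Sum.inr (Sum.inr (i, g))))
      refine LbC_le2 _ _ _ _ ?_ hPL
      rintro κ ⟨h1, h2⟩
      exact ⟨h1, (LbC_iff φ c hc _ _).mp h2⟩

end Pool.Agent.H67.HY
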