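/-
ROW Proc. The semi-random process theorem (assembly).
PROOF. `q = C exp(-lam)`, `C = T (1 + 5 |K| + 4 |K2|) + |K| + |K3|`. For each `v`: `#{ω : bad .. v ω} ≤ q |Ω|`: `bad` is the union of: `¬A1 M ω v i` (`i < T`; `A1_bound`, `4000 lam ≤ th^T |tst k0 v| ≤ th^T n`), `¬A2 ω (tst k v) i` (`T |K|` events), `¬A3 ω (tst k v)` (`|K|`), for each `i < T`:
`cond ∧ ¬B1` (`|K|` events, `2 exp(-lam)` each: `evB1`), `cond ∧ ¬B2` (`|K|`, `N exp(-2 lam) ≤ exp(-lam)` each as `N ≤ exp lam`), `cond ∧ ¬B3` (`|K2|`, `4 exp(-2 lam) ≤ 4 exp(-lam)`), and the `|K3|` events of `evP`. Total `T + T|K| + |K| + 2T|K| + T|K| + 4T|K2| + |K3| ≤ C`.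
`ball_lll` with `r = 2T+6`, `E = bad`, `hloc = bad_local`; `4 q (n+1)^(2(2T+6)) ≤ 1` by `hbig`. Then `ind` and `run_prop` with `φ = run M ω T`.
-/
import Pool.Agent.H67.HY.Act
import Pool.Agent.H67.HY.EvA
import Pool.Agent.H67.HY.EvP
import Pool.Agent.H67.HY.Ind
import Pool.Agent.H67.HY.Llb

set_option autoImplicit false

namespace Pool.Agent.H67.HY

open Finset
open Classical

/-- number of elements with a property -/
noncomputable def Proc_m {Ω : Type} (p : Ω → Prop) : ℝ := ((Nat.card {ω // p ω} : ℕ) : ℝ)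

theorem Proc_eq {Ω : Type} [Fintype Ω] (p : Ω → Prop) (inst : DecidablePred p) :
    (((@Finset.filter Ω p inst univ).card : ℕ) : ℝ) = Proc_m p := by
  unfold Proc_m
  rw [Nat.card_eq_fintype_card, Fintype.card_subtype]

theorem Proc_mono {Ω : Type} [Fintype Ω] {p q : Ω → Prop} (h : ∀ ω, p ω → q ω) : Proc_m p ≤ Proc_m q := by
  rw [← Proc_eq p (fun _ => propDecidable _), ← Proc_eq q (fun _ => propDecidable _)]
  have h1 := card_le_card (s := @Finset.filter Ω p (fun _ => propDecidable _) univ)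
    (t := @Finset.filter Ω q (fun _ => propDecidable _) univ) (fun ω hω => by
      rw [mem_filter] at hω ⊢
      exact ⟨hω.1, h ω hω.2⟩)
  exact_mod_cast h1

theorem Proc_or {Ω : Type} [Fintype Ω] {p q : Ω → Prop} {a b : ℝ}
    (h1 : Proc_m p ≤ a) (h2 : Proc_m q ≤ b) : Proc_m (fun ω => p ω ∨ q ω) ≤ a + b := by
  have h4 : Proc_m (fun ω => p ω ∨ q ω) ≤ Proc_m p + Proc_m q := by
    rw [← Proc_eq p (fun _ => propDecidable _), ← Proc_eq q (fun _ => propDecidable _),
      ← Proc_eq (fun ω => p ω ∨ q ω) (fun _ => propDecidable _)]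
    have h3 : (@Finset.filter Ω (fun ω => p ω ∨ q ω) (fun _ => propDecidable _) univ).card ≤
        (@Finset.filter Ω p (fun _ => propDecidable _) univ).card +
        (@Finset.filter Ω q (fun _ => propDecidable _) univ).card := by
      refine le_trans (card_le_card ?_) (card_union_le _ _)
      intro ω hω
      rcases ((@Finset.mem_filter Ω (fun ω => p ω ∨ q ω) (fun _ => propDecidable _) univ ω).1 hω).2 with h | h
      · exact mem_union_left _ (mem_filter.2 ⟨mem_univ _, h⟩)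
      · exact mem_union_right _ (mem_filter.2 ⟨mem_univ _, h⟩)
    exact_mod_cast h3
  linarith

theorem Proc_exS {Ω ι : Type} [Fintype Ω] (S : Finset ι) {p : ι → Ω → Prop} {b : ℝ}
    (h : ∀ i ∈ S, Proc_m (p i) ≤ b) : Proc_m (fun ω => ∃ i, i ∈ S ∧ p i ω) ≤ S.card * b := by
  have h3 : Proc_m (fun ω => ∃ i, i ∈ S ∧ p i ω) ≤ ∑ i ∈ S, Proc_m (p i) := by
    rw [← Proc_eq (fun ω => ∃ i, i ∈ S ∧ p i ω) (fun _ => propDecidable _)]
    have h5 : (@Finset.filter Ω (fun ω => ∃ i, i ∈ S ∧ p i ω) (fun _ => propDecidable _) univ).card ≤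
        ∑ i ∈ S, (@Finset.filter Ω (p i) (fun _ => propDecidable _) univ).card := by
      refine le_trans (card_le_card ?_) (card_biUnion_le (s := S)
        (t := fun i => @Finset.filter Ω (p i) (fun _ => propDecidable _) univ))
      intro ω hω
      obtain ⟨-, i, hi, hp⟩ := (@Finset.mem_filter Ω (fun ω => ∃ i, i ∈ S ∧ p i ω) (fun _ => propDecidable _) univ ω).1 hω
      exact mem_biUnion.2 ⟨i, hi, mem_filter.2 ⟨mem_univ _, hp⟩⟩
    calc (((@Finset.filter Ω (fun ω => ∃ i, i ∈ S ∧ p i ω) (fun _ => propDecidable _) univ).card : ℕ) : ℝ)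
        ≤ ((∑ i ∈ S, (@Finset.filter Ω (p i) (fun _ => propDecidable _) univ).card : ℕ) : ℝ) := by
          exact_mod_cast h5
      _ = ∑ i ∈ S, Proc_m (p i) := by
          rw [Nat.cast_sum]
          exact sum_congr rfl fun i _ => Proc_eq (p i) _
  refine h3.trans ((sum_le_sum h).trans (le_of_eq ?_))
  rw [sum_const, nsmul_eq_mul]

theorem Proc_ex {Ω ι : Type} [Fintype Ω] [Fintype ι] {p : ι → Ω → Prop} {b : ℝ}
    (h : ∀ i, Proc_m (p i) ≤ b) : Proc_m (fun ω => ∃ i, p i ω) ≤ Fintype.card ι * b := by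
  have h1 := Proc_exS (univ : Finset ι) (p := p) (b := b) (fun i _ => h i)
  exact le_trans (Proc_mono fun ω ⟨i, hi⟩ => ⟨i, mem_univ _, hi⟩) h1

theorem Proc_exT {Ω : Type} [Fintype Ω] {T : ℕ} {p : ℕ → Ω → Prop} {b : ℝ}
    (h : ∀ i, i < T → Proc_m (p i) ≤ b) : Proc_m (fun ω => ∃ i, i < T ∧ p i ω) ≤ T * b := by
  have h1 := Proc_exS (range T) (p := p) (b := b) (fun i hi => h i (mem_range.1 hi))
  rw [card_range] at h1
  exact le_trans (Proc_mono fun ω ⟨i, hi, hp⟩ => ⟨i, mem_range.2 hi, hp⟩) h1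

theorem Proc_prob {V J K K2 K3 R : Type} [Fintype V] [Fintype J] [Fintype K] [Fintype K2]
    [Fintype K3] [Fintype R] (M : J → V → V) (hM : IsFac M) (N T lam : ℕ) (hT : 1 ≤ T)
    (hlam : 1 ≤ lam) (hN : Fintype.card J ≤ N) (hNe : (N : ℝ) ≤ Real.exp lam) (k0 : K)
    (tst : K → V → Finset V) (xs ys : K2 → V → R → V) (p1 p2 : K2 → K)
    (ht : IsTests M T lam k0 tst xs ys p1 p2)
    (P : K3 → V → (V → Option (Fin N)) → Prop)
    (hP : ∀ k v φ, PropCol M φ → finOK T lam tst xs ys v φ →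
      ((univ.filter (fun g : Equiv.Perm (Fin N) => ¬ P k v (app g φ))).card : ℝ) ≤
        Real.exp (-lam) * Fintype.card (Equiv.Perm (Fin N))) (v : V) :
    Proc_m (fun ω : V → Coin T N => bad M lam k0 tst xs ys P v ω) ≤
      ((T * (1 + 5 * (Fintype.card K : ℝ) + 4 * Fintype.card K2) + Fintype.card K +
      Fintype.card K3) * Real.exp (-lam)) * Fintype.card (V → Coin T N) := by
  have hX : 4000 * (lam : ℝ) ≤ th ^ T * Fintype.card J := by
    refine (ht.ge k0 v).trans ?_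
    have h1 : ((tst k0 v).card : ℝ) ≤ Fintype.card J := by exact_mod_cast ht.le k0 v
    have h2 : (0 : ℝ) ≤ th ^ T := by
      unfold th
      positivity
    exact mul_le_mul_of_nonneg_left h1 h2
  have a1 : ∀ i, i < T → Proc_m (fun ω : V → Coin T N => ¬ A1 M ω v i) ≤
      Real.exp (-lam) * Fintype.card (V → Coin T N) := by
    intro i hi
    rw [← Proc_eq]
    exact A1_bound M hM v i hi lam hX
  have a2 : ∀ i, i < T → ∀ k, Proc_m (fun ω : V → Coin T N => ¬ A2 ω (tst k v) i) ≤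
      Real.exp (-lam) * Fintype.card (V → Coin T N) := by
    intro i hi k
    rw [← Proc_eq]
    exact A2_bound (tst k v) i hi lam (ht.ge k v)
  have a3 : ∀ k, Proc_m (fun ω : V → Coin T N => ¬ A3 ω (tst k v)) ≤
      Real.exp (-lam) * Fintype.card (V → Coin T N) := by
    intro k
    rw [← Proc_eq]
    exact A3_bound (tst k v) hT lam (ht.ge k v)
  have a4 : ∀ i, i < T → ∀ k, Proc_m (fun ω : V → Coin T N => cond M k0 tst v i ω ∧
      ¬ B1 M ω (tst k v) i lam) ≤ 2 * Real.exp (-lam) * Fintype.card (V → Coin T N) := by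
    intro i hi k
    rw [← Proc_eq]
    exact evB1 M hM lam hlam k0 tst xs ys p1 p2 ht hN v i hi k
  have a5 : ∀ i, i < T → ∀ k, Proc_m (fun ω : V → Coin T N => cond M k0 tst v i ω ∧
      ¬ B2 M ω (tst k v) i lam) ≤ N * Real.exp (-(2 * lam)) * Fintype.card (V → Coin T N) := by
    intro i hi k
    rw [← Proc_eq]
    exact evB2 M hM lam hlam k0 tst xs ys p1 p2 ht hN v i hi k
  have a6 : ∀ i, i < T → ∀ k, Proc_m (fun ω : V → Coin T N => cond M k0 tst v i ω ∧
      ¬ B3 M ω (xs k v) (ys k v) i lam) ≤ 4 * Real.exp (-(2 * lam)) * Fintype.card (V → Coin T N) := by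
    intro i hi k
    rw [← Proc_eq]
    exact evB3 M hM lam hlam k0 tst xs ys p1 p2 ht hN v i hi k
  have a7 : ∀ k, Proc_m (fun ω : V → Coin T N => finOK T lam tst xs ys v (run M ω T) ∧
      PropCol M (run M ω T) ∧ ¬ P k v (run M ω T)) ≤ Real.exp (-lam) * Fintype.card (V → Coin T N) := by
    intro k
    rw [← Proc_eq]
    exact evP M lam tst xs ys P hP k v
  generalize ((Fintype.card (V → Coin T N) : ℕ) : ℝ) = W at a1 a2 a3 a4 a5 a6 a7 ⊢
  have hexT : (0 : ℝ) ≤ W := by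
    have h1 := a7
    by_contra hcon
    push Not at hcon
    have h2 : (0 : ℝ) ≤ Proc_m (fun ω : V → Coin T N => ¬ A1 M ω v 0) := Nat.cast_nonneg _
    have h3 := a1 0 (by omega)
    have h4 := Real.exp_pos (-(lam : ℝ))
    nlinarith
  have he2 : Real.exp (-(2 * (lam : ℝ))) = Real.exp (-(lam : ℝ)) * Real.exp (-(lam : ℝ)) := by
    rw [← Real.exp_add]
    congr 1
    ring
  have heN : (N : ℝ) * Real.exp (-(lam : ℝ)) ≤ 1 := by
    calc (N : ℝ) * Real.exp (-(lam : ℝ)) ≤ Real.exp lam * Real.exp (-(lam : ℝ)) :=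
          mul_le_mul_of_nonneg_right hNe (Real.exp_pos _).le
      _ = 1 := by
          rw [← Real.exp_add]
          simp
  have he1 : Real.exp (-(lam : ℝ)) ≤ 1 := by
    rw [Real.exp_le_one_iff]
    have : (0 : ℝ) ≤ lam := Nat.cast_nonneg _
    linarith
  have he0 := Real.exp_pos (-(lam : ℝ))
  rw [he2] at a5 a6
  generalize Real.exp (-(lam : ℝ)) = e at a1 a2 a3 a4 a5 a6 a7 he0 he1 heN ⊢
  have a5' : ∀ i, i < T → ∀ k, Proc_m (fun ω : V → Coin T N => cond M k0 tst v i ω ∧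
      ¬ B2 M ω (tst k v) i lam) ≤ e * W := by
    intro i hi k
    refine (a5 i hi k).trans ?_
    apply mul_le_mul_of_nonneg_right _ hexT
    calc (N : ℝ) * (e * e) = ((N : ℝ) * e) * e := by ring
      _ ≤ 1 * e := mul_le_mul_of_nonneg_right heN he0.le
      _ = e := one_mul e
  have a6' : ∀ i, i < T → ∀ k, Proc_m (fun ω : V → Coin T N => cond M k0 tst v i ω ∧
      ¬ B3 M ω (xs k v) (ys k v) i lam) ≤ 4 * e * W := by
    intro i hi k
    refine (a6 i hi k).trans ?_
    apply mul_le_mul_of_nonneg_right _ hexT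
    nlinarith
  have b1 := Proc_exT a1
  have b2 := Proc_exT (fun i hi => Proc_ex (a2 i hi))
  have b3 := Proc_ex a3
  have b4 := Proc_exT (fun i hi => Proc_or (Proc_ex (a4 i hi)) (Proc_or (Proc_ex (a5' i hi)) (Proc_ex (a6' i hi))))
  have b5 := Proc_ex a7
  have hall := Proc_or b1 (Proc_or b2 (Proc_or b3 (Proc_or b4 b5)))
  have hsub : Proc_m (fun ω : V → Coin T N => bad M lam k0 tst xs ys P v ω) ≤ _ :=
    le_trans (Proc_mono fun ω hω => ?_) hall
  · refine hsub.trans ?_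
    have hTe : 0 ≤ (T : ℝ) * Fintype.card K * (e * W) := by positivity
    have hfin : (T : ℝ) * (e * W) + ((T : ℝ) * (Fintype.card K * (e * W)) + (Fintype.card K * (e * W) +
        ((T : ℝ) * (Fintype.card K * (2 * e * W) + (Fintype.card K * (e * W) + Fintype.card K2 * (4 * e * W))) +
        Fintype.card K3 * (e * W)))) + (T : ℝ) * Fintype.card K * (e * W) =
        (T * (1 + 5 * (Fintype.card K : ℝ) + 4 * Fintype.card K2) + Fintype.card K +
      Fintype.card K3) * e * W := by ring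
    linarith
  · rcases hω with h | h | h | h | h
    · exact Or.inl h
    · obtain ⟨i, k, hi, hk⟩ := h
      exact Or.inr (Or.inl ⟨i, hi, k, hk⟩)
    · exact Or.inr (Or.inr (Or.inl h))
    · obtain ⟨i, hi, h1, h2⟩ := h
      refine Or.inr (Or.inr (Or.inr (Or.inl ⟨i, hi, ?_⟩)))
      by_contra hcon
      push Not at hcon
      exact h2 ⟨fun k => hcon.1 k h1, fun k => hcon.2.1 k h1, fun k => hcon.2.2 k h1⟩
    · obtain ⟨h2, h3, k, hk⟩ := h
      exact Or.inr (Or.inr (Or.inr (Or.inr ⟨k, h2, h3, hk⟩)))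

theorem process {V J K K2 K3 R : Type} [Fintype V] [Fintype J] [Fintype K] [Fintype K2]
    [Fintype K3] [Fintype R] (M : J → V → V) (hM : IsFac M) (N T lam : ℕ) (hT : 1 ≤ T)
    (hlam : 1 ≤ lam) (hN : Fintype.card J ≤ N) (hNe : (N : ℝ) ≤ Real.exp lam) (k0 : K)
    (tst : K → V → Finset V) (xs ys : K2 → V → R → V) (p1 p2 : K2 → K)
    (ht : IsTests M T lam k0 tst xs ys p1 p2)
    (P : K3 → V → (V → Option (Fin N)) → Prop)
    (hPloc : ∀ k v φ φ', (∀ x ∈ ball M v 2, φ x = φ' x) → P k v φ → P k v φ')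
    (hP : ∀ k v φ, PropCol M φ → finOK T lam tst xs ys v φ →
      ((univ.filter (fun g : Equiv.Perm (Fin N) => ¬ P k v (app g φ))).card : ℝ) ≤
        Real.exp (-lam) * Fintype.card (Equiv.Perm (Fin N)))
    (hbig : 4 * (T * (1 + 5 * (Fintype.card K : ℝ) + 4 * Fintype.card K2) + Fintype.card K +
      Fintype.card K3) * ((Fintype.card J : ℝ) + 1) ^ (4 * T + 12) ≤ Real.exp lam) :
    ∃ φ : V → Option (Fin N), PropCol M φ ∧
      ∀ v, finOK T lam tst xs ys v φ ∧ ∀ k, P k v φ := by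
  have he0 := Real.exp_pos (-(lam : ℝ))
  obtain ⟨C, hC⟩ : ∃ C : ℝ, C = T * (1 + 5 * (Fintype.card K : ℝ) + 4 * Fintype.card K2) + Fintype.card K +
      Fintype.card K3 := ⟨_, rfl⟩
  have hC0 : 0 ≤ C := by
    rw [hC]
    positivity
  obtain ⟨ω, hω⟩ := ball_lll (κ := Coin T N) M hM.inv (2 * T + 6) (fun v ω => bad M lam k0 tst xs ys P v ω)
    (fun v ω ω' h hb => bad_local M hM lam k0 tst xs ys p1 p2 ht P hPloc v ω ω' h hb) (C * Real.exp (-(lam : ℝ)))
    (by positivity) (fun v => by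
      rw [Proc_eq, hC]
      exact Proc_prob M hM N T lam hT hlam hN hNe k0 tst xs ys p1 p2 ht P hP v) (by
      have h1 : 2 * (2 * T + 6) = 4 * T + 12 := by ring
      rw [h1]
      rw [← hC] at hbig
      calc 4 * (C * Real.exp (-(lam : ℝ))) * ((Fintype.card J : ℝ) + 1) ^ (4 * T + 12)
          = (4 * C * ((Fintype.card J : ℝ) + 1) ^ (4 * T + 12)) * Real.exp (-(lam : ℝ)) := by ring
        _ ≤ Real.exp lam * Real.exp (-(lam : ℝ)) := mul_le_mul_of_nonneg_right hbig he0.le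
        _ = 1 := by
            rw [← Real.exp_add]
            simp)
  exact ⟨run M ω T, run_prop M hM ω T,
    fun v => ind M hM hT lam hlam k0 tst xs ys p1 p2 ht hN P ω hω v⟩

end Pool.Agent.H67.HY
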