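/-
The labelling (assembly).
-/
import Pool.Agent.H67.HY.LbB
import Pool.Agent.H67.HY.LbC
import Pool.Agent.H67.HY.Ext
import Pool.Agent.H67.HY.Proc

set_option autoImplicit false

namespace Pool.Agent.H67.HY

open Finset
open Classical

theorem lab {V : Type} [Fintype V] {q nb r N : ℕ}
    (M : Fin q × (Fin nb ⊕ Fin r) → V → V) (hM : IsFac M)
    (Wd : Fin q → Fin nb → Finset (Fin N)) (b b' T lam t G : ℕ) (δ : ℝ)
    (hWd : ∀ i κ, (Wd i κ).card ≤ b) (hq : 1 ≤ q) (hrn : r ≤ nb) (hG : 1 ≤ G) (hGn : G ≤ nb)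
    (hT : 1 ≤ T) (hlam : 1 ≤ lam) (hN : q * (nb + r) < N) (hNe : (N : ℝ) ≤ Real.exp lam)
    (hlamT : 4000 * (lam : ℝ) ≤ th ^ T * r)
    (hbig : 128 * T * ((q * (nb + r) : ℕ) + 1 : ℝ) ^ (4 * T + 14) ≤ Real.exp lam)
    (hδ0 : 0 < δ) (hδ1 : δ ≤ 1) (h6 : 6 * th ^ T ≤ δ)
    (hL1 : 16 * ((T * lam : ℕ) : ℝ) * (lam + 1) ≤ δ ^ 2 * (r * b' / N))
    (hL2 : 4 * ((T * lam * lam : ℕ) : ℝ) + 3 * th ^ T * r ≤ δ * (r * b' / N))
    (h36 : 36 * (r * b ^ 2) ≤ lam * N ^ 2) (h4 : 4 * lam ≤ N) (ht1 : lam ≤ t) (ht2 : 2 * t ≤ N)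
    (h18 : 18 * ((nb / G + 1) * b) ≤ t * N) :
    ∃ (c : V → Fin N) (Z : V → Prop), (∀ v j, c v ≠ c (M j v)) ∧
      (∀ i v, ((univ.filter (fun κ : Fin nb => Z (M (i, Sum.inl κ) v))).card : ℝ) ≤
        3 * th ^ T * nb) ∧
      ∀ i, GroupOK (fun j v => M (i, j) v) (fun v κ => c v ∈ Wd i κ) Z
        (fun κ => b' ≤ (Wd i κ).card) (fun κ => r * (Wd i κ).card / N) δ G (T * lam * t)
        (4 * (T * lam * lam) + 4 * (T * lam)) := by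
  have : NeZero G := ⟨by omega⟩
  have hcard : Fintype.card (Fin q × (Fin nb ⊕ Fin r)) = q * (nb + r) := by simp
  obtain ⟨φ, hφ, hall⟩ := process M hM N T lam hT hlam (by rw [hcard]; omega) hNe
    (Sum.inl () : LK q nb) (ltst M) (lxs M) (lys M) lp1 lp2 (ltests M hM hq hrn hlamT)
    (LP M Wd b' (4 * (T * lam * lam)) (T * lam * t) δ G)
    (fun k v φ φ' h hP => LP_local M Wd b' _ _ δ G k v φ φ' h hP)
    (fun k v φ h1 h2 => LP_prob M hM Wd b b' T lam t G δ hG hWd hT hlam hδ0 hδ1 h6 hL1 h36 h4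
      ht1 ht2 h18 k v φ h1 h2)
    ((lcard hq hT hGn).trans hbig)
  obtain ⟨c, hc1, hc2⟩ := extend M hM (by rw [hcard]; exact hN) φ hφ
  obtain ⟨h1, h2⟩ := LP_group M hM Wd b' T lam t G δ hδ0 hL2 φ hφ (fun v => (hall v).1)
    (fun v k => (hall v).2 k) c hc2
  refine ⟨c, fun v => φ v = none, hc1, ?_, h2⟩
  intro i v
  convert h1 i v

end Pool.Agent.H67.HY
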