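/-
ROW Loc. Locality of the process and of the bad events.
PROOF. Balls: `ball_mono` (k ≤ l → ball v k ⊆ ball v l), `x ∈ ball v k → M j x ∈ ball v (k+1)`, `x ∈ ball v k → ball x l ⊆ ball v (k + l)` (induction on `l`).
`run_local`: induction on `i`, for all `x`: `step` at `x` uses `actv` at `x` and `M j x`, `pk` at `x` and `M j x`, i.e. `ω` at `x`, `M j x` and `run M ω i` at `x`, `M j x`, `M j' (M j x)`; these have balls of radius `2 i` inside
`ball M x (2 i + 2)`.
`bad_local`: assume `ω = ω'` on `ball M v (2T+6)`. (A1) `act` at `M j v`. (A2),(A3) `newly`, `act` at points of `tst k v ⊆ ball M v 2`. (cond) `A1` at `x ∈ ball 2`: points `M j x ∈ ball 3`; `U M ω (tst k0 x) i`: `part` at the points of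
`tst k0 x ⊆ ball M x 2 ⊆ ball M v 4`, which needs `run M ω i` there: `ball M v (4 + 2 i)`, `i < T`. (roundOK) `fail`, `pick`, `run (i+1)` at points of `ball M v 2`: `fail` at `x` needs `pick`, `part` at `x, M j x`, i.e. `run M ω i` at distance `≤ 2` of `x`:
`ball M v (4 + 2 i)`; `run (i+1)`: `ball M v (2 + 2(i+1))`. (last) `run M ω T` on `ball M v 2` uses `ball M v (2 + 2T)`; `finOK` and `P` depend on `run M ω T` on `ball M v 2` only (`hPloc`). `PropCol` holds for both by `run_prop`. All radii are `≤ 2T+6`.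
Use `Finset.filter_congr` for the counts: e.g. the two filters of `tst k v` are equal because the predicates are equivalent at the points of `tst k v ⊆ ball M v 2`. (`¬ roundOK` etc. need the equivalence of `roundOK` for `ω` and `ω'`; the hypothesis is
symmetric in `ω, ω'`, so prove implications and use them twice.)
-/
import Pool.Agent.H67.HY.Eqv

set_option autoImplicit false

namespace Pool.Agent.H67.HY

open Finset
open Classical

variable {V J K K2 K3 R : Type} [Fintype J] [Fintype R] {N T : ℕ}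

theorem Loc_card {α : Type} (s : Finset α) (p q : α → Prop) (h : ∀ x ∈ s, p x ↔ q x) :
    (s.filter p).card = (s.filter q).card := by
  rw [filter_congr h]

theorem Loc_mem_succ (M : J → V → V) (v x : V) (k : ℕ) :
    x ∈ ball M v (k + 1) ↔ x ∈ ball M v k ∨ ∃ j, ∃ y ∈ ball M v k, M j y = x := by
  change x ∈ ball M v k ∪ (univ : Finset J).biUnion (fun j => (ball M v k).image (M j)) ↔ _
  rw [mem_union, mem_biUnion]
  refine or_congr Iff.rfl ?_
  constructor
  · rintro ⟨j, -, hj⟩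
    rw [mem_image] at hj
    exact ⟨j, hj⟩
  · rintro ⟨j, hj⟩
    exact ⟨j, mem_univ j, mem_image.2 hj⟩

theorem ball_mono (M : J → V → V) (v : V) {k l : ℕ} (h : k ≤ l) : ball M v k ⊆ ball M v l := by
  induction l, h using Nat.le_induction with
  | base => exact Finset.Subset.refl _
  | succ l _ ih =>
    intro x hx
    rw [Loc_mem_succ]
    exact Or.inl (ih hx)

theorem Loc_self (M : J → V → V) (v : V) (k : ℕ) : v ∈ ball M v k :=
  ball_mono M v (Nat.zero_le k) (mem_singleton_self v)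

theorem Loc_next (M : J → V → V) (v x : V) (k : ℕ) (j : J) (hx : x ∈ ball M v k) :
    M j x ∈ ball M v (k + 1) := by
  rw [Loc_mem_succ]
  exact Or.inr ⟨j, x, hx, rfl⟩

theorem ball_ball (M : J → V → V) (v x : V) (k l : ℕ) (hx : x ∈ ball M v k) :
    ball M x l ⊆ ball M v (k + l) := by
  induction l with
  | zero =>
    intro y hy
    change y ∈ ({x} : Finset V) at hy
    rw [mem_singleton] at hy
    rw [hy, add_zero]
    exact hx
  | succ l ih =>
    intro y hy
    rw [Loc_mem_succ] at hy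
    rcases hy with hy | ⟨j, z, hz, rfl⟩
    · exact ball_mono M v (by omega) (ih hy)
    · exact Loc_next M v z (k + l) j (ih hz)

/-- agreement on a ball -/
def Loc_ag (M : J → V → V) (ω ω' : V → Coin T N) (v : V) (r : ℕ) : Prop :=
  ∀ z ∈ ball M v r, ω z = ω' z

theorem Loc_sub {M : J → V → V} {ω ω' : V → Coin T N} {v x : V} {r s t : ℕ}
    (h : Loc_ag M ω ω' v r) (hx : x ∈ ball M v s) (hs : s + t ≤ r) : Loc_ag M ω ω' x t :=
  fun z hz => h z (ball_mono M v hs (ball_ball M v x s t hx hz))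

theorem Loc_at {M : J → V → V} {ω ω' : V → Coin T N} {v : V} {r : ℕ}
    (h : Loc_ag M ω ω' v r) : ω v = ω' v := h v (Loc_self M v r)

theorem Loc_act {ω ω' : V → Coin T N} {x : V} (i : ℕ) (h : ω x = ω' x) :
    act ω i x ↔ act ω' i x := by
  unfold act
  rw [h]

theorem Loc_sig {ω ω' : V → Coin T N} {x : V} (i : ℕ) (h : ω x = ω' x) :
    sig ω i x = sig ω' i x := by
  unfold sig
  rw [h]

theorem Loc_pk (M : J → V → V) {σ σ' : V → Equiv.Perm (Fin N)} {φ φ' : V → Option (Fin N)} {x : V}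
    (hσ : σ x = σ' x) (hφ : ∀ j, φ (M j x) = φ' (M j x)) : pk M σ φ x = pk M σ' φ' x := by
  unfold pk
  have : avail M φ x = avail M φ' x := by
    unfold avail
    refine filter_congr fun c _ => forall_congr' fun j => ?_
    rw [hφ j]
  rw [this, hσ]

theorem Loc_clash (M : J → V → V) {a a' : V → Prop} {σ σ' : V → Equiv.Perm (Fin N)}
    {φ φ' : V → Option (Fin N)} {x : V}
    (ha : ∀ j, a (M j x) ↔ a' (M j x)) (hφ : ∀ j, φ (M j x) = φ' (M j x))
    (hk : pk M σ φ x = pk M σ' φ' x) (hk' : ∀ j, pk M σ φ (M j x) = pk M σ' φ' (M j x)) :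
    clash M a σ φ x ↔ clash M a' σ' φ' x := by
  unfold clash actv
  refine exists_congr fun j => ?_
  rw [hφ j, ha j, hk, hk' j]

theorem Loc_nb (M : J → V → V) (x : V) (j : J) : M j x ∈ ball M x 1 :=
  Loc_next M x x 0 j (Loc_self M x 0)

theorem Loc_nb2 (M : J → V → V) (x : V) (j j' : J) : M j' (M j x) ∈ ball M x 2 :=
  Loc_next M x (M j x) 1 j' (Loc_nb M x j)

theorem Loc_clash_ag (M : J → V → V) {ω ω' : V → Coin T N} {i : ℕ} {x : V}
    (ih : ∀ y, Loc_ag M ω ω' y (2 * i) → run M ω i y = run M ω' i y)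
    (h : Loc_ag M ω ω' x (2 * i + 2)) :
    clash M (act ω i) (sig ω i) (run M ω i) x ↔ clash M (act ω' i) (sig ω' i) (run M ω' i) x := by
  have e1 : ∀ j, run M ω i (M j x) = run M ω' i (M j x) := fun j =>
    ih _ (Loc_sub h (Loc_nb M x j) (by omega))
  refine Loc_clash M (fun j => Loc_act i (Loc_at (r := 0) (Loc_sub h (Loc_nb M x j) (by omega)))) e1
    (Loc_pk M (Loc_sig i (Loc_at h)) e1) (fun j => Loc_pk M (Loc_sig i
      (Loc_at (r := 0) (Loc_sub h (Loc_nb M x j) (by omega)))) fun j' => ?_)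
  exact ih _ (Loc_sub h (Loc_nb2 M x j j') (by omega))

theorem run_local (M : J → V → V) (ω ω' : V → Coin T N) (i : ℕ) (x : V)
    (h : ∀ z ∈ ball M x (2 * i), ω z = ω' z) : run M ω i x = run M ω' i x := by
  induction i generalizing x with
  | zero => rfl
  | succ i ih =>
    have h' : Loc_ag M ω ω' x (2 * i + 2) := h
    have e0 : run M ω i x = run M ω' i x := ih x (Loc_sub h' (Loc_self M x 0) (by omega))
    have e1 : ∀ j, run M ω i (M j x) = run M ω' i (M j x) := fun j =>
      ih _ (Loc_sub h' (Loc_nb M x j) (by omega))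
    have ec := Loc_clash_ag M (fun y hy => ih y hy) h'
    have ek : pk M (sig ω i) (run M ω i) x = pk M (sig ω' i) (run M ω' i) x :=
      Loc_pk M (Loc_sig i (Loc_at h')) e1
    have ea : actv (act ω i) (run M ω i) x ↔ actv (act ω' i) (run M ω' i) x := by
      unfold actv
      rw [e0, Loc_act i (Loc_at h')]
    change step M (act ω i) (sig ω i) (run M ω i) x = step M (act ω' i) (sig ω' i) (run M ω' i) x
    unfold step
    by_cases hc : actv (act ω i) (run M ω i) x ∧ ¬ clash M (act ω i) (sig ω i) (run M ω i) x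
    · have hc' : actv (act ω' i) (run M ω' i) x ∧ ¬ clash M (act ω' i) (sig ω' i) (run M ω' i) x :=
        ⟨ea.1 hc.1, fun h2 => hc.2 (ec.2 h2)⟩
      rw [if_pos hc, if_pos hc', ek]
    · have hc' : ¬ (actv (act ω' i) (run M ω' i) x ∧ ¬ clash M (act ω' i) (sig ω' i) (run M ω' i) x) :=
        fun h2 => hc ⟨ea.2 h2.1, fun h3 => h2.2 (ec.1 h3)⟩
      rw [if_neg hc, if_neg hc', e0]

theorem Loc_part (M : J → V → V) {ω ω' : V → Coin T N} {i : ℕ} {x : V}
    (h : Loc_ag M ω ω' x (2 * i)) : part M ω i x ↔ part M ω' i x := by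
  unfold part actv
  rw [run_local M ω ω' i x h, Loc_act i (Loc_at h)]

theorem Loc_pick (M : J → V → V) {ω ω' : V → Coin T N} {i : ℕ} {x : V}
    (h : Loc_ag M ω ω' x (2 * i + 1)) : pick M ω i x = pick M ω' i x :=
  Loc_pk M (Loc_sig i (Loc_at h)) fun j =>
    run_local M ω ω' i _ (Loc_sub h (Loc_nb M x j) (by omega))

theorem Loc_fail (M : J → V → V) {ω ω' : V → Coin T N} {i : ℕ} {x : V}
    (h : Loc_ag M ω ω' x (2 * i + 2)) : fail M ω i x ↔ fail M ω' i x := by
  unfold fail
  rw [Loc_part M (Loc_sub h (Loc_self M x 0) (by omega)),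
    Loc_clash_ag M (fun y hy => run_local M ω ω' i y hy) h]

theorem Loc_A1 (M : J → V → V) {ω ω' : V → Coin T N} {i : ℕ} {x : V}
    (h : Loc_ag M ω ω' x 1) : A1 M ω x i ↔ A1 M ω' x i := by
  unfold A1
  rw [filter_congr fun j _ => not_congr (Loc_act i (h _ (Loc_nb M x j)))]

theorem Loc_U (M : J → V → V) {ω ω' : V → Coin T N} {i : ℕ} {S : Finset V}
    (h : ∀ x ∈ S, Loc_ag M ω ω' x (2 * i)) : U M ω S i ↔ U M ω' S i := by
  unfold U
  rw [filter_congr fun x hx => Loc_part M (h x hx)]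

theorem Loc_B1 (M : J → V → V) {ω ω' : V → Coin T N} {i lam : ℕ} {S : Finset V}
    (h : ∀ x ∈ S, Loc_ag M ω ω' x (2 * i + 2)) : B1 M ω S i lam ↔ B1 M ω' S i lam := by
  unfold B1
  rw [filter_congr fun x hx => Loc_fail M (h x hx)]

theorem Loc_B2 (M : J → V → V) {ω ω' : V → Coin T N} {i lam : ℕ} {S : Finset V}
    (h : ∀ x ∈ S, Loc_ag M ω ω' x (2 * i + 2)) : B2 M ω S i lam ↔ B2 M ω' S i lam := by
  unfold B2
  refine forall_congr' fun c => ?_
  have e : (S.filter fun x => part M ω i x ∧ pick M ω i x = some c) =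
      S.filter fun x => part M ω' i x ∧ pick M ω' i x = some c := filter_congr fun x hx => ?_
  · rw [e]
  rw [Loc_part M (Loc_sub (h x hx) (Loc_self M x 0) (by omega)),
    Loc_pick M (Loc_sub (h x hx) (Loc_self M x 0) (by omega))]

theorem Loc_B3 (M : J → V → V) {ω ω' : V → Coin T N} {i lam : ℕ} {xs ys : R → V}
    (hx : ∀ ρ, Loc_ag M ω ω' (xs ρ) (2 * i + 2)) (hy : ∀ ρ, Loc_ag M ω ω' (ys ρ) (2 * i + 2)) :
    B3 M ω xs ys i lam ↔ B3 M ω' xs ys i lam := by
  unfold B3
  have e : (univ.filter fun ρ => coin (run M ω (i + 1)) (xs ρ) (ys ρ) ∧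
      ¬ coin (run M ω i) (xs ρ) (ys ρ)) = univ.filter fun ρ => coin (run M ω' (i + 1)) (xs ρ) (ys ρ) ∧
      ¬ coin (run M ω' i) (xs ρ) (ys ρ) := filter_congr fun ρ _ => ?_
  · rw [e]
  have e1 := run_local M ω ω' (i + 1) (xs ρ) (hx ρ)
  have e2 := run_local M ω ω' (i + 1) (ys ρ) (hy ρ)
  have e3 := run_local M ω ω' i (xs ρ) (Loc_sub (hx ρ) (Loc_self M _ 0) (by omega))
  have e4 := run_local M ω ω' i (ys ρ) (Loc_sub (hy ρ) (Loc_self M _ 0) (by omega))
  unfold coin
  rw [e1, e2, e3, e4]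

theorem bad_local (M : J → V → V) (hM : IsFac M) (lam : ℕ) (k0 : K) (tst : K → V → Finset V)
    (xs ys : K2 → V → R → V) (p1 p2 : K2 → K)
    (ht : IsTests M T lam k0 tst xs ys p1 p2) (P : K3 → V → (V → Option (Fin N)) → Prop)
    (hPloc : ∀ k v φ φ', (∀ x ∈ ball M v 2, φ x = φ' x) → P k v φ → P k v φ')
    (v : V) (ω ω' : V → Coin T N) (h : ∀ z ∈ ball M v (2 * T + 6), ω z = ω' z)
    (hb : bad M lam k0 tst xs ys P v ω) : bad M lam k0 tst xs ys P v ω' := by
  have hag : Loc_ag M ω ω' v (2 * T + 6) := h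
  have htst : ∀ k, ∀ x ∈ tst k v, ω x = ω' x := fun k x hx =>
    h x (ball_mono M v (by omega) (ht.sub k v hx))
  have htag : ∀ k, ∀ i, i < T → ∀ x ∈ tst k v, Loc_ag M ω ω' x (2 * i + 2) := fun k i hi x hx =>
    Loc_sub hag (ht.sub k v hx) (by omega)
  unfold bad at hb ⊢
  rcases hb with ⟨i, hi, hA⟩ | ⟨i, k, hi, hA⟩ | ⟨k, hA⟩ | ⟨i, hi, hc, hr⟩ | ⟨hf, -, k, hP⟩
  · refine Or.inl ⟨i, hi, ?_⟩
    rwa [← Loc_A1 M (Loc_sub hag (Loc_self M v 0) (by omega))]
  · refine Or.inr (Or.inl ⟨i, k, hi, ?_⟩)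
    have : A2 ω (tst k v) i ↔ A2 ω' (tst k v) i := by
      unfold A2
      rw [Loc_card (tst k v) _ (fun x => newly ω' i x) fun x hx => ?_]
      unfold newly
      rw [Loc_act i (htst k x hx), htst k x hx]
    rwa [← this]
  · refine Or.inr (Or.inr (Or.inl ⟨k, ?_⟩))
    have : A3 ω (tst k v) ↔ A3 ω' (tst k v) := by
      unfold A3
      rw [filter_congr fun x hx => not_congr (Loc_act (T - 1) (htst k x hx))]
    rwa [← this]
  · refine Or.inr (Or.inr (Or.inr (Or.inl ⟨i, hi, ?_, ?_⟩)))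
    · obtain ⟨c1, c2, c3⟩ := hc
      refine ⟨fun x hx => ?_, fun x hx => ?_, fun k => ?_⟩
      · rw [← Loc_A1 M (Loc_sub hag hx (by omega))]
        exact c1 x hx
      · rw [← Loc_U M fun y hy => ?_]
        · exact c2 x hx
        · exact Loc_sub (Loc_sub hag hx (t := 2 * i + 2) (by omega)) (ht.sub k0 x hy) (by omega)
      · rw [← Loc_U M fun y hy => Loc_sub (htag k i hi y hy) (Loc_self M y 0) (by omega)]
        exact c3 k
    · intro hr'
      obtain ⟨r1, r2, r3⟩ := hr'
      refine hr ⟨fun k => ?_, fun k => ?_, fun k => ?_⟩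
      · rw [Loc_B1 M (htag k i hi)]
        exact r1 k
      · rw [Loc_B2 M (htag k i hi)]
        exact r2 k
      · rw [Loc_B3 M (fun ρ => htag (p1 k) i hi _ (ht.memx k v ρ))
          (fun ρ => htag (p2 k) i hi _ (ht.memy k v ρ))]
        exact r3 k
  · refine Or.inr (Or.inr (Or.inr (Or.inr ⟨?_, run_prop M hM ω' T, k, ?_⟩)))
    · have er : ∀ x ∈ ball M v 2, run M ω T x = run M ω' T x := fun x hx =>
        run_local M ω ω' T x (Loc_sub hag hx (by omega))
      have et : ∀ k, ∀ x ∈ tst k v, run M ω T x = run M ω' T x := fun k x hx =>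
        er x (ht.sub k v hx)
      obtain ⟨f1, f2, f3⟩ := hf
      refine ⟨fun k => ?_, fun k c => ?_, fun k => ?_⟩
      · have e := f1 k
        rw [filter_congr fun x hx => by rw [et k x hx]] at e
        exact e
      · have e := f2 k c
        rw [filter_congr fun x hx => by rw [et k x hx]] at e
        exact e
      · have e := f3 k
        rw [Loc_card univ _ (fun ρ => coin (run M ω' T) (xs k v ρ) (ys k v ρ)) fun ρ _ => by
          unfold coin
          rw [et (p1 k) _ (ht.memx k v ρ), et (p2 k) _ (ht.memy k v ρ)]] at e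
        exact e
    · intro hP'
      refine hP (hPloc k v _ _ (fun x hx => ?_) hP')
      exact (run_local M ω ω' T x (Loc_sub hag hx (by omega))).symm

end Pool.Agent.H67.HY
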