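/-
ROW NuA. Choice of the integer parameters.
PROOF. `X ≥ 10^7`. `q = p / X^76 ≥ 1` (`hp`), `q X^76 ≤ p < (q+1) X^76 ≤ 2 q X^76` (`pX`). `d0 = Δ/q + 1`: `Δ + 1 ≤ q d0` (`Nat.lt_mul_div_succ`), `q d0 ≤ Δ + q`. `p X^100 ≤ Δ`: `(p X^100)^4 = p^4 X^400 ≤ Δ^3 Δ` (`Nat.pow_le_pow_iff_left`). So `q X^176 ≤ p X^100 ≤ Δ < q d0`, `X^176 < d0` (`d0big`).
`bb = (2p-1)/q + 1`: `2p - 1 < q bb ≤ 2p - 1 + q` (`qbb`); `bblo`: `q bb ≥ 2p ≥ 2 q X^76`; `bbhi`: `2p - 1 < 4 q X^76`, so `(2p-1)/q < 4 X^76`. `g0 = bb/X + 1 ≤ 4 X^75 + 1`. `m := d0/(2X)` (floor), `m ≥ g0` (`d0 ≥ X^176`), `k = Nat.log 2 (m/g0)`, `f = 2^k g0 ≤ m` (`Nat.pow_log_le_self`, `Nat.div_mul_le_self`), so `2 X f ≤ d0` (`fhi`);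
`m/g0 < 2^(k+1)` (`Nat.lt_pow_succ_log_self`), so `m < 2^(k+1) g0 = 2 f`, i.e. `m + 1 ≤ 2 f` and `d0 < 2 X (m+1) ≤ 4 X f` (`flo`). `r = f - bb - 12 X^75 - 1`: `f > d0/(4X) ≥ X^175/4 ≥ 2 (bb + 12 X^75 + 1)`, so `2 r ≥ f` and `8 X r ≥ 4 X f > d0` (`rlo`). `nb = d0 - r`, `r ≤ f ≤ d0/2`, so `r ≤ nb` (`rn`).
`NB = nb + f = d0 + bb + 12 X^75 + 1`. `Nt = q NB + 1 - p` (`q NB ≥ q bb ≥ 2 p`): `Nt + p = q NB + 1`. `Ntlo`: `Nt = q d0 + q bb + q (12 X^75 + 1) + 1 - p > q d0`. `Nthi`: `Nt ≤ q (d0 + bb + 12X^75 + 1) ≤ 2 q d0` (`bb + 12 X^75 + 1 ≤ X^176 ≤ d0`; the `+1` is compensated by `- p`). `Ntexp`: `Nt ≤ q d0 + q bb + q (12X^75+1) + 1 - p ≤ (Δ + q) + (2p - 1 + q) + 13 q X^75 + 1 - p ≤ Δ + 5 p ≤ 4 (Δ+1)`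
(`q ≤ p`, `13 q X^75 ≤ p` as `q X^76 ≤ p`, `X ≥ 13`; `p ≤ Δ/X^100`). `b' = p/X`; `p ≤ 2 X b'`: `p < X (b' + 1) ≤ 2 X b'` as `b' ≥ 1`. `tot`: `q (NB + 25 X^75) = q d0 + q bb + q (37 X^75 + 1) ≤ (Δ + q) + (2p - 1 + q) + q (37 X^75 + 1) ≤ Δ + 2p + 38 q X^75`, multiply by `X`: `X q (NB + 25X^75) ≤ X (Δ + 2p) + 38 p`.
(Suggestion: set `Y = X^75`, `X^76 = X Y`, and give `nlinarith`/`omega` small steps; powers of `X` as opaque atoms. `X^175 ≥ 64 * X^76` etc. from `X ≥ 10^7`.)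
-/
import Pool.Agent.H67.HY.Defs

set_option autoImplicit false

namespace Pool.Agent.H67.HY

/-- The integer parameters. -/
structure Raw (D p X q d0 bb g0 k f r nb NB Nt b' : ℕ) : Prop where
  X7 : 10 ^ 7 ≤ X
  q1 : 1 ≤ q
  qX : q * X ^ 76 ≤ p
  pX : p < 2 * (q * X ^ 76)
  nlo : D + 1 ≤ q * d0
  nhi : q * d0 ≤ D + q
  d0big : X ^ 176 ≤ d0
  hbb : bb = (2 * p - 1) / q + 1
  bblo : 2 * X ^ 76 ≤ bb
  bbhi : bb ≤ 4 * X ^ 76
  qbb : q * bb ≤ 2 * p - 1 + q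
  hg0 : g0 = bb / X + 1
  g0hi : g0 ≤ 4 * X ^ 75 + 1
  hf : f = 2 ^ k * g0
  flo : d0 < 4 * X * f
  fhi : 2 * X * f ≤ d0
  hr : r + bb + 12 * X ^ 75 + 1 = f
  rlo : d0 ≤ 8 * X * r
  hnb : nb + r = d0
  rn : r ≤ nb
  hNB : NB = nb + f
  hNt : Nt + p = q * NB + 1
  Ntlo : q * d0 < Nt
  Nthi : Nt ≤ 2 * (q * d0)
  Ntexp : Nt ≤ 4 * (D + 1)
  hb' : b' = p / X
  b'lo : p ≤ 2 * X * b'
  tot : X * (q * (NB + 25 * X ^ 75)) ≤ X * (D + 2 * p) + 38 * p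

theorem raw (D p X : ℕ) (hX : 10 ^ 7 ≤ X) (hp : X ^ 76 ≤ p) (hD : X ^ 400 ≤ D)
    (hpD : p ^ 4 ≤ D ^ 3) :
    ∃ q d0 bb g0 k f r nb NB Nt b' : ℕ, Raw D p X q d0 bb g0 k f r nb NB Nt b' := by
  have hX0 : 0 < X := by omega
  obtain ⟨Y, hY⟩ : ∃ Y, Y = X ^ 75 := ⟨_, rfl⟩
  obtain ⟨W, hW⟩ : ∃ W, W = X ^ 76 := ⟨_, rfl⟩
  obtain ⟨Z, hZ⟩ : ∃ Z, Z = X ^ 100 := ⟨_, rfl⟩
  obtain ⟨B, hB⟩ : ∃ B, B = X ^ 176 := ⟨_, rfl⟩
  have hWY : W = X * Y := by rw [hW, hY]; ring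
  have hBWZ : B = W * Z := by rw [hB, hW, hZ]; ring
  have hYX : X ≤ Y := by
    rw [hY]
    calc X = X ^ 1 := (pow_one X).symm
      _ ≤ X ^ 75 := Nat.pow_le_pow_right hX0 (by norm_num)
  have hY0 : 0 < Y := by omega
  have hW0 : 0 < W := by rw [hWY]; positivity
  have hZ3 : X * X ≤ Z := by
    rw [hZ]
    calc X * X = X ^ 2 := by ring
      _ ≤ X ^ 100 := Nat.pow_le_pow_right hX0 (by norm_num)
  rw [← hW] at hp
  -- q
  obtain ⟨q, hq⟩ : ∃ q, q = p / W := ⟨_, rfl⟩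
  have hq1 : 1 ≤ q := by
    rw [hq]
    exact Nat.div_pos hp hW0
  have hdm := Nat.div_add_mod p W
  have hml := Nat.mod_lt p hW0
  rw [← hq] at hdm
  have hqW : q * W ≤ p := by
    have : W * q = q * W := Nat.mul_comm _ _
    omega
  have hWq : W ≤ q * W := Nat.le_mul_of_pos_left W hq1
  have hpX : p < 2 * (q * W) := by
    have : W * q = q * W := Nat.mul_comm _ _
    omega
  have hp1 : 1 ≤ p := by omega
  -- d0
  obtain ⟨d0, hd0⟩ : ∃ d0, d0 = D / q + 1 := ⟨_, rfl⟩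
  have hdD := Nat.div_add_mod D q
  have hmD := Nat.mod_lt D (by omega : 0 < q)
  have hqd : q * d0 = q * (D / q) + q := by rw [hd0]; ring
  have hnlo : D + 1 ≤ q * d0 := by omega
  have hnhi : q * d0 ≤ D + q := by omega
  have hpZ : p * Z ≤ D := by
    have h1 : (p * Z) ^ 4 ≤ D ^ 4 := by
      calc (p * Z) ^ 4 = p ^ 4 * X ^ 400 := by rw [hZ]; ring
        _ ≤ D ^ 3 * D := Nat.mul_le_mul hpD hD
        _ = D ^ 4 := by ring
    exact (Nat.pow_le_pow_iff_left (by norm_num)).1 h1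
  have hd0big : B ≤ d0 := by
    have h1 : q * B ≤ D := by
      calc q * B = (q * W) * Z := by rw [hBWZ]; ring
        _ ≤ p * Z := Nat.mul_le_mul_right _ hqW
        _ ≤ D := hpZ
    have h2 : q * B < q * d0 := by omega
    exact (Nat.lt_of_mul_lt_mul_left h2).le
  -- bb
  obtain ⟨bb, hbb⟩ : ∃ bb, bb = (2 * p - 1) / q + 1 := ⟨_, rfl⟩
  have hdb := Nat.div_add_mod (2 * p - 1) q
  have hmb := Nat.mod_lt (2 * p - 1) (by omega : 0 < q)
  have hqb : q * bb = q * ((2 * p - 1) / q) + q := by rw [hbb]; ring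
  have hqbb : q * bb ≤ 2 * p - 1 + q := by omega
  have hqbb2 : 2 * p ≤ q * bb := by omega
  have hbblo : 2 * W ≤ bb := by
    have h1 : q * (2 * W) ≤ q * bb := by
      have : q * (2 * W) = 2 * (q * W) := by ring
      omega
    exact Nat.le_of_mul_le_mul_left h1 hq1
  have hbbhi : bb ≤ 4 * W := by
    have h1 : (2 * p - 1) / q < 4 * W := by
      apply Nat.div_lt_of_lt_mul
      have : q * (4 * W) = 4 * (q * W) := by ring
      omega
    omega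
  -- g0
  obtain ⟨g0, hg0⟩ : ∃ g0, g0 = bb / X + 1 := ⟨_, rfl⟩
  have hg0hi : g0 ≤ 4 * Y + 1 := by
    have h1 : bb / X ≤ 4 * Y := by
      apply Nat.div_le_of_le_mul
      have : X * (4 * Y) = 4 * W := by rw [hWY]; ring
      omega
    omega
  have hg01 : 1 ≤ g0 := by rw [hg0]; exact Nat.le_add_left 1 _
  -- size of B
  have hXY : X * X * X * Y ≤ B := by
    calc X * X * X * Y = (X * Y) * (X * X) := by ring
      _ ≤ W * Z := by
          rw [hWY]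
          exact Nat.mul_le_mul_left _ hZ3
      _ = B := hBWZ.symm
  have hXYa : 40 * (X * X * Y) ≤ X * X * X * Y := by
    have h1 : 40 ≤ X := by omega
    calc 40 * (X * X * Y) ≤ X * (X * X * Y) := Nat.mul_le_mul_right _ h1
      _ = X * X * X * Y := by ring
  have hWsm : 13 * Y ≤ W := by
    rw [hWY]
    exact Nat.mul_le_mul_right _ (by omega)
  have hbig : 8 * X * (bb + 12 * Y + 1) ≤ B := by
    have h1 : bb + 12 * Y + 1 ≤ 5 * W := by omega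
    calc 8 * X * (bb + 12 * Y + 1) ≤ 8 * X * (5 * W) := Nat.mul_le_mul_left _ h1
      _ = 40 * (X * X * Y) := by rw [hWY]; ring
      _ ≤ B := hXYa.trans hXY
  -- m
  obtain ⟨m, hm⟩ : ∃ m, m = d0 / (2 * X) := ⟨_, rfl⟩
  have hmd := Nat.div_add_mod d0 (2 * X)
  have hmm := Nat.mod_lt d0 (by omega : 0 < 2 * X)
  rw [← hm] at hmd
  have hm1 : 2 * X * m ≤ d0 := by omega
  have hm2 : d0 < 2 * X * (m + 1) := by
    have : 2 * X * (m + 1) = 2 * X * m + 2 * X := by ring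
    omega
  have hgm : g0 ≤ m := by
    rw [hm, Nat.le_div_iff_mul_le (by omega)]
    have h1 : g0 ≤ bb + 12 * Y + 1 := by omega
    calc g0 * (2 * X) ≤ (bb + 12 * Y + 1) * (2 * X) := Nat.mul_le_mul_right _ h1
      _ ≤ 8 * X * (bb + 12 * Y + 1) := by
          have : 8 * X * (bb + 12 * Y + 1) = 4 * ((bb + 12 * Y + 1) * (2 * X)) := by ring
          omega
      _ ≤ d0 := hbig.trans hd0big
  obtain ⟨k, hk⟩ : ∃ k, k = Nat.log 2 (m / g0) := ⟨_, rfl⟩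
  have hmg : m / g0 ≠ 0 := by
    have := Nat.div_pos hgm hg01
    omega
  obtain ⟨f, hf⟩ : ∃ f, f = 2 ^ k * g0 := ⟨_, rfl⟩
  have hfm : f ≤ m := by
    rw [hf, hk]
    exact (Nat.mul_le_mul_right _ (Nat.pow_log_le_self 2 hmg)).trans (Nat.div_mul_le_self m g0)
  have hm2f : m + 1 ≤ 2 * f := by
    have h1 : m / g0 < 2 ^ (k + 1) := by
      rw [hk]
      exact Nat.lt_pow_succ_log_self (by norm_num) _
    have h2 : m < 2 ^ (k + 1) * g0 := by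
      rwa [Nat.div_lt_iff_lt_mul hg01] at h1
    have h3 : 2 ^ (k + 1) * g0 = 2 * f := by rw [hf]; ring
    omega
  have hfhi : 2 * X * f ≤ d0 := (Nat.mul_le_mul_left _ hfm).trans hm1
  have hflo : d0 < 4 * X * f := by
    calc d0 < 2 * X * (m + 1) := hm2
      _ ≤ 2 * X * (2 * f) := Nat.mul_le_mul_left _ hm2f
      _ = 4 * X * f := by ring
  -- r
  have hf2 : 2 * (bb + 12 * Y + 1) ≤ f := by
    by_contra hcon
    have h1 : f ≤ 2 * (bb + 12 * Y + 1) := by omega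
    have h2 : 4 * X * f ≤ 4 * X * (2 * (bb + 12 * Y + 1)) := Nat.mul_le_mul_left _ h1
    have h3 : 4 * X * (2 * (bb + 12 * Y + 1)) = 8 * X * (bb + 12 * Y + 1) := by ring
    omega
  obtain ⟨r, hr⟩ : ∃ r, r = f - (bb + 12 * Y + 1) := ⟨_, rfl⟩
  have hr1 : r + bb + 12 * Y + 1 = f := by omega
  have hrlo : d0 ≤ 8 * X * r := by
    have h1 : f ≤ 2 * r := by omega
    have h2 : 4 * X * f ≤ 4 * X * (2 * r) := Nat.mul_le_mul_left _ h1
    have h3 : 4 * X * (2 * r) = 8 * X * r := by ring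
    omega
  have h2f : 2 * f ≤ 2 * X * f := Nat.mul_le_mul_right _ (by omega)
  obtain ⟨nb, hnb⟩ : ∃ nb, nb = d0 - r := ⟨_, rfl⟩
  have hnb1 : nb + r = d0 := by omega
  have hrn : r ≤ nb := by omega
  obtain ⟨NB, hNB⟩ : ∃ NB, NB = nb + f := ⟨_, rfl⟩
  have hNB1 : NB = d0 + bb + 12 * Y + 1 := by omega
  have hqNB : q * NB = q * d0 + q * bb + 12 * (q * Y) + q := by rw [hNB1]; ring
  obtain ⟨a, ha⟩ : ∃ a, a = q * Y := ⟨_, rfl⟩
  have hXa : X * a ≤ p := by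
    have : X * a = q * W := by rw [ha, hWY]; ring
    omega
  have hqa : q ≤ a := by
    rw [ha]
    exact Nat.le_mul_of_pos_right q hY0
  have h13a : 38 * a ≤ X * a := Nat.mul_le_mul_right _ (by omega)
  have h3q : 3 * q ≤ a := by
    rw [ha, Nat.mul_comm 3 q]
    exact Nat.mul_le_mul_left _ (by omega)
  rw [← ha] at hqNB
  have h3p : 3 * p ≤ D := by
    have h1 : 3 ≤ Z := by
      have : X ≤ X * X := Nat.le_mul_of_pos_left X hX0
      omega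
    have h2 : p * 3 ≤ p * Z := Nat.mul_le_mul_left _ h1
    omega
  have hbd : bb + 12 * Y + 1 ≤ d0 := by
    have h1 : 8 * X * (bb + 12 * Y + 1) ≤ d0 := hbig.trans hd0big
    have h2 : bb + 12 * Y + 1 ≤ 8 * X * (bb + 12 * Y + 1) :=
      Nat.le_mul_of_pos_left _ (by omega)
    omega
  have hqbd : q * bb + 12 * a + q ≤ q * d0 := by
    have h1 := Nat.mul_le_mul_left q hbd
    have h2 : q * (bb + 12 * Y + 1) = q * bb + 12 * a + q := by rw [ha]; ring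
    omega
  obtain ⟨Nt, hNt⟩ : ∃ Nt, Nt = q * NB + 1 - p := ⟨_, rfl⟩
  have hNt1 : Nt + p = q * NB + 1 := by omega
  obtain ⟨b', hb'⟩ : ∃ b', b' = p / X := ⟨_, rfl⟩
  have hpdm := Nat.div_add_mod p X
  have hpml := Nat.mod_lt p hX0
  rw [← hb'] at hpdm
  have hb'lo : p ≤ 2 * X * b' := by
    have h0 : X ≤ p := by
      have : X ≤ X * Y := Nat.le_mul_of_pos_right X hY0
      omega
    have h1 : 1 ≤ b' := by
      rw [hb']
      exact Nat.div_pos h0 hX0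
    have h2 : X ≤ X * b' := Nat.le_mul_of_pos_right X h1
    have h3 : 2 * X * b' = 2 * (X * b') := by ring
    omega
  have htot : X * (q * (NB + 25 * Y)) ≤ X * (D + 2 * p) + 38 * p := by
    have h1 : q * (NB + 25 * Y) = q * NB + 25 * a := by rw [ha]; ring
    have h2 : q * NB + 25 * a ≤ D + 2 * p + 38 * a := by omega
    rw [h1]
    calc X * (q * NB + 25 * a) ≤ X * (D + 2 * p + 38 * a) := Nat.mul_le_mul_left _ h2
      _ = X * (D + 2 * p) + 38 * (X * a) := by ring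
      _ ≤ X * (D + 2 * p) + 38 * p := by omega
  refine ⟨q, d0, bb, g0, k, f, r, nb, NB, Nt, b', ?_⟩
  exact
    { X7 := hX
      q1 := hq1
      qX := by rw [← hW]; exact hqW
      pX := by rw [← hW]; exact hpX
      nlo := hnlo
      nhi := hnhi
      d0big := by rw [← hB]; exact hd0big
      hbb := hbb
      bblo := by rw [← hW]; exact hbblo
      bbhi := by rw [← hW]; exact hbbhi
      qbb := hqbb
      hg0 := hg0
      g0hi := by rw [← hY]; exact hg0hi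
      hf := hf
      flo := hflo
      fhi := hfhi
      hr := by rw [← hY]; exact hr1
      rlo := hrlo
      hnb := hnb1
      rn := hrn
      hNB := hNB
      hNt := hNt1
      Ntlo := by omega
      Nthi := by omega
      Ntexp := by omega
      hb' := hb'
      b'lo := hb'lo
      tot := by rw [← hY]; exact htot }

end Pool.Agent.H67.HY
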