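/-
ROW NuB. Choice of the number of rounds.
PROOF. Let `x = p/(X^8 Nt) ∈ (0, 1]` (`p ≤ Nt`, `X ≥ 1`). `exists_nat_pow_near_of_lt_one` (with `0 < th < 1`): `n` with `th^(n+1) < x ≤ th^n`. `T = n + 1`: `th^T ≤ x`, and `th^T = th * th^n ≥ th x ≥ x/2`. Bound: `log x ≤ n log th`, `-log th = log (1024/1023) ≥ 1 - 1023/1024 = 1/1024` (`Real.one_sub_inv_le_log_of_pos`), so
`n ≤ 1024 (-log x)`, `-log x = 8 log X + log Nt - log p ≤ 8 log X + log Nt`. `log Nt ≤ log (4 (D+1)) ≤ L`; `400 log X ≤ log D ≤ L`, so `8 log X ≤ L/50`. `n ≤ 1024 * 1.02 * L ≤ 1045 L`, `T ≤ 1045 L + 1 ≤ 1100 L` (`L ≥ 1`).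
-/
import Pool.Agent.H67.HY.NuA
import Pool.Agent.H67.HY.PD

set_option autoImplicit false

namespace Pool.Agent.H67.HY

theorem rounds (D p X L Nt : ℕ) (hL : 1 ≤ L) (hX : 1 ≤ X) (hp : 1 ≤ p) (hpN : p ≤ Nt)
    (hNt : Nt ≤ 4 * (D + 1)) (hD : X ^ 400 ≤ D) (hexp : (4 * (D + 1) : ℝ) ≤ Real.exp L) :
    ∃ T : ℕ, 1 ≤ T ∧ T ≤ 1100 * L ∧ th ^ T ≤ (p : ℝ) / (X ^ 8 * Nt) ∧
      (p : ℝ) / (2 * X ^ 8 * Nt) ≤ th ^ T := by
  have hth0 : (0 : ℝ) < th := by unfold th; norm_num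
  have hth1 : th < 1 := by unfold th; norm_num
  have hX' : (1 : ℝ) ≤ X := by exact_mod_cast hX
  have hp' : (1 : ℝ) ≤ p := by exact_mod_cast hp
  have hpN' : (p : ℝ) ≤ Nt := by exact_mod_cast hpN
  have hNt0 : (0 : ℝ) < Nt := by linarith
  have hX8 : (1 : ℝ) ≤ (X : ℝ) ^ 8 := one_le_pow₀ hX'
  have hden : (0 : ℝ) < (X : ℝ) ^ 8 * Nt := by positivity
  have hx0 : (0 : ℝ) < (p : ℝ) / (X ^ 8 * Nt) := by positivity
  have hx1 : (p : ℝ) / (X ^ 8 * Nt) ≤ 1 := by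
    rw [div_le_one hden]
    nlinarith
  obtain ⟨n, hn1, hn2⟩ := exists_nat_pow_near_of_lt_one hx0 hx1 hth0 hth1
  refine ⟨n + 1, by omega, ?_, hn1.le, ?_⟩
  · have hL' : (1 : ℝ) ≤ L := by exact_mod_cast hL
    have h1 : Real.log ((p : ℝ) / (X ^ 8 * Nt)) ≤ n * Real.log th := by
      rw [← Real.log_pow]
      exact Real.log_le_log hx0 hn2
    have h2 : Real.log th ≤ -(1 / 1024) := by
      have := Real.log_le_sub_one_of_pos hth0
      unfold th at this ⊢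
      linarith
    have h3 : Real.log ((p : ℝ) / (X ^ 8 * Nt)) = Real.log p - (8 * Real.log X + Real.log Nt) := by
      rw [Real.log_div (by positivity) (by positivity), Real.log_mul (by positivity) (by positivity),
        Real.log_pow]
      norm_num
    have h4 : 0 ≤ Real.log p := Real.log_nonneg hp'
    have hNt' : (Nt : ℝ) ≤ 4 * (D + 1) := by exact_mod_cast hNt
    have h5 : Real.log Nt ≤ L := by
      rw [Real.log_le_iff_le_exp hNt0]
      exact hNt'.trans hexp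
    have h6 : 400 * Real.log X ≤ L := by
      have h7 : (400 : ℝ) * Real.log X = Real.log ((X : ℝ) ^ 400) := by
        rw [Real.log_pow]
        norm_num
      have h8 : ((X : ℝ) ^ 400) ≤ D := by exact_mod_cast hD
      have h9 : (1 : ℝ) ≤ (X : ℝ) ^ 400 := one_le_pow₀ hX'
      rw [h7, Real.log_le_iff_le_exp (by linarith)]
      refine h8.trans (le_trans ?_ hexp)
      have : (0 : ℝ) ≤ D := Nat.cast_nonneg D
      linarith
    have hn0 : (0 : ℝ) ≤ n := Nat.cast_nonneg n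
    have h10 : (n : ℝ) * (1 / 1024) ≤ 8 * Real.log X + Real.log Nt := by
      have h11 : (n : ℝ) * Real.log th ≤ n * (-(1 / 1024)) := mul_le_mul_of_nonneg_left h2 hn0
      linarith
    have h12 : (((n + 1 : ℕ) : ℝ)) ≤ ((1100 * L : ℕ) : ℝ) := by
      push_cast
      linarith
    exact_mod_cast h12
  · have h1 : (p : ℝ) / (2 * X ^ 8 * Nt) = ((p : ℝ) / (X ^ 8 * Nt)) / 2 := by
      field_simp
    rw [h1, pow_succ th n]
    have h2 : (1 : ℝ) / 2 ≤ th := by unfold th; norm_num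
    have h3 : (p : ℝ) / (X ^ 8 * Nt) * (1 / 2) ≤ th ^ n * th :=
      mul_le_mul hn2 h2 (by norm_num) (by positivity)
    linarith

end Pool.Agent.H67.HY
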