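/-
ROW NuC. Numerics, part 1 (real inequalities with th^T, delta = 1/X^6, lam = 5000 L^2).
PROOF. Let `n = q d0`, `n < Nt ≤ 2 n`, `q X^76 ≤ p < 2 q X^76`, `d0 ≤ 8 X r`, `p ≤ 2 X b'`, `X ≥ 10^7`, `X ≥ L`. Basic: `r p/Nt ≥ (d0/(8X)) p/(2 q d0) = p/(16 q X) ≥ X^75/16` (B1), `r b'/Nt ≥ (r p/Nt)/(2X) ≥ X^74/32` (B2). `T lam ≤ 1100 L * 5000 L² = 5.5*10^6 L³`.
`n1`: `th^T r ≥ (p/(2 X^8 Nt)) r ≥ X^67/32` (B1) `≥ 2*10^7 L² = 4000 lam` (`X^65 ≥ 10^9`). `n2`: `6 th^T ≤ 6 p/(X^8 Nt) ≤ 6/X^8 ≤ 1/X^6` (`p ≤ Nt`: from `qX`.. `Nt > q d0 ≥ q X^176 ≥ p`). `n3`: `16 T lam (lam+1) ≤ 16*5.5*10^6*5001 L^5 ≤ 5*10^11 L^5 ≤ X^62/32 ≤ X^(-12) r b'/Nt` (B2).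
`n4`: `4 T lam² ≤ 1.1*10^11 L^5`, `3 th^T r ≤ 3 (p/(X^8 Nt)) r`. `X^(-6) r b'/Nt ≥ (r p/Nt)/(2 X^7)`; half of it, `(rp/Nt)/(4X^7) ≥ 3 (rp/Nt)/X^8` (`X ≥ 12`), the other half `≥ X^68/64 ≥ 1.1*10^11 L^5`.
`n5`: `16 X^60 * 4 L = 64 L X^60 ≤ X^62/32 ≤ X^(-12) r b'/Nt` (`X² ≥ 2048 L`). `n6`: with `h = T lam (150 X^16) ≤ 5.5*10^6*150 L³ X^16 ≤ X^21` (`8.25*10^8 L³ ≤ X^5`), `s3 = 4 T lam² + 4 T lam ≤ 1.2*10^11 L^5 ≤ X^8`: `6 X^(-6) X^60 X^21 = 6 X^75`; `3 h² s3 h ≤ 3 X^71`; `2 (4L) h ≤ 8 X^22`; `b'/q + 1 ≤ p/(X q) + 1 ≤ 2 X^75 + 1`;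
`3 th^T nb ≤ 3 p nb/(X^8 Nt) ≤ 3 p/(X^8 q) ≤ 6 X^68` (`nb ≤ d0`, `Nt > q d0`). Sum `≤ 8 X^75 + 3 X^71 + 8 X^22 + 6 X^68 + 2 ≤ 12 X^75`.
-/
import Pool.Agent.H67.HY.NuA
import Pool.Agent.H67.HY.PD

set_option autoImplicit false

namespace Pool.Agent.H67.HY

theorem NuC_p1 {x : ℝ} (hx : 10 ^ 7 ≤ x) {a b : ℕ} (h : b + 1 ≤ a) : 10 ^ 7 * x ^ b ≤ x ^ a := by
  have hx1 : (1:ℝ) ≤ x := le_trans (by norm_num) hx
  have h1 : x ^ (b + 1) ≤ x ^ a := pow_le_pow_right₀ hx1 h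
  refine le_trans ?_ h1
  have h2 : 10 ^ 7 * x ^ b ≤ x * x ^ b := mul_le_mul_of_nonneg_right hx (by positivity)
  exact h2.trans (le_of_eq (by ring))

theorem NuC_p2 {x : ℝ} (hx : 10 ^ 7 ≤ x) {a b : ℕ} (h : b + 2 ≤ a) : 10 ^ 14 * x ^ b ≤ x ^ a := by
  have h1 := NuC_p1 hx (a := b + 1) (b := b) le_rfl
  have h2 := NuC_p1 hx (a := a) (b := b + 1) h
  linarith

theorem NuC_real (x l t q d p nb r N b T : ℝ) (hx : 10 ^ 7 ≤ x) (hl : 100 ≤ l) (hlx : l ≤ x)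
    (hT0 : 0 ≤ T) (hT : T ≤ 1100 * l) (ht1 : t ≤ p / (x ^ 8 * N)) (ht2 : p / (2 * x ^ 8 * N) ≤ t)
    (hq : 1 ≤ q) (hqx : q * x ^ 76 ≤ p) (hpx : p ≤ 2 * (q * x ^ 76)) (hd : x ^ 176 ≤ d)
    (hN1 : q * d ≤ N) (hN2 : N ≤ 2 * (q * d)) (hr : d ≤ 8 * x * r) (hb : p ≤ 2 * x * b)
    (hnb : nb ≤ d) (hnb0 : 0 ≤ nb) (e : ℝ) (he : e ≤ p / x / q) :
    4000 * (5000 * l ^ 2) ≤ t * r ∧
    6 * t ≤ 1 / x ^ 6 ∧
    16 * (T * (5000 * l ^ 2)) * (5000 * l ^ 2 + 1) ≤ (1 / x ^ 6) ^ 2 * (r * b / N) ∧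
    4 * (T * (5000 * l ^ 2) * (5000 * l ^ 2)) + 3 * t * r ≤ 1 / x ^ 6 * (r * b / N) ∧
    16 * x ^ 60 * (4 * l) ≤ (1 / x ^ 6) ^ 2 * (r * b / N) ∧
    6 * (1 / x ^ 6) * (x ^ 60 * (T * (5000 * l ^ 2) * (150 * x ^ 16))) + 1 +
      (3 * ((T * (5000 * l ^ 2) * (150 * x ^ 16)) ^ 2 *
        (4 * (T * (5000 * l ^ 2) * (5000 * l ^ 2)) + 4 * (T * (5000 * l ^ 2)))) +
          2 * (4 * l)) * (T * (5000 * l ^ 2) * (150 * x ^ 16)) +
      (e + 1) + 3 * t * nb ≤ 12 * x ^ 75 := by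
  have hx0 : 0 < x := lt_of_lt_of_le (by norm_num) hx
  have hl0 : 0 < l := by linarith
  have hq0 : 0 < q := by linarith
  have hd0 : 0 < d := lt_of_lt_of_le (by positivity) hd
  have hN0 : 0 < N := lt_of_lt_of_le (by positivity) hN1
  have hp0 : 0 < p := lt_of_lt_of_le (by positivity) hqx
  have hr0 : 0 < r := by
    have h1 : 0 < 8 * x * r := lt_of_lt_of_le hd0 hr
    exact (mul_pos_iff_of_pos_left (by positivity)).1 h1
  have hb0 : 0 < b := by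
    have h1 : 0 < 2 * x * b := lt_of_lt_of_le hp0 hb
    exact (mul_pos_iff_of_pos_left (by positivity)).1 h1
  have ht0 : 0 < t := lt_of_lt_of_le (by positivity) ht2
  obtain ⟨S, hS⟩ : ∃ S : ℝ, S = r * p / N := ⟨_, rfl⟩
  obtain ⟨W, hW⟩ : ∃ W : ℝ, W = r * b / N := ⟨_, rfl⟩
  have hS1 : x ^ 75 / 16 ≤ S := by
    rw [hS, le_div_iff₀ hN0]
    calc x ^ 75 / 16 * N ≤ x ^ 75 / 16 * (2 * (q * d)) :=
          mul_le_mul_of_nonneg_left hN2 (by positivity)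
      _ ≤ x ^ 75 / 16 * (2 * (q * (8 * x * r))) := by gcongr
      _ = (q * x ^ 76) * r := by ring
      _ ≤ p * r := by gcongr
      _ = r * p := by ring
  have hW1 : S / (2 * x) ≤ W := by
    rw [hS, hW]
    calc r * p / N / (2 * x) ≤ r * (2 * x * b) / N / (2 * x) := by gcongr
      _ = r * b / N := by field_simp
  have hW2 : x ^ 74 / 32 ≤ W := by
    refine le_trans ?_ hW1
    calc x ^ 74 / 32 = x ^ 75 / 16 / (2 * x) := by
          field_simp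
          ring
      _ ≤ S / (2 * x) := by gcongr
  have hW3 : x ^ 62 / 32 ≤ (1 / x ^ 6) ^ 2 * W := by
    calc x ^ 62 / 32 = (1 / x ^ 6) ^ 2 * (x ^ 74 / 32) := by
          field_simp
      _ ≤ _ := by gcongr
  have hpN : p ≤ N := by
    have h1 : x ^ 76 * 2 ≤ x ^ 176 := by
      have := NuC_p1 hx (a := 176) (b := 76) (by norm_num)
      have h0 : 0 < x ^ 76 := by positivity
      linarith
    calc p ≤ 2 * (q * x ^ 76) := hpx
      _ = q * (x ^ 76 * 2) := by ring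
      _ ≤ q * x ^ 176 := by gcongr
      _ ≤ q * d := by gcongr
      _ ≤ N := hN1
  have htr : t * r ≤ S / x ^ 8 := by
    calc t * r ≤ p / (x ^ 8 * N) * r := by gcongr
      _ = r * p / N / x ^ 8 := by field_simp
      _ = S / x ^ 8 := by rw [hS]
  have htr2 : x ^ 67 / 32 ≤ t * r := by
    calc x ^ 67 / 32 = x ^ 75 / 16 / (2 * x ^ 8) := by
          field_simp
          ring
      _ ≤ S / (2 * x ^ 8) := by gcongr
      _ = p / (2 * x ^ 8 * N) * r := by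
          rw [hS]
          field_simp
      _ ≤ t * r := by gcongr
  -- powers of l
  have hl2 : l ^ 2 ≤ x ^ 2 := pow_le_pow_left₀ hl0.le hlx 2
  have hl3 : l ^ 3 ≤ x ^ 3 := pow_le_pow_left₀ hl0.le hlx 3
  have hl5 : l ^ 5 ≤ x ^ 5 := pow_le_pow_left₀ hl0.le hlx 5
  have hl35 : l ^ 3 * 10000 ≤ l ^ 5 := by
    have h1 : (100:ℝ) ^ 2 ≤ l ^ 2 := pow_le_pow_left₀ (by norm_num) hl 2
    calc l ^ 3 * 10000 = l ^ 3 * 100 ^ 2 := by norm_num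
      _ ≤ l ^ 3 * l ^ 2 := by gcongr
      _ = l ^ 5 := by ring
  obtain ⟨u, hu⟩ : ∃ u : ℝ, u = T * (5000 * l ^ 2) := ⟨_, rfl⟩
  have hu0 : 0 ≤ u := by
    rw [hu]
    positivity
  have hu1 : u ≤ 5500000 * l ^ 3 := by
    rw [hu]
    calc T * (5000 * l ^ 2) ≤ 1100 * l * (5000 * l ^ 2) := by gcongr
      _ = 5500000 * l ^ 3 := by ring
  have hul : u * (5000 * l ^ 2) ≤ 27500000000 * l ^ 5 := by
    calc u * (5000 * l ^ 2) ≤ 5500000 * l ^ 3 * (5000 * l ^ 2) := by gcongr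
      _ = 27500000000 * l ^ 5 := by ring
  rw [← hu, ← hW]
  refine ⟨?_, ?_, ?_, ?_, ?_, ?_⟩
  · have h1 := NuC_p2 hx (a := 67) (b := 2) (by norm_num)
    have h2 : 0 < x ^ 2 := by positivity
    linarith
  · have h1 : p / (x ^ 8 * N) ≤ 1 / x ^ 8 := by
      rw [div_le_div_iff₀ (by positivity) (by positivity), one_mul]
      calc p * x ^ 8 ≤ N * x ^ 8 := by gcongr
        _ = x ^ 8 * N := by ring
    have h2 : 6 / x ^ 8 ≤ 1 / x ^ 6 := by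
      rw [div_le_div_iff₀ (by positivity) (by positivity), one_mul]
      have h3 := NuC_p1 hx (a := 8) (b := 6) (by norm_num)
      have h4 : 0 < x ^ 6 := by positivity
      linarith
    have h3 : 6 * t ≤ 6 * (1 / x ^ 8) := by linarith
    calc 6 * t ≤ 6 * (1 / x ^ 8) := h3
      _ = 6 / x ^ 8 := by ring
      _ ≤ _ := h2
  · refine le_trans ?_ hW3
    have h1 : u * (5000 * l ^ 2 + 1) ≤ 27500000000 * l ^ 5 + 5500000 * l ^ 3 := by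
      rw [mul_add, mul_one]
      linarith
    have h2 := NuC_p2 hx (a := 62) (b := 5) (by norm_num)
    have h3 : 0 < x ^ 5 := by positivity
    have h4 : 16 * u * (5000 * l ^ 2 + 1) = 16 * (u * (5000 * l ^ 2 + 1)) := by ring
    rw [h4]
    linarith
  · -- 1/x^6 * W = W1 + W2
    have h1 : S / (2 * x ^ 7) ≤ 1 / x ^ 6 * W := by
      calc S / (2 * x ^ 7) = 1 / x ^ 6 * (S / (2 * x)) := by field_simp
        _ ≤ _ := by gcongr
    have h2 : 3 * (S / x ^ 8) ≤ S / (4 * x ^ 7) := by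
      rw [← mul_div_assoc, div_le_div_iff₀ (by positivity) (by positivity)]
      have h3 : 12 * x ^ 7 ≤ x ^ 8 := by
        have := NuC_p1 hx (a := 8) (b := 7) (by norm_num)
        have h0 : 0 < x ^ 7 := by positivity
        linarith
      have hS0 : 0 ≤ S := le_trans (by positivity) hS1
      calc 3 * S * (4 * x ^ 7) = S * (12 * x ^ 7) := by ring
        _ ≤ S * x ^ 8 := by gcongr
    have h3 : x ^ 68 / 64 ≤ S / (4 * x ^ 7) := by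
      calc x ^ 68 / 64 = x ^ 75 / 16 / (4 * x ^ 7) := by
            field_simp
            ring
        _ ≤ _ := by gcongr
    have h4 : S / (2 * x ^ 7) = S / (4 * x ^ 7) + S / (4 * x ^ 7) := by
      field_simp
      ring
    have h5 := NuC_p2 hx (a := 68) (b := 5) (by norm_num)
    have h6 : 0 < x ^ 5 := by positivity
    have h7 : 3 * t * r = 3 * (t * r) := by ring
    rw [h7]
    linarith
  · refine le_trans ?_ hW3
    have h1 := NuC_p1 hx (a := 62) (b := 61) (by norm_num)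
    have h2 : 0 < x ^ 61 := by positivity
    have h3 : 16 * x ^ 60 * (4 * l) ≤ 64 * x ^ 61 := by
      calc 16 * x ^ 60 * (4 * l) ≤ 16 * x ^ 60 * (4 * x) := by gcongr
        _ = 64 * x ^ 61 := by ring
    linarith
  · obtain ⟨g, hg⟩ : ∃ g : ℝ, g = u * (150 * x ^ 16) := ⟨_, rfl⟩
    obtain ⟨s, hs⟩ : ∃ s : ℝ, s = 4 * (u * (5000 * l ^ 2)) + 4 * u := ⟨_, rfl⟩
    have hg0 : 0 ≤ g := by
      rw [hg]
      positivity
    have hs0 : 0 ≤ s := by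
      rw [hs]
      positivity
    have hg1 : g ≤ x ^ 21 := by
      have h1 := NuC_p2 hx (a := 21) (b := 19) (by norm_num)
      have h2 : g ≤ 825000000 * x ^ 19 := by
        rw [hg]
        calc u * (150 * x ^ 16) ≤ 5500000 * l ^ 3 * (150 * x ^ 16) := by gcongr
          _ ≤ 5500000 * x ^ 3 * (150 * x ^ 16) := by gcongr
          _ = 825000000 * x ^ 19 := by ring
      have h3 : 0 < x ^ 19 := by positivity
      linarith
    have hs1 : s ≤ x ^ 8 := by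
      have h1 := NuC_p2 hx (a := 8) (b := 5) (by norm_num)
      have h3 : 0 < x ^ 5 := by positivity
      rw [hs]
      linarith
    rw [← hg, ← hs]
    have h1 : 6 * (1 / x ^ 6) * (x ^ 60 * g) ≤ 6 * x ^ 75 := by
      calc 6 * (1 / x ^ 6) * (x ^ 60 * g) ≤ 6 * (1 / x ^ 6) * (x ^ 60 * x ^ 21) := by gcongr
        _ = 6 * x ^ 75 := by field_simp
    have h2 : (3 * (g ^ 2 * s) + 2 * (4 * l)) * g ≤ 3 * x ^ 71 + 8 * x ^ 22 := by
      calc (3 * (g ^ 2 * s) + 2 * (4 * l)) * g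
          ≤ (3 * ((x ^ 21) ^ 2 * x ^ 8) + 2 * (4 * x)) * x ^ 21 := by gcongr
        _ = 3 * x ^ 71 + 8 * x ^ 22 := by ring
    have h3 : e ≤ 2 * x ^ 75 := by
      refine he.trans ?_
      rw [div_div, div_le_iff₀ (by positivity)]
      calc p ≤ 2 * (q * x ^ 76) := hpx
        _ = 2 * x ^ 75 * (x * q) := by ring
    have h4 : t * nb ≤ 2 * x ^ 68 := by
      calc t * nb ≤ p / (x ^ 8 * N) * nb := by gcongr
        _ ≤ p / (x ^ 8 * N) * d := by gcongr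
        _ ≤ p / (x ^ 8 * (q * d)) * d := by gcongr
        _ = p / (x ^ 8 * q) := by field_simp
        _ ≤ 2 * x ^ 68 := by
            rw [div_le_iff₀ (by positivity)]
            calc p ≤ 2 * (q * x ^ 76) := hpx
              _ = _ := by ring
    have h5 := NuC_p1 hx (a := 75) (b := 71) (by norm_num)
    have h6 := NuC_p1 hx (a := 75) (b := 22) (by norm_num)
    have h7 := NuC_p1 hx (a := 75) (b := 68) (by norm_num)
    have h8 := NuC_p1 hx (a := 75) (b := 0) (by norm_num)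
    rw [pow_zero, mul_one] at h8
    have h9 : 3 * t * nb = 3 * (t * nb) := by ring
    have h10 : 0 < x ^ 71 := by positivity
    have h11 : 0 < x ^ 22 := by positivity
    have h12 : 0 < x ^ 68 := by positivity
    rw [h9]
    linarith

theorem numC (D p X q d0 bb g0 k f r nb NB Nt b' L T : ℕ)
    (R : Raw D p X q d0 bb g0 k f r nb NB Nt b') (hL : 100 ≤ L) (hLX : L ≤ X)
    (hT : T ≤ 1100 * L) (hT1 : th ^ T ≤ (p : ℝ) / (X ^ 8 * Nt))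
    (hT2 : (p : ℝ) / (2 * X ^ 8 * Nt) ≤ th ^ T) :
    4000 * ((5000 * L ^ 2 : ℕ) : ℝ) ≤ th ^ T * r ∧
    6 * th ^ T ≤ 1 / (X : ℝ) ^ 6 ∧
    16 * ((T * (5000 * L ^ 2) : ℕ) : ℝ) * ((5000 * L ^ 2 : ℕ) + 1) ≤
      (1 / (X : ℝ) ^ 6) ^ 2 * (r * b' / Nt) ∧
    4 * ((T * (5000 * L ^ 2) * (5000 * L ^ 2) : ℕ) : ℝ) + 3 * th ^ T * r ≤
      1 / (X : ℝ) ^ 6 * (r * b' / Nt) ∧
    16 * ((X ^ 60 : ℕ) : ℝ) * (4 * L) ≤ (1 / (X : ℝ) ^ 6) ^ 2 * (r * b' / Nt) ∧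
    6 * (1 / (X : ℝ) ^ 6) *
        (((X ^ 60 : ℕ) : ℝ) * ((T * (5000 * L ^ 2) * (150 * X ^ 16) : ℕ) : ℝ)) + 1 +
      (3 * (((T * (5000 * L ^ 2) * (150 * X ^ 16) : ℕ) : ℝ) ^ 2 *
        ((4 * (T * (5000 * L ^ 2) * (5000 * L ^ 2)) + 4 * (T * (5000 * L ^ 2)) : ℕ) : ℝ)) +
          2 * (4 * L)) * ((T * (5000 * L ^ 2) * (150 * X ^ 16) : ℕ) : ℝ) +
      ((b' / q + 1 : ℕ) : ℝ) + 3 * th ^ T * nb ≤ ((12 * X ^ 75 : ℕ) : ℝ) := by
  obtain ⟨c, hc⟩ : ∃ c : ℕ, c = b' / q := ⟨_, rfl⟩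
  have hx : (10:ℝ) ^ 7 ≤ X := by exact_mod_cast R.X7
  have hx0 : (0:ℝ) < X := lt_of_lt_of_le (by norm_num) hx
  have hq : (1:ℝ) ≤ q := by exact_mod_cast R.q1
  have hc1 : (c : ℝ) ≤ (p : ℝ) / X / q := by
    have h1 : (c : ℝ) ≤ (b' : ℝ) / q := by
      rw [hc]
      exact Nat.cast_div_le
    have h2 : (b' : ℝ) ≤ (p : ℝ) / X := by
      rw [R.hb']
      exact Nat.cast_div_le
    refine h1.trans ?_
    exact div_le_div_of_nonneg_right h2 (by linarith)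
  have key := NuC_real (X : ℝ) (L : ℝ) (th ^ T) (q : ℝ) (d0 : ℝ) (p : ℝ) (nb : ℝ) (r : ℝ) (Nt : ℝ)
    (b' : ℝ) (T : ℝ) hx (by exact_mod_cast hL) (by exact_mod_cast hLX) (Nat.cast_nonneg _)
    (by exact_mod_cast hT) hT1 hT2 hq (by exact_mod_cast R.qX) (by exact_mod_cast R.pX.le)
    (by exact_mod_cast R.d0big) (by exact_mod_cast R.Ntlo.le) (by exact_mod_cast R.Nthi)
    (by exact_mod_cast R.rlo) (by exact_mod_cast R.b'lo)
    (by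
      have h1 := R.hnb
      have h2 : nb ≤ d0 := by omega
      exact_mod_cast h2) (Nat.cast_nonneg _) (c : ℝ) hc1
  rw [← hc]
  push_cast
  exact key

end Pool.Agent.H67.HY
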