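/-
ROW NuD. Numerics, part 2.
PROOF. `lam = 5000 L²`. `m1` (`36 r (2p-1)² ≤ lam Nt²`): `r ≤ d0`, `2p - 1 ≤ 4 q X^76`, so the left side is `≤ 36 d0 * 16 q² X^152 = 576 q² d0 X^152 ≤ q² d0² ≤ Nt²` (`d0 ≥ X^176`). `m2` (`4 lam ≤ Nt`), `m4` (`300 X^16 ≤ Nt`): `Nt ≥ d0 ≥ X^176`. `m3`: `5000 L² ≤ 150 X^16`. `m5`: `nb/X^60 + 1 ≤ d0/X^60 + 1`,
`(nb/G + 1) (2p-1) ≤ (2 d0/X^60)(4 q X^76)` as reals or: `(nb/X^60 + 1) X^60 ≤ nb + X^60 ≤ 2 d0`, multiply: `18 (nb/G+1)(2p-1) X^60 ≤ 18 * 2 d0 * 4 q X^76 = 144 q d0 X^76`, cancel `X^60`: `≤ 144 q d0 X^16 ≤ 150 X^16 Nt`. `m6` (`Nt ≤ exp lam`): `Nt ≤ 4(D+1) ≤ exp L ≤ exp lam`.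
`m7`: `q (nb + r) + 1 = q d0 + 1 ≤ D + q + 1 ≤ 4 (D+1) ≤ exp L` (`q ≤ p ≤ Nt..`: `q ≤ p`, `p^4 ≤ ..`; from `Raw`: `q d0 < Nt ≤ 4 (D+1)` gives `q d0 + 1 ≤ 4 (D+1)` directly). `128 T ≤ 128*1100 L ≤ exp L` (`L ≥ 100`; `exp L ≥ L^4/24 ..`). So the left side is `≤ exp (L + L (4T+14)) = exp (L (4 T + 15)) ≤ exp (4400 L² + 15 L) ≤ exp(5000 L²)`.
`m8`: `8 (nb+1)(r+1)² ≤ 8 (d0+1)³ ≤ 8 (2 d0)³ = 64 d0³`, `d0 ≤ q d0 ≤ 4 (D+1) ≤ exp L`; so `≤ 64 exp(3L) ≤ exp(4L)` (`64 ≤ exp L`). `m9`: `log f ≤ log d0 ≤ L` (`f ≤ d0`), `k ≤ 2 log f` since `2^k ≤ f` and `log 2 ≥ 1/2`: `2k ≤ 4 L`; `5 g0 ≤ 20 X^75 + 5`; `20 X^75 + 5 + 4000 L + 4 L + 1 ≤ 25 X^75`.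
-/
import Pool.Agent.H67.HY.NuA
import Pool.Agent.H67.HY.PD

set_option autoImplicit false

namespace Pool.Agent.H67.HY

theorem numD (D p X q d0 bb g0 k f r nb NB Nt b' L T : ℕ)
    (R : Raw D p X q d0 bb g0 k f r nb NB Nt b') (hL : 100 ≤ L) (hLX : L ≤ X)
    (hT : T ≤ 1100 * L) (hexp : (4 * (D + 1) : ℝ) ≤ Real.exp L) :
    36 * (r * (2 * p - 1) ^ 2) ≤ 5000 * L ^ 2 * Nt ^ 2 ∧
    4 * (5000 * L ^ 2) ≤ Nt ∧ 5000 * L ^ 2 ≤ 150 * X ^ 16 ∧ 2 * (150 * X ^ 16) ≤ Nt ∧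
    18 * ((nb / X ^ 60 + 1) * (2 * p - 1)) ≤ 150 * X ^ 16 * Nt ∧
    (Nt : ℝ) ≤ Real.exp ((5000 * L ^ 2 : ℕ) : ℝ) ∧
    128 * T * ((q * (nb + r) : ℕ) + 1 : ℝ) ^ (4 * T + 14) ≤ Real.exp ((5000 * L ^ 2 : ℕ) : ℝ) ∧
    8 * ((nb : ℝ) + 1) * ((r : ℝ) + 1) ^ 2 ≤ Real.exp (4 * L) ∧
    5 * (g0 : ℝ) + 4000 * Real.log f + 2 * k + 1 ≤ ((25 * X ^ 75 : ℕ) : ℝ) := by
  have hX7 := R.X7
  have hX1 : 1 ≤ X := le_trans (by norm_num) hX7
  have hq1 := R.q1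
  have hd0 := R.d0big
  have hrd : r ≤ d0 := by have := R.hnb; omega
  have hnd : nb ≤ d0 := by have := R.hnb; omega
  have hqd : d0 ≤ q * d0 := Nat.le_mul_of_pos_left _ hq1
  have hNt0 : q * d0 + 1 ≤ Nt := R.Ntlo
  have hmono : ∀ a b : ℕ, a ≤ b → X ^ a ≤ X ^ b := fun a b h => Nat.pow_le_pow_right hX1 h
  have h2p : 2 * p - 1 ≤ 4 * (q * X ^ 76) := by have := R.pX; omega
  have hX17 : X ^ 17 ≤ Nt := (hmono 17 176 (by norm_num)).trans (hd0.trans (hqd.trans (by omega)))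
  have hLX2 : L ^ 2 ≤ X ^ 2 := Nat.pow_le_pow_left hLX 2
  have hX3 : 10 ^ 7 * X ^ 2 ≤ X ^ 3 := by
    rw [pow_succ X 2, mul_comm]
    exact Nat.mul_le_mul_left _ hX7
  have hNtR : (Nt : ℝ) ≤ Real.exp L := by
    refine le_trans ?_ hexp
    exact_mod_cast R.Ntexp
  have hLR : (100 : ℝ) ≤ L := by exact_mod_cast hL
  have hexp0 := Real.exp_pos (L : ℝ)
  have hexpL : (10 : ℝ) ^ 8 * L ≤ Real.exp L := by
    have h1 : (L : ℝ) / 10 ≤ Real.exp (L / 10) := by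
      have := Real.add_one_le_exp ((L : ℝ) / 10)
      linarith
    have h2 : Real.exp (L / 10) ^ 10 = Real.exp L := by
      rw [← Real.exp_nat_mul]
      congr 1
      push_cast
      ring
    have h3 : ((L : ℝ) / 10) ^ 10 ≤ Real.exp (L / 10) ^ 10 := pow_le_pow_left₀ (by positivity) h1 10
    rw [h2] at h3
    have h4 : (10 : ℝ) ^ 9 ≤ ((L : ℝ) / 10) ^ 9 := pow_le_pow_left₀ (by norm_num) (by linarith) 9
    have h5 : ((L : ℝ) / 10) ^ 10 = ((L : ℝ) / 10) ^ 9 * (L / 10) := by ring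
    have h6 : (10 : ℝ) ^ 9 * (L / 10) ≤ ((L : ℝ) / 10) ^ 9 * (L / 10) :=
      mul_le_mul_of_nonneg_right h4 (by positivity)
    rw [← h5] at h6
    linarith
  have hlam : (L : ℝ) ≤ ((5000 * L ^ 2 : ℕ) : ℝ) := by
    push_cast
    nlinarith
  refine ⟨?_, ?_, ?_, ?_, ?_, ?_, ?_, ?_, ?_⟩
  · have h1 : (2 * p - 1) ^ 2 ≤ 16 * (q ^ 2 * X ^ 152) := by
      calc (2 * p - 1) ^ 2 ≤ (4 * (q * X ^ 76)) ^ 2 := Nat.pow_le_pow_left h2p 2
        _ = 16 * (q ^ 2 * X ^ 152) := by ring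
    have h2 : 576 * X ^ 152 ≤ d0 := by
      have h3 : 576 * X ^ 152 ≤ X * X ^ 152 := Nat.mul_le_mul_right _ (le_trans (by norm_num) hX7)
      have h4 : X * X ^ 152 = X ^ 153 := by ring
      rw [h4] at h3
      exact h3.trans ((hmono 153 176 (by norm_num)).trans hd0)
    calc 36 * (r * (2 * p - 1) ^ 2) ≤ 36 * (d0 * (16 * (q ^ 2 * X ^ 152))) :=
          Nat.mul_le_mul_left _ (Nat.mul_le_mul hrd h1)
      _ = q ^ 2 * d0 * (576 * X ^ 152) := by ring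
      _ ≤ q ^ 2 * d0 * d0 := Nat.mul_le_mul_left _ h2
      _ = (q * d0) ^ 2 := by ring
      _ ≤ Nt ^ 2 := Nat.pow_le_pow_left (by omega) 2
      _ ≤ 5000 * L ^ 2 * Nt ^ 2 := Nat.le_mul_of_pos_left _ (by positivity)
  · calc 4 * (5000 * L ^ 2) ≤ 4 * (5000 * X ^ 2) := by omega
      _ ≤ 10 ^ 7 * X ^ 2 := by omega
      _ ≤ X ^ 3 := hX3
      _ ≤ X ^ 17 := hmono 3 17 (by norm_num)
      _ ≤ Nt := hX17
  · calc 5000 * L ^ 2 ≤ 10 ^ 7 * X ^ 2 := by omega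
      _ ≤ X ^ 3 := hX3
      _ ≤ X ^ 16 := hmono 3 16 (by norm_num)
      _ ≤ 150 * X ^ 16 := by omega
  · calc 2 * (150 * X ^ 16) ≤ X * X ^ 16 := by
          have h1 : 300 * X ^ 16 ≤ X * X ^ 16 := Nat.mul_le_mul_right _ (le_trans (by norm_num) hX7)
          omega
      _ = X ^ 17 := by ring
      _ ≤ Nt := hX17
  · have hX60 : 0 < X ^ 60 := by positivity
    have h1 : (nb / X ^ 60 + 1) * X ^ 60 ≤ 2 * d0 := by
      have h2 := Nat.div_mul_le_self nb (X ^ 60)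
      have h3 : X ^ 60 ≤ d0 := (hmono 60 176 (by norm_num)).trans hd0
      rw [add_mul, one_mul]
      omega
    refine Nat.le_of_mul_le_mul_right ?_ hX60
    calc 18 * ((nb / X ^ 60 + 1) * (2 * p - 1)) * X ^ 60
        = 18 * (((nb / X ^ 60 + 1) * X ^ 60) * (2 * p - 1)) := by ring
      _ ≤ 18 * (2 * d0 * (4 * (q * X ^ 76))) := Nat.mul_le_mul_left _ (Nat.mul_le_mul h1 h2p)
      _ = 144 * (X ^ 16 * (q * d0)) * X ^ 60 := by ring
      _ ≤ 150 * X ^ 16 * Nt * X ^ 60 := by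
        refine Nat.mul_le_mul_right _ ?_
        calc 144 * (X ^ 16 * (q * d0)) ≤ 150 * (X ^ 16 * Nt) :=
              Nat.mul_le_mul (by norm_num) (Nat.mul_le_mul_left _ (by omega))
          _ = 150 * X ^ 16 * Nt := by ring
  · exact hNtR.trans (Real.exp_le_exp.2 hlam)
  · have h1 : ((q * (nb + r) : ℕ) : ℝ) + 1 ≤ Real.exp L := by
      refine le_trans ?_ hNtR
      have h2 : q * (nb + r) + 1 ≤ Nt := by rw [R.hnb]; exact hNt0
      exact_mod_cast h2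
    have h3 : (((q * (nb + r) : ℕ) : ℝ) + 1) ^ (4 * T + 14) ≤ Real.exp L ^ (4 * T + 14) :=
      pow_le_pow_left₀ (by positivity) h1 _
    have h4 : (128 : ℝ) * T ≤ Real.exp L := by
      have h5 : (T : ℝ) ≤ 1100 * L := by exact_mod_cast hT
      nlinarith
    have h6 : Real.exp L * Real.exp L ^ (4 * T + 14) = Real.exp (L * (4 * T + 15)) := by
      rw [← Real.exp_nat_mul, ← Real.exp_add]
      congr 1
      push_cast
      ring
    calc 128 * T * (((q * (nb + r) : ℕ) : ℝ) + 1) ^ (4 * T + 14)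
        ≤ Real.exp L * Real.exp L ^ (4 * T + 14) :=
          mul_le_mul h4 h3 (by positivity) hexp0.le
      _ = Real.exp (L * (4 * T + 15)) := h6
      _ ≤ Real.exp ((5000 * L ^ 2 : ℕ) : ℝ) := by
        rw [Real.exp_le_exp]
        push_cast
        have h5 : (T : ℝ) ≤ 1100 * L := by exact_mod_cast hT
        nlinarith
  · have h1 : (nb : ℝ) + 1 ≤ Real.exp L := by
      refine le_trans ?_ hNtR
      have : nb + 1 ≤ Nt := by omega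
      exact_mod_cast this
    have h2 : (r : ℝ) + 1 ≤ Real.exp L := by
      refine le_trans ?_ hNtR
      have : r + 1 ≤ Nt := by omega
      exact_mod_cast this
    have h3 : ((r : ℝ) + 1) ^ 2 ≤ Real.exp L ^ 2 := pow_le_pow_left₀ (by positivity) h2 2
    have h4 : (8 : ℝ) ≤ Real.exp L := by nlinarith
    have h5 : Real.exp (4 * L) = Real.exp L * Real.exp L * Real.exp L ^ 2 := by
      rw [← Real.exp_nat_mul, ← Real.exp_add, ← Real.exp_add]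
      congr 1
      push_cast
      ring
    rw [h5]
    exact mul_le_mul (mul_le_mul h4 h1 (by positivity) hexp0.le) h3 (by positivity) (by positivity)
  · have hf0 : f ≤ d0 := by
      have h1 := R.fhi
      have h2 : f ≤ 2 * X * f := Nat.le_mul_of_pos_left _ (by positivity)
      exact h2.trans h1
    have hg1 : 1 ≤ g0 := by rw [R.hg0]; exact Nat.succ_le_succ (Nat.zero_le _)
    have h2k : 2 ^ k ≤ f := by
      rw [R.hf]
      exact Nat.le_mul_of_pos_right _ hg1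
    have hfpos : 0 < f := lt_of_lt_of_le (by positivity) h2k
    have hfR : (f : ℝ) ≤ Real.exp L := by
      refine le_trans ?_ hNtR
      have : f ≤ Nt := by omega
      exact_mod_cast this
    have hfR0 : (0 : ℝ) < f := by exact_mod_cast hfpos
    have hlf : Real.log f ≤ L := by
      rw [Real.log_le_iff_le_exp hfR0]
      exact hfR
    have hk : (k : ℝ) * Real.log 2 ≤ L := by
      refine le_trans ?_ hlf
      rw [← Real.log_pow]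
      refine Real.log_le_log (by positivity) ?_
      exact_mod_cast h2k
    have hlog2 := Real.log_two_gt_d9
    have hk2 : (k : ℝ) ≤ 2 * L := by
      have h0 : (0 : ℝ) ≤ k := Nat.cast_nonneg _
      nlinarith
    have hg : (g0 : ℝ) ≤ 4 * (X : ℝ) ^ 75 + 1 := by exact_mod_cast R.g0hi
    have hC : (10 : ℝ) ^ 7 * L ≤ (X : ℝ) ^ 75 := by
      have h1 : 10 ^ 7 * L ≤ X ^ 75 := by
        calc 10 ^ 7 * L ≤ X * X := Nat.mul_le_mul hX7 hLX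
          _ = X ^ 2 := by ring
          _ ≤ X ^ 75 := hmono 2 75 (by norm_num)
      exact_mod_cast h1
    push_cast
    nlinarith

end Pool.Agent.H67.HY
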