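/-
ROW Red. From an arbitrary graph to a 1-factorised graph and back.
PROOF. Let `n = card J`, `J ≃ Fin n`. `H28.vizing` with `d = n - 1` gives `col : Sym2 V → ℕ` with colours `< n` (`IsEC G n col`; `n ≥ 1` if `V` is nonempty, otherwise everything is trivial). For `j : J` (number `idx j < n`) let `V' = V × (J → Bool)` (a `Type`, `Fintype`), `M j (v,x) = (w, x)` if there is `w` with `G.Adj v w ∧ col s(v,w) = idx j`
(unique by `IsEC`), otherwise `(v, Function.update x j (!x j))`. `IsFac M`: `inv`: in the first case `v` is the `j`-neighbour of `w` (`Sym2.eq_swap`); in the second flip twice (and the case is the same since the first component does not change). `free`: `w ≠ v` (`G.ne_of_adj`) resp. the flip changes `x j`. `dis` (`i ≠ j`): (w,x) vs (w',x): `w = w'` would give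
`idx i = col s(v,w) = idx j`; (w,x) vs (v, flip): `w ≠ v`; flips at different `i, j` differ at the coordinate `i`.
Take `c, e` from `H V' M`. `ι v = (v, fun _ => false)`; `fV v = c (ι v)`. For an edge `uv` with `col s(u,v) = idx j`: `M j (ι u) = ι v`. `fE s(u,v) = e (ι u) j` where `idx j = col s(u,v)`: well defined (`Sym2.lift` or by choice): `e (ι v) j = e (M j (ι u)) j = e (ι u) j`. For instance define `fE z = e (ι z.out.1) (j z)` if `z ∈ G.edgeSet` with `idx (j z) = col z`,
else `0`, and prove `fE s(u,v) = e (ι u) j` for adjacent `u, v` (`z.out` is `(u,v)` or `(v,u)`: `Sym2` and `Quot.out_eq`, or use `Sym2.mem_iff`). The five properties: `B`: `fV < B` from `c < B` (if needed `B > 0` is not required for non-edges: only edges are bounded). Adjacent labels differ: `c (ι u) ≠ c (M j (ι u)) = c (ι v)`. Distance: fourth property at `(ι u, j)`.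
Two edges `uv, uw`, `v ≠ w`: `col s(u,v) ≠ col s(u,w)`, so `j ≠ j'` and `e (ι u) j ≠ e (ι u) j'`.
-/
import Pool.Agent.H67.HY.Defs

set_option autoImplicit false

namespace Pool.Agent.H67.HY

open Finset
open Classical

section Red

variable {V J : Type}

/-- the involutions of the blown up graph -/
noncomputable def Red_M (P : J → V → V → Prop) (j : J) (y : V × (J → Bool)) : V × (J → Bool) :=
  if h : ∃ w, P j y.1 w then (h.choose, y.2) else (y.1, Function.update y.2 j (!y.2 j))

theorem Red_pos {P : J → V → V → Prop} (hu : ∀ j v w w', P j v w → P j v w' → w = w')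
    {j : J} {v w : V} (x : J → Bool) (h : P j v w) : Red_M P j (v, x) = (w, x) := by
  unfold Red_M
  have hex : ∃ w, P j v w := ⟨w, h⟩
  rw [dif_pos hex, hu j v _ w hex.choose_spec h]

theorem Red_neg {P : J → V → V → Prop} {j : J} {v : V} (x : J → Bool) (h : ¬ ∃ w, P j v w) :
    Red_M P j (v, x) = (v, Function.update x j (!x j)) := by
  unfold Red_M
  rw [dif_neg h]

theorem Red_fac {P : J → V → V → Prop} (hu : ∀ j v w w', P j v w → P j v w' → w = w')
    (hs : ∀ j v w, P j v w → P j w v) (hn : ∀ j v w, P j v w → w ≠ v)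
    (hj : ∀ i j v w, P i v w → P j v w → i = j) : IsFac (Red_M P) := by
  refine ⟨?_, ?_, ?_⟩
  · rintro j ⟨v, x⟩
    by_cases h : ∃ w, P j v w
    · obtain ⟨w, hw⟩ := h
      rw [Red_pos hu x hw, Red_pos hu x (hs j v w hw)]
    · rw [Red_neg x h, Red_neg _ h]
      simp
  · rintro j ⟨v, x⟩ he
    by_cases h : ∃ w, P j v w
    · obtain ⟨w, hw⟩ := h
      rw [Red_pos hu x hw, Prod.mk.injEq] at he
      exact hn j v w hw he.1
    · rw [Red_neg x h, Prod.mk.injEq] at he
      have h2 := congrFun he.2 j
      rw [Function.update_self] at h2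
      cases hx : x j <;> simp [hx] at h2
  · rintro i j ⟨v, x⟩ hij he
    by_cases hi : ∃ w, P i v w
    · obtain ⟨w, hw⟩ := hi
      rw [Red_pos hu x hw] at he
      by_cases hj' : ∃ w, P j v w
      · obtain ⟨w', hw'⟩ := hj'
        rw [Red_pos hu x hw', Prod.mk.injEq] at he
        have h1 := he.1
        subst h1
        exact hij (hj i j v _ hw hw')
      · rw [Red_neg x hj', Prod.mk.injEq] at he
        exact hn i v w hw he.1
    · rw [Red_neg x hi] at he
      by_cases hj' : ∃ w, P j v w
      · obtain ⟨w', hw'⟩ := hj'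
        rw [Red_pos hu x hw', Prod.mk.injEq] at he
        exact hn j v w' hw' he.1.symm
      · rw [Red_neg x hj', Prod.mk.injEq] at he
        have h2 := congrFun he.2 i
        rw [Function.update_self, Function.update_of_ne hij] at h2
        cases hx : x i <;> simp [hx] at h2

end Red

theorem transfer {V : Type} [Fintype V] (G : SimpleGraph V) (p B : ℕ) {J : Type} [Fintype J]
    (hJ : ∀ v, (G.neighborSet v).ncard + 1 ≤ Fintype.card J)
    (H : ∀ (V' : Type) [Fintype V'] (M : J → V' → V'), IsFac M →
      ∃ (c : V' → ℕ) (e : V' → J → ℕ),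
      (∀ v j, c v ≠ c (M j v)) ∧ (∀ v j, e (M j v) j = e v j) ∧
      (∀ v j j', e v j = e v j' → j = j') ∧
      (∀ v j, (p : ℤ) ≤ |(c v : ℤ) - (e v j : ℤ)|) ∧
      (∀ v, c v < B) ∧ (∀ v j, e v j < B)) :
    ∃ (fV : V → ℕ) (fE : Sym2 V → ℕ), (∀ v, fV v < B) ∧ (∀ e ∈ G.edgeSet, fE e < B) ∧
      (∀ u v : V, G.Adj u v → fV u ≠ fV v) ∧
      (∀ u v : V, G.Adj u v → (p : ℤ) ≤ |(fV u : ℤ) - (fE s(u, v) : ℤ)|) ∧
      (∀ u v w : V, G.Adj u v → G.Adj u w → v ≠ w → fE s(u, v) ≠ fE s(u, w)) := by
  rcases isEmpty_or_nonempty V with hV | hV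
  · refine ⟨fun _ => 0, fun _ => 0, fun v => (hV.false v).elim, fun e he => ?_, fun u => (hV.false u).elim,
      fun u => (hV.false u).elim, fun u => (hV.false u).elim⟩
    obtain ⟨u, v⟩ := e
    exact (hV.false u).elim
  · obtain ⟨v0⟩ := hV
    have hn1 : 1 ≤ Fintype.card J := le_trans (Nat.le_add_left 1 _) (hJ v0)
    have hJne : Nonempty J := Fintype.card_pos_iff.1 hn1
    obtain ⟨col, hcol⟩ : H28.ECol G (Fintype.card J - 1 + 1) :=
      H28.vizing fun v => by have := hJ v; omega
    rw [Nat.sub_add_cancel hn1] at hcol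
    set σ : J ≃ Fin (Fintype.card J) := Fintype.equivFin J with hσ
    set P : J → V → V → Prop := fun j v w => G.Adj v w ∧ col s(v, w) = (σ j : ℕ) with hP
    have hPu : ∀ j v w w', P j v w → P j v w' → w = w' := by
      intro j v w w' h h'
      by_contra hne
      exact hcol.2 v w w' h.1 h'.1 hne (h.2.trans h'.2.symm)
    have hPs : ∀ j v w, P j v w → P j w v := by
      intro j v w h
      refine ⟨h.1.symm, ?_⟩
      rw [Sym2.eq_swap]
      exact h.2
    have hPn : ∀ j v w, P j v w → w ≠ v := fun j v w h => h.1.ne'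
    have hPj : ∀ i j v w, P i v w → P j v w → i = j := by
      intro i j v w h h'
      exact σ.injective (Fin.ext (h.2.symm.trans h'.2))
    obtain ⟨c, e, h1, h2, h3, h4, h5, h6⟩ := H (V × (J → Bool)) (Red_M P) (Red_fac hPu hPs hPn hPj)
    set jj : ℕ → J := fun m => if h : m < Fintype.card J then σ.symm ⟨m, h⟩ else Classical.arbitrary J with hjj
    have hjs : ∀ m, m < Fintype.card J → (σ (jj m) : ℕ) = m := by
      intro m hm
      simp only [hjj, dif_pos hm, Equiv.apply_symm_apply]
    have hPadj : ∀ u v, G.Adj u v → P (jj (col s(u, v))) u v := by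
      intro u v huv
      exact ⟨huv, (hjs _ (hcol.1 u v huv)).symm⟩
    set io : V → V × (J → Bool) := fun v => (v, fun _ => false) with hio
    have hM : ∀ u v, G.Adj u v → Red_M P (jj (col s(u, v))) (io u) = io v := fun u v huv =>
      Red_pos hPu _ (hPadj u v huv)
    have hE : ∀ u v, G.Adj u v → e (io (Quot.out s(u, v)).1) (jj (col s(u, v))) =
        e (io u) (jj (col s(u, v))) := by
      intro u v huv
      have hmem := Sym2.out_fst_mem s(u, v)
      rw [Sym2.mem_iff] at hmem
      rcases hmem with h | h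
      · rw [h]
      · rw [h, ← hM u v huv]
        exact h2 _ _
    refine ⟨fun v => c (io v), fun z => e (io (Quot.out z).1) (jj (col z)), fun v => h5 _,
      fun z _ => h6 _ _, ?_, ?_, ?_⟩
    · intro u v huv
      have h := h1 (io u) (jj (col s(u, v)))
      rw [hM u v huv] at h
      exact h
    · intro u v huv
      simp only [hE u v huv]
      exact h4 _ _
    · intro u v w huv huw hvw
      simp only [hE u v huv, hE u w huw]
      intro h
      have hj := h3 _ _ _ h
      have hcc : col s(u, v) = col s(u, w) := by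
        rw [← hjs _ (hcol.1 u v huv), ← hjs _ (hcol.1 u w huw), hj]
      exact hcol.2 u v w huv huw hvw hcc

end Pool.Agent.H67.HY
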