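/-
The main regime.
-/
import Pool.Agent.H67.HY.Core
import Pool.Agent.H67.HY.NuB
import Pool.Agent.H67.HY.NuC
import Pool.Agent.H67.HY.NuD
import Pool.Agent.H67.HY.Red

set_option autoImplicit false

namespace Pool.Agent.H67.HY

open Finset
open Classical

theorem params (D p X L : ℕ) (hL : 100 ≤ L) (hLX : L ≤ X) (hX : 10 ^ 7 ≤ X) (hp : X ^ 76 ≤ p)
    (hD : X ^ 400 ≤ D) (hpD : p ^ 4 ≤ D ^ 3) (hexp : (4 * (D + 1) : ℝ) ≤ Real.exp L) :
    ∃ q nb r k g0 bb NB Nt f b' T : ℕ,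
      Params q nb r k g0 p X bb (12 * X ^ 75) (25 * X ^ 75) NB Nt f b' T (5000 * L ^ 2)
        (150 * X ^ 16) (X ^ 60) (1 / (X : ℝ) ^ 6) (4 * L) ∧ D + 1 ≤ q * (nb + r) ∧
      X * (q * (NB + 25 * X ^ 75)) ≤ X * (D + 2 * p) + 38 * p := by
  obtain ⟨q, d0, bb, g0, k, f, r, nb, NB, Nt, b', R⟩ := raw D p X hX hp hD hpD
  have hX1 : 1 ≤ X := le_trans (by norm_num) hX
  have hXp : ∀ n : ℕ, 1 ≤ X ^ n := fun n => Nat.one_le_pow _ _ hX1
  have hp1 : 1 ≤ p := (hXp 76).trans hp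
  have hq1 := R.q1
  have hd0 : X ^ 176 ≤ q * d0 := R.d0big.trans (Nat.le_mul_of_pos_left _ hq1)
  have hpN : p ≤ Nt := by
    have h1 : q * X ^ 76 * 2 ≤ q * d0 := by
      have : X ^ 76 * 2 ≤ X ^ 176 := by
        calc X ^ 76 * 2 ≤ X ^ 76 * X ^ 100 := Nat.mul_le_mul_left _ (by
              calc 2 ≤ X := by omega
                _ ≤ X ^ 100 := Nat.le_self_pow (by norm_num) X)
          _ = X ^ 176 := by rw [← pow_add]
      calc q * X ^ 76 * 2 = q * (X ^ 76 * 2) := by ring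
        _ ≤ q * X ^ 176 := Nat.mul_le_mul_left _ this
        _ ≤ q * d0 := Nat.mul_le_mul_left _ R.d0big
    have h2 := R.pX
    have h3 := R.Ntlo
    omega
  obtain ⟨T, hT1, hT2, hT3, hT4⟩ := rounds D p X L Nt (by omega) hX1 hp1 hpN R.Ntexp hD hexp
  obtain ⟨n1, n2, n3, n4, n5, n6⟩ := numC D p X q d0 bb g0 k f r nb NB Nt b' L T R hL hLX hT2
    hT3 hT4
  obtain ⟨m1, m2, m3, m4, m5, m6, m7, m8, m9⟩ := numD D p X q d0 bb g0 k f r nb NB Nt b' L T R hL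
    hLX hT2 hexp
  have hnbr : nb + r = d0 := R.hnb
  have hf1 := R.hr
  have h75 := hXp 75
  have hd0nb : d0 ≤ 2 * nb := by have := R.rn; omega
  refine ⟨q, nb, r, k, g0, bb, NB, Nt, f, b', T, ?_, ?_, R.tot⟩
  · refine ⟨hq1, hp1, hX1, R.rn, hXp 60, ?_, hT1, ?_, R.hbb, ?_, R.hf, ?_, R.hNB, ?_, ?_, R.hNt, ?_,
      m6, n1, m7, by positivity, ?_, n2, n3, n4, m1, m2, m3, m4, m5, ?_, ?_, ?_, m8, n5, n6, m9⟩
    · -- X^60 ≤ nb
      have h1 : X ^ 60 * 2 ≤ X ^ 176 := by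
        calc X ^ 60 * 2 ≤ X ^ 60 * X ^ 116 := Nat.mul_le_mul_left _ (by
              calc 2 ≤ X := by omega
                _ ≤ X ^ 116 := Nat.le_self_pow (by norm_num) X)
          _ = X ^ 176 := by rw [← pow_add]
      have h2 := R.d0big
      omega
    · have : 1 ≤ L ^ 2 := Nat.one_le_pow _ _ (by omega)
      omega
    · exact R.hg0.ge
    · -- 100 ≤ f
      have h1 := R.hr
      have h2 : 2 * X ^ 76 ≤ bb := R.bblo
      have h3 : X ≤ X ^ 76 := Nat.le_self_pow (by norm_num) X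
      omega
    · -- X * f ≤ NB
      have h1 := R.fhi
      have h2 := R.hNB
      have h3 : 2 * X * f = 2 * (X * f) := by ring
      omega
    · have h1 := R.hr
      omega
    · rw [hnbr]; exact R.Ntlo
    · -- δ ≤ 1/10
      have h1 : (10 : ℝ) ≤ (X : ℝ) ^ 6 := by
        have h2 : (10 : ℝ) ≤ X := by exact_mod_cast (le_trans (by norm_num) hX : 10 ≤ X)
        calc (10 : ℝ) ≤ X := h2
          _ ≤ (X : ℝ) ^ 6 := le_self_pow₀ (by linarith) (by norm_num)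
      exact one_div_le_one_div_of_le (by norm_num) h1
    · rw [R.hb']; exact Nat.div_le_self _ _
    · rw [R.hb']; exact (Nat.div_le_self _ _).trans hpN
    · have : (100 : ℝ) ≤ L := by exact_mod_cast hL
      linarith
  · rw [hnbr]; exact R.nlo

theorem main_regime {V : Type} [Fintype V] (G : SimpleGraph V) (D p X L : ℕ)
    (hdeg : ∀ v, (G.neighborSet v).ncard ≤ D) (hL : 100 ≤ L) (hLX : L ≤ X) (hX : 10 ^ 7 ≤ X)
    (hp : X ^ 76 ≤ p) (hD : X ^ 400 ≤ D) (hpD : p ^ 4 ≤ D ^ 3)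
    (hexp : (4 * (D + 1) : ℝ) ≤ Real.exp L) :
    ∃ (fV : V → ℕ) (fE : Sym2 V → ℕ),
      (∀ v : V, (fV v : ℝ) ≤ D + 2 * p + 38 * p / X) ∧
      (∀ e ∈ G.edgeSet, (fE e : ℝ) ≤ D + 2 * p + 38 * p / X) ∧
      (∀ u v : V, G.Adj u v → fV u ≠ fV v) ∧
      (∀ u v : V, G.Adj u v → (p : ℤ) ≤ |(fV u : ℤ) - (fE s(u, v) : ℤ)|) ∧
      (∀ u v w : V, G.Adj u v → G.Adj u w → v ≠ w → fE s(u, v) ≠ fE s(u, w)) := by
  obtain ⟨q, nb, r, k, g0, bb, NB, Nt, f, b', T, P, hn, htot⟩ :=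
    params D p X L hL hLX hX hp hD hpD hexp
  obtain ⟨fV, fE, h1, h2, h3, h4, h5⟩ := transfer G p (q * (NB + 25 * X ^ 75))
    (J := Fin q × (Fin nb ⊕ Fin r)) (by
      intro v
      have := hdeg v
      simp only [Fintype.card_prod, Fintype.card_fin, Fintype.card_sum]
      omega)
    (fun V' _ M hM => core M hM p X bb (12 * X ^ 75) (25 * X ^ 75) NB Nt f b' T (5000 * L ^ 2)
      (150 * X ^ 16) (X ^ 60) (1 / (X : ℝ) ^ 6) (4 * L) P)
  have hX0 : (0 : ℝ) < X := by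
    have : 0 < X := by omega
    exact_mod_cast this
  have hB : ((q * (NB + 25 * X ^ 75) : ℕ) : ℝ) ≤ D + 2 * p + 38 * p / X := by
    have h : ((X * (q * (NB + 25 * X ^ 75)) : ℕ) : ℝ) ≤ ((X * (D + 2 * p) + 38 * p : ℕ) : ℝ) := by
      exact_mod_cast htot
    rw [Nat.cast_mul, Nat.cast_add, Nat.cast_mul X] at h
    have h' : (((q * (NB + 25 * X ^ 75) : ℕ)) : ℝ) * X ≤ (D + 2 * p) * X + 38 * p := by
      have e1 : ((D + 2 * p : ℕ) : ℝ) = D + 2 * p := by push_cast; ring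
      have e2 : ((38 * p : ℕ) : ℝ) = 38 * p := by push_cast; ring
      rw [e1, e2] at h
      linarith
    have h'' : (D : ℝ) + 2 * p + 38 * p / X = ((D + 2 * p) * X + 38 * p) / X := by
      field_simp
    rw [h'', le_div_iff₀ hX0]
    exact h'
  have cast_lt : ∀ x : ℕ, x < q * (NB + 25 * X ^ 75) → (x : ℝ) ≤ D + 2 * p + 38 * p / X := by
    intro x hx
    have : (x : ℝ) ≤ ((q * (NB + 25 * X ^ 75) : ℕ) : ℝ) := by exact_mod_cast hx.le
    exact this.trans hB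
  exact ⟨fV, fE, fun v => cast_lt _ (h1 v), fun e he => cast_lt _ (h2 e he), h3, h4, h5⟩

end Pool.Agent.H67.HY
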